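import Pool.Agent.Lib.MP_b07157_ag.EX.Geo

/-!
# The basic family of a line
-/

namespace MPb07157.EX


open Finset Module

variable {ι κ : Type} [Fintype ι] [DecidableEq ι] [DecidableEq κ]
variable {c : κ → ι → ℕ} {N C : Finset κ} {A : Set (ι → ℚ)} {V : Submodule ℚ (ι → ℚ)}
  {T R : Finset ι} {J M : Finset κ} {m : ι → ι} {j : ι → κ}

private theorem be1_notT (hS : Sys c N C A V T) {v : ι} (hv : NC V v) : v ∉ T := by
  intro h
  obtain ⟨ξ, hξ, h1⟩ := hv
  exact h1 (hS.zeroV hξ v h)

private theorem be1_val (hM : PM c N V T m j) {v : ι} (hv : NC V v) : c (j v) (m v) = 1 := by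
  have h := hM.val (m v) (hM.nc v hv)
  rwa [hM.jm v hv] at h

private theorem be1_sup (hS : Sys c N C A V T) (hM : PM c N V T m j) {v : ι} (hv : NC V v) :
    sup c T (j v) = {v, m v} := by
  ext e
  simp only [sup, Finset.mem_filter, Finset.mem_univ, true_and, Finset.mem_insert,
    Finset.mem_singleton]
  constructor
  · rintro ⟨h1, h2⟩
    rcases hM.supp v hv e h2 with h | h | h
    · exact absurd h h1
    · exact Or.inl h
    · exact Or.inr h
  · rintro (rfl | rfl)
    · exact ⟨be1_notT hS hv, by rw [hM.val _ hv]; exact one_ne_zero⟩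
    · exact ⟨be1_notT hS (hM.nc v hv), by rw [be1_val hM hv]; exact one_ne_zero⟩

private theorem be1_eq (hM : PM c N V T m j) {v : ι} (hv : NC V v) {e : ι} (heT : e ∉ T)
    (he : c (j v) e ≠ 0) : j v = j e := by
  rcases hM.supp v hv e he with h | h | h
  · exact absurd h heT
  · rw [h]
  · rw [h, hM.jm v hv]

private theorem be1_card (hS : Sys c N C A V T) (hM : PM c N V T m j) {Y : Finset κ}
    (hY : ∀ k ∈ Y, ∃ v, NC V v ∧ j v = k) : (PU c T Y).card = 2 * Y.card := by
  have hd : ∀ x ∈ Y, ∀ y ∈ Y, x ≠ y → Disjoint (sup c T x) (sup c T y) := by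
    intro x hx y hy hxy
    rw [Finset.disjoint_left]
    intro e he he'
    obtain ⟨v, hv, rfl⟩ := hY x hx
    obtain ⟨v', hv', rfl⟩ := hY y hy
    simp only [sup, Finset.mem_filter, Finset.mem_univ, true_and] at he he'
    apply hxy
    rw [be1_eq hM hv he.1 he.2, be1_eq hM hv' he'.1 he'.2]
  rw [PU, Finset.card_biUnion hd]
  rw [Finset.sum_congr rfl (g := fun _ => 2)]
  · rw [Finset.sum_const, smul_eq_mul, mul_comm]
  · intro k hk
    obtain ⟨v, hv, rfl⟩ := hY k hk
    rw [be1_sup hS hM hv, Finset.card_pair (hM.ne v hv).symm]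

/-- The columns of a perfect matching of a line form a basic family.  `f4`: a proper subfamily misses
a nonconstant element, so `cutV V _ = ⊥`, and the supports have two elements each. -/
theorem base_of_pm (hS : Sys c N C A V T) (h1 : finrank ℚ V = 1) (hM : PM c N V T m j)
    (hC : ∀ v, NC V v → j v ∈ C) : Base c C 1 V T ((NCs V).image j) := by
  classical
  have hmem : ∀ v, v ∈ NCs V ↔ NC V v := by
    intro v
    simp [NCs]
  have hJ : ∀ k ∈ (NCs V).image j, ∃ v, NC V v ∧ j v = k := by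
    intro k hk
    rw [Finset.mem_image] at hk
    obtain ⟨v, hv, rfl⟩ := hk
    exact ⟨v, (hmem v).1 hv, rfl⟩
  have hPU : PU c T ((NCs V).image j) = NCs V := by
    ext e
    rw [PU, Finset.mem_biUnion]
    constructor
    · rintro ⟨k, hk, he⟩
      obtain ⟨v, hv, rfl⟩ := hJ k hk
      rw [be1_sup hS hM hv, Finset.mem_insert, Finset.mem_singleton] at he
      rw [hmem]
      rcases he with rfl | rfl
      · exact hv
      · exact hM.nc v hv
    · intro he
      refine ⟨j e, Finset.mem_image_of_mem _ he, ?_⟩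
      rw [be1_sup hS hM ((hmem e).1 he)]
      exact Finset.mem_insert_self _ _
  refine { sub := ?_, zo := ?_, nc := ?_, cov := ?_, dj := ?_, dim := h1, num := ?_, f4 := ?_ }
  · intro k hk
    obtain ⟨v, hv, rfl⟩ := hJ k hk
    exact hC v hv
  · intro k hk e he
    obtain ⟨v, hv, rfl⟩ := hJ k hk
    by_cases h0 : c (j v) e = 0
    · omega
    · rcases hM.supp v hv e h0 with h | h | h
      · exact absurd h he
      · rw [h, hM.val v hv]
      · rw [h, be1_val hM hv]
  · intro k hk e he h0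
    obtain ⟨v, hv, rfl⟩ := hJ k hk
    rcases hM.supp v hv e h0 with h | h | h
    · exact absurd h he
    · rw [h]; exact hv
    · rw [h]; exact hM.nc v hv
  · intro e he
    exact ⟨j e, Finset.mem_image_of_mem _ ((hmem e).2 he), by rw [hM.val e he]; exact one_ne_zero⟩
  · intro k hk k' hk' e he h h'
    obtain ⟨v, hv, rfl⟩ := hJ k hk
    obtain ⟨v', hv', rfl⟩ := hJ k' hk'
    rw [be1_eq hM hv he h, be1_eq hM hv' he h']
  · have h := be1_card hS hM hJ
    rw [hPU] at h
    omega
  · intro Y hY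
    have hYJ : ∀ k ∈ Y, ∃ v, NC V v ∧ j v = k := fun k hk => hJ k (hY.1 hk)
    rw [be1_card hS hM hYJ]
    obtain ⟨k, hk, hkY⟩ := Finset.exists_of_ssubset hY
    obtain ⟨v, hv, rfl⟩ := hJ k hk
    have hvP : v ∈ (PU c T Y)ᶜ := by
      rw [Finset.mem_compl, PU, Finset.mem_biUnion]
      rintro ⟨k', hk', hv'⟩
      obtain ⟨v', hv'', rfl⟩ := hYJ k' hk'
      simp only [sup, Finset.mem_filter, Finset.mem_univ, true_and] at hv'
      have := be1_eq hM hv'' hv'.1 hv'.2
      rw [this] at hk'
      exact hkY hk'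
    have hbot : cutV V (PU c T Y)ᶜ = ⊥ := by
      rw [Submodule.eq_bot_iff]
      intro ξ hξ
      rw [mem_cutV] at hξ
      obtain ⟨η, hη, hηv⟩ := hv
      have hη0 : (⟨η, hη⟩ : V) ≠ 0 := by
        intro h
        apply hηv
        have := congrArg (fun z : V => (z : ι → ℚ) v) h
        simpa using this
      obtain ⟨r, hr⟩ := (finrank_eq_one_iff_of_nonzero' (⟨η, hη⟩ : V) hη0).1 h1 ⟨ξ, hξ.1⟩
      have hr' : r • η = ξ := congrArg Subtype.val hr
      have h0 := hξ.2 v hvP
      rw [← hr', Pi.smul_apply, smul_eq_mul] at h0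
      have hr0 : r = 0 := (mul_eq_zero.1 h0).resolve_right hηv
      rw [← hr', hr0, zero_smul]
    rw [hbot, finrank_bot]
    omega

end MPb07157.EX
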