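import Pool.Agent.Lib.MP_b07157_ag.EX.Geo

/-!
# Extension of a basic family
-/

namespace MPb07157.EX


open Finset Module

variable {ι κ : Type} [Fintype ι] [DecidableEq ι] [DecidableEq κ]
variable {c : κ → ι → ℕ} {N C : Finset κ} {A : Set (ι → ℚ)} {V : Submodule ℚ (ι → ℚ)}
  {T R : Finset ι} {J M : Finset κ} {m : ι → ι} {j : ι → κ}

/-- (F) of the memo: `F1`, `F2`, `F4` for `J ∪ M`.

`Fam`: the nonconstant elements are those that are nonconstant on the flat of `R` (covered by `J`;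
`J` covers nothing else outside `T ∪ R`) and the elements with `Gam V R` (`b` is covered by `k`, the
others by `M`).  `num`: `|NCs V| = |NCs (cutV V R)| + 2 |M| + 1`.  `f4`: let `Y ⊂ J ∪ M`,
`Y₁ = Y ∩ J`, `Y₂ = Y \ J`.  `cutV V (PU Y)ᶜ ⊓ cutV V R = cutV (cutV V R) (PU (T ∪ R) Y₁)ᶜ`, so the
dimension of `cutV V (PU Y)ᶜ` is at most one more, with equality only if some `ξ` in it is not zero
on `R` (`R1.mem_cut`), hence on all elements with `Gam V R` (they are multiples of `b` on `V`), hence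
`Gam V R` is contained in `PU Y`, `k ∈ Y` and `M ⊆ Y`.  `2 |Y| - |PU Y| = 2 |Y₁| - |PU' Y₁| - [k ∈ Y]`.
If `Y₁ ≠ J` use `f4` of `J` for `Y₁`; if `Y₁ = J` then `M` is not contained in `Y` and
`2 |J| + (d) - |PU' J| = 1` (`num` and `cov`), so the value is `1 - 1 = 0`. -/
theorem base_ext {d : ℕ} (hS : Sys c N C A V T) (hR : R1 A V R)
    (hJ : Base c C d (cutV V R) (T ∪ R) J) {k : κ} (hk : k ∈ J) {b : ι} (hb : b ∈ R)
    (hkb : c k b = 1) (hkR : ∀ f ∈ R, c k f ≠ 0 → f = b)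
    (hy : ∀ y ∈ J, y ≠ k → ∀ f ∈ R, c y f = 0)
    (hM : ∀ y ∈ M, y ∈ C ∧ PairIn c T (Gam V R) y) (hMb : ∀ y ∈ M, c y b = 0)
    (hMd : ∀ y ∈ M, ∀ y' ∈ M, ∀ e, e ∉ T → c y e ≠ 0 → c y' e ≠ 0 → y = y')
    (hMc : ∀ e, Gam V R e → e ≠ b → ∃ y ∈ M, c y e ≠ 0) :
    Base c C (d + 1) V T (J ∪ M) := by
  classical
  -- basic facts
  have hRT : Disjoint R T := hR.disj hS
  have hzT : ∀ ξ ∈ V, ∀ f ∈ T, ξ f = 0 := fun ξ hξ => hS.zeroV hξ
  have hNT : ∀ e, NC V e → e ∉ T := by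
    rintro e ⟨ξ, hξ, h0⟩ heT
    exact h0 (hzT ξ hξ e heT)
  have hcutV : ∀ e, NC (cutV V R) e → NC V e := by
    rintro e ⟨ξ, hξ, h0⟩
    exact ⟨ξ, (mem_cutV.1 hξ).1, h0⟩
  have hcutR : ∀ e ∈ R, ¬ NC (cutV V R) e := by
    rintro e he ⟨ξ, hξ, h0⟩
    exact h0 ((mem_cutV.1 hξ).2 e he)
  obtain ⟨ξ₁, hξ₁, hpos⟩ := hR.acy.pos
  have hRG : ∀ f ∈ R, Gam V R f := fun f hf => ⟨⟨ξ₁, hξ₁, (hpos f hf).ne'⟩, hcutR f hf⟩
  have hGb : ∀ e, Gam V R e → ∀ ξ ∈ V, ξ e = 0 → ξ b = 0 := by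
    intro e he ξ hξ h0
    by_contra hb0
    obtain ⟨⟨η, hη, hηe⟩, hnc⟩ := he
    have h1 : η - (η b / ξ b) • ξ ∈ cutV V R := by
      rw [hR.mem_cut hb (V.sub_mem hη (V.smul_mem _ hξ))]
      rw [Pi.sub_apply, Pi.smul_apply, smul_eq_mul, div_mul_cancel₀ _ hb0, sub_self]
    apply hnc
    refine ⟨_, h1, ?_⟩
    rw [Pi.sub_apply, Pi.smul_apply, smul_eq_mul, h0, mul_zero, sub_zero]
    exact hηe
  have hGcut : ∀ e, Gam V R e → ∀ ξ ∈ cutV V R, ξ e = 0 := by
    intro e he ξ hξ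
    by_contra h0
    exact he.2 ⟨ξ, hξ, h0⟩
  have hsplit : ∀ e, NC V e → ¬ NC (cutV V R) e → Gam V R e := fun e h1 h2 => ⟨h1, h2⟩
  have hMs : ∀ y ∈ M, ∀ e, e ∉ T → c y e ≠ 0 → Gam V R e := by
    intro y hyM e heT he0
    obtain ⟨-, v, w, -, hv, hw, -, -, hsup⟩ := hM y hyM
    rcases hsup e he0 with h1 | h1 | h1
    · exact absurd h1 heT
    · rw [h1]; exact hv
    · rw [h1]; exact hw
  have hMz : ∀ y ∈ M, ∀ e, e ∉ T → c y e ≤ 1 := by
    intro y hyM e heT
    obtain ⟨-, v, w, -, hv, hw, h1, h2, hsup⟩ := hM y hyM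
    by_cases he0 : c y e = 0
    · omega
    · rcases hsup e he0 with h3 | h3 | h3
      · exact absurd h3 heT
      · rw [h3, h1]
      · rw [h3, h2]
  have hM2 : ∀ y ∈ M, (sup c T y).card = 2 := by
    intro y hyM
    obtain ⟨-, v, w, hvw, hv, hw, h1, h2, hsup⟩ := hM y hyM
    have h3 : sup c T y = {v, w} := by
      ext e
      unfold sup
      rw [Finset.mem_filter, Finset.mem_insert, Finset.mem_singleton]
      constructor
      · rintro ⟨-, heT, he0⟩
        rcases hsup e he0 with h3 | h3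
        · exact absurd h3 heT
        · exact h3
      · rintro (rfl | rfl)
        · exact ⟨Finset.mem_univ _, hNT _ hv.1, by rw [h1]; exact one_ne_zero⟩
        · exact ⟨Finset.mem_univ _, hNT _ hw.1, by rw [h2]; exact one_ne_zero⟩
    rw [h3, Finset.card_pair hvw]
  have hJe : ∀ y ∈ J, ∀ e ∈ R, c y e ≠ 0 → y = k ∧ e = b := by
    intro y hyJ e heR he0
    by_cases hyk : y = k
    · subst hyk
      exact ⟨rfl, hkR e heR he0⟩
    · exact absurd (hy y hyJ hyk e heR) he0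
  have hTR : ∀ e, e ∉ T → e ∉ R → e ∉ T ∪ R := by
    intro e h1 h2 h3
    rw [Finset.mem_union] at h3
    tauto
  have hL : ∀ y ∈ J, ∀ y' ∈ M, ∀ e, e ∉ T → c y e ≠ 0 → c y' e ≠ 0 → False := by
    intro y hyJ y' hyM e heT h1 h2
    have hG := hMs y' hyM e heT h2
    by_cases heR : e ∈ R
    · obtain ⟨-, rfl⟩ := hJe y hyJ e heR h1
      exact h2 (hMb y' hyM)
    · exact hG.2 (hJ.nc y hyJ e (hTR e heT heR) h1)
  have hJM : ∀ y ∈ J, y ∉ M := by
    intro y hyJ hyM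
    obtain ⟨-, v, w, -, hv, -, h1, -, -⟩ := hM y hyM
    have h2 : c y v ≠ 0 := by rw [h1]; exact one_ne_zero
    exact hL y hyJ y hyM v (hNT v hv.1) h2 h2
  have hdisJM : Disjoint J M := Finset.disjoint_left.2 hJM
  -- the family
  have hdj : ∀ y ∈ J ∪ M, ∀ y' ∈ J ∪ M, ∀ e, e ∉ T → c y e ≠ 0 → c y' e ≠ 0 → y = y' := by
    intro y hy1 y' hy2 e heT h1 h2
    rw [Finset.mem_union] at hy1 hy2
    rcases hy1 with hy1 | hy1 <;> rcases hy2 with hy2 | hy2
    · by_cases heR : e ∈ R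
      · rw [(hJe y hy1 e heR h1).1, (hJe y' hy2 e heR h2).1]
      · exact hJ.dj y hy1 y' hy2 e (hTR e heT heR) h1 h2
    · exact (hL y hy1 y' hy2 e heT h1 h2).elim
    · exact (hL y' hy2 y hy1 e heT h2 h1).elim
    · exact hMd y hy1 y' hy2 e heT h1 h2
  have hfam : Fam c C V T (J ∪ M) := by
    refine ⟨?_, ?_, ?_, ?_, hdj⟩
    · exact Finset.union_subset hJ.sub fun y hyM => (hM y hyM).1
    · intro y hy1 e heT
      rw [Finset.mem_union] at hy1
      rcases hy1 with hy1 | hy1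
      · by_cases heR : e ∈ R
        · by_cases h0 : c y e = 0
          · omega
          · obtain ⟨rfl, rfl⟩ := hJe y hy1 e heR h0
            rw [hkb]
        · exact hJ.zo y hy1 e (hTR e heT heR)
      · exact hMz y hy1 e heT
    · intro y hy1 e heT h0
      rw [Finset.mem_union] at hy1
      rcases hy1 with hy1 | hy1
      · by_cases heR : e ∈ R
        · exact (hRG e heR).1
        · exact hcutV e (hJ.nc y hy1 e (hTR e heT heR) h0)
      · exact (hMs y hy1 e heT h0).1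
    · intro e he
      by_cases h1 : NC (cutV V R) e
      · obtain ⟨y, hyJ, h2⟩ := hJ.cov e h1
        exact ⟨y, Finset.mem_union_left M hyJ, h2⟩
      · by_cases h2 : e = b
        · refine ⟨k, Finset.mem_union_left M hk, ?_⟩
          rw [h2, hkb]
          exact one_ne_zero
        · obtain ⟨y, hyM, h3⟩ := hMc e (hsplit e he h1) h2
          exact ⟨y, Finset.mem_union_right J hyM, h3⟩
  have hmemsup : ∀ (S : Finset ι) (y : κ) (e : ι), e ∈ sup c S y ↔ e ∉ S ∧ c y e ≠ 0 := by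
    intro S y e
    unfold sup
    rw [Finset.mem_filter]
    exact and_iff_right (Finset.mem_univ _)
  have hmemPU : ∀ (S : Finset ι) (Y : Finset κ) (e : ι), e ∈ PU c S Y ↔
      e ∉ S ∧ ∃ y ∈ Y, c y e ≠ 0 := by
    intro S Y e
    unfold PU
    rw [Finset.mem_biUnion]
    constructor
    · rintro ⟨y, hyY, h1⟩
      rw [hmemsup] at h1
      exact ⟨h1.1, y, hyY, h1.2⟩
    · rintro ⟨h1, y, hyY, h2⟩
      exact ⟨y, hyY, (hmemsup S y e).2 ⟨h1, h2⟩⟩
  have hmemNCs : ∀ (V' : Submodule ℚ (ι → ℚ)) (e : ι), e ∈ NCs V' ↔ NC V' e := by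
    intro V' e
    unfold NCs
    rw [Finset.mem_filter]
    exact and_iff_right (Finset.mem_univ _)
  have hcardM : ∀ Z, Z ⊆ M → (PU c T Z).card = 2 * Z.card := by
    intro Z hZ
    unfold PU
    rw [Finset.card_biUnion, Finset.sum_congr rfl fun y hyZ => hM2 y (hZ hyZ), Finset.sum_const,
      smul_eq_mul, mul_comm]
    intro y hy1 y' hy2 hne
    refine Finset.disjoint_left.2 ?_
    intro e h1 h2
    rw [hmemsup] at h1 h2
    exact hne (hMd y (hZ hy1) y' (hZ hy2) e h1.1 h1.2 h2.2)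
  have hdim : finrank ℚ V = d + 1 := by rw [← hR.rk, hJ.dim]
  have hNCs : (NCs V).card = (NCs (cutV V R)).card + (1 + 2 * M.card) := by
    have h1 : NCs V = NCs (cutV V R) ∪ ({b} ∪ PU c T M) := by
      ext e
      rw [Finset.mem_union, Finset.mem_union, Finset.mem_singleton, hmemNCs, hmemNCs, hmemPU]
      constructor
      · intro he
        by_cases h1 : NC (cutV V R) e
        · exact Or.inl h1
        · right
          by_cases h2 : e = b
          · exact Or.inl h2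
          · exact Or.inr ⟨hNT e he, hMc e (hsplit e he h1) h2⟩
      · rintro (h1 | h1 | ⟨h1, y, hyM, h2⟩)
        · exact hcutV e h1
        · rw [h1]
          exact (hRG b hb).1
        · exact (hMs y hyM e h1 h2).1
    have h2 : Disjoint ({b} : Finset ι) (PU c T M) := by
      rw [Finset.disjoint_singleton_left, hmemPU]
      rintro ⟨-, y, hyM, h2⟩
      exact h2 (hMb y hyM)
    have h3 : Disjoint (NCs (cutV V R)) ({b} ∪ PU c T M) := by
      rw [Finset.disjoint_left]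
      intro e h3 h4
      rw [hmemNCs] at h3
      rw [Finset.mem_union, Finset.mem_singleton, hmemPU] at h4
      rcases h4 with h4 | ⟨h4, y, hyM, h5⟩
      · rw [h4] at h3
        exact hcutR b hb h3
      · exact (hMs y hyM e h4 h5).2 h3
    rw [h1, Finset.card_union_of_disjoint h3, Finset.card_union_of_disjoint h2,
      Finset.card_singleton, hcardM M subset_rfl]
  have hcardJM : (J ∪ M).card = J.card + M.card := Finset.card_union_of_disjoint hdisJM
  refine ⟨hfam, hdim, ?_, ?_⟩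
  · have := hJ.num
    rw [hNCs, hcardJM]
    omega
  -- `f4`
  intro Y hY
  have hYs : Y ⊆ J ∪ M := hY.subset
  set Y₁ := Y ∩ J with hY₁
  set Y₂ := Y \ J with hY₂
  have hYc : Y.card = Y₁.card + Y₂.card := by
    rw [hY₁, hY₂, Finset.card_inter_add_card_sdiff]
  have hY₂M : Y₂ ⊆ M := by
    intro y hy1
    rw [hY₂, Finset.mem_sdiff] at hy1
    have h1 := hYs hy1.1
    rw [Finset.mem_union] at h1
    exact h1.resolve_left hy1.2
  have hY₁J : Y₁ ⊆ J := Finset.inter_subset_right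
  have hY₁Y : Y₁ ⊆ Y := Finset.inter_subset_left
  have hY₂Y : Y₂ ⊆ Y := Finset.sdiff_subset
  -- lower bound for the number of elements
  have hPU2 : Disjoint (PU c (T ∪ R) Y₁) (PU c T Y₂) := by
    rw [Finset.disjoint_left]
    intro e h1 h2
    rw [hmemPU] at h1 h2
    obtain ⟨-, y, hy1, h3⟩ := h1
    obtain ⟨h4, y', hy2, h5⟩ := h2
    exact hL y (hY₁J hy1) y' (hY₂M hy2) e h4 h3 h5
  have hbPU : b ∉ PU c (T ∪ R) Y₁ ∪ PU c T Y₂ := by
    rw [Finset.mem_union, hmemPU, hmemPU]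
    rintro (⟨h1, -⟩ | ⟨-, y, hy1, h2⟩)
    · exact h1 (Finset.mem_union_right T hb)
    · exact h2 (hMb y (hY₂M hy1))
  have hsubPU : PU c (T ∪ R) Y₁ ∪ PU c T Y₂ ⊆ PU c T Y := by
    intro e he
    rw [Finset.mem_union, hmemPU, hmemPU] at he
    rw [hmemPU]
    rcases he with ⟨h1, y, hy1, h2⟩ | ⟨h1, y, hy1, h2⟩
    · exact ⟨fun h3 => h1 (Finset.mem_union_left R h3), y, hY₁Y hy1, h2⟩
    · exact ⟨h1, y, hY₂Y hy1, h2⟩
  have hlow0 : (PU c (T ∪ R) Y₁).card + 2 * Y₂.card ≤ (PU c T Y).card := by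
    rw [← hcardM Y₂ hY₂M, ← Finset.card_union_of_disjoint hPU2]
    exact Finset.card_le_card hsubPU
  have hlow1 : k ∈ Y → (PU c (T ∪ R) Y₁).card + 2 * Y₂.card + 1 ≤ (PU c T Y).card := by
    intro hkY
    rw [← hcardM Y₂ hY₂M, ← Finset.card_union_of_disjoint hPU2, ← Finset.card_insert_of_notMem hbPU]
    refine Finset.card_le_card (Finset.insert_subset ?_ hsubPU)
    rw [hmemPU]
    exact ⟨hNT b (hRG b hb).1, k, hkY, by rw [hkb]; exact one_ne_zero⟩
  -- dimensions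
  set W := cutV V (PU c T Y)ᶜ with hW
  have hWV : W ≤ V := fun ξ hξ => (mem_cutV.1 hξ).1
  have hinf : W ⊓ cutV V R ≤ cutV (cutV V R) (PU c (T ∪ R) Y₁)ᶜ := by
    intro ξ hξ
    obtain ⟨h1, h2⟩ := Submodule.mem_inf.1 hξ
    refine mem_cutV.2 ⟨h2, fun e he => ?_⟩
    rw [Finset.mem_compl, hmemPU] at he
    by_cases h3 : e ∈ PU c T Y
    · rw [hmemPU] at h3
      obtain ⟨h4, y, hyY, h5⟩ := h3
      by_cases h6 : e ∈ R
      · exact (mem_cutV.1 h2).2 e h6
      · have h7 := hYs hyY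
        rw [Finset.mem_union] at h7
        rcases h7 with h7 | h7
        · exact absurd ⟨hTR e h4 h6, y, Finset.mem_inter.2 ⟨hyY, h7⟩, h5⟩ he
        · exact hGcut e (hMs y h7 e h4 h5) ξ h2
    · exact (mem_cutV.1 h1).2 e (Finset.mem_compl.2 h3)
  have hfr : finrank ℚ (W ⊓ cutV V R : Submodule ℚ (ι → ℚ)) ≤
      finrank ℚ (cutV (cutV V R) (PU c (T ∪ R) Y₁)ᶜ) := Submodule.finrank_mono hinf
  have hW1 : finrank ℚ W ≤ finrank ℚ (W ⊓ cutV V R : Submodule ℚ (ι → ℚ)) + 1 := by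
    have h1 := Submodule.finrank_sup_add_finrank_inf_eq W (cutV V R)
    have h2 : finrank ℚ (W ⊔ cutV V R : Submodule ℚ (ι → ℚ)) ≤ finrank ℚ V :=
      Submodule.finrank_mono (sup_le hWV fun ξ hξ => (mem_cutV.1 hξ).1)
    have h3 := hR.rk
    omega
  have hW0 : (∀ ξ ∈ W, ξ b = 0) → finrank ℚ W ≤
      finrank ℚ (W ⊓ cutV V R : Submodule ℚ (ι → ℚ)) := by
    intro h1
    refine Submodule.finrank_mono (le_inf le_rfl fun ξ hξ => ?_)
    rw [hR.mem_cut hb (hWV hξ)]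
    exact h1 ξ hξ
  have hkY : ¬ (∀ ξ ∈ W, ξ b = 0) → k ∈ Y := by
    intro h1
    push Not at h1
    obtain ⟨ξ, hξ, h2⟩ := h1
    have h3 : b ∈ PU c T Y := by
      by_contra h3
      exact h2 ((mem_cutV.1 hξ).2 b (Finset.mem_compl.2 h3))
    rw [hmemPU] at h3
    obtain ⟨-, y, hyY, h4⟩ := h3
    have h5 := hYs hyY
    rw [Finset.mem_union] at h5
    rcases h5 with h5 | h5
    · rw [← (hJe y h5 b hb h4).1]
      exact hyY
    · exact absurd (hMb y h5) h4
  by_cases hYJ : Y₁ = J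
  · -- the case `J ⊆ Y`
    have hJY : J ⊆ Y := by rw [← hYJ]; exact hY₁Y
    have h1 : ∃ y ∈ M, y ∉ Y := by
      by_contra h1
      push Not at h1
      exact hY.not_subset (Finset.union_subset hJY h1)
    obtain ⟨y, hyM, hyY⟩ := h1
    obtain ⟨-, v, w, -, hv, -, h2, -, -⟩ := hM y hyM
    have h3 : v ∉ PU c T Y := by
      intro h3
      rw [hmemPU] at h3
      obtain ⟨h4, y', hy1, h5⟩ := h3
      have h6 := hdj y' (hYs hy1) y (Finset.mem_union_right J hyM) v h4 h5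
        (by rw [h2]; exact one_ne_zero)
      rw [h6] at hy1
      exact hyY hy1
    have h4 := hW0 fun ξ hξ => hGb v hv ξ (hWV hξ)
      ((mem_cutV.1 hξ).2 v (Finset.mem_compl.2 h3))
    have h5 : finrank ℚ (W ⊓ cutV V R : Submodule ℚ (ι → ℚ)) ≤ d := by
      rw [← hJ.dim]
      exact Submodule.finrank_mono inf_le_right
    have h6 : (NCs (cutV V R)).card ≤ (PU c (T ∪ R) Y₁).card := by
      refine Finset.card_le_card fun e he => ?_
      rw [hmemNCs] at he
      rw [hmemPU, hYJ]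
      refine ⟨hTR e (hNT e (hcutV e he)) fun heR => hcutR e heR he, hJ.cov e he⟩
    have h7 := hJ.num
    have h8 := hlow1 (hJY hk)
    rw [hYc, hYJ]
    omega
  · have h1 := hJ.f4 Y₁ (Finset.ssubset_iff_subset_ne.2 ⟨hY₁J, hYJ⟩)
    by_cases h2 : ∀ ξ ∈ W, ξ b = 0
    · have h3 := hW0 h2
      rw [hYc]
      omega
    · have h3 := hlow1 (hkY h2)
      rw [hYc]
      omega

end MPb07157.EX
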