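import Pool.Agent.Lib.MP_b07157_ag.EX.Line

/-!
# The uniqueness theorem (interface)
-/

namespace MPb07157.EX

open Finset Module

variable {ι κ : Type} [Fintype ι] [DecidableEq ι] [DecidableEq κ]
variable {c : κ → ι → ℕ} {N C : Finset κ} {A : Set (ι → ℚ)} {V : Submodule ℚ (ι → ℚ)}
  {T R : Finset ι} {J J' : Finset κ}

/-- UNIQUENESS THEOREM: the family of a full system is the only family of its size. -/
theorem uniq {n : ℕ} (hS : Sys c N C A V T) (hJ : Full c N C n A V T J) (hJ' : Fam c N V T J')
    (hcard : J'.card = J.card) : J' = J := by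
  sorry

end MPb07157.EX
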