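import Pool.Agent.Lib.MP_b07157_ag.EX.Ext
import Pool.Agent.Lib.MP_b07157_ag.EX.Uniq

/-!
# Rigid deficits exist (interface, memo section 4)
-/

namespace MPb07157.EX

open Finset Module

variable {ι κ : Type} [Fintype ι] [DecidableEq ι] [DecidableEq κ]

/-- `J` is a deficit (in terms of the relations `V`): `|P_J| + 1 ≤ 2 |J| + dim V(P_J)`. -/
structure Dft (c : κ → ι → ℕ) (N : Finset κ) (V : Submodule ℚ (ι → ℚ)) (J : Finset κ) : Prop where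
  sub : J ⊆ N
  ne : J.Nonempty
  zo : ∀ k ∈ J, ∀ e, c k e ≤ 1
  dj : ∀ k ∈ J, ∀ k' ∈ J, ∀ e, c k e ≠ 0 → c k' e ≠ 0 → k = k'
  rk : (PU c ∅ J).card + 1 ≤ 2 * J.card + finrank ℚ (cutV V (PU c ∅ J)ᶜ)

variable {c : κ → ι → ℕ} {N : Finset κ} {A : Set (ι → ℚ)} {V : Submodule ℚ (ι → ℚ)}

/-- A system has a rigid minimal deficit. -/
theorem exists_rigid (hS : Sys c N N A V ∅) :
    ∃ J : Finset κ, Dft c N V J ∧ (∀ Y, Y ⊂ J → ¬ Dft c N V Y) ∧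
      ∀ H ⊆ J, ∀ H' ⊆ N, (∀ k ∈ H', ∀ e, c k e ≤ 1) →
        (∀ k ∈ H', ∀ k' ∈ H', ∀ e, c k e ≠ 0 → c k' e ≠ 0 → k = k') →
        PU c ∅ H' = PU c ∅ H → H'.card = H.card → H' = H := by
  sorry

end MPb07157.EX
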