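import Mathlib

/-!
# Owners and deficits: definitions

`ι` = elements, `κ` = columns, `c k e` = value of the column `k` at the element `e`, `N` = the
family of all columns, `C ⊆ N` a subfamily.  An affine subspace of `ι → ℚ` is given by its set of
points `A` and its direction `V`.
-/

namespace MPb07157.EX

open Finset Module

variable {ι κ : Type} [Fintype ι] [DecidableEq ι] [DecidableEq κ]

/-- The columns in `N` that are one at `w` and vanish outside `S ∪ {w}`. -/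
def U (c : κ → ι → ℕ) (N : Finset κ) (S : Finset ι) (w : ι) : Finset κ :=
  N.filter fun k => c k w = 1 ∧ ∀ e, c k e ≠ 0 → e ∈ S ∨ e = w

/-- `k ∈ C` is a single of `S` with owner `w` (singles are counted in `N`). -/
def Own (c : κ → ι → ℕ) (N C : Finset κ) (S : Finset ι) (w : ι) (k : κ) : Prop :=
  w ∉ S ∧ U c N S w = {k} ∧ k ∈ C

/-- The flat `x_f = 0` for `f ∈ R`. -/
def cutA (A : Set (ι → ℚ)) (R : Finset ι) : Set (ι → ℚ) := {x | x ∈ A ∧ ∀ f ∈ R, x f = 0}

/-- The direction of the flat `x_f = 0` for `f ∈ R`. -/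
def cutV (V : Submodule ℚ (ι → ℚ)) (R : Finset ι) : Submodule ℚ (ι → ℚ) where
  carrier := {ξ | ξ ∈ V ∧ ∀ f ∈ R, ξ f = 0}
  add_mem' := fun {a b} ha hb => ⟨V.add_mem ha.1 hb.1, fun f hf => by
    rw [Pi.add_apply, ha.2 f hf, hb.2 f hf, add_zero]⟩
  zero_mem' := ⟨V.zero_mem, fun _ _ => rfl⟩
  smul_mem' := fun r a ha => ⟨V.smul_mem r ha.1, fun f hf => by
    rw [Pi.smul_apply, ha.2 f hf, smul_zero]⟩

/-- Acyclic sets of elements: the coordinates in `R` have a common zero in `A` and are all positive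
on some direction. -/
structure Acy (A : Set (ι → ℚ)) (V : Submodule ℚ (ι → ℚ)) (R : Finset ι) : Prop where
  pos : ∃ ξ ∈ V, ∀ f ∈ R, 0 < ξ f
  ne : ∃ p ∈ A, ∀ f ∈ R, p f = 0

/-- Acyclic sets of rank one. -/
structure R1 (A : Set (ι → ℚ)) (V : Submodule ℚ (ι → ℚ)) (R : Finset ι) : Prop where
  acy : Acy A V R
  rk : finrank ℚ (cutV V R) + 1 = finrank ℚ V

/-- Systems: an affine space `A` with direction `V` on which the coordinates in `T` vanish and the
columns are one; every state `S` (acyclic of full rank) has an owner (with column in `C`). -/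
structure Sys (c : κ → ι → ℕ) (N C : Finset κ) (A : Set (ι → ℚ)) (V : Submodule ℚ (ι → ℚ))
    (T : Finset ι) : Prop where
  ne : A.Nonempty
  aff : ∀ x ∈ A, ∀ y, y ∈ A ↔ y - x ∈ V
  zero : ∀ x ∈ A, ∀ f ∈ T, x f = 0
  col : ∀ k ∈ N, ∀ x ∈ A, ∑ e, (c k e : ℚ) * x e = 1
  sub : C ⊆ N
  pn : ∀ S : Finset ι, Acy A V S → (∀ ξ ∈ V, (∀ f ∈ S, ξ f = 0) → ξ = 0) →
    ∃ w k, Own c N C (T ∪ S) w k

/-- The element `e` is not constant on the affine space with direction `V`. -/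
def NC (V : Submodule ℚ (ι → ℚ)) (e : ι) : Prop := ∃ ξ ∈ V, ξ e ≠ 0

/-- There is no constant owner. -/
def Q0 (c : κ → ι → ℕ) (N C : Finset κ) (A : Set (ι → ℚ)) (T : Finset ι) : Prop :=
  ∀ w, (∀ x ∈ A, x w = 1) → ∀ k, ¬ Own c N C T w k

/-- A perfect matching `m` of the nonconstant elements by the columns `j v ∈ N`. -/
structure PM (c : κ → ι → ℕ) (N : Finset κ) (V : Submodule ℚ (ι → ℚ)) (T : Finset ι)
    (m : ι → ι) (j : ι → κ) : Prop where
  nc : ∀ v, NC V v → NC V (m v)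
  inv : ∀ v, NC V v → m (m v) = v
  ne : ∀ v, NC V v → m v ≠ v
  jm : ∀ v, NC V v → j (m v) = j v
  mem : ∀ v, NC V v → j v ∈ N
  val : ∀ v, NC V v → c (j v) v = 1
  supp : ∀ v, NC V v → ∀ e, c (j v) e ≠ 0 → e ∈ T ∨ e = v ∨ e = m v

/-- The support of a column outside `T`. -/
def sup (c : κ → ι → ℕ) (T : Finset ι) (k : κ) : Finset ι :=
  univ.filter fun e => e ∉ T ∧ c k e ≠ 0

/-- The union of the supports outside `T`. -/
def PU (c : κ → ι → ℕ) (T : Finset ι) (Y : Finset κ) : Finset ι := Y.biUnion (sup c T)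

open Classical in
/-- The nonconstant elements. -/
noncomputable def NCs (V : Submodule ℚ (ι → ℚ)) : Finset ι := univ.filter (NC V)

/-- `J` is a family of columns with values `0, 1` and disjoint supports (outside `T`) that cover
exactly the nonconstant elements. -/
structure Fam (c : κ → ι → ℕ) (N : Finset κ) (V : Submodule ℚ (ι → ℚ)) (T : Finset ι)
    (J : Finset κ) : Prop where
  sub : J ⊆ N
  zo : ∀ k ∈ J, ∀ e, e ∉ T → c k e ≤ 1
  nc : ∀ k ∈ J, ∀ e, e ∉ T → c k e ≠ 0 → NC V e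
  cov : ∀ e, NC V e → ∃ k ∈ J, c k e ≠ 0
  dj : ∀ k ∈ J, ∀ k' ∈ J, ∀ e, e ∉ T → c k e ≠ 0 → c k' e ≠ 0 → k = k'

/-- The basic properties of the family `J` of a full system of dimension `d`. -/
structure Base (c : κ → ι → ℕ) (C : Finset κ) (d : ℕ) (V : Submodule ℚ (ι → ℚ)) (T : Finset ι)
    (J : Finset κ) : Prop extends Fam c C V T J where
  dim : finrank ℚ V = d
  num : d + 2 * J.card = 1 + (NCs V).card
  f4 : ∀ Y, Y ⊂ J → 2 * Y.card + finrank ℚ (cutV V (PU c T Y)ᶜ) ≤ (PU c T Y).card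

/-- Full systems of dimension `n + 1`. -/
def Full (c : κ → ι → ℕ) (N C : Finset κ) :
    ℕ → Set (ι → ℚ) → Submodule ℚ (ι → ℚ) → Finset ι → Finset κ → Prop
  | 0, A, V, T, J => Base c C 1 V T J ∧ Q0 c N C A T
  | n + 1, A, V, T, J => Base c C (n + 2) V T J ∧ ∀ x ∈ J, ∀ y ∈ J, ∃ R J', R1 A V R ∧
      J' ⊆ J ∧ x ∈ J' ∧ y ∈ J' ∧ Full c N C n (cutA A R) (cutV V R) (T ∪ R) J'

/-- The elements that are constant on the flat of `R` but not on the whole space. -/
def Gam (V : Submodule ℚ (ι → ℚ)) (R : Finset ι) (e : ι) : Prop := NC V e ∧ ¬ NC (cutV V R) e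

/-- `k` is a pair of elements with the property `Γ` (outside `T`). -/
def PairIn (c : κ → ι → ℕ) (T : Finset ι) (Γ : ι → Prop) (k : κ) : Prop :=
  ∃ v w, v ≠ w ∧ Γ v ∧ Γ w ∧ c k v = 1 ∧ c k w = 1 ∧ ∀ e, c k e ≠ 0 → e ∈ T ∨ e = v ∨ e = w

end MPb07157.EX
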