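import Pool.Agent.Lib.MP_b07157_ag.EX.Plane

/-!
# The extension theorem (interface, memo section 3)
-/

namespace MPb07157.EX

open Finset Module

variable {ι κ : Type} [Fintype ι] [DecidableEq ι] [DecidableEq κ]
variable {c : κ → ι → ℕ} {N C : Finset κ} {A : Set (ι → ℚ)} {V : Submodule ℚ (ι → ℚ)}
  {T R : Finset ι} {J : Finset κ}

/-- (A) of the memo. -/
theorem stepA {n : ℕ} (hS : Sys c N C A V T) (hV : finrank ℚ V = n + 2) (hR : R1 A V R)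
    (hJ : Full c N C n (cutA A R) (cutV V R) (T ∪ R) J) {k : κ} (hk : k ∈ J) {b : ι} (hb : b ∈ R)
    (hkb : c k b ≠ 0) :
    c k b = 1 ∧ (∀ f ∈ R, c k f ≠ 0 → f = b) ∧ ∀ y ∈ J, y ≠ k → ∀ f ∈ R, c y f = 0 := by
  sorry

/-- EXTENSION THEOREM. -/
theorem ext {n : ℕ} (hS : Sys c N C A V T) (hV : finrank ℚ V = n + 2) (hR : R1 A V R)
    (hJ : Full c N C n (cutA A R) (cutV V R) (T ∪ R) J) {k : κ} (hk : k ∈ J) {b : ι} (hb : b ∈ R)
    (hkb : c k b ≠ 0) :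
    ∃ M : Finset κ, (∀ k ∈ M, k ∈ C ∧ PairIn c T (Gam V R) k) ∧
      Full c N C (n + 1) A V T (J ∪ M) := by
  sorry

end MPb07157.EX
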