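import Pool.Agent.Lib.MP_b07157_ag.EX.Defs

section

/-!
# Flats: trivial facts
-/

namespace MPb07157.EX

open Finset Module

variable {ι κ : Type} [Fintype ι] [DecidableEq ι] [DecidableEq κ]
variable {c : κ → ι → ℕ} {N C : Finset κ} {A : Set (ι → ℚ)} {V : Submodule ℚ (ι → ℚ)}
  {T R R' : Finset ι}

omit [Fintype ι] [DecidableEq ι] in
theorem mem_cutV {ξ : ι → ℚ} : ξ ∈ cutV V R ↔ ξ ∈ V ∧ ∀ f ∈ R, ξ f = 0 := Iff.rfl

omit [Fintype ι] [DecidableEq ι] in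
theorem mem_cutA {x : ι → ℚ} : x ∈ cutA A R ↔ x ∈ A ∧ ∀ f ∈ R, x f = 0 := Iff.rfl

omit [Fintype ι] in
theorem cutA_cutA : cutA (cutA A R) R' = cutA A (R ∪ R') := by
  ext x
  simp only [mem_cutA, Finset.mem_union]
  constructor
  · rintro ⟨⟨h1, h2⟩, h3⟩
    exact ⟨h1, fun f hf => hf.elim (h2 f) (h3 f)⟩
  · rintro ⟨h1, h2⟩
    exact ⟨⟨h1, fun f hf => h2 f (Or.inl hf)⟩, fun f hf => h2 f (Or.inr hf)⟩

omit [Fintype ι] in
theorem cutV_cutV : cutV (cutV V R) R' = cutV V (R ∪ R') := by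
  ext x
  simp only [mem_cutV, Finset.mem_union]
  constructor
  · rintro ⟨⟨h1, h2⟩, h3⟩
    exact ⟨h1, fun f hf => hf.elim (h2 f) (h3 f)⟩
  · rintro ⟨h1, h2⟩
    exact ⟨⟨h1, fun f hf => h2 f (Or.inl hf)⟩, fun f hf => h2 f (Or.inr hf)⟩

omit [Fintype ι] [DecidableEq ι] in
theorem Acy.mono (hR : Acy A V R) (h : R' ⊆ R) : Acy A V R' :=
  ⟨by obtain ⟨ξ, h1, h2⟩ := hR.pos; exact ⟨ξ, h1, fun f hf => h2 f (h hf)⟩,
    by obtain ⟨p, h1, h2⟩ := hR.ne; exact ⟨p, h1, fun f hf => h2 f (h hf)⟩⟩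

omit [DecidableEq κ] in
theorem mem_U {S : Finset ι} {w : ι} {k : κ} :
    k ∈ U c N S w ↔ k ∈ N ∧ c k w = 1 ∧ ∀ e, c k e ≠ 0 → e ∈ S ∨ e = w := by
  unfold U
  rw [Finset.mem_filter]

omit [DecidableEq κ] in
/-- Monotonicity of `U`. -/
theorem U_mono {S S' : Finset ι} (h : S ⊆ S') (w : ι) : U c N S w ⊆ U c N S' w := by
  intro k hk
  rw [mem_U] at hk ⊢
  exact ⟨hk.1, hk.2.1, fun e he => (hk.2.2 e he).imp_left fun h' => h h'⟩

omit [DecidableEq κ] in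
theorem Own.mem {S : Finset ι} {w : ι} {k : κ} (h : Own c N C S w k) : k ∈ U c N S w := by
  rw [h.2.1]
  exact Finset.mem_singleton_self k

omit [DecidableEq κ] in
/-- A single that is contained in a smaller set is a single there. -/
theorem Own.mono {S S' : Finset ι} {w : ι} {k : κ} (h : Own c N C S' w k) (hS : S ⊆ S')
    (hk : ∀ e, c k e ≠ 0 → e ∈ S ∨ e = w) : Own c N C S w k := by
  refine ⟨fun hw => h.1 (hS hw), ?_, h.2.2⟩
  refine Finset.Subset.antisymm ?_ ?_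
  · rw [← h.2.1]
    exact U_mono hS w
  · rw [Finset.singleton_subset_iff, mem_U]
    have h1 := mem_U.1 h.mem
    exact ⟨h1.1, h1.2.1, hk⟩

omit [DecidableEq κ] in
/-- After removal of an element of the single its owner is dead. -/
theorem Own.erase {S : Finset ι} {w : ι} {k : κ} (h : Own c N C S w k) {e : ι} (he : e ∈ S)
    (hk : c k e ≠ 0) : U c N (S.erase e) w = ∅ := by
  rw [Finset.eq_empty_iff_forall_notMem]
  intro k' hk'
  have h1 := U_mono (Finset.erase_subset e S) w hk'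
  rw [h.2.1, Finset.mem_singleton] at h1
  subst h1
  rcases (mem_U.1 hk').2.2 e hk with h2 | h2
  · exact Finset.notMem_erase e S h2
  · exact h.1 (h2 ▸ he)

end MPb07157.EX
end

section

/-!
# Flats of systems are systems
-/

namespace MPb07157.EX

open Finset Module

variable {ι κ : Type} [Fintype ι] [DecidableEq ι] [DecidableEq κ]
variable {c : κ → ι → ℕ} {N C : Finset κ} {A : Set (ι → ℚ)} {V : Submodule ℚ (ι → ℚ)}
  {T R R' : Finset ι}

/-- Acyclic sets in a flat.  Let `ξ₂ ∈ cutV V R` be positive on `R'` and `ξ₁ ∈ V` positive on `R`.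
For large `M`, `ξ₁ + M • ξ₂` is positive on `R ∪ R'` (`R'` is finite). -/
theorem Acy.union (hR : Acy A V R) (hR' : Acy (cutA A R) (cutV V R) R') : Acy A V (R ∪ R') := by
  obtain ⟨ξ₁, h1V, h1⟩ := hR.pos
  obtain ⟨ξ₂, h2V, h2⟩ := hR'.pos
  obtain ⟨p, hp, hp'⟩ := hR'.ne
  rw [mem_cutV] at h2V
  rw [mem_cutA] at hp
  refine ⟨⟨ξ₁ + (∑ f ∈ R', |ξ₁ f| / ξ₂ f + 1) • ξ₂, V.add_mem h1V (V.smul_mem _ h2V.1), ?_⟩,
    ⟨p, hp.1, ?_⟩⟩
  · intro f hf
    rw [Pi.add_apply, Pi.smul_apply, smul_eq_mul]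
    by_cases hfR : f ∈ R
    · rw [h2V.2 f hfR, mul_zero, add_zero]
      exact h1 f hfR
    · have hf' : f ∈ R' := (Finset.mem_union.1 hf).resolve_left hfR
      have h3 : 0 < ξ₂ f := h2 f hf'
      have h4 : |ξ₁ f| / ξ₂ f ≤ ∑ f ∈ R', |ξ₁ f| / ξ₂ f :=
        Finset.single_le_sum (f := fun f => |ξ₁ f| / ξ₂ f)
          (fun e he => div_nonneg (abs_nonneg _) (h2 e he).le) hf'
      have h5 : |ξ₁ f| + ξ₂ f ≤ (∑ f ∈ R', |ξ₁ f| / ξ₂ f + 1) * ξ₂ f := by
        have h6 : |ξ₁ f| / ξ₂ f * ξ₂ f = |ξ₁ f| := div_mul_cancel₀ _ h3.ne'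
        rw [add_mul, one_mul]
        have h7 := mul_le_mul_of_nonneg_right h4 h3.le
        rw [h6] at h7
        linarith
      have h8 := neg_abs_le (ξ₁ f)
      linarith
  · intro f hf
    rcases Finset.mem_union.1 hf with h | h
    · exact hp.2 f h
    · exact hp' f h

/-- `G - R` inherits the property that all states have owners.  Proof: `ne`, `aff`, `zero`, `col`
are immediate.  `pn`: if `S` is a state of the flat then `R ∪ S` is a state of `(A, V)`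
(`Acy.union`), so it has an owner; `T ∪ (R ∪ S) = (T ∪ R) ∪ S`. -/
theorem Sys.cut (hS : Sys c N C A V T) (hR : Acy A V R) :
    Sys c N C (cutA A R) (cutV V R) (T ∪ R) := by
  refine ⟨?_, ?_, ?_, ?_, hS.sub, ?_⟩
  · obtain ⟨p, hp, hp'⟩ := hR.ne
    exact ⟨p, hp, hp'⟩
  · intro x hx y
    rw [mem_cutA] at hx ⊢
    rw [mem_cutV, hS.aff x hx.1 y]
    refine and_congr_right fun _ => forall₂_congr fun f hf => ?_
    rw [Pi.sub_apply, hx.2 f hf, sub_zero]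
  · intro x hx f hf
    rcases Finset.mem_union.1 hf with h | h
    · exact hS.zero x hx.1 f h
    · exact hx.2 f h
  · intro k hk x hx
    exact hS.col k hk x hx.1
  · intro S hA h0
    obtain ⟨w, k, h⟩ := hS.pn (R ∪ S) (Acy.union hR hA) (fun ξ hξ hz => h0 ξ
      ⟨hξ, fun f hf => hz f (Finset.mem_union_left _ hf)⟩
      fun f hf => hz f (Finset.mem_union_right _ hf))
    rw [← Finset.union_assoc] at h
    exact ⟨w, k, h⟩

end MPb07157.EX
end

section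

/-!
# Acyclic sets of rank one
-/

namespace MPb07157.EX

open Finset Module

variable {ι κ : Type} [Fintype ι] [DecidableEq ι] [DecidableEq κ]
variable {c : κ → ι → ℕ} {N C : Finset κ} {A : Set (ι → ℚ)} {V : Submodule ℚ (ι → ℚ)}
  {T R R' : Finset ι}

/-- A direction on which one coordinate of `R` vanishes is in `cutV V R`.  Proof: let `ξ₁ ∈ V` be
positive on `R` (`Acy.pos`), so `ξ₁ ∉ cutV V R` and `V = cutV V R ⊕ ℚ ξ₁` (codimension one):
`ξ = η + r ξ₁`, `0 = ξ f = r * ξ₁ f`, so `r = 0`. -/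
theorem R1.mem_cut (hR : R1 A V R) {f : ι} (hf : f ∈ R) {ξ : ι → ℚ} (hξ : ξ ∈ V) :
    ξ ∈ cutV V R ↔ ξ f = 0 := by
  constructor
  · intro h
    exact (mem_cutV.1 h).2 f hf
  · intro h
    obtain ⟨ξ₁, h1, h2⟩ := hR.acy.pos
    have hle : cutV V R ≤ cutV V {f} := fun η hη => by
      rw [mem_cutV] at hη ⊢
      refine ⟨hη.1, fun g hg => ?_⟩
      rw [Finset.mem_singleton] at hg
      rw [hg]
      exact hη.2 f hf
    have hlt : cutV V {f} < V := by
      refine lt_of_le_of_ne (fun η hη => (mem_cutV.1 hη).1) fun heq => ?_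
      rw [← heq] at h1
      have h3 := (mem_cutV.1 h1).2 f (Finset.mem_singleton_self f)
      exact absurd h3 (h2 f hf).ne'
    have h4 := Submodule.finrank_lt_finrank_of_lt hlt
    have h5 := hR.rk
    have h6 : cutV V R = cutV V {f} := Submodule.eq_of_le_of_finrank_le hle (by omega)
    rw [h6, mem_cutV]
    refine ⟨hξ, fun g hg => ?_⟩
    rw [Finset.mem_singleton] at hg
    rw [hg]
    exact h

/-- All coordinates in `R` are positive multiples of each other on `V`.  Proof: let `ξ₁ ∈ V` be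
positive on `R`, `r = ξ₁ f / ξ₁ g`.  For `ξ ∈ V`, `ξ - (ξ g / ξ₁ g) • ξ₁` vanishes at `g`, so it
is in `cutV V R` (`R1.mem_cut`) and vanishes at `f`. -/
theorem R1.prop (hR : R1 A V R) {f g : ι} (hf : f ∈ R) (hg : g ∈ R) :
    ∃ r : ℚ, 0 < r ∧ ∀ ξ ∈ V, ξ f = r * ξ g := by
  obtain ⟨ξ₁, h1, h2⟩ := hR.acy.pos
  have hfp := h2 f hf
  have hgp := h2 g hg
  refine ⟨ξ₁ f / ξ₁ g, div_pos hfp hgp, fun ξ hξ => ?_⟩
  have h3 : ξ - (ξ g / ξ₁ g) • ξ₁ ∈ V := V.sub_mem hξ (V.smul_mem _ h1)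
  have h4 : (ξ - (ξ g / ξ₁ g) • ξ₁) g = 0 := by
    rw [Pi.sub_apply, Pi.smul_apply, smul_eq_mul, div_mul_cancel₀ _ hgp.ne', sub_self]
  have h5 := (mem_cutV.1 ((hR.mem_cut hg h3).2 h4)).2 f hf
  rw [Pi.sub_apply, Pi.smul_apply, smul_eq_mul, sub_eq_zero] at h5
  rw [h5]
  ring

/-- Otherwise `cutV V R = V`. -/
theorem R1.nonempty (hR : R1 A V R) : R.Nonempty := by
  rw [Finset.nonempty_iff_ne_empty]
  rintro rfl
  have h1 : cutV V (∅ : Finset ι) = V := by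
    ext ξ
    rw [mem_cutV]
    exact ⟨fun h => h.1, fun h => ⟨h, fun f hf => absurd hf (Finset.notMem_empty f)⟩⟩
  have h2 := hR.rk
  rw [h1] at h2
  omega

/-- `T` vanishes on `V` (differences of points of `A`). -/
theorem Sys.zeroV (hS : Sys c N C A V T) {ξ : ι → ℚ} (hξ : ξ ∈ V) : ∀ f ∈ T, ξ f = 0 := by
  intro f hf
  obtain ⟨x, hx⟩ := hS.ne
  have h1 : x + ξ ∈ A := by
    rw [hS.aff x hx, add_sub_cancel_left]
    exact hξ
  have h2 := hS.zero _ h1 f hf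
  rw [Pi.add_apply, hS.zero x hx f hf, zero_add] at h2
  exact h2

/-- `R` is disjoint from `T`. -/
theorem R1.disj (hS : Sys c N C A V T) (hR : R1 A V R) : Disjoint R T := by
  rw [Finset.disjoint_left]
  intro f hf hfT
  obtain ⟨ξ₁, h1, h2⟩ := hR.acy.pos
  exact absurd (hS.zeroV h1 f hfT) (h2 f hf).ne'

/-- The columns are zero on directions. -/
theorem Sys.colV (hS : Sys c N C A V T) {k : κ} (hk : k ∈ N) {ξ : ι → ℚ} (hξ : ξ ∈ V) :
    ∑ e, (c k e : ℚ) * ξ e = 0 := by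
  obtain ⟨x, hx⟩ := hS.ne
  have h1 : x + ξ ∈ A := by
    rw [hS.aff x hx, add_sub_cancel_left]
    exact hξ
  have h2 := hS.col k hk _ h1
  have h3 := hS.col k hk _ hx
  simp only [Pi.add_apply, mul_add, Finset.sum_add_distrib] at h2
  linarith

end MPb07157.EX
end

section

/-!
# The edge fact
-/

namespace MPb07157.EX

open Finset Module

variable {ι κ : Type} [Fintype ι] [DecidableEq ι] [DecidableEq κ]
variable {c : κ → ι → ℕ} {N C : Finset κ} {A : Set (ι → ℚ)} {V : Submodule ℚ (ι → ℚ)}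
  {T R R' : Finset ι}

/-- the admissible directions -/
private def geoC_P (V : Submodule ℚ (ι → ℚ)) (Q : Finset ι) (b : ι) (η : ι → ℚ) : Prop :=
  η ∈ V ∧ (∀ f ∈ Q, 0 ≤ η f) ∧ 0 < η b

omit [Fintype ι] in
private theorem geoC_neg {Q Z : Finset ι} {b : ι} {η : ι → ℚ} (hη : geoC_P V Q b η)
    (hZQ : Z ⊆ Q) (hZ : ∀ f ∈ Q, (η f = 0 ↔ f ∈ Z))
    (hmax : ∀ η' Z', geoC_P V Q b η' → Z' ⊆ Q → (∀ f ∈ Q, (η' f = 0 ↔ f ∈ Z')) → Z'.card ≤ Z.card)
    {ζ : ι → ℚ} (hζ : ζ ∈ cutV V Z) (hζb : ζ b = 0) (f0 : ι) (hf0 : f0 ∈ Q) : 0 ≤ ζ f0 := by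
  by_contra hneg
  push Not at hneg
  obtain ⟨hηV, hηnn, hηb⟩ := hη
  obtain ⟨hζV, hζZ⟩ := mem_cutV.1 hζ
  obtain ⟨f1, hf1, hmin⟩ := (Q.filter (fun f => ζ f < 0)).exists_min_image
    (fun f => η f / (-ζ f)) ⟨f0, Finset.mem_filter.2 ⟨hf0, hneg⟩⟩
  rw [Finset.mem_filter] at hf1
  obtain ⟨hf1Q, hf1n⟩ := hf1
  have hf1Z : f1 ∉ Z := fun h => by
    rw [hζZ f1 h] at hf1n
    exact lt_irrefl _ hf1n
  have hη1 : 0 < η f1 := lt_of_le_of_ne (hηnn f1 hf1Q) fun h => hf1Z ((hZ f1 hf1Q).1 h.symm)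
  have hd1 : 0 < -ζ f1 := by linarith
  have ht : 0 < η f1 / (-ζ f1) := div_pos hη1 hd1
  obtain ⟨t, htd⟩ : ∃ t, t = η f1 / (-ζ f1) := ⟨_, rfl⟩
  rw [← htd] at ht
  have ht1 : η f1 + t * ζ f1 = 0 := by
    rw [htd, div_neg, neg_mul, div_mul_cancel₀ _ hf1n.ne, add_neg_cancel]
  have hP : geoC_P V Q b (η + t • ζ) := by
    refine ⟨V.add_mem hηV (V.smul_mem t hζV), ?_, ?_⟩
    · intro f hf
      rw [Pi.add_apply, Pi.smul_apply, smul_eq_mul]
      rcases le_or_gt 0 (ζ f) with h | h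
      · have := hηnn f hf
        positivity
      · have h1 := hmin f (Finset.mem_filter.2 ⟨hf, h⟩)
        have h1' : t ≤ η f / (-ζ f) := by rw [htd]; exact h1
        rw [le_div_iff₀ (by linarith)] at h1'
        linarith
    · rw [Pi.add_apply, Pi.smul_apply, hζb, smul_zero, add_zero]
      exact hηb
  have h1 := hmax (η + t • ζ) (Q.filter (fun f => (η + t • ζ) f = 0)) hP (Finset.filter_subset _ _)
    (fun f hf => by rw [Finset.mem_filter]; exact ⟨fun h => ⟨hf, h⟩, fun h => h.2⟩)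
  have h2 : insert f1 Z ⊆ Q.filter (fun f => (η + t • ζ) f = 0) := by
    intro f hf
    rw [Finset.mem_insert] at hf
    rw [Finset.mem_filter, Pi.add_apply, Pi.smul_apply, smul_eq_mul]
    rcases hf with rfl | hf
    · exact ⟨hf1Q, ht1⟩
    · exact ⟨hZQ hf, by rw [(hZ f (hZQ hf)).2 hf, hζZ f hf, mul_zero, add_zero]⟩
  have h3 := Finset.card_le_card h2
  rw [Finset.card_insert_of_notMem hf1Z] at h3
  omega

/-- EDGE FACT.  `Q` acyclic, `b ∈ Q`.  There is `Q₀ ⊆ Q` without `b` and a direction `η` of the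
flat of `Q₀` that is positive on `Q \ Q₀`, and the flat of `Q₀` has one dimension more than the
flat of `Q`.

Proof: among all `η ∈ V` with `0 ≤ η f` for `f ∈ Q` and `0 < η b` (such `η` exist, `Acy.pos`)
take one for which `Z = {f ∈ Q | η f = 0}` has the largest number of elements; `Q₀ := Z`.
`cutV V Q ⊆ cutV V Z` and `η ∈ cutV V Z \ cutV V Q`.  If the dimension of `cutV V Z` is not
`dim (cutV V Q) + 1` there is `ζ ∈ cutV V Z`, not in `cutV V Q + ℚ η`; subtracting a multiple of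
`η` we get `ζ b = 0`, and `ζ f ≠ 0` for some `f ∈ Q` (`ζ ∉ cutV V Q`), after a sign `ζ f < 0` for
some `f ∈ Q \ Z`.  Take the largest `t > 0` with `0 ≤ (η + t ζ) f` for all `f ∈ Q` (the minimum of
`η f / (-ζ f)` over the `f ∈ Q` with `ζ f < 0`): then `η + t ζ` has more zeros in `Q` and the same
value at `b`: contradiction. -/
theorem edge_fact {Q : Finset ι} (hQ : Acy A V Q) {b : ι} (hb : b ∈ Q) :
    ∃ Q₀ ⊆ Q, b ∉ Q₀ ∧ (∃ η ∈ cutV V Q₀, ∀ f ∈ Q, f ∉ Q₀ → 0 < η f) ∧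
      finrank ℚ (cutV V Q₀) = finrank ℚ (cutV V Q) + 1 := by
  classical
  obtain ⟨ξ, hξV, hξ⟩ := hQ.pos
  obtain ⟨Z, hZS, hZmax⟩ := (Q.powerset.filter (fun Z => ∃ η, geoC_P V Q b η ∧
    ∀ f ∈ Q, (η f = 0 ↔ f ∈ Z))).exists_max_image Finset.card (by
      refine ⟨∅, ?_⟩
      rw [Finset.mem_filter]
      refine ⟨Finset.empty_mem_powerset Q, ξ, ⟨hξV, fun f hf => (hξ f hf).le, hξ b hb⟩, ?_⟩
      intro f hf
      constructor
      · intro h
        exact absurd h (hξ f hf).ne'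
      · intro h
        exact absurd h (Finset.notMem_empty f))
  rw [Finset.mem_filter, Finset.mem_powerset] at hZS
  obtain ⟨hZQ, η, hη, hZ⟩ := hZS
  have hmax : ∀ η' Z', geoC_P V Q b η' → Z' ⊆ Q → (∀ f ∈ Q, (η' f = 0 ↔ f ∈ Z')) →
      Z'.card ≤ Z.card := by
    intro η' Z' h1 h2 h3
    exact hZmax Z' (Finset.mem_filter.2 ⟨Finset.mem_powerset.2 h2, η', h1, h3⟩)
  have hηb := hη.2.2
  have hηcut : η ∈ cutV V Z := mem_cutV.2 ⟨hη.1, fun f hf => (hZ f (hZQ hf)).2 hf⟩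
  have hbZ : b ∉ Z := fun h => hηb.ne' ((hZ b hb).2 h)
  have hηQ : η ∉ cutV V Q := fun h => hηb.ne' ((mem_cutV.1 h).2 b hb)
  refine ⟨Z, hZQ, hbZ, ⟨η, hηcut, ?_⟩, ?_⟩
  · intro f hf hfZ
    exact lt_of_le_of_ne (hη.2.1 f hf) fun h => hfZ ((hZ f hf).1 h.symm)
  · have hsup : cutV V Z = cutV V Q ⊔ Submodule.span ℚ {η} := by
      apply le_antisymm
      · intro ζ hζ
        have hζ' : ζ - (ζ b / η b) • η ∈ cutV V Z :=
          (cutV V Z).sub_mem hζ ((cutV V Z).smul_mem _ hηcut)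
        have hb0 : (ζ - (ζ b / η b) • η) b = 0 := by
          rw [Pi.sub_apply, Pi.smul_apply, smul_eq_mul, div_mul_cancel₀ _ hηb.ne', sub_self]
        have hQ0 : ζ - (ζ b / η b) • η ∈ cutV V Q := by
          refine mem_cutV.2 ⟨(mem_cutV.1 hζ').1, fun f hf => ?_⟩
          have h1 := geoC_neg hη hZQ hZ hmax hζ' hb0 f hf
          have h2 := geoC_neg hη hZQ hZ hmax ((cutV V Z).neg_mem hζ')
            (by rw [Pi.neg_apply, hb0, neg_zero]) f hf
          rw [Pi.neg_apply] at h2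
          linarith
        rw [Submodule.mem_sup]
        exact ⟨_, hQ0, _, Submodule.smul_mem _ (ζ b / η b) (Submodule.mem_span_singleton_self η),
          sub_add_cancel _ _⟩
      · refine sup_le ?_ ?_
        · intro ζ hζ
          exact mem_cutV.2 ⟨(mem_cutV.1 hζ).1, fun f hf => (mem_cutV.1 hζ).2 f (hZQ hf)⟩
        · rw [Submodule.span_singleton_le_iff_mem]
          exact hηcut
    have hinf : cutV V Q ⊓ Submodule.span ℚ {η} = ⊥ := by
      rw [eq_bot_iff]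
      intro ζ hζ
      rw [Submodule.mem_inf, Submodule.mem_span_singleton] at hζ
      obtain ⟨h1, r, rfl⟩ := hζ
      rw [Submodule.mem_bot]
      by_cases hr : r = 0
      · rw [hr, zero_smul]
      · exfalso
        apply hηQ
        have h2 := (cutV V Q).smul_mem r⁻¹ h1
        rwa [smul_smul, inv_mul_cancel₀ hr, one_smul] at h2
    have hη0 : η ≠ 0 := by
      rintro rfl
      exact lt_irrefl _ hηb
    have h1 := Submodule.finrank_sup_add_finrank_inf_eq (cutV V Q) (Submodule.span ℚ {η})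
    rw [← hsup, hinf, finrank_bot, add_zero, finrank_span_singleton hη0] at h1
    exact h1

end MPb07157.EX
end

section

/-!
# Flats: basic facts
-/

namespace MPb07157.EX

open Finset Module

variable {ι κ : Type} [Fintype ι] [DecidableEq ι] [DecidableEq κ]
variable {c : κ → ι → ℕ} {N C : Finset κ} {A : Set (ι → ℚ)} {V : Submodule ℚ (ι → ℚ)}
  {T R R' : Finset ι}

/-- Consequence of the edge fact: `Q \ Q₀` is of rank one in the flat of `Q₀`. -/
theorem edge_R1 {Q : Finset ι} (hQ : Acy A V Q) {b : ι} (hb : b ∈ Q) :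
    ∃ Q₀ ⊆ Q, b ∉ Q₀ ∧ Acy A V Q₀ ∧ R1 (cutA A Q₀) (cutV V Q₀) (Q \ Q₀) := by
  obtain ⟨Q₀, h1, h2, ⟨η, h3, h4⟩, h5⟩ := edge_fact hQ hb
  refine ⟨Q₀, h1, h2, hQ.mono h1, ⟨⟨⟨η, h3, fun f hf => ?_⟩, ?_⟩, ?_⟩⟩
  · rw [Finset.mem_sdiff] at hf
    exact h4 f hf.1 hf.2
  · obtain ⟨p, hp1, hp2⟩ := hQ.ne
    exact ⟨p, ⟨hp1, fun f hf => hp2 f (h1 hf)⟩, fun f hf => hp2 f (Finset.mem_sdiff.1 hf).1⟩
  · rw [cutV_cutV, Finset.union_sdiff_of_subset h1, h5]

end MPb07157.EX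
end
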