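import Pool.Agent.Lib.MP_b07157_ag.EX.Geo

section

/-!
# Lines: elimination of owners
-/

namespace MPb07157.EX

open Finset Module

variable {ι κ : Type} [Fintype ι] [DecidableEq ι] [DecidableEq κ]
variable {c : κ → ι → ℕ} {N C : Finset κ} {A : Set (ι → ℚ)} {V : Submodule ℚ (ι → ℚ)}
  {T : Finset ι}

theorem Sys.add_mem (hS : Sys c N C A V T) {p ξ : ι → ℚ} (hp : p ∈ A) (hξ : ξ ∈ V) (r : ℚ) :
    p + r • ξ ∈ A := by
  rw [hS.aff p hp]
  have : p + r • ξ - p = r • ξ := by abel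
  rw [this]
  exact V.smul_mem r hξ

theorem Sys.dzero (hS : Sys c N C A V T) {ξ : ι → ℚ} (hξ : ξ ∈ V) {f : ι} (hf : f ∈ T) :
    ξ f = 0 := by
  obtain ⟨p, hp⟩ := hS.ne
  have h1 := hS.zero _ (hS.add_mem hp hξ 1) f hf
  have h2 := hS.zero _ hp f hf
  simp only [one_smul, Pi.add_apply] at h1
  linarith

theorem Sys.dcol (hS : Sys c N C A V T) {ξ : ι → ℚ} (hξ : ξ ∈ V) {k : κ} (hk : k ∈ N) :
    ∑ e, (c k e : ℚ) * ξ e = 0 := by
  obtain ⟨p, hp⟩ := hS.ne
  have h1 := hS.col k hk _ (hS.add_mem hp hξ 1)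
  have h2 := hS.col k hk _ hp
  simp only [one_smul, Pi.add_apply, mul_add, Finset.sum_add_distrib] at h1
  linarith

theorem line_span (h1 : finrank ℚ V = 1) {ξ η : ι → ℚ} (hξ : ξ ∈ V) (h0 : ξ ≠ 0) (hη : η ∈ V) :
    ∃ r : ℚ, η = r • ξ := by
  have h2 : (⟨ξ, hξ⟩ : V) ≠ 0 := fun h => h0 (congrArg Subtype.val h)
  obtain ⟨r, hr⟩ := (finrank_eq_one_iff_of_nonzero' (⟨ξ, hξ⟩ : V) h2).1 h1 ⟨η, hη⟩
  exact ⟨r, (congrArg Subtype.val hr).symm⟩

theorem line_NC (h1 : finrank ℚ V = 1) {ξ : ι → ℚ} (hξ : ξ ∈ V) (h0 : ξ ≠ 0) (e : ι) :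
    NC V e ↔ ξ e ≠ 0 := by
  constructor
  · rintro ⟨η, hη, h⟩ h3
    obtain ⟨r, rfl⟩ := line_span h1 hξ h0 hη
    exact h (by rw [Pi.smul_apply, h3, smul_zero])
  · exact fun h => ⟨ξ, hξ, h⟩

/-- one-sided sets on a line have owners -/
theorem line_own (hS : Sys c N C A V T) (h1 : finrank ℚ V = 1) {p ξ : ι → ℚ} (hp : p ∈ A)
    (hξ : ξ ∈ V) {S : Finset ι} (hne : S.Nonempty) (hS' : ∀ e ∈ S, p e = 0 ∧ 0 < ξ e) :
    ∃ w k, Own c N C (T ∪ S) w k := by
  obtain ⟨v, hv⟩ := hne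
  have h0 : ξ ≠ 0 := by
    rintro rfl
    exact lt_irrefl _ (hS' v hv).2
  refine hS.pn S ⟨⟨ξ, hξ, fun f hf => (hS' f hf).2⟩, ⟨p, hp, fun f hf => (hS' f hf).1⟩⟩ ?_
  intro η hη h
  obtain ⟨r, rfl⟩ := line_span h1 hξ h0 hη
  have h2 := h v hv
  rw [Pi.smul_apply, smul_eq_mul] at h2
  have h3 : r = 0 := by
    rcases mul_eq_zero.1 h2 with h3 | h3
    · exact h3
    · exact absurd h3 (hS' v hv).2.ne'
  rw [h3, zero_smul]

/-- the sum of a column that is one at `w` and vanishes outside `T ∪ S ∪ {w}` -/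
theorem U_sum {S : Finset ι} {w : ι} {k : κ} (hk : k ∈ U c N (T ∪ S) w) (hw : w ∉ S)
    {x : ι → ℚ} (hx : ∀ f ∈ T, x f = 0) :
    ∑ e, (c k e : ℚ) * x e = x w + ∑ e ∈ S, (c k e : ℚ) * x e := by
  rw [mem_U] at hk
  obtain ⟨-, h2, h3⟩ := hk
  have h4 : ∑ e, (c k e : ℚ) * x e = ∑ e ∈ insert w S, (c k e : ℚ) * x e := by
    symm
    apply Finset.sum_subset (Finset.subset_univ _)
    intro e _ he
    by_cases h5 : c k e = 0
    · rw [h5, Nat.cast_zero, zero_mul]
    · rcases h3 e h5 with h6 | h6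
      · rcases Finset.mem_union.1 h6 with h7 | h7
        · rw [hx e h7, mul_zero]
        · exact absurd (Finset.mem_insert_of_mem h7) he
      · exact absurd (h6 ▸ Finset.mem_insert_self w S) he
  rw [h4, Finset.sum_insert hw, h2, Nat.cast_one, one_mul]

/-- owners of one-sided sets on a matched line -/
theorem line_owner (hS : Sys c N C A V T) (h1 : finrank ℚ V = 1) (hq : Q0 c N C A T) {p ξ : ι → ℚ}
    (hp : p ∈ A) (hξ : ξ ∈ V) {S : Finset ι} (hne : S.Nonempty)
    (hS' : ∀ e ∈ S, p e = 0 ∧ 0 < ξ e) {w : ι} {k : κ} (hO : Own c N C (T ∪ S) w k) :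
    p w = 1 ∧ ξ w < 0 ∧ ∃ v ∈ S, c k v ≠ 0 := by
  obtain ⟨hw, hU, hkC'⟩ := hO
  have hk : k ∈ U c N (T ∪ S) w := by rw [hU]; exact Finset.mem_singleton_self k
  have hkC : k ∈ N := (mem_U.1 hk).1
  have hwS : w ∉ S := fun h => hw (Finset.mem_union_right _ h)
  have hwT : w ∉ T := fun h => hw (Finset.mem_union_left _ h)
  have h2 := U_sum hk hwS (hS.zero p hp)
  rw [hS.col k hkC p hp] at h2
  have h3 := U_sum hk hwS (fun f hf => hS.dzero hξ hf)
  rw [hS.dcol hξ hkC] at h3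
  have h4 : ∑ e ∈ S, (c k e : ℚ) * p e = 0 :=
    Finset.sum_eq_zero fun e he => by rw [(hS' e he).1, mul_zero]
  have h5 : ∀ e ∈ S, 0 ≤ (c k e : ℚ) * ξ e := fun e he =>
    mul_nonneg (Nat.cast_nonneg _) (hS' e he).2.le
  have hpw : p w = 1 := by linarith
  by_cases h6 : ∀ v ∈ S, c k v = 0
  · exfalso
    have h7 : ξ w = 0 := by
      have h8 : ∑ e ∈ S, (c k e : ℚ) * ξ e = 0 :=
        Finset.sum_eq_zero fun e he => by rw [h6 e he, Nat.cast_zero, zero_mul]
      linarith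
    obtain ⟨v, hv⟩ := hne
    have h0 : ξ ≠ 0 := by
      rintro rfl
      exact lt_irrefl _ (hS' v hv).2
    have hA : ∀ x ∈ A, x w = 1 := by
      intro x hx
      have h8 : x - p ∈ V := (hS.aff p hp x).1 hx
      obtain ⟨r, hr⟩ := line_span h1 hξ h0 h8
      have h9 := congrFun hr w
      rw [Pi.sub_apply, Pi.smul_apply, h7, smul_zero, hpw] at h9
      linarith
    refine hq w hA k ⟨hwT, ?_, hkC'⟩
    apply Finset.eq_singleton_iff_unique_mem.2
    constructor
    · rw [mem_U] at hk ⊢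
      refine ⟨hk.1, hk.2.1, fun e he => ?_⟩
      rcases hk.2.2 e he with h9 | h9
      · rcases Finset.mem_union.1 h9 with h10 | h10
        · exact Or.inl h10
        · exact absurd (h6 e h10) he
      · exact Or.inr h9
    · intro k' hk'
      have h9 := U_mono (Finset.subset_union_left (s₂ := S)) w hk'
      rw [hU, Finset.mem_singleton] at h9
      exact h9
  · push Not at h6
    obtain ⟨v, hv, hkv⟩ := h6
    refine ⟨hpw, ?_, v, hv, hkv⟩
    have h7 : 0 < ∑ e ∈ S, (c k e : ℚ) * ξ e := by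
      apply Finset.sum_pos' h5
      exact ⟨v, hv, mul_pos (Nat.cast_pos.2 (Nat.pos_of_ne_zero hkv)) (hS' v hv).2⟩
    linarith

/-- elimination: an injection from a one-sided set to its possible owners -/
theorem line_inj (hS : Sys c N C A V T) (h1 : finrank ℚ V = 1) (hq : Q0 c N C A T) {p ξ : ι → ℚ}
    (hp : p ∈ A) (hξ : ξ ∈ V) (k₀ : κ) : ∀ n : ℕ, ∀ S : Finset ι, S.card = n →
    (∀ e ∈ S, p e = 0 ∧ 0 < ξ e) → ∃ (f : ι → ι) (g : ι → κ), Set.InjOn f S ∧
      ∀ v ∈ S, g v ∈ U c N (T ∪ S) (f v) ∧ c (g v) v ≠ 0 ∧ p (f v) = 1 ∧ ξ (f v) < 0 ∧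
        g v ∈ C := by
  intro n
  induction n with
  | zero =>
    intro S hn _
    rw [Finset.card_eq_zero] at hn
    subst hn
    exact ⟨id, fun _ => k₀, by simp, by simp⟩
  | succ n ih =>
    intro S hn hS'
    have hne : S.Nonempty := by
      rw [← Finset.card_pos, hn]
      exact Nat.succ_pos n
    obtain ⟨w, k, hO⟩ := line_own hS h1 hp hξ hne hS'
    obtain ⟨hpw, hξw, v, hv, hkv⟩ := line_owner hS h1 hq hp hξ hne hS' hO
    obtain ⟨hw, hU, hkC'⟩ := hO
    have hk : k ∈ U c N (T ∪ S) w := by rw [hU]; exact Finset.mem_singleton_self k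
    obtain ⟨f, g, hf, hfg⟩ := ih (S.erase v) (by rw [Finset.card_erase_of_mem hv, hn]; rfl)
      (fun e he => hS' e (Finset.mem_of_mem_erase he))
    have hsub : T ∪ S.erase v ⊆ T ∪ S :=
      Finset.union_subset_union_right (Finset.erase_subset v S)
    have hvT : v ∉ T := fun h => (hS' v hv).2.ne' (hS.dzero hξ h)
    have hkey : ∀ u ∈ S.erase v, f u ≠ w := by
      intro u hu h
      have h2 := (hfg u hu).1
      rw [h] at h2
      have h3 := U_mono hsub w h2
      rw [hU, Finset.mem_singleton] at h3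
      rw [h3] at h2
      rcases (mem_U.1 h2).2.2 v hkv with h4 | h4
      · rcases Finset.mem_union.1 h4 with h5 | h5
        · exact hvT h5
        · exact Finset.notMem_erase v S h5
      · exact hw (h4 ▸ Finset.mem_union_right _ hv)
    refine ⟨Function.update f v w, Function.update g v k, ?_, ?_⟩
    · intro a ha b hb hab
      by_cases ha' : a = v
      · by_cases hb' : b = v
        · rw [ha', hb']
        · exfalso
          rw [ha', Function.update_self, Function.update_of_ne hb'] at hab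
          exact hkey b (Finset.mem_erase.2 ⟨hb', hb⟩) hab.symm
      · by_cases hb' : b = v
        · exfalso
          rw [hb', Function.update_self, Function.update_of_ne ha'] at hab
          exact hkey a (Finset.mem_erase.2 ⟨ha', ha⟩) hab
        · rw [Function.update_of_ne ha', Function.update_of_ne hb'] at hab
          exact hf (Finset.mem_coe.2 (Finset.mem_erase.2 ⟨ha', ha⟩))
            (Finset.mem_coe.2 (Finset.mem_erase.2 ⟨hb', hb⟩)) hab
    · intro u hu
      by_cases hu' : u = v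
      · rw [hu', Function.update_self, Function.update_self]
        exact ⟨hk, hkv, hpw, hξw, hkC'⟩
      · rw [Function.update_of_ne hu', Function.update_of_ne hu']
        obtain ⟨h2, h3, h4, h5, h6⟩ := hfg u (Finset.mem_erase.2 ⟨hu', hu⟩)
        exact ⟨U_mono hsub _ h2, h3, h4, h5, h6⟩

end MPb07157.EX
end

section

/-!
# Lines: existence of the perfect matching
-/

namespace MPb07157.EX

open Finset Module

variable {ι κ : Type} [Fintype ι] [DecidableEq ι] [DecidableEq κ]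
variable {c : κ → ι → ℕ} {N C : Finset κ} {A : Set (ι → ℚ)} {V : Submodule ℚ (ι → ℚ)}
  {T : Finset ι}

omit [Fintype ι] [DecidableEq ι] in
theorem col_ge {S : Finset ι} {a : ι → ℕ} {x : ι → ℚ} (hx : ∀ e ∈ S, 0 < x e) {v : ι}
    (hv : v ∈ S) (ha : a v ≠ 0) : x v ≤ ∑ e ∈ S, (a e : ℚ) * x e := by
  have h1 : (a v : ℚ) * x v ≤ ∑ e ∈ S, (a e : ℚ) * x e :=
    Finset.single_le_sum (f := fun e => (a e : ℚ) * x e)
      (fun e he => mul_nonneg (Nat.cast_nonneg _) (hx e he).le) hv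
  have h2 : (1 : ℚ) ≤ a v := by exact_mod_cast Nat.one_le_iff_ne_zero.2 ha
  have h3 := hx v hv
  nlinarith

omit [Fintype ι] in
theorem col_eq {S : Finset ι} {a : ι → ℕ} {x : ι → ℚ} (hx : ∀ e ∈ S, 0 < x e) {v : ι}
    (hv : v ∈ S) (ha : a v ≠ 0) (h : ∑ e ∈ S, (a e : ℚ) * x e = x v) :
    a v = 1 ∧ ∀ e ∈ S, e ≠ v → a e = 0 := by
  rw [← Finset.add_sum_erase _ _ hv] at h
  have h0 : 0 ≤ ∑ e ∈ S.erase v, (a e : ℚ) * x e := Finset.sum_nonneg fun e he =>
    mul_nonneg (Nat.cast_nonneg _) (hx e (Finset.mem_of_mem_erase he)).le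
  have h2 : (1 : ℚ) ≤ a v := by exact_mod_cast Nat.one_le_iff_ne_zero.2 ha
  have h3 := hx v hv
  have h4 : (a v : ℚ) = 1 := by
    apply le_antisymm _ h2
    by_contra hcon
    push Not at hcon
    nlinarith
  have h5 : ∑ e ∈ S.erase v, (a e : ℚ) * x e = 0 := by
    rw [h4] at h
    linarith
  refine ⟨by exact_mod_cast h4, fun e he hev => ?_⟩
  have h6 := (Finset.sum_eq_zero_iff_of_nonneg (fun e he =>
    mul_nonneg (Nat.cast_nonneg (a e)) (hx e (Finset.mem_of_mem_erase he)).le)).1 h5 e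
      (Finset.mem_erase.2 ⟨hev, he⟩)
  rcases mul_eq_zero.1 h6 with h7 | h7
  · exact_mod_cast h7
  · exact absurd h7 (hx e he).ne'

theorem exists_ne_zero_of_line (h1 : finrank ℚ V = 1) : ∃ ξ ∈ V, ξ ≠ 0 := by
  have h2 : 0 < finrank ℚ V := by omega
  obtain ⟨⟨ξ, hξ⟩, h⟩ := finrank_pos_iff_exists_ne_zero.1 h2
  exact ⟨ξ, hξ, fun h3 => h (Subtype.ext h3)⟩

/-- LINE THEOREM: a matched line has a perfect matching. -/
theorem line_exists' (hS : Sys c N C A V T) (h1 : finrank ℚ V = 1) (hq : Q0 c N C A T) :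
    ∃ m j, PM c N V T m j ∧ ∀ v, NC V v → j v ∈ C := by
  classical
  obtain ⟨p, hp⟩ := hS.ne
  obtain ⟨ξ, hξ, h0⟩ := exists_ne_zero_of_line h1
  let s : ι → ℚ := fun e => if 0 < ξ e then 1 else -1
  let t : ι → ℚ := fun e => -(p e) / ξ e
  let SS : ℚ → ℚ → Finset ι := fun t s =>
    univ.filter fun e => (p + t • ξ) e = 0 ∧ 0 < (s • ξ) e
  have hs : ∀ e, s e = 1 ∨ s e = -1 := by
    intro e
    by_cases h : 0 < ξ e
    · exact Or.inl (if_pos h)
    · exact Or.inr (if_neg h)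
  have hspos : ∀ e, ξ e ≠ 0 → 0 < s e * ξ e := by
    intro e he
    by_cases h : 0 < ξ e
    · have : s e = 1 := if_pos h
      rw [this, one_mul]
      exact h
    · have h2 : s e = -1 := if_neg h
      rw [h2]
      have := lt_of_le_of_ne (not_lt.1 h) he
      linarith
  have hmem : ∀ e, ξ e ≠ 0 → e ∈ SS (t e) (s e) := by
    intro e he
    rw [Finset.mem_filter]
    refine ⟨Finset.mem_univ _, ?_, ?_⟩
    · rw [Pi.add_apply, Pi.smul_apply, smul_eq_mul]
      show p e + -(p e) / ξ e * ξ e = 0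
      rw [div_mul_cancel₀ _ he]
      ring
    · rw [Pi.smul_apply, smul_eq_mul]
      exact hspos e he
  obtain ⟨k₀⟩ : Nonempty κ := by
    obtain ⟨e, he⟩ : ∃ e, ξ e ≠ 0 := by
      by_contra hcon
      push Not at hcon
      exact h0 (funext hcon)
    obtain ⟨w, k, -⟩ := line_own hS h1 (hS.add_mem hp hξ (t e)) (V.smul_mem (s e) hξ)
      (S := SS (t e) (s e)) ⟨e, hmem e he⟩ (fun e' he' => (Finset.mem_filter.1 he').2)
    exact ⟨k⟩
  have hch : ∀ t s : ℚ, ∃ (f : ι → ι) (g : ι → κ), Set.InjOn f (SS t s) ∧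
      ∀ v ∈ SS t s, g v ∈ U c N (T ∪ SS t s) (f v) ∧ c (g v) v ≠ 0 ∧ (p + t • ξ) (f v) = 1 ∧
        (s • ξ) (f v) < 0 ∧ g v ∈ C := fun t s =>
    line_inj hS h1 hq (hS.add_mem hp hξ t) (V.smul_mem s hξ) k₀ _ (SS t s) rfl
      (fun e he => (Finset.mem_filter.1 he).2)
  choose f g hf hfg using hch
  let F : ι → ι := fun e => f (t e) (s e) e
  let G : ι → κ := fun e => g (t e) (s e) e
  let E : Finset ι := univ.filter fun e => ξ e ≠ 0
  have hE : ∀ e, e ∈ E ↔ ξ e ≠ 0 := fun e => by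
    rw [Finset.mem_filter]
    exact ⟨fun h => h.2, fun h => ⟨Finset.mem_univ _, h⟩⟩
  have A1 : ∀ e, ξ e ≠ 0 → G e ∈ U c N (T ∪ SS (t e) (s e)) (F e) := fun e he =>
    (hfg _ _ e (hmem e he)).1
  have A2 : ∀ e, ξ e ≠ 0 → c (G e) e ≠ 0 := fun e he => (hfg _ _ e (hmem e he)).2.1
  have A3 : ∀ e, ξ e ≠ 0 → p (F e) + t e * ξ (F e) = 1 := fun e he => by
    have := (hfg _ _ e (hmem e he)).2.2.1
    rwa [Pi.add_apply, Pi.smul_apply, smul_eq_mul] at this
  have A4 : ∀ e, ξ e ≠ 0 → s e * ξ (F e) < 0 := fun e he => by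
    have := (hfg _ _ e (hmem e he)).2.2.2.1
    rwa [Pi.smul_apply, smul_eq_mul] at this
  have A5 : ∀ e, ξ e ≠ 0 → ξ (F e) ≠ 0 := fun e he h => by
    have := A4 e he
    rw [h, mul_zero] at this
    exact lt_irrefl _ this
  have A6 : ∀ e, ξ e ≠ 0 → F e ∉ SS (t e) (s e) := fun e he h => by
    have h2 := (Finset.mem_filter.1 h).2.1
    rw [Pi.add_apply, Pi.smul_apply, smul_eq_mul, A3 e he] at h2
    exact one_ne_zero h2
  -- injectivity
  have hinj : Set.InjOn F (E : Set ι) := by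
    intro a ha b hb hab
    rw [Finset.mem_coe, hE] at ha hb
    have h2 := A3 a ha
    have h3 := A3 b hb
    rw [← hab] at h3
    have h4 : t a = t b := by
      have h5 : (t a - t b) * ξ (F a) = 0 := by linarith
      rcases mul_eq_zero.1 h5 with h6 | h6
      · linarith
      · exact absurd h6 (A5 a ha)
    have h5 : s a = s b := by
      have h6 := A4 a ha
      have h7 := A4 b hb
      rw [← hab] at h7
      rcases hs a with h8 | h8 <;> rcases hs b with h9 | h9 <;> rw [h8, h9] <;>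
        rw [h8] at h6 <;> rw [h9] at h7 <;> exfalso <;> linarith
    have h6 : f (t a) (s a) a = f (t a) (s a) b := by
      have h7 : f (t a) (s a) a = f (t b) (s b) b := hab
      rwa [← h4, ← h5] at h7
    exact hf (t a) (s a) (Finset.mem_coe.2 (hmem a ha))
      (Finset.mem_coe.2 (by rw [h4, h5]; exact hmem b hb)) h6
  have himg : E.image F = E := by
    apply Finset.eq_of_subset_of_card_le
    · intro w hw
      obtain ⟨e, he, rfl⟩ := Finset.mem_image.1 hw
      exact (hE _).2 (A5 e ((hE e).1 he))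
    · rw [Finset.card_image_of_injOn hinj]
  -- slopes
  have hsl : ∀ e, ξ e ≠ 0 → |ξ (F e)| = ∑ e' ∈ SS (t e) (s e), (c (G e) e' : ℚ) * (s e * ξ e') := by
    intro e he
    have h2 := U_sum (A1 e he) (A6 e he) (x := s e • ξ)
      (fun f hf => by rw [Pi.smul_apply, hS.dzero hξ hf, smul_zero])
    rw [hS.dcol (V.smul_mem (s e) hξ) (mem_U.1 (A1 e he)).1] at h2
    simp only [Pi.smul_apply, smul_eq_mul] at h2
    have h3 : |ξ (F e)| = -(s e * ξ (F e)) := by
      rw [← abs_of_neg (A4 e he), abs_mul]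
      rcases hs e with h4 | h4 <;> rw [h4] <;> simp
    rw [h3]
    linarith
  have habs : ∀ e, ξ e ≠ 0 → |ξ e| = s e * ξ e := by
    intro e he
    rw [← abs_of_pos (hspos e he), abs_mul]
    rcases hs e with h4 | h4 <;> rw [h4] <;> simp
  have hSpos : ∀ e, ∀ e' ∈ SS (t e) (s e), 0 < s e * ξ e' := fun e e' he' => by
    have := (Finset.mem_filter.1 he').2.2
    rwa [Pi.smul_apply, smul_eq_mul] at this
  have hle : ∀ e ∈ E, 0 ≤ |ξ (F e)| - |ξ e| := by
    intro e he
    rw [hE] at he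
    rw [hsl e he, habs e he]
    have := col_ge (x := fun e' => s e * ξ e') (hSpos e) (hmem e he) (A2 e he)
    linarith
  have hsum : ∑ e ∈ E, (|ξ (F e)| - |ξ e|) = 0 := by
    rw [Finset.sum_sub_distrib, sub_eq_zero]
    conv_rhs => rw [← himg]
    rw [Finset.sum_image (f := fun e => |ξ e|) hinj]
  have heq : ∀ e, ξ e ≠ 0 → c (G e) e = 1 ∧ ∀ e' ∈ SS (t e) (s e), e' ≠ e → c (G e) e' = 0 := by
    intro e he
    have h2 := (Finset.sum_eq_zero_iff_of_nonneg hle).1 hsum e ((hE e).2 he)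
    apply col_eq (x := fun e' => s e * ξ e') (hSpos e) (hmem e he) (A2 e he)
    rw [← hsl e he, ← habs e he]
    linarith
  have hG1 : ∀ e, ξ e ≠ 0 → c (G e) (F e) = 1 := fun e he => (mem_U.1 (A1 e he)).2.1
  have hGN : ∀ e, ξ e ≠ 0 → G e ∈ N := fun e he => (mem_U.1 (A1 e he)).1
  have hGC : ∀ e, ξ e ≠ 0 → G e ∈ C := fun e he => (hfg _ _ e (hmem e he)).2.2.2.2
  have hGs : ∀ e, ξ e ≠ 0 → ∀ e', c (G e) e' ≠ 0 → e' ∈ T ∨ e' = e ∨ e' = F e := by
    intro e he e' he'
    rcases (mem_U.1 (A1 e he)).2.2 e' he' with h2 | h2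
    · rcases Finset.mem_union.1 h2 with h3 | h3
      · exact Or.inl h3
      · right
        left
        by_contra h4
        exact he' ((heq e he).2 e' h3 h4)
    · exact Or.inr (Or.inr h2)
  -- the inverse of `F`
  have hH : ∀ w, ∃ v, ξ w ≠ 0 → ξ v ≠ 0 ∧ F v = w := by
    intro w
    by_cases hw : ξ w = 0
    · exact ⟨w, fun h => absurd hw h⟩
    · have h2 := (hE w).2 hw
      rw [← himg] at h2
      obtain ⟨v, hv, hvw⟩ := Finset.mem_image.1 h2
      exact ⟨v, fun _ => ⟨(hE v).1 hv, hvw⟩⟩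
  choose H hH using hH
  have hHF : ∀ v, ξ v ≠ 0 → H (F v) = v := fun v hv =>
    hinj (Finset.mem_coe.2 ((hE _).2 (hH _ (A5 v hv)).1)) (Finset.mem_coe.2 ((hE v).2 hv))
      (hH _ (A5 v hv)).2
  have hFneg : ∀ v, 0 < ξ v → ξ (F v) < 0 := by
    intro v hv
    have h2 := A4 v hv.ne'
    have h3 : s v = 1 := if_pos hv
    rwa [h3, one_mul] at h2
  have hFpos : ∀ v, ξ v < 0 → 0 < ξ (F v) := by
    intro v hv
    have h2 := A4 v hv.ne
    have h3 : s v = -1 := if_neg (not_lt.2 hv.le)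
    rw [h3] at h2
    linarith
  have hHpos : ∀ v, ξ v < 0 → 0 < ξ (H v) := by
    intro v hv
    obtain ⟨h2, h3⟩ := hH v hv.ne
    rcases lt_or_gt_of_ne h2 with h4 | h4
    · have := hFpos _ h4
      rw [h3] at this
      linarith
    · exact h4
  have hlt : ∀ v, ¬ 0 < ξ v → ξ v ≠ 0 → ξ v < 0 := fun v h2 h3 => lt_of_le_of_ne (not_lt.1 h2) h3
  have hNC : ∀ v, NC V v → ξ v ≠ 0 := fun v => (line_NC h1 hξ h0 v).1
  refine ⟨fun v => if 0 < ξ v then F v else H v, fun v => if 0 < ξ v then G v else G (H v),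
    ⟨?_, ?_, ?_, ?_, ?_, ?_, ?_⟩, ?_⟩
  · intro v hv
    have hv := hNC v hv
    show NC V (if 0 < ξ v then F v else H v)
    rw [line_NC h1 hξ h0]
    by_cases h2 : 0 < ξ v
    · rw [if_pos h2]
      exact A5 v hv
    · rw [if_neg h2]
      exact (hH v hv).1
  · intro v hv
    have hv := hNC v hv
    by_cases h2 : 0 < ξ v
    · simp only [if_pos h2]
      rw [if_neg (not_lt.2 (hFneg v h2).le)]
      exact hHF v hv
    · simp only [if_neg h2]
      rw [if_pos (hHpos v (hlt v h2 hv))]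
      exact (hH v hv).2
  · intro v hv
    have hv := hNC v hv
    by_cases h2 : 0 < ξ v
    · simp only [if_pos h2]
      intro h3
      have h4 := hFneg v h2
      rw [h3] at h4
      linarith
    · simp only [if_neg h2]
      intro h3
      have h4 := hHpos v (hlt v h2 hv)
      rw [h3] at h4
      exact h2 h4
  · intro v hv
    have hv := hNC v hv
    by_cases h2 : 0 < ξ v
    · simp only [if_pos h2]
      rw [if_neg (not_lt.2 (hFneg v h2).le), hHF v hv]
    · simp only [if_neg h2]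
      rw [if_pos (hHpos v (hlt v h2 hv))]
  · intro v hv
    have hv := hNC v hv
    by_cases h2 : 0 < ξ v
    · simp only [if_pos h2]
      exact hGN v hv
    · simp only [if_neg h2]
      exact hGN _ (hH v hv).1
  · intro v hv
    have hv := hNC v hv
    by_cases h2 : 0 < ξ v
    · simp only [if_pos h2]
      exact (heq v hv).1
    · simp only [if_neg h2]
      have h3 := hG1 _ (hH v hv).1
      rwa [(hH v hv).2] at h3
  · intro v hv e he
    have hv := hNC v hv
    by_cases h2 : 0 < ξ v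
    · simp only [if_pos h2] at he ⊢
      exact hGs v hv e he
    · simp only [if_neg h2] at he ⊢
      have h3 := hGs _ (hH v hv).1 e he
      rw [(hH v hv).2] at h3
      tauto
  · intro v hv
    have hv := hNC v hv
    by_cases h2 : 0 < ξ v
    · simp only [if_pos h2]
      exact hGC v hv
    · simp only [if_neg h2]
      exact hGC _ (hH v hv).1

end MPb07157.EX
end

section

/-!
# Lines: uniqueness of the perfect matching, alive principle
-/

namespace MPb07157.EX

open Finset Module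

variable {ι κ : Type} [Fintype ι] [DecidableEq ι] [DecidableEq κ]
variable {c : κ → ι → ℕ} {N C : Finset κ} {A : Set (ι → ℚ)} {V : Submodule ℚ (ι → ℚ)}
  {T : Finset ι} {m m' : ι → ι} {j j' : ι → κ}

/-- a stage of an elimination that starts with `V'`; `O'` is a set of possible owners -/
structure Stage (c : κ → ι → ℕ) (N : Finset κ) (T V' O' S' : Finset ι) : Prop where
  sub : S' ⊆ V'
  kill : ∃ K ⊆ O', V'.card ≤ K.card + S'.card ∧ ∀ w ∈ K, U c N (T ∪ S') w = ∅

theorem Stage.top (V' O' : Finset ι) : Stage c N T V' O' V' :=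
  ⟨subset_rfl, ∅, Finset.empty_subset _, by simp, by simp⟩

theorem Stage.erase {V' O' S' : Finset ι} (h : Stage c N T V' O' S') {w v : ι} {k : κ}
    (hO : Own c N C (T ∪ S') w k) (hv : v ∈ S') (hkv : c k v ≠ 0) (hvT : v ∉ T) (hw : w ∈ O') :
    Stage c N T V' O' (S'.erase v) := by
  obtain ⟨h1, K, hK, hcard, hKU⟩ := h
  have hsub : T ∪ S'.erase v ⊆ T ∪ S' :=
    Finset.union_subset_union_right (Finset.erase_subset v S')
  refine ⟨(Finset.erase_subset _ _).trans h1, insert w K, ?_, ?_, ?_⟩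
  · intro x hx
    rcases Finset.mem_insert.1 hx with rfl | hx
    · exact hw
    · exact hK hx
  · have hwK : w ∉ K := by
      intro h2
      have h3 := hKU w h2
      rw [hO.2.1] at h3
      exact Finset.singleton_ne_empty k h3
    rw [Finset.card_insert_of_notMem hwK, Finset.card_erase_of_mem hv]
    have : 0 < S'.card := Finset.card_pos.2 ⟨v, hv⟩
    omega
  · intro x hx
    rcases Finset.mem_insert.1 hx with rfl | hx
    · rw [Finset.eq_empty_iff_forall_notMem]
      intro k' hk'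
      have h2 := U_mono hsub x hk'
      rw [hO.2.1, Finset.mem_singleton] at h2
      rw [h2] at hk'
      rcases (mem_U.1 hk').2.2 v hkv with h4 | h4
      · rcases Finset.mem_union.1 h4 with h5 | h5
        · exact hvT h5
        · exact Finset.notMem_erase v S' h5
      · exact hO.1 (h4 ▸ Finset.mem_union_right _ hv)
    · rw [Finset.eq_empty_iff_forall_notMem]
      intro k' hk'
      have h2 := U_mono hsub x hk'
      rw [hKU x hx] at h2
      exact Finset.notMem_empty _ h2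

/-- ALIVE PRINCIPLE -/
theorem Stage.single {V' O' S' : Finset ι} (h : Stage c N T V' O' S')
    (hcard : O'.card ≤ V'.card) (hm : Set.InjOn m (V' : Set ι)) (hmO : ∀ v ∈ V', m v ∈ O')
    (hj : ∀ v ∈ V', j v ∈ U c N (T ∪ {v}) (m v)) {w : ι} {k : κ} (hO : Own c N C (T ∪ S') w k)
    (hw : w ∈ O') : ∃ v ∈ S', w = m v ∧ k = j v := by
  obtain ⟨h1, K, hK, hcard', hKU⟩ := h
  have hjS : ∀ v ∈ S', j v ∈ U c N (T ∪ S') (m v) := fun v hv =>
    U_mono (Finset.union_subset_union_right (Finset.singleton_subset_iff.2 hv)) _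
      (hj v (h1 hv))
  have himg : S'.image m = O' \ K := by
    apply Finset.eq_of_subset_of_card_le
    · intro x hx
      obtain ⟨v, hv, rfl⟩ := Finset.mem_image.1 hx
      rw [Finset.mem_sdiff]
      refine ⟨hmO v (h1 hv), fun h2 => ?_⟩
      have h3 := hjS v hv
      rw [hKU _ h2] at h3
      exact Finset.notMem_empty _ h3
    · rw [Finset.card_image_of_injOn (hm.mono (Finset.coe_subset.2 h1)),
        Finset.card_sdiff_of_subset hK]
      omega
  have hwK : w ∈ O' \ K := by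
    rw [Finset.mem_sdiff]
    refine ⟨hw, fun h2 => ?_⟩
    have h3 := hKU w h2
    rw [hO.2.1] at h3
    exact Finset.singleton_ne_empty k h3
  rw [← himg] at hwK
  obtain ⟨v, hv, hvw⟩ := Finset.mem_image.1 hwK
  refine ⟨v, hv, hvw.symm, ?_⟩
  have h3 := hjS v hv
  rw [hvw, hO.2.1, Finset.mem_singleton] at h3
  exact h3.symm

theorem PM.mem_U' (hM : PM c N V T m j) {v : ι} (hv : NC V v) :
    j v ∈ U c N (T ∪ {v}) (m v) := by
  rw [mem_U]
  refine ⟨hM.mem v hv, ?_, fun e he => ?_⟩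
  · have := hM.val (m v) (hM.nc v hv)
    rwa [hM.jm v hv] at this
  · rcases hM.supp v hv e he with h | h | h
    · exact Or.inl (Finset.mem_union_left _ h)
    · exact Or.inl (Finset.mem_union_right _ (Finset.mem_singleton.2 h))
    · exact Or.inr h

theorem PM.point (hS : Sys c N C A V T) (hM : PM c N V T m j) {v : ι} (hv : NC V v) {x : ι → ℚ}
    (hx : x ∈ A) : x (m v) + x v = 1 := by
  have h2 := U_sum (hM.mem_U' hv) (fun h => hM.ne v hv (Finset.mem_singleton.1 h))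
    (hS.zero x hx)
  rw [hS.col _ (hM.mem v hv) x hx, Finset.sum_singleton, hM.val v hv, Nat.cast_one,
    one_mul] at h2
  exact h2.symm

theorem PM.slope (hS : Sys c N C A V T) (hM : PM c N V T m j) {v : ι} (hv : NC V v) {ξ : ι → ℚ}
    (hξ : ξ ∈ V) : ξ (m v) + ξ v = 0 := by
  have h2 := U_sum (hM.mem_U' hv) (fun h => hM.ne v hv (Finset.mem_singleton.1 h))
    (fun f hf => hS.dzero hξ hf)
  rw [hS.dcol hξ (hM.mem v hv), Finset.sum_singleton, hM.val v hv, Nat.cast_one,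
    one_mul] at h2
  exact h2.symm

theorem PM.inj (hM : PM c N V T m j) {u v : ι} (hu : NC V u) (hv : NC V v) (h : m u = m v) :
    u = v := by
  rw [← hM.inv u hu, h, hM.inv v hv]

/-- the one-sided set at `p` -/
def Vp (p ξ : ι → ℚ) : Finset ι := univ.filter fun e => p e = 0 ∧ 0 < ξ e

/-- its possible owners -/
def Op (p ξ : ι → ℚ) : Finset ι := univ.filter fun e => p e = 1 ∧ ξ e < 0

theorem mem_Vp {p ξ : ι → ℚ} {e : ι} : e ∈ Vp p ξ ↔ p e = 0 ∧ 0 < ξ e := by
  unfold Vp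
  rw [Finset.mem_filter]
  exact ⟨fun h => h.2, fun h => ⟨Finset.mem_univ _, h⟩⟩

theorem mem_Op {p ξ : ι → ℚ} {e : ι} : e ∈ Op p ξ ↔ p e = 1 ∧ ξ e < 0 := by
  unfold Op
  rw [Finset.mem_filter]
  exact ⟨fun h => h.2, fun h => ⟨Finset.mem_univ _, h⟩⟩

theorem Vp_NC {ξ : ι → ℚ} (hξ : ξ ∈ V) {e : ι} (he : 0 < ξ e) : NC V e := ⟨ξ, hξ, he.ne'⟩

theorem PM.card_le (hS : Sys c N C A V T) (hM : PM c N V T m j) {p ξ : ι → ℚ} (hp : p ∈ A)
    (hξ : ξ ∈ V) : (Op p ξ).card ≤ (Vp p ξ).card := by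
  apply Finset.card_le_card_of_injOn m
  · intro w hw
    rw [Finset.mem_coe, mem_Op] at hw
    rw [Finset.mem_coe, mem_Vp]
    have hw' : NC V w := ⟨ξ, hξ, hw.2.ne⟩
    have h2 := hM.point hS hw' hp
    have h3 := hM.slope hS hw' hξ
    exact ⟨by linarith [hw.1], by linarith [hw.2]⟩
  · intro u hu w hw h
    rw [Finset.mem_coe, mem_Op] at hu hw
    exact hM.inj ⟨ξ, hξ, hu.2.ne⟩ ⟨ξ, hξ, hw.2.ne⟩ h

theorem PM.mem_Op' (hS : Sys c N C A V T) (hM : PM c N V T m j) {p ξ : ι → ℚ} (hp : p ∈ A)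
    (hξ : ξ ∈ V) {v : ι} (hv : v ∈ Vp p ξ) : m v ∈ Op p ξ := by
  rw [mem_Vp] at hv
  rw [mem_Op]
  have h2 := hM.point hS (Vp_NC hξ hv.2) hp
  have h3 := hM.slope hS (Vp_NC hξ hv.2) hξ
  exact ⟨by linarith [hv.1], by linarith [hv.2]⟩

/-- all owners of a stage of an elimination from `Vp` are matching columns -/
theorem PM.stage (hS : Sys c N C A V T) (h1 : finrank ℚ V = 1) (hq : Q0 c N C A T)
    (hM : PM c N V T m j) {p ξ : ι → ℚ} (hp : p ∈ A) (hξ : ξ ∈ V) {S' : Finset ι}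
    (hne : S'.Nonempty) (h : Stage c N T (Vp p ξ) (Op p ξ) S') {w : ι} {k : κ}
    (hO : Own c N C (T ∪ S') w k) : ∃ v ∈ S', w = m v ∧ k = j v := by
  have hS' : ∀ e ∈ S', p e = 0 ∧ 0 < ξ e := fun e he => mem_Vp.1 (h.sub he)
  obtain ⟨h2, h3, -⟩ := line_owner hS h1 hq hp hξ hne hS' hO
  exact h.single (hM.card_le hS hp hξ)
    (fun u hu v hv huv => hM.inj (Vp_NC hξ (mem_Vp.1 (Finset.mem_coe.1 hu)).2)
      (Vp_NC hξ (mem_Vp.1 (Finset.mem_coe.1 hv)).2) huv)
    (fun v hv => hM.mem_Op' hS hp hξ hv)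
    (fun v hv => hM.mem_U' (Vp_NC hξ (mem_Vp.1 hv).2)) hO (mem_Op.2 ⟨h2, h3⟩)

theorem line_unique_side (hS : Sys c N C A V T) (h1 : finrank ℚ V = 1) (hq : Q0 c N C A T)
    (hM : PM c N V T m j) (hM' : PM c N V T m' j') {p ξ : ι → ℚ} (hp : p ∈ A) (hξ : ξ ∈ V) :
    ∀ n : ℕ, ∀ S' : Finset ι, S'.card = n → Stage c N T (Vp p ξ) (Op p ξ) S' →
      ∀ v ∈ S', m v = m' v ∧ j v = j' v := by
  intro n
  induction n with
  | zero =>
    intro S' hn _ v hv
    rw [Finset.card_eq_zero.1 hn] at hv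
    exact absurd hv (Finset.notMem_empty v)
  | succ n ih =>
    intro S' hn hst u hu
    have hne : S'.Nonempty := ⟨u, hu⟩
    have hS' : ∀ e ∈ S', p e = 0 ∧ 0 < ξ e := fun e he => mem_Vp.1 (hst.sub he)
    obtain ⟨w, k, hO⟩ := line_own hS h1 hp hξ hne hS'
    obtain ⟨h2, h3, -⟩ := line_owner hS h1 hq hp hξ hne hS' hO
    obtain ⟨v, hv, hwv, hkv⟩ := hM.stage hS h1 hq hp hξ hne hst hO
    obtain ⟨v', hv', hwv', hkv'⟩ := hM'.stage hS h1 hq hp hξ hne hst hO
    have hNv : NC V v := Vp_NC hξ (hS' v hv).2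
    have hNv' : NC V v' := Vp_NC hξ (hS' v' hv').2
    have hvv : v' = v := by
      have h4 : c (j v) v' ≠ 0 := by
        rw [← hkv, hkv', hM'.val v' hNv']
        exact one_ne_zero
      rcases hM.supp v hNv v' h4 with h5 | h5 | h5
      · exact absurd (hS.dzero hξ h5) (hS' v' hv').2.ne'
      · exact h5
      · exfalso
        rw [← hwv] at h5
        rw [← h5, (hS' v' hv').1] at h2
        exact zero_ne_one h2
    rw [hvv] at hwv' hkv'
    by_cases huv : u = v
    · rw [huv]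
      exact ⟨hwv.symm.trans hwv', hkv.symm.trans hkv'⟩
    · refine ih (S'.erase v) (by rw [Finset.card_erase_of_mem hv, hn]; rfl) ?_ u
        (Finset.mem_erase.2 ⟨huv, hu⟩)
      refine hst.erase hO hv ?_ (fun h => (hS' v hv).2.ne' (hS.dzero hξ h)) (mem_Op.2 ⟨h2, h3⟩)
      rw [hkv, hM.val v hNv]
      exact one_ne_zero

/-- (1a) The perfect matching is unique. -/
theorem line_unique' (hS : Sys c N C A V T) (h1 : finrank ℚ V = 1) (hq : Q0 c N C A T)
    (hM : PM c N V T m j) (hM' : PM c N V T m' j') : ∀ v, NC V v → m v = m' v ∧ j v = j' v := by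
  rintro v ⟨ξ, hξ, hv⟩
  obtain ⟨p, hp⟩ := hS.ne
  have hp' : p + (-(p v) / ξ v) • ξ ∈ A := hS.add_mem hp hξ _
  have h2 : (p + (-(p v) / ξ v) • ξ) v = 0 := by
    rw [Pi.add_apply, Pi.smul_apply, smul_eq_mul, div_mul_cancel₀ _ hv]
    ring
  rcases lt_or_gt_of_ne hv with h3 | h3
  · exact line_unique_side hS h1 hq hM hM' hp' (V.neg_mem hξ) _ _ rfl (Stage.top _ _) v
      (mem_Vp.2 ⟨h2, by rw [Pi.neg_apply]; linarith⟩)
  · exact line_unique_side hS h1 hq hM hM' hp' hξ _ _ rfl (Stage.top _ _) v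
      (mem_Vp.2 ⟨h2, h3⟩)

/-- (1b) Every one-sided set has a single in the matching. -/
theorem line_reach' (hS : Sys c N C A V T) (h1 : finrank ℚ V = 1) (hq : Q0 c N C A T)
    (hM : PM c N V T m j) {x : ι → ℚ} (hx : x ∈ A) {ξ : ι → ℚ} (hξ : ξ ∈ V) {S' : Finset ι}
    (hne : S'.Nonempty) (hS' : ∀ e ∈ S', x e = 0 ∧ 0 < ξ e) :
    ∃ v ∈ S', Own c N C (T ∪ S') (m v) (j v) := by
  have key : ∀ n : ℕ, ∀ S'' : Finset ι, S''.card = n → S' ⊆ S'' →
      Stage c N T (Vp x ξ) (Op x ξ) S'' → ∃ v ∈ S', Own c N C (T ∪ S') (m v) (j v) := by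
    intro n
    induction n with
    | zero =>
      intro S'' hn hsub _
      rw [Finset.card_eq_zero.1 hn] at hsub
      obtain ⟨v, hv⟩ := hne
      exact absurd (hsub hv) (Finset.notMem_empty v)
    | succ n ih =>
      intro S'' hn hsub hst
      have hne' : S''.Nonempty := hne.mono hsub
      have hS'' : ∀ e ∈ S'', x e = 0 ∧ 0 < ξ e := fun e he => mem_Vp.1 (hst.sub he)
      obtain ⟨w, k, hO⟩ := line_own hS h1 hx hξ hne' hS''
      obtain ⟨h2, h3, -⟩ := line_owner hS h1 hq hx hξ hne' hS'' hO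
      obtain ⟨v, hv, hwv, hkv⟩ := hM.stage hS h1 hq hx hξ hne' hst hO
      have hNv : NC V v := Vp_NC hξ (hS'' v hv).2
      by_cases hvS : v ∈ S'
      · refine ⟨v, hvS, ?_, ?_, by rw [← hkv]; exact hO.2.2⟩
        · intro h4
          apply hO.1
          rw [hwv]
          exact Finset.union_subset_union_right hsub h4
        · rw [← hwv, ← hkv]
          apply Finset.eq_singleton_iff_unique_mem.2
          constructor
          · rw [hkv, hwv]
            exact U_mono (Finset.union_subset_union_right (Finset.singleton_subset_iff.2 hvS)) _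
              (hM.mem_U' hNv)
          · intro k' hk'
            have h4 := U_mono (Finset.union_subset_union_right hsub) w hk'
            rw [hO.2.1, Finset.mem_singleton] at h4
            exact h4
      · refine ih (S''.erase v) (by rw [Finset.card_erase_of_mem hv, hn]; rfl) ?_ ?_
        · intro e he
          exact Finset.mem_erase.2 ⟨fun h => hvS (h ▸ he), hsub he⟩
        · refine hst.erase hO hv ?_ (fun h => (hS'' v hv).2.ne' (hS.dzero hξ h))
            (mem_Op.2 ⟨h2, h3⟩)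
          rw [hkv, hM.val v hNv]
          exact one_ne_zero
  exact key _ (Vp x ξ) rfl (fun e he => mem_Vp.2 (hS' e he)) (Stage.top _ _)

/-- (1c), (1d) -/
theorem line_isolate' (hS : Sys c N C A V T) (h1 : finrank ℚ V = 1) (hq : Q0 c N C A T)
    (hM : PM c N V T m j) {x : ι → ℚ} (hx : x ∈ A) {ξ : ι → ℚ} (hξ : ξ ∈ V) {V' O' : Finset ι}
    (hV' : ∀ e ∈ V', x e = 0 ∧ 0 < ξ e)
    (hO' : ∀ S' ⊆ V', S'.Nonempty → ∀ w k, Own c N C (T ∪ S') w k → w ∈ O')
    (hcard : O'.card ≤ V'.card) {v : ι} (hv : v ∈ V') :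
    ∃ S' ⊆ V', v ∈ S' ∧ ∀ w k, Own c N C (T ∪ S') w k → k = j v := by
  have hmO : ∀ u ∈ V', m u ∈ O' := by
    intro u hu
    obtain ⟨u', hu', hO⟩ := line_reach' hS h1 hq hM hx hξ (S' := {u})
      (Finset.singleton_nonempty u)
      (fun e he => by rw [Finset.mem_singleton] at he; rw [he]; exact hV' u hu)
    rw [Finset.mem_singleton] at hu'
    rw [hu'] at hO
    exact hO' {u} (Finset.singleton_subset_iff.2 hu) (Finset.singleton_nonempty u) _ _ hO
  have key : ∀ n : ℕ, ∀ S' : Finset ι, S'.card = n → v ∈ S' → Stage c N T V' O' S' →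
      ∃ S' ⊆ V', v ∈ S' ∧ ∀ w k, Own c N C (T ∪ S') w k → k = j v := by
    intro n
    induction n with
    | zero =>
      intro S' hn hvS _
      rw [Finset.card_eq_zero.1 hn] at hvS
      exact absurd hvS (Finset.notMem_empty v)
    | succ n ih =>
      intro S' hn hvS hst
      by_cases hall : ∀ w k, Own c N C (T ∪ S') w k → k = j v
      · exact ⟨S', hst.sub, hvS, hall⟩
      · push Not at hall
        obtain ⟨w, k, hO, hkj⟩ := hall
        have hwO : w ∈ O' := hO' S' hst.sub ⟨v, hvS⟩ w k hO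
        obtain ⟨u, hu, hwu, hku⟩ := hst.single hcard
          (fun a ha b hb hab => hM.inj (Vp_NC hξ (hV' a (Finset.mem_coe.1 ha)).2)
            (Vp_NC hξ (hV' b (Finset.mem_coe.1 hb)).2) hab) hmO
          (fun a ha => hM.mem_U' (Vp_NC hξ (hV' a ha).2)) hO hwO
        have huv : u ≠ v := fun h => hkj (by rw [hku, h])
        have hNu : NC V u := Vp_NC hξ (hV' u (hst.sub hu)).2
        refine ih (S'.erase u) (by rw [Finset.card_erase_of_mem hu, hn]; rfl)
          (Finset.mem_erase.2 ⟨huv.symm, hvS⟩) ?_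
        refine hst.erase hO hu ?_ (fun h => (hV' u (hst.sub hu)).2.ne' (hS.dzero hξ h)) hwO
        rw [hku, hM.val u hNu]
        exact one_ne_zero
  exact key _ V' rfl hv (Stage.top _ _)

end MPb07157.EX
end
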