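import Pool.Agent.Lib.MP_b07157_ag.EX.L3

/-!
# Lines: families are perfect matchings
-/

namespace MPb07157.EX

open Finset Module

variable {ι κ : Type} [Fintype ι] [DecidableEq ι] [DecidableEq κ]
variable {c : κ → ι → ℕ} {N C : Finset κ} {A : Set (ι → ℚ)} {V : Submodule ℚ (ι → ℚ)}
  {T : Finset ι}

omit [DecidableEq κ] in
theorem mem_sup {k : κ} {e : ι} : e ∈ sup c T k ↔ e ∉ T ∧ c k e ≠ 0 := by
  unfold sup
  rw [Finset.mem_filter]
  exact ⟨fun h => h.2, fun h => ⟨Finset.mem_univ _, h⟩⟩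

theorem NC_notMem (hS : Sys c N C A V T) {e : ι} (he : NC V e) : e ∉ T := by
  intro h
  obtain ⟨ξ, hξ, h2⟩ := he
  exact h2 (hS.dzero hξ h)

/-- Perfect matchings and families: a family of a line system is a perfect matching. -/
theorem pm_of_fam' (hS : Sys c N C A V T) (h1 : finrank ℚ V = 1) {J : Finset κ}
    (hJ : Fam c N V T J) (hnum : 2 * J.card = (NCs V).card) :
    ∃ m j, PM c N V T m j ∧ (∀ v, NC V v → j v ∈ J) ∧ ∀ k ∈ J, ∃ v, NC V v ∧ j v = k := by
  classical
  obtain ⟨ξ, hξ, h0⟩ := exists_ne_zero_of_line h1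
  have hNCs : ∀ e, e ∈ NCs V ↔ NC V e := fun e => by
    unfold NCs
    rw [Finset.mem_filter]
    exact ⟨fun h => h.2, fun h => ⟨Finset.mem_univ _, h⟩⟩
  -- every support has at least two elements
  have h2le : ∀ k ∈ J, 2 ≤ (sup c T k).card := by
    intro k hk
    by_contra hcon
    push Not at hcon
    have hsum : ∀ x : ι → ℚ, (∀ f ∈ T, x f = 0) →
        ∑ e, (c k e : ℚ) * x e = ∑ e ∈ sup c T k, (c k e : ℚ) * x e := by
      intro x hx
      symm
      apply Finset.sum_subset (Finset.subset_univ _)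
      intro e _ he
      by_cases h2 : c k e = 0
      · rw [h2, Nat.cast_zero, zero_mul]
      · by_cases h3 : e ∈ T
        · rw [hx e h3, mul_zero]
        · exact absurd (mem_sup.2 ⟨h3, h2⟩) he
    rcases Nat.lt_or_ge (sup c T k).card 1 with h2 | h2
    · have h3 : sup c T k = ∅ := Finset.card_eq_zero.1 (by omega)
      obtain ⟨p, hp⟩ := hS.ne
      have h4 := hsum p (hS.zero p hp)
      rw [hS.col k (hJ.sub hk) p hp, h3, Finset.sum_empty] at h4
      exact one_ne_zero h4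
    · obtain ⟨e, he⟩ := Finset.card_eq_one.1 (show (sup c T k).card = 1 by omega)
      have h4 := hsum ξ (fun f hf => hS.dzero hξ hf)
      rw [hS.dcol hξ (hJ.sub hk), he, Finset.sum_singleton] at h4
      have h5 : e ∈ sup c T k := by rw [he]; exact Finset.mem_singleton_self e
      rw [mem_sup] at h5
      rcases mul_eq_zero.1 h4.symm with h6 | h6
      · exact h5.2 (by exact_mod_cast h6)
      · exact (line_NC h1 hξ h0 e).1 (hJ.nc k hk e h5.1 h5.2) h6
  have hcov : NCs V = J.biUnion (sup c T) := by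
    ext e
    rw [hNCs, Finset.mem_biUnion]
    constructor
    · intro he
      obtain ⟨k, hk, hke⟩ := hJ.cov e he
      exact ⟨k, hk, mem_sup.2 ⟨NC_notMem hS he, hke⟩⟩
    · rintro ⟨k, hk, hke⟩
      rw [mem_sup] at hke
      exact hJ.nc k hk e hke.1 hke.2
  have hdisj : ∀ k ∈ J, ∀ k' ∈ J, k ≠ k' → Disjoint (sup c T k) (sup c T k') := by
    intro k hk k' hk' hne
    rw [Finset.disjoint_left]
    intro e h2 h3
    rw [mem_sup] at h2 h3
    exact hne (hJ.dj k hk k' hk' e h2.1 h2.2 h3.2)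
  have hcard : ∑ k ∈ J, (sup c T k).card = 2 * J.card := by
    rw [hnum, hcov, Finset.card_biUnion hdisj]
  have h2eq : ∀ k ∈ J, (sup c T k).card = 2 := by
    have h3 : ∑ k ∈ J, 2 = ∑ k ∈ J, (sup c T k).card := by
      rw [hcard, Finset.sum_const, smul_eq_mul, mul_comm]
    intro k hk
    exact ((Finset.sum_eq_sum_iff_of_le h2le).1 h3 k hk).symm
  have hch : ∀ v, ∃ k w, NC V v → k ∈ J ∧ w ≠ v ∧ sup c T k = {v, w} := by
    intro v
    by_cases hv : NC V v
    · obtain ⟨k, hk, hkv⟩ := hJ.cov v hv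
      have hmem : v ∈ sup c T k := mem_sup.2 ⟨NC_notMem hS hv, hkv⟩
      obtain ⟨a, b, hab, hs⟩ := Finset.card_eq_two.1 (h2eq k hk)
      rw [hs, Finset.mem_insert, Finset.mem_singleton] at hmem
      rcases hmem with rfl | rfl
      · exact ⟨k, b, fun _ => ⟨hk, hab.symm, hs⟩⟩
      · exact ⟨k, a, fun _ => ⟨hk, hab, by rw [hs, Finset.pair_comm]⟩⟩
    · obtain ⟨k, hk⟩ : J.Nonempty := by
        obtain ⟨e, he⟩ : ∃ e, ξ e ≠ 0 := by
          by_contra hcon
          push Not at hcon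
          exact h0 (funext hcon)
        obtain ⟨k, hk, -⟩ := hJ.cov e ⟨ξ, hξ, he⟩
        exact ⟨k, hk⟩
      exact ⟨k, v, fun h => absurd h hv⟩
  choose j m hjm using hch
  have hone : ∀ k ∈ J, ∀ e ∈ sup c T k, c k e = 1 := by
    intro k hk e he
    rw [mem_sup] at he
    have h3 := hJ.zo k hk e he.1
    have h4 := Nat.one_le_iff_ne_zero.2 he.2
    omega
  have hm_mem : ∀ v, NC V v → m v ∈ sup c T (j v) := fun v hv => by
    rw [(hjm v hv).2.2]
    exact Finset.mem_insert_of_mem (Finset.mem_singleton_self _)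
  have hv_mem : ∀ v, NC V v → v ∈ sup c T (j v) := fun v hv => by
    rw [(hjm v hv).2.2]
    exact Finset.mem_insert_self _ _
  have hmNC : ∀ v, NC V v → NC V (m v) := fun v hv => by
    have h3 := mem_sup.1 (hm_mem v hv)
    exact hJ.nc _ (hjm v hv).1 _ h3.1 h3.2
  have hjj : ∀ v, NC V v → j (m v) = j v := fun v hv => by
    have h3 := mem_sup.1 (hm_mem v hv)
    have h4 := mem_sup.1 (hv_mem (m v) (hmNC v hv))
    exact hJ.dj _ (hjm _ (hmNC v hv)).1 _ (hjm v hv).1 (m v) h3.1 h4.2 h3.2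
  refine ⟨m, j, ⟨hmNC, ?_, fun v hv => (hjm v hv).2.1, hjj, fun v hv => hJ.sub (hjm v hv).1,
    fun v hv => hone _ (hjm v hv).1 v (hv_mem v hv), ?_⟩, fun v hv => (hjm v hv).1, ?_⟩
  · intro v hv
    have h3 := hv_mem v hv
    rw [← hjj v hv, (hjm _ (hmNC v hv)).2.2, Finset.mem_insert, Finset.mem_singleton] at h3
    rcases h3 with h3 | h3
    · exact absurd h3.symm (hjm v hv).2.1
    · exact h3.symm
  · intro v hv e he
    by_cases heT : e ∈ T
    · exact Or.inl heT
    · right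
      have h3 : e ∈ sup c T (j v) := mem_sup.2 ⟨heT, he⟩
      rw [(hjm v hv).2.2, Finset.mem_insert, Finset.mem_singleton] at h3
      exact h3
  · intro k hk
    have h3 := h2eq k hk
    obtain ⟨e, he⟩ : (sup c T k).Nonempty := by
      rw [← Finset.card_pos, h3]
      norm_num
    have he' := mem_sup.1 he
    have heNC := hJ.nc k hk e he'.1 he'.2
    exact ⟨e, heNC, hJ.dj _ (hjm e heNC).1 k hk e he'.1 (mem_sup.1 (hv_mem e heNC)).2 he'.2⟩

end MPb07157.EX
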