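import Pool.Agent.Lib.MP_b07157_ag.EX.PDefs

/-!
# Flow
-/

namespace MPb07157.EX


open Finset

variable {ι κ : Type} [Fintype ι] [DecidableEq ι] [DecidableEq κ]
variable {c : κ → ι → ℕ} {N C : Finset κ} {D : ι → F} {T₀ T : Finset ι} {s : F}
  {m : ι → ι} {j : ι → κ}

/-- Difference of the two distributions, in terms of elements (no matching involved). -/
theorem kap_sum (D : ι → F) (G : F → ℚ) :
    ∑ φ ∈ Phi D, kap D φ * G φ = ∑ e, (G (D e) - G (o - D e)) := by
  have h1 : ∀ φ, kap D φ * G φ = (∑ e, if D e = φ then G φ else 0) -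
      ∑ e, if o - D e = φ then G φ else 0 := by
    intro φ
    unfold kap
    rw [sub_mul, Finset.card_filter, Finset.card_filter]
    push_cast
    rw [Finset.sum_mul, Finset.sum_mul]
    congr 1
    · apply Finset.sum_congr rfl
      intro e _
      by_cases h : D e = φ
      · rw [if_pos h, if_pos h, one_mul]
      · rw [if_neg h, if_neg h, zero_mul]
    · apply Finset.sum_congr rfl
      intro e _
      by_cases h : D e = o - φ
      · have h' : o - D e = φ := by rw [h, sub_sub_cancel]
        rw [if_pos h, if_pos h', one_mul]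
      · have h' : ¬ o - D e = φ := fun h' => h (by rw [← h', sub_sub_cancel])
        rw [if_neg h, if_neg h', zero_mul]
  rw [Finset.sum_congr rfl (fun φ _ => h1 φ), Finset.sum_sub_distrib, Finset.sum_sub_distrib]
  congr 1
  · rw [Finset.sum_comm]
    apply Finset.sum_congr rfl
    intro e _
    rw [Finset.sum_ite_eq (Phi D) (D e) (fun φ => G φ), if_pos]
    unfold Phi
    exact Finset.mem_union_left _ (Finset.mem_image_of_mem _ (Finset.mem_univ _))
  · rw [Finset.sum_comm]
    apply Finset.sum_congr rfl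
    intro e _
    rw [Finset.sum_ite_eq (Phi D) (o - D e) (fun φ => G φ), if_pos]
    unfold Phi
    exact Finset.mem_union_right _ (Finset.mem_image_of_mem (fun e => o - D e) (Finset.mem_univ _))

/-- FLOW.  `∑_e (G (D e) - G (o - D e))`: the elements with `det s (D e) = 0` do not contribute;
for the others `∑_v G (o - D v) = ∑_v G (o - D (m v))` (`m` is a bijection) and
`o - D (m v) = D v + α v • s`. -/
theorem flow {α : ι → ℚ} (hM : PMD c N D T₀ T s m j)
    (hα : ∀ v, det s (D v) ≠ 0 → D v + D (m v) + α v • s = o) (G : F → ℚ)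
    (hG : ∀ φ, det s φ = 0 → G φ = 0) :
    ∑ φ ∈ Phi D, kap D φ * G φ =
      ∑ v ∈ univ.filter fun v => det s (D v) ≠ 0, (G (D v) - G (D v + α v • s)) := by
  rw [kap_sum]
  have h1 : ∑ e, (G (D e) - G (o - D e)) =
      ∑ v ∈ univ.filter fun v => det s (D v) ≠ 0, (G (D v) - G (o - D v)) := by
    rw [Finset.sum_filter]
    apply Finset.sum_congr rfl
    intro e _
    by_cases h : det s (D e) = 0
    · rw [if_neg (fun h' => h' h), hG _ h, hG, sub_zero]
      rw [det_sub_right, h, det_o_right, sub_zero]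
    · rw [if_pos h]
  rw [h1, Finset.sum_sub_distrib, Finset.sum_sub_distrib]
  congr 1
  refine Finset.sum_bij (fun v _ => m v) ?_ ?_ ?_ ?_
  · intro v hv
    rw [Finset.mem_filter] at hv ⊢
    exact ⟨Finset.mem_univ _, hM.nc v hv.2⟩
  · intro v hv w hw h
    rw [Finset.mem_filter] at hv hw
    have h2 : m (m v) = m (m w) := congrArg m h
    rwa [hM.inv v hv.2, hM.inv w hw.2] at h2
  · intro v hv
    rw [Finset.mem_filter] at hv
    exact ⟨m v, Finset.mem_filter.2 ⟨Finset.mem_univ _, hM.nc v hv.2⟩, hM.inv v hv.2⟩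
  · intro v hv
    rw [Finset.mem_filter] at hv
    have hmv := hM.nc v hv.2
    have h3 := hα (m v) hmv
    rw [hM.inv v hv.2] at h3
    congr 1
    rw [← h3]
    abel

end MPb07157.EX
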