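import Pool.Agent.Lib.MP_b07157_ag.EX.PA1
import Pool.Agent.Lib.MP_b07157_ag.EX.PA2

/-!
# Symmetry of kap
-/

namespace MPb07157.EX


open Finset

variable {ι κ : Type} [Fintype ι] [DecidableEq ι] [DecidableEq κ]
variable {c : κ → ι → ℕ} {N C : Finset κ} {D : ι → F} {T₀ T : Finset ι} {s : F}
  {m : ι → ι} {j : ι → κ}

theorem kap_neg (D : ι → F) (φ : F) : kap D (o - φ) = -kap D φ := by
  unfold kap
  rw [sub_sub_cancel]
  ring

theorem mem_Phi {φ : F} (h : kap D φ ≠ 0) : φ ∈ Phi D := by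
  by_contra h1
  apply h
  unfold Phi at h1
  rw [Finset.mem_union, not_or] at h1
  unfold kap
  have h2 : (univ.filter fun e => D e = φ) = ∅ := by
    rw [Finset.filter_eq_empty_iff]
    intro e _ he
    exact h1.1 (Finset.mem_image.2 ⟨e, Finset.mem_univ e, he⟩)
  have h3 : (univ.filter fun e => D e = o - φ) = ∅ := by
    rw [Finset.filter_eq_empty_iff]
    intro e _ he
    exact h1.2 (Finset.mem_image.2 ⟨e, Finset.mem_univ e, by rw [he, sub_sub_cancel]⟩)
  rw [h2, h3]
  simp

end MPb07157.EX
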