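import Pool.Agent.Lib.MP_b07157_ag.EX.PDefs

/-!
# The jump of the matching columns
-/

namespace MPb07157.EX


open Finset

variable {ι κ : Type} [Fintype ι] [DecidableEq ι] [DecidableEq κ]
variable {c : κ → ι → ℕ} {N C : Finset κ} {D : ι → F} {T₀ T : Finset ι} {s : F}
  {m : ι → ι} {j : ι → κ}

/-- The jump: `D v + D (m v) + α s = 1`, where `α s` is the part of the column `j v` in `T`. -/
theorem exists_al (hP : PSys c N C D T₀) (hT : Mt c N C D T₀ T s) (hM : PMD c N D T₀ T s m j) :
    ∃ α : ι → ℚ, ∀ v, det s (D v) ≠ 0 → 0 ≤ α v ∧ D v + D (m v) + α v • s = o ∧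
      α (m v) = α v ∧ (0 < α v ↔ Spec c T (j v)) := by
  classical
  have hmul := hT.mul
  choose! a ha0 ha using hmul
  have hTdet : ∀ f ∈ T, det s (D f) = 0 := by
    intro f hf
    rw [ha f hf, det_smul_right, det_self, mul_zero]
  refine ⟨fun v => ∑ f ∈ T, (c (j v) f : ℚ) * a f, ?_⟩
  intro v hv
  have hmv := hM.nc v hv
  have hne : m v ≠ v := hM.ne v hv
  have hvT : v ∉ T := fun h => hv (hTdet v h)
  have hmvT : m v ∉ T := fun h => hmv (hTdet (m v) h)
  have hnn : ∀ f ∈ T, 0 ≤ (c (j v) f : ℚ) * a f := fun f hf =>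
    mul_nonneg (Nat.cast_nonneg _) (ha0 f hf).le
  refine ⟨Finset.sum_nonneg hnn, ?_, ?_, ?_⟩
  · have hcol := hP.col (j v) (hM.mem v hv)
    have h1 : c (j v) v = 1 := hM.val v hv
    have h2 : c (j v) (m v) = 1 := by
      have := hM.val (m v) hmv
      rwa [hM.jm v hv] at this
    have hpt : ∀ e, (c (j v) e : ℚ) • D e = (if e = v then D v else 0) +
        (if e = m v then D (m v) else 0) + (if e ∈ T then ((c (j v) e : ℚ) * a e) • s else 0) := by
      intro e
      by_cases hev : e = v
      · subst hev
        rw [if_pos rfl, if_neg (fun h => hne h.symm), if_neg hvT, h1]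
        simp
      · by_cases hemv : e = m v
        · rw [hemv, if_neg hne, if_pos rfl, if_neg hmvT, h2]
          simp
        · rw [if_neg hev, if_neg hemv]
          by_cases heT : e ∈ T
          · rw [if_pos heT, zero_add, zero_add, ha e heT, smul_smul]
          · rw [if_neg heT]
            by_cases hc : c (j v) e = 0
            · rw [hc]; simp
            · have h3 := hM.supp v hv e hc
              rcases h3 with h3 | h3 | h3
              · rw [Finset.mem_union] at h3
                rcases h3 with h3 | h3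
                · rw [hP.zero e h3]; simp
                · exact absurd h3 heT
              · exact absurd h3 hev
              · exact absurd h3 hemv
    rw [Finset.sum_congr rfl (fun e _ => hpt e), Finset.sum_add_distrib, Finset.sum_add_distrib,
      Finset.sum_ite_eq' univ v, Finset.sum_ite_eq' univ (m v), if_pos (Finset.mem_univ _),
      if_pos (Finset.mem_univ _), ← Finset.sum_filter] at hcol
    rw [← hcol, Finset.sum_smul]
    congr 1
    apply Finset.sum_congr _ (fun _ _ => rfl)
    ext e
    simp
  · show ∑ f ∈ T, (c (j (m v)) f : ℚ) * a f = ∑ f ∈ T, (c (j v) f : ℚ) * a f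
    rw [hM.jm v hv]
  · show 0 < ∑ f ∈ T, (c (j v) f : ℚ) * a f ↔ Spec c T (j v)
    constructor
    · intro hpos
      by_contra hS
      have hz : ∑ f ∈ T, (c (j v) f : ℚ) * a f = 0 := by
        apply Finset.sum_eq_zero
        intro f hf
        have : c (j v) f = 0 := by
          by_contra hc
          exact hS ⟨f, hf, hc⟩
        rw [this]
        simp
      rw [hz] at hpos
      exact lt_irrefl _ hpos
    · rintro ⟨f, hf, hc⟩
      refine lt_of_lt_of_le ?_ (Finset.single_le_sum hnn hf)
      exact mul_pos (Nat.cast_pos.2 (Nat.pos_of_ne_zero hc)) (ha0 f hf)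

end MPb07157.EX
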