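import Pool.Agent.Lib.MP_b07157_ag.EX.PA

/-!
# Consequences of the flow
-/

namespace MPb07157.EX

open Finset

variable {ι κ : Type} [Fintype ι] [DecidableEq ι] [DecidableEq κ]
variable {c : κ → ι → ℕ} {N C : Finset κ} {D : ι → F} {T₀ T : Finset ι} {s : F}
  {m : ι → ι} {j : ι → κ}

open Classical in
/-- indicator function of the points `φ + l s` with `L l` -/
private noncomputable def pbG (L : ℚ → Prop) (φ s ψ : F) : ℚ :=
  if ∃ l, L l ∧ ψ = φ + l • s then 1 else 0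

private theorem pbG_one {L : ℚ → Prop} {φ s ψ : F} (h : ∃ l, L l ∧ ψ = φ + l • s) :
    pbG L φ s ψ = 1 := if_pos h

private theorem pbG_zero {L : ℚ → Prop} {φ s ψ : F} (h : ¬ ∃ l, L l ∧ ψ = φ + l • s) :
    pbG L φ s ψ = 0 := if_neg h

private theorem pbG_ne {L : ℚ → Prop} {φ s ψ : F} (h : pbG L φ s ψ ≠ 0) :
    ∃ l, L l ∧ ψ = φ + l • s := by
  by_contra h1
  exact h (pbG_zero h1)

private theorem pbG_det {L : ℚ → Prop} {φ s ψ : F} (hφ : det s φ ≠ 0) (h : det s ψ = 0) :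
    pbG L φ s ψ = 0 := by
  refine pbG_zero ?_
  rintro ⟨l, -, rfl⟩
  rw [det_add_right, det_smul_right, det_self, mul_zero, add_zero] at h
  exact hφ h

private theorem pbG_nonneg (L : ℚ → Prop) (φ s ψ : F) : 0 ≤ pbG L φ s ψ := by
  unfold pbG
  split_ifs <;> norm_num

private theorem pbG_le (L : ℚ → Prop) (φ s ψ : F) : pbG L φ s ψ ≤ 1 := by
  unfold pbG
  split_ifs <;> norm_num

private theorem pb_ne (hT : Mt c N C D T₀ T s) : s ≠ 0 := by
  intro h
  exact hT.s2 (by rw [h]; rfl)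

private theorem pb_inj (hT : Mt c N C D T₀ T s) {φ : F} {a b : ℚ} (h : φ + a • s = φ + b • s) :
    a = b := by
  have h1 : a • s = b • s := add_left_cancel h
  exact smul_left_injective ℚ (pb_ne hT) h1

private theorem pb_flow (hP : PSys c N C D T₀) (hT : Mt c N C D T₀ T s) {φ : F}
    (hφ : det s φ ≠ 0) (L : ℚ → Prop) : ∃ α : ι → ℚ, (∀ v, det s (D v) ≠ 0 → 0 ≤ α v) ∧
    ∑ ψ ∈ Phi D, kap D ψ * pbG L φ s ψ =
      ∑ v ∈ univ.filter fun v => det s (D v) ≠ 0,
        (pbG L φ s (D v) - pbG L φ s (D v + α v • s)) := by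
  obtain ⟨m, j, hM, -⟩ := hP.ex T s hT
  obtain ⟨α, hα⟩ := exists_al hP hT hM
  exact ⟨α, fun v hv => (hα v hv).1, flow hM (fun v hv => (hα v hv).2.1) _
    fun ψ hψ => pbG_det hφ hψ⟩

private theorem pb_single {φ : F} {L : ℚ → Prop} (hk : kap D φ ≠ 0) (h0 : L 0)
    (h : ∀ l : ℚ, L l → l ≠ 0 → kap D (φ + l • s) = 0) :
    ∑ ψ ∈ Phi D, kap D ψ * pbG L φ s ψ = kap D φ := by
  rw [Finset.sum_eq_single φ]
  · rw [pbG_one ⟨0, h0, by rw [zero_smul, add_zero]⟩, mul_one]
  · intro ψ _ hψ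
    by_cases hG : pbG L φ s ψ = 0
    · rw [hG, mul_zero]
    · obtain ⟨l, hl, rfl⟩ := pbG_ne hG
      have hl0 : l ≠ 0 := by
        rintro rfl
        exact hψ (by rw [zero_smul, add_zero])
      rw [h l hl hl0, zero_mul]
  · intro h1
    exact absurd (mem_Phi hk) h1

/-- The first point of the support of `kap` on a line in the direction `s` has `kap > 0`.  Proof:
`flow` with `G` = indicator of `{φ + λ s : λ ≤ 0}` (exists by `PSys.ex`, `exists_al`; `α ≥ 0`, so
the right hand side is nonnegative); the left hand side is `kap φ`. -/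
theorem kap_first (hP : PSys c N C D T₀) (hT : Mt c N C D T₀ T s) {φ : F} (hφ : det s φ ≠ 0)
    (hk : kap D φ ≠ 0) (h : ∀ l : ℚ, l < 0 → kap D (φ + l • s) = 0) : 0 < kap D φ := by
  obtain ⟨α, hα, hf⟩ := pb_flow hP hT hφ (fun l => l ≤ 0)
  rw [pb_single (L := fun l => l ≤ 0) hk le_rfl
    fun l hl hl0 => h l (lt_of_le_of_ne hl hl0)] at hf
  refine lt_of_le_of_ne ?_ (Ne.symm hk)
  rw [hf]
  refine Finset.sum_nonneg fun v hv => ?_
  rw [Finset.mem_filter] at hv
  by_cases hG : pbG (fun l => l ≤ 0) φ s (D v + α v • s) = 0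
  · rw [hG, sub_zero]
    exact pbG_nonneg _ _ _ _
  · obtain ⟨l, hl, he⟩ := pbG_ne hG
    have h1 : D v = φ + (l - α v) • s := by
      rw [sub_smul, ← add_sub_assoc, ← he, add_sub_cancel_right]
    rw [pbG_one (ψ := D v) ⟨l - α v, by have := hα v hv.2; linarith, h1⟩]
    linarith [pbG_le (fun l => l ≤ 0) φ s (D v + α v • s)]

/-- The last point has `kap < 0` (`G` = indicator of `{φ + λ s : λ ≥ 0}`). -/
theorem kap_last (hP : PSys c N C D T₀) (hT : Mt c N C D T₀ T s) {φ : F} (hφ : det s φ ≠ 0)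
    (hk : kap D φ ≠ 0) (h : ∀ l : ℚ, 0 < l → kap D (φ + l • s) = 0) : kap D φ < 0 := by
  obtain ⟨α, hα, hf⟩ := pb_flow hP hT hφ (fun l => 0 ≤ l)
  rw [pb_single (L := fun l => 0 ≤ l) hk le_rfl
    fun l hl hl0 => h l (lt_of_le_of_ne hl (Ne.symm hl0))] at hf
  refine lt_of_le_of_ne ?_ hk
  rw [hf]
  refine Finset.sum_nonpos fun v hv => ?_
  rw [Finset.mem_filter] at hv
  by_cases hG : pbG (fun l => 0 ≤ l) φ s (D v) = 0
  · rw [hG]
    linarith [pbG_nonneg (fun l => 0 ≤ l) φ s (D v + α v • s)]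
  · obtain ⟨l, hl, he⟩ := pbG_ne hG
    have h1 : D v + α v • s = φ + (l + α v) • s := by
      rw [he, add_smul, add_assoc]
    rw [pbG_one (ψ := D v + α v • s) ⟨l + α v, by have := hα v hv.2; linarith, h1⟩]
    linarith [pbG_le (fun l => 0 ≤ l) φ s (D v)]

/-- If the support on the line is contained in two points then the sum of the two values is zero
(`G` = indicator of the line). -/
theorem kap_two (hP : PSys c N C D T₀) (hT : Mt c N C D T₀ T s) {φ : F} (hφ : det s φ ≠ 0)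
    {a : ℚ} (ha : a ≠ 0) (h : ∀ l : ℚ, l ≠ 0 → l ≠ a → kap D (φ + l • s) = 0) :
    kap D (φ + a • s) = -kap D φ := by
  obtain ⟨α, hα, hf⟩ := pb_flow hP hT hφ (fun _ => True)
  have hr : ∑ v ∈ univ.filter fun v => det s (D v) ≠ 0,
      (pbG (fun _ => True) φ s (D v) - pbG (fun _ => True) φ s (D v + α v • s)) = 0 := by
    refine Finset.sum_eq_zero fun v _ => ?_
    by_cases hG : ∃ l : ℚ, True ∧ D v = φ + l • s
    · obtain ⟨l, -, he⟩ := hG
      rw [pbG_one (ψ := D v) ⟨l, trivial, he⟩, pbG_one (ψ := D v + α v • s)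
        ⟨l + α v, trivial, by rw [he, add_smul, add_assoc]⟩, sub_self]
    · have hG' : ¬ ∃ l : ℚ, True ∧ D v + α v • s = φ + l • s := by
        rintro ⟨l, -, he⟩
        refine hG ⟨l - α v, trivial, ?_⟩
        rw [sub_smul, ← add_sub_assoc, ← he, add_sub_cancel_right]
      rw [pbG_zero hG, pbG_zero hG', sub_self]
  rw [hr] at hf
  have hne : φ ≠ φ + a • s := by
    intro h1
    apply ha
    have h2 : φ + (0 : ℚ) • s = φ + a • s := by rw [zero_smul, add_zero]; exact h1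
    exact (pb_inj hT h2).symm
  have h1 : ∑ ψ ∈ Phi D, kap D ψ * pbG (fun _ => True) φ s ψ =
      ∑ ψ ∈ Phi D ∪ {φ, φ + a • s}, kap D ψ * pbG (fun _ => True) φ s ψ := by
    refine Finset.sum_subset Finset.subset_union_left fun ψ _ hψ => ?_
    have h2 : kap D ψ = 0 := by
      by_contra h3
      exact hψ (mem_Phi h3)
    rw [h2, zero_mul]
  have h2 : ∑ ψ ∈ ({φ, φ + a • s} : Finset F), kap D ψ * pbG (fun _ => True) φ s ψ =
      ∑ ψ ∈ Phi D ∪ {φ, φ + a • s}, kap D ψ * pbG (fun _ => True) φ s ψ := by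
    refine Finset.sum_subset Finset.subset_union_right fun ψ _ hψ => ?_
    by_cases hG : pbG (fun _ => True) φ s ψ = 0
    · rw [hG, mul_zero]
    · obtain ⟨l, -, rfl⟩ := pbG_ne hG
      have h3 : l ≠ 0 := by
        rintro rfl
        exact hψ (by simp)
      have h4 : l ≠ a := by
        rintro rfl
        exact hψ (by simp)
      rw [h l h3 h4, zero_mul]
  rw [h1, ← h2, Finset.sum_pair hne, pbG_one ⟨0, trivial, by rw [zero_smul, add_zero]⟩,
    pbG_one ⟨a, trivial, rfl⟩] at hf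
  linarith

/-- A special column of `T` forces `kap ≠ 0` somewhere on its line (`G` = indicator of
`{D v + λ s : λ ≤ 0}`; the term of `v` in the flow is `1`). -/
theorem kap_spec (hP : PSys c N C D T₀) (hT : Mt c N C D T₀ T s) (hM : PMD c N D T₀ T s m j)
    {v : ι} (hv : det s (D v) ≠ 0) (hs : Spec c T (j v)) :
    ∃ l : ℚ, kap D (D v + l • s) ≠ 0 := by
  by_contra hcon
  push Not at hcon
  obtain ⟨α, hα⟩ := exists_al hP hT hM
  have hf := flow hM (fun v hv => (hα v hv).2.1) (pbG (fun l => l ≤ 0) (D v) s)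
    fun ψ hψ => pbG_det hv hψ
  have h1 : ∑ ψ ∈ Phi D, kap D ψ * pbG (fun l => l ≤ 0) (D v) s ψ = 0 := by
    refine Finset.sum_eq_zero fun ψ _ => ?_
    by_cases hG : pbG (fun l => l ≤ 0) (D v) s ψ = 0
    · rw [hG, mul_zero]
    · obtain ⟨l, -, rfl⟩ := pbG_ne hG
      rw [hcon l, zero_mul]
  rw [h1] at hf
  have h2 : 0 < ∑ u ∈ univ.filter fun u => det s (D u) ≠ 0,
      (pbG (fun l => l ≤ 0) (D v) s (D u) - pbG (fun l => l ≤ 0) (D v) s (D u + α u • s)) := by
    refine Finset.sum_pos' ?_ ⟨v, Finset.mem_filter.2 ⟨Finset.mem_univ v, hv⟩, ?_⟩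
    · intro u hu
      rw [Finset.mem_filter] at hu
      by_cases hG : pbG (fun l => l ≤ 0) (D v) s (D u + α u • s) = 0
      · rw [hG, sub_zero]
        exact pbG_nonneg _ _ _ _
      · obtain ⟨l, hl, he⟩ := pbG_ne hG
        have h3 : D u = D v + (l - α u) • s := by
          rw [sub_smul, ← add_sub_assoc, ← he, add_sub_cancel_right]
        rw [pbG_one (ψ := D u) ⟨l - α u, by have := (hα u hu.2).1; linarith, h3⟩]
        linarith [pbG_le (fun l => l ≤ 0) (D v) s (D u + α u • s)]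
    · have h3 : 0 < α v := (hα v hv).2.2.2.2 hs
      rw [pbG_one (L := fun l => l ≤ 0) (ψ := D v) ⟨0, le_rfl, by rw [zero_smul, add_zero]⟩,
        pbG_zero]
      · norm_num
      · rintro ⟨l, hl, he⟩
        have h4 := pb_inj hT he
        linarith
  rw [← hf] at h2
  exact lt_irrefl _ h2

end MPb07157.EX
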