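import Pool.Agent.Lib.MP_b07157_ag.EX.PC2

/-!
# Classes without matched sets
-/

namespace MPb07157.EX


open Finset

variable {ι κ : Type} [Fintype ι] [DecidableEq ι] [DecidableEq κ]
variable {c : κ → ι → ℕ} {N C : Finset κ} {D : ι → F} {T₀ T T' : Finset ι} {s s' : F}
  {m : ι → ι} {j : ι → κ}

/-- (2.4) `kap` vanishes on the classes without matched set.  Proof: otherwise take `ψ` in the
class of `φ` (`ψ.2 = a • φ.2`) with `kap ψ ≠ 0` and `|a|` maximal (finitely many: `mem_Phi`), by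
`kap_neg` we may assume `kap ψ > 0`; `kap (α • ψ) = 0` for `α > 1`; `threshold` gives
`kap ψ ≤ 0`. -/
theorem kap_nonbad (hP : PSys c N C D T₀) (hT' : Mt c N C D T₀ T' s') {φ : F} (hφ : φ.2 ≠ 0)
    (h : ∀ T s, Mt c N C D T₀ T s → det s φ ≠ 0) : kap D φ = 0 := by
  classical
  by_contra hk
  set g : F → ℚ := fun ψ => |ψ.2.1| + |ψ.2.2| with hg
  have hgs : ∀ (a : ℚ) (χ ψ : F), ψ.2 = a • χ.2 → g ψ = |a| * g χ := by
    intro a χ ψ hψ
    have h1 : ψ.2.1 = a * χ.2.1 := by rw [hψ]; rfl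
    have h2 : ψ.2.2 = a * χ.2.2 := by rw [hψ]; rfl
    simp only [hg]
    rw [h1, h2, abs_mul, abs_mul]
    ring
  have hgpos : ∀ ψ : F, ψ.2 ≠ 0 → 0 < g ψ := by
    intro ψ hψ
    simp only [hg]
    rcases lt_or_eq_of_le (add_nonneg (abs_nonneg ψ.2.1) (abs_nonneg ψ.2.2)) with h1 | h1
    · exact h1
    · exfalso
      apply hψ
      have h2 : |ψ.2.1| = 0 := by linarith [abs_nonneg ψ.2.1, abs_nonneg ψ.2.2]
      have h3 : |ψ.2.2| = 0 := by linarith [abs_nonneg ψ.2.1, abs_nonneg ψ.2.2]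
      exact Prod.ext (abs_eq_zero.1 h2) (abs_eq_zero.1 h3)
  set A : Finset F := (Phi D).filter fun ψ => kap D ψ ≠ 0 ∧ ∃ a : ℚ, ψ.2 = a • φ.2 with hA
  have hφA : φ ∈ A := by
    rw [hA, Finset.mem_filter]
    exact ⟨mem_Phi hk, hk, 1, by rw [one_smul]⟩
  obtain ⟨ψ₀, hψ₀A, hmax⟩ := Finset.exists_max_image A g ⟨φ, hφA⟩
  have hψ₀ : kap D ψ₀ ≠ 0 ∧ ∃ a : ℚ, ψ₀.2 = a • φ.2 := (Finset.mem_filter.1 hψ₀A).2
  -- the sign
  obtain ⟨ψ, hψk, ⟨a, ha⟩, hψmax⟩ : ∃ ψ : F, 0 < kap D ψ ∧ (∃ a : ℚ, ψ.2 = a • φ.2) ∧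
      ∀ χ ∈ A, g χ ≤ g ψ := by
    rcases lt_or_gt_of_ne hψ₀.1 with h1 | h1
    · refine ⟨o - ψ₀, by rw [kap_neg]; linarith, ?_, ?_⟩
      · obtain ⟨a, ha⟩ := hψ₀.2
        refine ⟨-a, ?_⟩
        rw [Prod.snd_sub, ha, neg_smul]
        change (0 : ℚ × ℚ) - a • φ.2 = -(a • φ.2)
        rw [zero_sub]
      · intro χ hχ
        have e1 : g (o - ψ₀) = |(-1 : ℚ)| * g ψ₀ := by
          apply hgs
          rw [Prod.snd_sub]
          change (0 : ℚ × ℚ) - ψ₀.2 = (-1 : ℚ) • ψ₀.2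
          rw [zero_sub, neg_smul, one_smul]
        rw [e1]
        simpa using hmax χ hχ
    · exact ⟨ψ₀, h1, hψ₀.2, hmax⟩
  have hgψ : 0 < g ψ := lt_of_lt_of_le (hgpos φ hφ) (hψmax φ hφA)
  have hψ2 : ψ.2 ≠ 0 := by
    intro h0
    have h1 : ψ.2.1 = 0 := by rw [h0]; rfl
    have h2 : ψ.2.2 = 0 := by rw [h0]; rfl
    simp only [hg] at hgψ
    rw [h1, h2] at hgψ
    simp at hgψ
  have hbig : ∀ α : ℚ, 1 < α → kap D (α • ψ) = 0 := by
    intro α hα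
    by_contra h1
    have h2 : α • ψ ∈ A := by
      rw [hA, Finset.mem_filter]
      refine ⟨mem_Phi h1, h1, α * a, ?_⟩
      rw [Prod.smul_snd, ha, mul_smul]
    have h3 := hψmax _ h2
    rw [hgs α ψ (α • ψ) (Prod.smul_snd _ _), abs_of_pos (by linarith)] at h3
    nlinarith
  have hdet : det ψ φ = 0 := by
    have h1 : ψ.2.1 = a * φ.2.1 := by rw [ha]; rfl
    have h2 : ψ.2.2 = a * φ.2.2 := by rw [ha]; rfl
    unfold det
    rw [h1, h2]; ring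
  set G : F → ℚ := fun χ => if ∃ α : ℚ, 1 ≤ α ∧ χ = α • ψ then 1 else 0 with hG
  have hthr := threshold (ψ := ψ) hP hT' hψ2 (fun T _ _ hM => h T ψ hM hdet) G
    (fun χ hχ => by simp only [hG]; rw [if_pos hχ])
    (fun χ hχ => by simp only [hG]; rw [if_neg hχ])
  have hsum : ∑ χ ∈ Phi D, kap D χ * G χ = kap D ψ := by
    rw [Finset.sum_eq_single ψ]
    · simp only [hG]
      rw [if_pos ⟨1, le_rfl, (one_smul _ _).symm⟩, mul_one]
    · intro χ _ hχ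
      simp only [hG]
      split_ifs with h1
      · obtain ⟨α, h2, h3⟩ := h1
        rcases lt_or_eq_of_le h2 with h4 | h4
        · rw [h3, hbig α h4, zero_mul]
        · exact absurd (by rw [h3, ← h4, one_smul]) hχ
      · rw [mul_zero]
    · intro h1
      exact absurd (mem_Phi hψk.ne') h1
  rw [hsum] at hthr
  linarith

end MPb07157.EX
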