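import Pool.Agent.Lib.MP_b07157_ag.EX.PB

/-!
# Scaling, no trivial singles, two matched sets
-/

namespace MPb07157.EX


open Finset

variable {ι κ : Type} [Fintype ι] [DecidableEq ι] [DecidableEq κ]
variable {c : κ → ι → ℕ} {N C : Finset κ} {D : ι → F} {T₀ T T' : Finset ι} {s s' : F}
  {m : ι → ι} {j : ι → κ}

omit [DecidableEq ι] [DecidableEq κ] in
private theorem sum_supp {k : κ} (A : Finset ι) (h : ∀ e, e ∉ A → c k e = 0 ∨ D e = 0) :
    ∑ e, (c k e : ℚ) • D e = ∑ e ∈ A, (c k e : ℚ) • D e := by
  symm
  refine Finset.sum_subset (Finset.subset_univ A) fun e _ he => ?_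
  rcases h e he with h1 | h1
  · rw [h1]; simp
  · rw [h1]; simp

/-- Positive multiples of `s`. -/
theorem Mt.smul (h : Mt c N C D T₀ T s) {a : ℚ} (ha : 0 < a) : Mt c N C D T₀ T (a • s) := by
  refine ⟨h.ne, ?_, ?_, ?_⟩
  · rw [Prod.smul_snd]
    exact smul_ne_zero ha.ne' h.s2
  · intro f hf
    obtain ⟨α, h1, h2⟩ := h.mul f hf
    refine ⟨α / a, div_pos h1 ha, ?_⟩
    rw [smul_smul, div_mul_cancel₀ _ ha.ne', h2]
  · intro w β hw
    rw [smul_smul] at hw
    exact h.q w (β * a) hw

/-- Scaling of `s`. -/
theorem PMD.smul (h : PMD c N D T₀ T s m j) {a : ℚ} (ha : a ≠ 0) :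
    PMD c N D T₀ T (a • s) m j := by
  have key : ∀ v, det (a • s) (D v) ≠ 0 ↔ det s (D v) ≠ 0 := fun v => by
    rw [det_smul_left]
    exact ⟨fun h1 h2 => h1 (by rw [h2, mul_zero]), fun h1 => mul_ne_zero ha h1⟩
  exact ⟨fun v hv => (key _).2 (h.nc v ((key v).1 hv)), fun v hv => h.inv v ((key v).1 hv),
    fun v hv => h.ne v ((key v).1 hv), fun v hv => h.jm v ((key v).1 hv),
    fun v hv => h.mem v ((key v).1 hv), fun v hv => h.val v ((key v).1 hv),
    fun v hv => h.supp v ((key v).1 hv)⟩

/-- No trivial singles (if there is a matched set): a column whose support outside `T₀` is only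
its owner.  Proof: `T₀ ∪ T'` also has this owner: `U (T₀ ∪ T') w = {k}`, because a column `k'` in it
satisfies `D w + ∑_{f ∈ T'} c k' f • D f = o`, `D w = o`, so `c k' f = 0` on `T'`; contradiction to
`Mt.q` with `β = 0`. -/
theorem no_trivial (hP : PSys c N C D T₀) (hT' : Mt c N C D T₀ T' s') {S : Finset ι} {w : ι}
    {k : κ} (h : Own c N C (T₀ ∪ S) w k) : ∃ e ∈ S, e ∉ T₀ ∧ c k e ≠ 0 := by
  by_contra hcon
  push Not at hcon
  have hk := mem_U.1 h.mem
  have hw0 : w ∉ T₀ := fun h1 => h.1 (Finset.mem_union_left S h1)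
  have hsup : ∀ e, c k e ≠ 0 → e ∈ T₀ ∨ e = w := by
    intro e he
    rcases hk.2.2 e he with h1 | h1
    · rcases Finset.mem_union.1 h1 with h2 | h2
      · exact Or.inl h2
      · by_cases h3 : e ∈ T₀
        · exact Or.inl h3
        · exact absurd (hcon e h2 h3) he
    · exact Or.inr h1
  have hDw : D w = o := by
    have h1 := hP.col k hk.1
    rw [sum_supp {w}] at h1
    · rw [Finset.sum_singleton, hk.2.1, Nat.cast_one, one_smul] at h1
      exact h1
    · intro e he
      by_cases h2 : c k e = 0
      · exact Or.inl h2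
      · rcases hsup e h2 with h3 | h3
        · exact Or.inr (hP.zero e h3)
        · exact absurd (Finset.mem_singleton.2 h3) he
  have hwT : w ∉ T' := by
    intro h1
    obtain ⟨α, h2, h3⟩ := hT'.mul w h1
    have h4 : α • s'.2 = 0 := by
      exact congrArg Prod.snd (h3.symm.trans hDw)
    rcases smul_eq_zero.1 h4 with h5 | h5
    · exact h2.ne' h5
    · exact hT'.s2 h5
  refine hT'.q w 0 (by rw [zero_smul, add_zero, hDw]) k ⟨?_, ?_, h.2.2⟩
  · rw [Finset.mem_union, not_or]
    exact ⟨hw0, hwT⟩
  · ext k'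
    rw [Finset.mem_singleton]
    constructor
    · intro hk'
      have hk2 := mem_U.1 hk'
      have h1 := hP.col k' hk2.1
      rw [sum_supp (insert w T')] at h1
      · rw [Finset.sum_insert hwT, hk2.2.1, Nat.cast_one, one_smul, hDw] at h1
        have h2 : ∑ e ∈ T', (c k' e : ℚ) • D e = 0 := by
          have := congrArg (fun x => x - o) h1
          simpa using this
        choose! α hα using hT'.mul
        have h3 : (∑ e ∈ T', (c k' e : ℚ) * α e) • s' = 0 := by
          rw [Finset.sum_smul, ← h2]
          refine Finset.sum_congr rfl fun e he => ?_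
          rw [mul_smul, ← (hα e he).2]
        have h4 : ∑ e ∈ T', (c k' e : ℚ) * α e = 0 := by
          rcases smul_eq_zero.1 h3 with h5 | h5
          · exact h5
          · exact absurd (by rw [h5]; rfl) hT'.s2
        rw [Finset.sum_eq_zero_iff_of_nonneg (fun e he =>
          mul_nonneg (Nat.cast_nonneg _) (hα e he).1.le)] at h4
        have h5 : k' ∈ U c N (T₀ ∪ S) w := by
          rw [mem_U]
          refine ⟨hk2.1, hk2.2.1, fun e he => ?_⟩
          rcases hk2.2.2 e he with h6 | h6
          · rcases Finset.mem_union.1 h6 with h7 | h7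
            · exact Or.inl (Finset.mem_union_left S h7)
            · exfalso
              have h8 := h4 e h7
              rcases mul_eq_zero.1 h8 with h9 | h9
              · exact he (by exact_mod_cast h9)
              · exact (hα e h7).1.ne' h9
          · exact Or.inr h6
        rw [h.2.1, Finset.mem_singleton] at h5
        exact h5
      · intro e he
        by_cases h2 : c k' e = 0
        · exact Or.inl h2
        · rcases hk2.2.2 e h2 with h3 | h3
          · rcases Finset.mem_union.1 h3 with h4 | h4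
            · exact Or.inr (hP.zero e h4)
            · exact absurd (Finset.mem_insert_of_mem h4) he
          · exact absurd (h3 ▸ Finset.mem_insert_self w T') he
    · rintro rfl
      rw [mem_U]
      exact ⟨hk.1, hk.2.1, fun e he => (hsup e he).imp_left fun h' => Finset.mem_union_left T' h'⟩

/-- (2.6) Two matched sets in different classes: the column `j v` is special for `T`.  Proof: let
`z` be the common zero of `s`, `s'` (`exists_ev_zero`); `PSys.reach` for `T` with `S' = T'`,
`σ = det s s'` gives `v ∈ T'` with `Own (T₀ ∪ T ∪ T') (m v) (j v)`.  If `j v` does not meet `T` then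
`supp (j v) ⊆ T₀ ∪ {v, m v}`, `D (m v) = o - D v = o - α s'` and `Own (T₀ ∪ T') (m v) (j v)`
(`Own.mono`): contradiction to `Mt.q` for `T'`. -/
theorem two_special (hP : PSys c N C D T₀) (hT : Mt c N C D T₀ T s) (hT' : Mt c N C D T₀ T' s')
    (hd : det s s' ≠ 0) (hM : PMD c N D T₀ T s m j) :
    ∃ v ∈ T', Own c N C (T₀ ∪ T ∪ T') (m v) (j v) ∧ Spec c T (j v) := by
  obtain ⟨z, hz, hz'⟩ := exists_ev_zero hd
  obtain ⟨v, hv, hown⟩ := hP.reach T s hT m j hM z (det s s') hz T' hT'.ne (fun e he => by
    obtain ⟨α, h1, h2⟩ := hT'.mul e he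
    rw [h2, ev_smul, hz', mul_zero, det_smul_right]
    refine ⟨rfl, ?_⟩
    have h3 : 0 < det s s' * det s s' := mul_self_pos.2 hd
    nlinarith)
  refine ⟨v, hv, hown, ?_⟩
  by_contra hsp
  have hsp' : ∀ f ∈ T, c (j v) f = 0 := by
    intro f hf
    by_contra h1
    exact hsp ⟨f, hf, h1⟩
  obtain ⟨α, hα, hDv⟩ := hT'.mul v hv
  have hdv : det s (D v) ≠ 0 := by
    rw [hDv, det_smul_right]
    exact mul_ne_zero hα.ne' hd
  have hdm := hM.nc v hdv
  have hval1 := hM.val v hdv
  have hval2 : c (j v) (m v) = 1 := by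
    have := hM.val (m v) hdm
    rwa [hM.jm v hdv] at this
  have hsup : ∀ e, c (j v) e ≠ 0 → e ∈ T₀ ∨ e = v ∨ e = m v := by
    intro e he
    rcases hM.supp v hdv e he with h1 | h1
    · rcases Finset.mem_union.1 h1 with h2 | h2
      · exact Or.inl h2
      · exact absurd (hsp' e h2) he
    · exact Or.inr h1
  have hsum : D v + D (m v) = o := by
    have h1 := hP.col (j v) (hM.mem v hdv)
    rw [sum_supp {v, m v}] at h1
    · rw [Finset.sum_pair (hM.ne v hdv).symm, hval1, hval2, Nat.cast_one, one_smul, one_smul] at h1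
      exact h1
    · intro e he
      by_cases h2 : c (j v) e = 0
      · exact Or.inl h2
      · rcases hsup e h2 with h3 | h3
        · exact Or.inr (hP.zero e h3)
        · exact absurd (by simpa using h3) he
  have hDm : D (m v) = o + (-α) • s' := by
    rw [neg_smul, ← hDv, ← hsum]
    abel
  refine hT'.q (m v) (-α) hDm (j v) (hown.mono ?_ ?_)
  · intro e he
    rcases Finset.mem_union.1 he with h1 | h1
    · exact Finset.mem_union_left _ (Finset.mem_union_left _ h1)
    · exact Finset.mem_union_right _ h1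
  · intro e he
    rcases hsup e he with h1 | h1 | h1
    · exact Or.inl (Finset.mem_union_left _ h1)
    · exact Or.inl (Finset.mem_union_right _ (h1 ▸ hv))
    · exact Or.inr h1

end MPb07157.EX
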