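import Pool.Agent.Lib.MP_b07157_ag.EX.PC1

/-!
# The threshold inequality
-/

namespace MPb07157.EX


open Finset

variable {ι κ : Type} [Fintype ι] [DecidableEq ι] [DecidableEq κ]
variable {c : κ → ι → ℕ} {N C : Finset κ} {D : ι → F} {T₀ T T' : Finset ι} {s s' : F}
  {m : ι → ι} {j : ι → κ}

/-- THRESHOLD (2.3).  Elimination (`elim_empty`, `Alive_le`) with `B = T₀`, `Z` = the elements with
`D e = α ψ`, `α ≥ 1`, `O` = the elements with `D w = o - α ψ`, `α ≥ 1`: a nonempty `S ⊆ Z` is not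
matched, so it has a constant owner `w`, `D w = o + β ψ` with single `k`; by `no_trivial` the
column meets `S`; `D w = o - ∑_{S} c k e • D e = o - α ψ` with `α ≥ 1` (the coefficients are natural
numbers, not all zero). Then `kap_sum` with `G` = indicator of `{α ψ : α ≥ 1}`. -/
theorem threshold (hP : PSys c N C D T₀) (hT' : Mt c N C D T₀ T' s') {ψ : F} (hψ : ψ.2 ≠ 0)
    (h : ∀ T : Finset ι, T.Nonempty → (∀ e ∈ T, ∃ α : ℚ, 1 ≤ α ∧ D e = α • ψ) →
      ¬ Mt c N C D T₀ T ψ) (G : F → ℚ) (hG1 : ∀ φ, (∃ α : ℚ, 1 ≤ α ∧ φ = α • ψ) → G φ = 1)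
    (hG0 : ∀ φ, ¬ (∃ α : ℚ, 1 ≤ α ∧ φ = α • ψ) → G φ = 0) :
    ∑ φ ∈ Phi D, kap D φ * G φ ≤ 0 := by
  classical
  have hψ0 : ψ ≠ 0 := fun h1 => hψ (by rw [h1]; rfl)
  set Z : Finset ι := univ.filter fun e => ∃ α : ℚ, 1 ≤ α ∧ D e = α • ψ with hZ
  set O : Finset ι := univ.filter fun w => ∃ α : ℚ, 1 ≤ α ∧ o - D w = α • ψ with hO
  have hmZ : ∀ e, e ∈ Z ↔ ∃ α : ℚ, 1 ≤ α ∧ D e = α • ψ := fun e => by
    rw [hZ, Finset.mem_filter]
    exact ⟨fun h1 => h1.2, fun h1 => ⟨Finset.mem_univ e, h1⟩⟩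
  have hmO : ∀ w, w ∈ O ↔ ∃ α : ℚ, 1 ≤ α ∧ o - D w = α • ψ := fun w => by
    rw [hO, Finset.mem_filter]
    exact ⟨fun h1 => h1.2, fun h1 => ⟨Finset.mem_univ w, h1⟩⟩
  have hcard : Z.card ≤ O.card := by
    refine le_trans (elim_empty (c := c) (N := N) (C := C) (B := T₀) (O := O) (Z := Z) ?_) Alive_le
    intro S hSZ hSne
    have hSψ : ∀ e ∈ S, ∃ α : ℚ, 1 ≤ α ∧ D e = α • ψ := fun e he => (hmZ e).1 (hSZ he)
    have hn := h S hSne hSψ
    have hq : ∃ w, ∃ k, Own c N C (T₀ ∪ S) w k := by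
      by_contra hcon
      push Not at hcon
      exact hn ⟨hSne, hψ, fun f hf => by
        obtain ⟨α, h1, h2⟩ := hSψ f hf
        exact ⟨α, by linarith, h2⟩, fun w _ _ k => hcon w k⟩
    obtain ⟨w, k, hown⟩ := hq
    obtain ⟨e₀, he₀, he₀T, hce₀⟩ := no_trivial hP hT' hown
    refine ⟨w, ?_, k, hown, e₀, he₀, he₀T, hce₀⟩
    rw [hmO]
    have hk := mem_U.1 hown.mem
    have hwS : w ∉ S := fun h1 => hown.1 (Finset.mem_union_right T₀ h1)
    choose! α hα using hSψ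
    have hcol := hP.col k hk.1
    have h1 : ∑ e, (c k e : ℚ) • D e = D w + (∑ e ∈ S, (c k e : ℚ) * α e) • ψ := by
      have h2 : ∑ e ∈ insert w S, (c k e : ℚ) • D e = ∑ e, (c k e : ℚ) • D e := by
        refine Finset.sum_subset (Finset.subset_univ _) fun e _ he => ?_
        by_cases h3 : c k e = 0
        · rw [h3]; simp
        · rcases hk.2.2 e h3 with h4 | h4
          · rcases Finset.mem_union.1 h4 with h5 | h5
            · rw [hP.zero e h5, smul_zero]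
            · exact absurd (Finset.mem_insert_of_mem h5) he
          · exact absurd (h4 ▸ Finset.mem_insert_self w S) he
      rw [← h2, Finset.sum_insert hwS, hk.2.1, Nat.cast_one, one_smul, Finset.sum_smul]
      congr 1
      refine Finset.sum_congr rfl fun e he => ?_
      rw [mul_smul, ← (hα e he).2]
    refine ⟨∑ e ∈ S, (c k e : ℚ) * α e, ?_, ?_⟩
    · have h2 : (c k e₀ : ℚ) * α e₀ ≤ ∑ e ∈ S, (c k e : ℚ) * α e :=
        Finset.single_le_sum (f := fun e => (c k e : ℚ) * α e)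
          (fun e he => mul_nonneg (Nat.cast_nonneg _) (by linarith [(hα e he).1])) he₀
      have h3 : (1 : ℚ) ≤ c k e₀ := by
        exact_mod_cast Nat.one_le_iff_ne_zero.2 hce₀
      have h4 := (hα e₀ he₀).1
      nlinarith
    · rw [← hcol, h1]
      abel
  rw [kap_sum, Finset.sum_sub_distrib]
  have e1 : ∑ e, G (D e) = Z.card := by
    rw [Finset.card_eq_sum_ones, hZ, Finset.sum_filter, Nat.cast_sum]
    refine Finset.sum_congr rfl fun e _ => ?_
    split_ifs with h1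
    · rw [hG1 _ h1]; simp
    · rw [hG0 _ h1]; simp
  have e2 : ∑ e, G (o - D e) = O.card := by
    rw [Finset.card_eq_sum_ones, hO, Finset.sum_filter, Nat.cast_sum]
    refine Finset.sum_congr rfl fun e _ => ?_
    split_ifs with h1
    · rw [hG1 _ h1]; simp
    · rw [hG0 _ h1]; simp
  rw [e1, e2]
  have h5 : (Z.card : ℚ) ≤ O.card := by exact_mod_cast hcard
  linarith

end MPb07157.EX
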