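import Pool.Agent.Lib.MP_b07157_ag.EX.PDefs
import Pool.Agent.Lib.MP_b07157_ag.EX.Geo

/-!
# Coordinates on a plane
-/

namespace MPb07157.EX

open Finset Module

variable {ι κ : Type} [Fintype ι] [DecidableEq ι] [DecidableEq κ]
variable {c : κ → ι → ℕ} {N C : Finset κ} {A : Set (ι → ℚ)} {V : Submodule ℚ (ι → ℚ)}
  {T R : Finset ι} {p η₁ η₂ : ι → ℚ} {s : F}

/-- An origin and a basis of the directions. -/
structure Coord (A : Set (ι → ℚ)) (V : Submodule ℚ (ι → ℚ)) (p η₁ η₂ : ι → ℚ) : Prop where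
  aff : ∀ x ∈ A, ∀ y, y ∈ A ↔ y - x ∈ V
  pA : p ∈ A
  h1 : η₁ ∈ V
  h2 : η₂ ∈ V
  ind : ∀ a b : ℚ, a • η₁ + b • η₂ = 0 → a = 0 ∧ b = 0
  span : ∀ ξ ∈ V, ∃ a b : ℚ, ξ = a • η₁ + b • η₂

/-- The coordinate functions as affine functions of the plane. -/
def Dp (p η₁ η₂ : ι → ℚ) (e : ι) : F := (p e, η₁ e, η₂ e)

/-- Take `p ∈ A` and a basis of `V` (`finBasisOfFinrankEq`). -/
theorem exists_coord (hS : Sys c N C A V T) (h2 : finrank ℚ V = 2) :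
    ∃ p η₁ η₂, Coord A V p η₁ η₂ := by
  obtain ⟨p, hp⟩ := hS.ne
  let b := finBasisOfFinrankEq ℚ V h2
  refine ⟨p, (b 0 : ι → ℚ), (b 1 : ι → ℚ), hS.aff, hp, (b 0).2, (b 1).2, ?_, ?_⟩
  · intro x y hxy
    have h1 := Fintype.linearIndependent_iff.1 b.linearIndependent ![x, y] (by
      rw [Fin.sum_univ_two]
      apply Subtype.ext
      exact hxy)
    exact ⟨h1 0, h1 1⟩
  · intro ξ hξ
    refine ⟨b.repr ⟨ξ, hξ⟩ 0, b.repr ⟨ξ, hξ⟩ 1, ?_⟩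
    have h1 := b.sum_repr ⟨ξ, hξ⟩
    rw [Fin.sum_univ_two] at h1
    exact (congrArg Subtype.val h1).symm

/-- The point with coordinates `z` is `p + z.1 • η₁ + z.2 • η₂`. -/
theorem Coord.point (h : Coord A V p η₁ η₂) (z : ℚ × ℚ) :
    ∃ x ∈ A, ∀ e, x e = ev (Dp p η₁ η₂ e) z := by
  refine ⟨p + (z.1 • η₁ + z.2 • η₂), ?_, ?_⟩
  · rw [h.aff p h.pA, add_sub_cancel_left]
    exact V.add_mem (V.smul_mem _ h.h1) (V.smul_mem _ h.h2)
  · intro e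
    simp only [Pi.add_apply, Pi.smul_apply, smul_eq_mul, ev, Dp]
    ring

theorem Coord.point' (h : Coord A V p η₁ η₂) {x : ι → ℚ} (hx : x ∈ A) :
    ∃ z, ∀ e, x e = ev (Dp p η₁ η₂ e) z := by
  obtain ⟨a, b, hab⟩ := h.span _ ((h.aff p h.pA x).1 hx)
  refine ⟨(a, b), fun e => ?_⟩
  have h1 := congrFun hab e
  simp only [Pi.add_apply, Pi.sub_apply, Pi.smul_apply, smul_eq_mul] at h1
  simp only [ev, Dp]
  linarith

theorem Coord.nc_iff (h : Coord A V p η₁ η₂) (e : ι) : NC V e ↔ (Dp p η₁ η₂ e).2 ≠ 0 := by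
  constructor
  · rintro ⟨ξ, hξ, hne⟩ h0
    obtain ⟨a, b, rfl⟩ := h.span ξ hξ
    apply hne
    have h1 : η₁ e = 0 := congrArg Prod.fst h0
    have h2 : η₂ e = 0 := congrArg Prod.snd h0
    simp only [Pi.add_apply, Pi.smul_apply, smul_eq_mul, h1, h2]
    ring
  · intro h0
    by_cases h1 : η₁ e = 0
    · refine ⟨η₂, h.h2, fun h2 => h0 (Prod.ext h1 h2)⟩
    · exact ⟨η₁, h.h1, h1⟩

private theorem pcoord_val {α : ℚ} {f : ι} (hα : Dp p η₁ η₂ f = α • s) :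
    p f = α * s.1 ∧ η₁ f = α * s.2.1 ∧ η₂ f = α * s.2.2 :=
  ⟨congrArg Prod.fst hα, congrArg (fun q : F => q.2.1) hα, congrArg (fun q : F => q.2.2) hα⟩

private theorem pcoord_sq (hs : s.2 ≠ 0) : 0 < s.2.1 ^ 2 + s.2.2 ^ 2 := by
  by_cases h1 : s.2.1 = 0
  · have h2 : s.2.2 ≠ 0 := fun h2 => hs (Prod.ext h1 h2)
    positivity
  · positivity

private theorem pcoord_zero (hs : s.2 ≠ 0) : ∃ z : ℚ × ℚ, ev s z = 0 := by
  have h1 := pcoord_sq hs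
  refine ⟨(-s.1 * s.2.1 / (s.2.1 ^ 2 + s.2.2 ^ 2), -s.1 * s.2.2 / (s.2.1 ^ 2 + s.2.2 ^ 2)), ?_⟩
  simp only [ev]
  field_simp
  ring

/-- `R` nonempty, all `D f` (`f ∈ R`) positive multiples of `s`: `cutV V R` is the line spanned by
`- s.2.2 • η₁ + s.2.1 • η₂`. -/
theorem Coord.mem_cut (h : Coord A V p η₁ η₂) (hne : R.Nonempty) (hs : s.2 ≠ 0)
    (hR : ∀ f ∈ R, ∃ α : ℚ, 0 < α ∧ Dp p η₁ η₂ f = α • s) (ξ : ι → ℚ) :
    ξ ∈ cutV V R ↔ ∃ t : ℚ, ∀ e, ξ e = t * det s (Dp p η₁ η₂ e) := by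
  obtain ⟨f₀, hf₀⟩ := hne
  constructor
  · intro hξ
    rw [mem_cutV] at hξ
    obtain ⟨a, b, rfl⟩ := h.span ξ hξ.1
    obtain ⟨α, hα, hD⟩ := hR f₀ hf₀
    obtain ⟨-, h1, h2⟩ := pcoord_val hD
    have h3 := hξ.2 f₀ hf₀
    simp only [Pi.add_apply, Pi.smul_apply, smul_eq_mul, h1, h2] at h3
    have h4 : a * s.2.1 + b * s.2.2 = 0 := by
      have h5 : α * (a * s.2.1 + b * s.2.2) = 0 := by linarith
      exact (mul_eq_zero.1 h5).resolve_left hα.ne'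
    by_cases h5 : s.2.1 = 0
    · have h6 : s.2.2 ≠ 0 := fun h6 => hs (Prod.ext h5 h6)
      rw [h5, mul_zero, zero_add] at h4
      have hb : b = 0 := (mul_eq_zero.1 h4).resolve_right h6
      refine ⟨-a / s.2.2, fun e => ?_⟩
      simp only [Pi.add_apply, Pi.smul_apply, smul_eq_mul, det, Dp, hb, h5]
      field_simp
      ring
    · refine ⟨b / s.2.1, fun e => ?_⟩
      have ha : a = -(b * s.2.2) / s.2.1 := by
        rw [eq_div_iff h5]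
        linarith
      simp only [Pi.add_apply, Pi.smul_apply, smul_eq_mul, det, Dp, ha]
      field_simp
      ring
  · rintro ⟨t, ht⟩
    rw [mem_cutV]
    refine ⟨?_, ?_⟩
    · have h1 : ξ = (-(t * s.2.2)) • η₁ + (t * s.2.1) • η₂ := by
        funext e
        rw [ht e]
        simp only [Pi.add_apply, Pi.smul_apply, smul_eq_mul, det, Dp]
        ring
      rw [h1]
      exact V.add_mem (V.smul_mem _ h.h1) (V.smul_mem _ h.h2)
    · intro f hf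
      obtain ⟨α, _, hD⟩ := hR f hf
      rw [ht f, hD, det_smul_right, det_self, mul_zero, mul_zero]

theorem Coord.r1 (h : Coord A V p η₁ η₂) (hne : R.Nonempty) (hs : s.2 ≠ 0)
    (hR : ∀ f ∈ R, ∃ α : ℚ, 0 < α ∧ Dp p η₁ η₂ f = α • s) : R1 A V R := by
  obtain ⟨f₀, hf₀⟩ := hne
  have hsq := pcoord_sq hs
  have hval : ∀ f ∈ R, ∃ α : ℚ, 0 < α ∧ ∀ a b : ℚ, (a • η₁ + b • η₂) f =
      α * (a * s.2.1 + b * s.2.2) := by
    intro f hf
    obtain ⟨α, hα, hD⟩ := hR f hf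
    obtain ⟨-, h1, h2⟩ := pcoord_val hD
    refine ⟨α, hα, fun a b => ?_⟩
    simp only [Pi.add_apply, Pi.smul_apply, smul_eq_mul, h1, h2]
    ring
  have hpos : ∀ f ∈ R, 0 < (s.2.1 • η₁ + s.2.2 • η₂) f := by
    intro f hf
    obtain ⟨α, hα, h1⟩ := hval f hf
    rw [h1, ← pow_two, ← pow_two]
    exact mul_pos hα hsq
  have hξV : s.2.1 • η₁ + s.2.2 • η₂ ∈ V := V.add_mem (V.smul_mem _ h.h1) (V.smul_mem _ h.h2)
  refine ⟨⟨⟨_, hξV, hpos⟩, ?_⟩, ?_⟩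
  · obtain ⟨z, hz⟩ := pcoord_zero hs
    obtain ⟨x, hx, hxe⟩ := h.point z
    refine ⟨x, hx, fun f hf => ?_⟩
    obtain ⟨α, _, hD⟩ := hR f hf
    rw [hxe, hD, ev_smul, hz, mul_zero]
  · let ℓ : V →ₗ[ℚ] ℚ := (LinearMap.proj f₀).comp V.subtype
    have hker : (LinearMap.ker ℓ).map V.subtype = cutV V R := by
      ext ξ
      rw [Submodule.mem_map, mem_cutV]
      constructor
      · rintro ⟨⟨ζ, hζ⟩, h1, rfl⟩
        refine ⟨hζ, fun f hf => ?_⟩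
        have h2 : ζ f₀ = 0 := h1
        obtain ⟨a, b, rfl⟩ := h.span ζ hζ
        obtain ⟨α, hα, h3⟩ := hval f₀ hf₀
        obtain ⟨β, hβ, h4⟩ := hval f hf
        rw [h3] at h2
        change (a • η₁ + b • η₂) f = 0
        rw [h4, (mul_eq_zero.1 h2).resolve_left hα.ne', mul_zero]
      · rintro ⟨h1, h2⟩
        exact ⟨⟨ξ, h1⟩, h2 f₀ hf₀, rfl⟩
    have hrange : LinearMap.range ℓ = ⊤ := by
      rw [LinearMap.range_eq_top]
      intro r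
      have h1 := hpos f₀ hf₀
      refine ⟨(r / (s.2.1 • η₁ + s.2.2 • η₂) f₀) • ⟨_, hξV⟩, ?_⟩
      change (r / (s.2.1 • η₁ + s.2.2 • η₂) f₀) * (s.2.1 • η₁ + s.2.2 • η₂) f₀ = r
      exact div_mul_cancel₀ r h1.ne'
    have h1 := LinearMap.finrank_range_add_finrank_ker ℓ
    rw [hrange, finrank_top, finrank_self] at h1
    have h2 : finrank ℚ ((LinearMap.ker ℓ).map V.subtype) = finrank ℚ (LinearMap.ker ℓ) :=
      Submodule.finrank_map_subtype_eq V _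
    rw [← hker, h2]
    omega

theorem Coord.cut_nc (h : Coord A V p η₁ η₂) (hne : R.Nonempty) (hs : s.2 ≠ 0)
    (hR : ∀ f ∈ R, ∃ α : ℚ, 0 < α ∧ Dp p η₁ η₂ f = α • s) (e : ι) :
    NC (cutV V R) e ↔ det s (Dp p η₁ η₂ e) ≠ 0 := by
  constructor
  · rintro ⟨ξ, hξ, hne'⟩ h0
    obtain ⟨t, ht⟩ := (h.mem_cut hne hs hR ξ).1 hξ
    apply hne'
    rw [ht e, h0, mul_zero]
  · intro h0
    refine ⟨fun e => det s (Dp p η₁ η₂ e), ?_, h0⟩
    rw [h.mem_cut hne hs hR]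
    exact ⟨1, fun e => (one_mul _).symm⟩

/-- The points of the line are the points with `ev s z = 0`. -/
theorem Coord.cut_pt (h : Coord A V p η₁ η₂)
    (hR : ∀ f ∈ R, ∃ α : ℚ, 0 < α ∧ Dp p η₁ η₂ f = α • s) {z : ℚ × ℚ} (hz : ev s z = 0) :
    ∃ x ∈ cutA A R, ∀ e, x e = ev (Dp p η₁ η₂ e) z := by
  obtain ⟨x, hx, hxe⟩ := h.point z
  refine ⟨x, mem_cutA.2 ⟨hx, fun f hf => ?_⟩, hxe⟩
  obtain ⟨α, _, hD⟩ := hR f hf
  rw [hxe, hD, ev_smul, hz, mul_zero]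

theorem Coord.cut_one (h : Coord A V p η₁ η₂) (hne : R.Nonempty) (hs : s.2 ≠ 0)
    (hR : ∀ f ∈ R, ∃ α : ℚ, 0 < α ∧ Dp p η₁ η₂ f = α • s) (w : ι) :
    (∀ x ∈ cutA A R, x w = 1) ↔ ∃ β : ℚ, Dp p η₁ η₂ w = o + β • s := by
  constructor
  · intro hone
    obtain ⟨z, hz⟩ := pcoord_zero hs
    obtain ⟨x, hx, hxe⟩ := h.cut_pt hR hz
    have h1 := hone x hx
    rw [hxe] at h1
    have h2 : (fun e => det s (Dp p η₁ η₂ e)) ∈ cutV V R := by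
      rw [h.mem_cut hne hs hR]
      exact ⟨1, fun e => (one_mul _).symm⟩
    rw [mem_cutV] at h2
    have h3 : x + (fun e => det s (Dp p η₁ η₂ e)) ∈ cutA A R := by
      rw [mem_cutA] at hx ⊢
      refine ⟨?_, fun f hf => ?_⟩
      · rw [h.aff x hx.1, add_sub_cancel_left]
        exact h2.1
      · rw [Pi.add_apply, hx.2 f hf, h2.2 f hf, add_zero]
    have h4 := hone _ h3
    rw [Pi.add_apply, hone x hx] at h4
    have h5 : det s (Dp p η₁ η₂ w) = 0 := by linarith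
    obtain ⟨β, hβ⟩ := exists_smul_of_det hs h5
    refine ⟨β, ?_⟩
    have e1 : (Dp p η₁ η₂ w).2.1 = β * s.2.1 := congrArg Prod.fst hβ
    have e2 : (Dp p η₁ η₂ w).2.2 = β * s.2.2 := congrArg Prod.snd hβ
    have e0 : (Dp p η₁ η₂ w).1 = 1 + β * s.1 := by
      simp only [ev] at h1 hz
      rw [e1, e2] at h1
      linear_combination h1 - β * hz
    refine Prod.ext ?_ (Prod.ext ?_ ?_)
    · simp only [o, Prod.fst_add, Prod.smul_fst, smul_eq_mul]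
      exact e0
    · simp only [o, Prod.fst_add, Prod.snd_add, Prod.smul_fst, Prod.smul_snd, smul_eq_mul,
        zero_add]
      exact e1
    · simp only [o, Prod.snd_add, Prod.smul_snd, smul_eq_mul, zero_add]
      exact e2
  · rintro ⟨β, hβ⟩ x hx
    rw [mem_cutA] at hx
    obtain ⟨z, hz⟩ := h.point' hx.1
    obtain ⟨f₀, hf₀⟩ := hne
    obtain ⟨α, hα, hD⟩ := hR f₀ hf₀
    have h1 := hx.2 f₀ hf₀
    rw [hz, hD, ev_smul] at h1
    rw [hz, hβ, ev_add, ev_o, ev_smul, (mul_eq_zero.1 h1).resolve_left hα.ne', mul_zero, add_zero]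

/-- Take `s = D f₀` for some `f₀ ∈ R`; `R1.prop` and the common zero. -/
theorem Coord.exists_s (h : Coord A V p η₁ η₂) (hR : R1 A V R) :
    ∃ s : F, s.2 ≠ 0 ∧ ∀ f ∈ R, ∃ α : ℚ, 0 < α ∧ Dp p η₁ η₂ f = α • s := by
  obtain ⟨f₀, hf₀⟩ := hR.nonempty
  refine ⟨Dp p η₁ η₂ f₀, ?_, fun f hf => ?_⟩
  · rw [← h.nc_iff]
    obtain ⟨ξ, hξ, hp⟩ := hR.acy.pos
    exact ⟨ξ, hξ, (hp f₀ hf₀).ne'⟩
  · obtain ⟨r, hr, hprop⟩ := hR.prop hf hf₀
    refine ⟨r, hr, ?_⟩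
    obtain ⟨q, hq, hq0⟩ := hR.acy.ne
    have h1 := hprop _ ((h.aff p h.pA q).1 hq)
    rw [Pi.sub_apply, Pi.sub_apply, hq0 f hf, hq0 f₀ hf₀] at h1
    refine Prod.ext ?_ (Prod.ext (hprop _ h.h1) (hprop _ h.h2))
    simp only [Dp, Prod.smul_fst, smul_eq_mul]
    linarith

end MPb07157.EX
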