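import Pool.Agent.Lib.MP_b07157_ag.EX.PD4

/-!
# Normalized triples
-/

namespace MPb07157.EX


open Finset

variable {ι κ : Type} [Fintype ι] [DecidableEq ι] [DecidableEq κ]
variable {c : κ → ι → ℕ} {N C : Finset κ} {D : ι → F} {T₀ T T₁ T₂ : Finset ι} {s s₁ s₂ : F}
  {m : ι → ι} {j : ι → κ}

/-- Three bad classes, normalized. -/
structure Tri (c : κ → ι → ℕ) (N C : Finset κ) (D : ι → F) (T₀ : Finset ι) (s : Fin 3 → F)
    (K : ℚ) : Prop where
  mt : ∀ i, ∃ T, Mt c N C D T₀ T (s i)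
  dt : ∀ i i', i ≠ i' → det (s i) (s i') ≠ 0
  sum : s 0 + s 1 + s 2 = o
  all : ∀ T s', Mt c N C D T₀ T s' → ∃ i, ∃ β : ℚ, 0 < β ∧ s' = β • s i
  pos : 0 < K
  kp : ∀ i, kap D (s i) = K
  sp : ∀ φ, kap D φ ≠ 0 → φ.2 ≠ 0 → ∃ i, φ = s i ∨ φ = o - s i

/-- Uniqueness of the factor. -/
private theorem smul_inj_of_ne {x : ℚ × ℚ} (hx : x ≠ 0) {a b : ℚ} (h : a • x = b • x) : a = b := by
  by_contra hab
  apply hx
  have h1 : (a - b) • x = 0 := by rw [sub_smul, h, sub_self]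
  exact (smul_eq_zero.1 h1).resolve_left (sub_ne_zero.2 hab)

omit [DecidableEq ι] [DecidableEq κ] in
private theorem Tri0.s2 {s : Fin 3 → F} [DecidableEq ι] [DecidableEq κ]
    (h : Tri0 c N C D T₀ s) (i : Fin 3) : (s i).2 ≠ 0 := by
  obtain ⟨T, hT⟩ := h.mt i
  exact hT.s2

/-- The class of a point of the support. -/
private theorem Tri0.cls {s : Fin 3 → F} (h : Tri0 c N C D T₀ s) (hP : PSys c N C D T₀) {φ : F}
    (hk : kap D φ ≠ 0) (hφ : φ.2 ≠ 0) : ∃ i, ∃ a : ℚ, a ≠ 0 ∧ φ.2 = a • (s i).2 := by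
  obtain ⟨T', hT'⟩ := h.mt 0
  have h1 : ∃ T s', Mt c N C D T₀ T s' ∧ det s' φ = 0 := by
    by_contra h2
    push Not at h2
    exact hk (kap_nonbad hP hT' hφ h2)
  obtain ⟨T, s', hT, hd⟩ := h1
  obtain ⟨i, hi⟩ := h.all T s' hT
  obtain ⟨b, hb⟩ := exists_smul_of_det (h.s2 i) hi
  obtain ⟨e, he⟩ := exists_smul_of_det hT.s2 hd
  refine ⟨i, e * b, ?_, ?_⟩
  · intro h0
    apply hφ
    rw [he, hb, smul_smul, h0, zero_smul]
  · rw [he, hb, smul_smul]

/-- The points of the support over positive multiples. -/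
private theorem Tri0.pt {s : Fin 3 → F} (h : Tri0 c N C D T₀ s) (hP : PSys c N C D T₀) {φ : F}
    (hk : kap D φ ≠ 0) {i : Fin 3} {a : ℚ} (ha : 0 < a) (hφ : φ.2 = a • (s i).2) :
    φ = a • s i ∧ 0 < kap D φ := by
  classical
  have hi : i ≠ i + 1 := by fin_cases i <;> decide
  have hφ0 : φ.2 ≠ 0 := by
    rw [hφ]
    exact smul_ne_zero ha.ne' (h.s2 i)
  have hnn : ∀ α : ℚ, 0 < α → 0 ≤ kap D (α • φ) := by
    intro α hα
    have h1 : (α • φ).2 = (α * a) • (s i).2 := by rw [Prod.smul_snd, hφ, smul_smul]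
    have h2 := (h.shift hP hi (mul_pos hα ha).ne' h1).2
    exact nonneg_of_mul_nonneg_right h2 (mul_pos hα ha)
  have hpos : 0 < kap D φ := by
    have h1 := hnn 1 one_pos
    rw [one_smul] at h1
    exact lt_of_le_of_ne h1 (Ne.symm hk)
  refine ⟨?_, hpos⟩
  obtain ⟨T', hT'⟩ := h.mt 0
  have h1 : ∃ T : Finset ι, Mt c N C D T₀ T φ := by
    by_contra h2
    push Not at h2
    have h3 := threshold hP hT' hφ0 (fun T _ _ => h2 T)
      (fun χ => if ∃ α : ℚ, 1 ≤ α ∧ χ = α • φ then 1 else 0)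
      (fun χ hχ => if_pos hχ) (fun χ hχ => if_neg hχ)
    have h4 : kap D φ * (if ∃ α : ℚ, 1 ≤ α ∧ φ = α • φ then 1 else 0) ≤
        ∑ χ ∈ Phi D, kap D χ * (if ∃ α : ℚ, 1 ≤ α ∧ χ = α • φ then 1 else 0) := by
      refine Finset.single_le_sum (f := fun χ => kap D χ *
        (if ∃ α : ℚ, 1 ≤ α ∧ χ = α • φ then (1 : ℚ) else 0)) (fun χ _ => ?_) (mem_Phi hk)
      split_ifs with h5
      · obtain ⟨α, hα, rfl⟩ := h5
        rw [mul_one]
        exact hnn α (by linarith)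
      · rw [mul_zero]
    rw [if_pos ⟨1, le_rfl, (one_smul _ _).symm⟩, mul_one] at h4
    linarith
  obtain ⟨T, hT⟩ := h1
  have hd : det (s i) φ = 0 := by
    have : det (s i) φ = a * det (s i) (s i) := by
      simp only [det]
      rw [hφ]
      simp only [Prod.smul_snd, Prod.smul_fst, smul_eq_mul]
      ring
    rw [this, det_self, mul_zero]
  obtain ⟨β, hβ, hβ2⟩ := h.line hP hT hd
  have h5 : β = a := by
    apply smul_inj_of_ne (h.s2 i)
    rw [← hφ]
    exact (congrArg Prod.snd hβ2).symm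
  rw [← h5]
  exact hβ2

/-- The scaling factor. -/
private theorem Tri0.fac {s : Fin 3 → F} (h : Tri0 c N C D T₀ s) (hP : PSys c N C D T₀)
    {i i' i'' : Fin 3} {a : ℚ} (ha : 0 < a) (hk : kap D (a • s i) ≠ 0) (hi : i ≠ i')
    (hs : (s i).2 + (s i').2 = -(s i'').2) :
    a • s i + a • s i' = o - a • s i'' ∧ kap D (a • s i'') = kap D (a • s i) := by
  have h1 : (a • s i).2 = a • (s i).2 := rfl
  have h2 := (h.shift hP hi ha.ne' h1).1
  have h3 : kap D (o - (a • s i + a • s i')) ≠ 0 := by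
    rw [kap_neg, h2, neg_neg]
    exact hk
  have h4 : (o - (a • s i + a • s i')).2 = a • (s i'').2 := by
    have h5 : (o - (a • s i + a • s i')).2 = -(a • ((s i).2 + (s i').2)) := by
      simp only [o, Prod.snd_sub, Prod.snd_add, Prod.smul_snd, smul_add]
      exact zero_sub _
    rw [h5, hs, smul_neg, neg_neg]
  have h5 := (h.pt hP h3 ha h4).1
  refine ⟨?_, ?_⟩
  · rw [← h5, sub_sub_cancel]
  · rw [← h5, kap_neg, h2, neg_neg]

/-- (2.10) Proof.  Let `kap φ ≠ 0`, `φ.2 = a • (s i).2` with `a > 0`; `kap (α • φ) ≥ 0` for `α > 0`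
(`Tri0.shift`), so the sum in `threshold` for `ψ = φ` is `≥ kap φ > 0` and there is a matched set
`T ⊆ {α φ}`; by `Tri0.line` `φ = a • s i`.  By `Tri0.shift` `kap (a • s i + a • s i') ≠ 0`, it is over
`- a • (s i'').2`, so `o - a • s i - a • s i' = a • s i''` by what was shown.  Hence
`a • (s 0 + s 1 + s 2) = o`: `a` is the same for all points of the support with `a > 0`; the ones with
`a < 0` are `o - a • s i` (`kap_neg`).  Scale by `a`. -/
theorem exists_tri {s : Fin 3 → F} (h : Tri0 c N C D T₀ s) (hP : PSys c N C D T₀) :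
    ∃ a : ℚ, 0 < a ∧ ∃ K, Tri c N C D T₀ (fun i => a • s i) K := by
  classical
  have e2 : (s 0).2 + (s 1).2 = -(s 2).2 := eq_neg_of_add_eq_zero_left h.sum
  have e1 : (s 0).2 + (s 2).2 = -(s 1).2 := by
    apply eq_neg_of_add_eq_zero_left
    rw [← h.sum]; abel
  have e3 : (s 1).2 + (s 2).2 = -(s 0).2 := by
    apply eq_neg_of_add_eq_zero_left
    rw [← h.sum]; abel
  -- every positive point determines the factor
  have key : ∀ (i : Fin 3) (a : ℚ), 0 < a → kap D (a • s i) ≠ 0 →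
      a • (s 0 + s 1 + s 2) = o ∧ ∀ k, kap D (a • s k) = kap D (a • s i) := by
    intro i a ha hk
    have h0 : ∀ x y z : F, x + y = o - z → x + y + z = o := by
      intro x y z hxyz
      rw [hxyz, sub_add_cancel]
    fin_cases i
    · obtain ⟨f1, f2⟩ := h.fac hP (i := 0) (i' := 1) (i'' := 2) ha hk (by decide) e2
      obtain ⟨f3, f4⟩ := h.fac hP (i := 0) (i' := 2) (i'' := 1) ha hk (by decide) e1
      refine ⟨?_, fun k => ?_⟩
      · rw [smul_add, smul_add]; exact h0 _ _ _ f1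
      · fin_cases k
        · rfl
        · exact f4
        · exact f2
    · obtain ⟨f1, f2⟩ := h.fac hP (i := 1) (i' := 0) (i'' := 2) ha hk (by decide)
        (by rw [add_comm]; exact e2)
      obtain ⟨f3, f4⟩ := h.fac hP (i := 1) (i' := 2) (i'' := 0) ha hk (by decide) e3
      refine ⟨?_, fun k => ?_⟩
      · rw [smul_add, smul_add, add_comm (a • s 0)]; exact h0 _ _ _ f1
      · fin_cases k
        · exact f4
        · rfl
        · exact f2
    · obtain ⟨f1, f2⟩ := h.fac hP (i := 2) (i' := 0) (i'' := 1) ha hk (by decide)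
        (by rw [add_comm]; exact e1)
      obtain ⟨f3, f4⟩ := h.fac hP (i := 2) (i' := 1) (i'' := 0) ha hk (by decide)
        (by rw [add_comm]; exact e3)
      refine ⟨?_, fun k => ?_⟩
      · have h5 := h0 _ _ _ f1
        rw [smul_add, smul_add, ← h5]; abel
      · fin_cases k
        · exact f4
        · exact f2
        · rfl
  obtain ⟨φ, a, ha, hφ, hk⟩ := h.exists_kap hP 0
  obtain ⟨hφ2, hpos⟩ := h.pt hP hk ha hφ
  rw [hφ2] at hk hpos
  obtain ⟨k1, k2⟩ := key 0 a ha hk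
  have huniq : ∀ b : ℚ, b • (s 0 + s 1 + s 2) = o → b = a := by
    intro b hb
    have h1 : b * (s 0 + s 1 + s 2).1 = 1 := congrArg Prod.fst hb
    have h2 : a * (s 0 + s 1 + s 2).1 = 1 := congrArg Prod.fst k1
    have h3 : (s 0 + s 1 + s 2).1 ≠ 0 := fun h0 => by rw [h0, mul_zero] at h2; exact zero_ne_one h2
    exact mul_right_cancel₀ h3 (h1.trans h2.symm)
  refine ⟨a, ha, kap D (a • s 0), ?_⟩
  refine ⟨?_, ?_, ?_, ?_, hpos, fun i => k2 i, ?_⟩
  · intro i
    obtain ⟨T, hT⟩ := h.mt i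
    exact ⟨T, hT.smul ha⟩
  · intro i i' hi
    rw [det_smul_left, det_smul_right]
    exact mul_ne_zero ha.ne' (mul_ne_zero ha.ne' (h.dt i i' hi))
  · rw [← k1, smul_add, smul_add]
  · intro T s' hT
    obtain ⟨i, hi⟩ := h.all T s' hT
    obtain ⟨β, hβ, hβ2⟩ := h.line hP hT hi
    refine ⟨i, β / a, div_pos hβ ha, ?_⟩
    rw [smul_smul, div_mul_cancel₀ _ ha.ne']
    exact hβ2
  · intro χ hχ hχ2
    obtain ⟨i, b, hb, hb2⟩ := h.cls hP hχ hχ2
    rcases lt_or_gt_of_ne hb with hb0 | hb0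
    · have h1 : kap D (o - χ) ≠ 0 := by
        rw [kap_neg]; exact neg_ne_zero.2 hχ
      have h2 : (o - χ).2 = (-b) • (s i).2 := by
        have : (o - χ).2 = -χ.2 := by
          simp only [o, Prod.snd_sub]
          exact zero_sub _
        rw [this, hb2, neg_smul]
      obtain ⟨h3, h4⟩ := h.pt hP h1 (neg_pos.2 hb0) h2
      rw [h3] at h1
      have h5 := huniq _ (key i (-b) (neg_pos.2 hb0) h1).1
      refine ⟨i, Or.inr ?_⟩
      rw [← h5, ← h3, sub_sub_cancel]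
    · obtain ⟨h3, h4⟩ := h.pt hP hχ hb0 hb2
      have h1 := hχ
      rw [h3] at h1
      have h5 := huniq _ (key i b hb0 h1).1
      refine ⟨i, Or.inl ?_⟩
      rw [← h5]
      exact h3

end MPb07157.EX
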