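import Pool.Agent.Lib.MP_b07157_ag.EX.PC

/-!
# The third class
-/

namespace MPb07157.EX


open Finset

variable {ι κ : Type} [Fintype ι] [DecidableEq ι] [DecidableEq κ]
variable {c : κ → ι → ℕ} {N C : Finset κ} {D : ι → F} {T₀ T T₁ T₂ : Finset ι} {s s₁ s₂ : F}
  {m : ι → ι} {j : ι → κ}

private theorem det_eq_of_smul {φ s : F} {a : ℚ} (h : φ.2 = a • s.2) (ψ : F) :
    det ψ φ = a * det ψ s := by
  have h1 : φ.2.1 = a * s.2.1 := by rw [h]; rfl
  have h2 : φ.2.2 = a * s.2.2 := by rw [h]; rfl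
  simp only [det, h1, h2]; ring

private theorem det_eq_of_smul' {φ s : F} {a : ℚ} (h : φ.2 = a • s.2) (ψ : F) :
    det φ ψ = a * det s ψ := by
  have h1 : φ.2.1 = a * s.2.1 := by rw [h]; rfl
  have h2 : φ.2.2 = a * s.2.2 := by rw [h]; rfl
  simp only [det, h1, h2]; ring

private theorem dot_pos {s : F} (h : s.2 ≠ 0) : 0 < s.2.1 * s.2.1 + s.2.2 * s.2.2 := by
  by_contra h1
  apply h
  have h2 : s.2.1 = 0 := by nlinarith [mul_self_nonneg s.2.1, mul_self_nonneg s.2.2]
  have h3 : s.2.2 = 0 := by nlinarith [mul_self_nonneg s.2.1, mul_self_nonneg s.2.2]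
  exact Prod.ext h2 h3

/-- The inner product of the differentials. -/
private def dot (s φ : F) : ℚ := s.2.1 * φ.2.1 + s.2.2 * φ.2.2

private theorem dot_add_smul (s φ : F) (l : ℚ) : dot s (φ + l • s) = dot s φ + l * dot s s := by
  simp only [dot, Prod.snd_add, Prod.fst_add, Prod.smul_snd, Prod.smul_fst, smul_eq_mul]; ring

/-- Two matched classes give extremal points of the support of `kap`. -/
private theorem extremal (hP : PSys c N C D T₀) (hT₁ : Mt c N C D T₀ T₁ s₁) (hT₂ : Mt c N C D T₀ T₂ s₂)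
    (hd : det s₁ s₂ ≠ 0) :
    ∃ (φa : F) (M γ : ℚ), 0 < M ∧ 0 < γ ∧ det s₁ φa = M ∧ 0 < kap D φa ∧
      kap D (φa + γ • s₁) < 0 ∧ ∀ φ, kap D φ ≠ 0 → det s₁ φ ≤ M := by
  classical
  obtain ⟨m, j, hM, -⟩ := hP.ex T₁ s₁ hT₁
  obtain ⟨v, hv, -, hsp⟩ := two_special hP hT₁ hT₂ hd hM
  obtain ⟨α, hα, hDv⟩ := hT₂.mul v hv
  have hdv : det s₁ (D v) ≠ 0 := by
    rw [hDv, det_smul_right]
    exact mul_ne_zero hα.ne' hd
  obtain ⟨l, hl⟩ := kap_spec hP hT₁ hM hdv hsp
  set φ := D v + l • s₁ with hφ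
  have hhφ : det s₁ φ ≠ 0 := by
    rw [hφ, det_add_right, det_smul_right, det_self, mul_zero, add_zero]
    exact hdv
  set W : Finset F := (Phi D).filter fun ψ => kap D ψ ≠ 0 with hW
  have memW : ∀ ψ, ψ ∈ W ↔ kap D ψ ≠ 0 := fun ψ => by
    rw [hW, Finset.mem_filter]
    exact ⟨fun h => h.2, fun h => ⟨mem_Phi h, h⟩⟩
  obtain ⟨φ₀, hφ₀, hmax⟩ := Finset.exists_max_image W (fun ψ => det s₁ ψ) ⟨φ, (memW φ).2 hl⟩
  have hφo : o - φ ∈ W := by
    rw [memW, kap_neg]
    exact neg_ne_zero.2 hl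
  have hM0 : 0 < det s₁ φ₀ := by
    have h1 := hmax φ ((memW φ).2 hl)
    have h2 := hmax (o - φ) hφo
    simp only [det_sub_right, det_o_right] at h2
    rcases lt_or_gt_of_ne hhφ with h3 | h3 <;> linarith
  set L : Finset F := W.filter fun ψ => ∃ l : ℚ, ψ = φ₀ + l • s₁ with hL
  have memL : ∀ ψ, ψ ∈ L ↔ kap D ψ ≠ 0 ∧ ∃ l : ℚ, ψ = φ₀ + l • s₁ := fun ψ => by
    rw [hL, Finset.mem_filter, memW]
  have hLne : L.Nonempty := ⟨φ₀, (memL φ₀).2 ⟨(memW φ₀).1 hφ₀, 0, by rw [zero_smul, add_zero]⟩⟩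
  obtain ⟨φa, hφa, hamin⟩ := Finset.exists_min_image L (fun ψ => dot s₁ ψ) hLne
  obtain ⟨φb, hφb, hbmax⟩ := Finset.exists_max_image L (fun ψ => dot s₁ ψ) hLne
  obtain ⟨hka, la, hla⟩ := (memL φa).1 hφa
  obtain ⟨hkb, lb, hlb⟩ := (memL φb).1 hφb
  have hdot : 0 < dot s₁ s₁ := dot_pos hT₁.s2
  have hha : det s₁ φa = det s₁ φ₀ := by
    rw [hla, det_add_right, det_smul_right, det_self, mul_zero, add_zero]
  have hhb : det s₁ φb = det s₁ φ₀ := by
    rw [hlb, det_add_right, det_smul_right, det_self, mul_zero, add_zero]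
  have hpa : 0 < kap D φa := by
    refine kap_first hP hT₁ (by rw [hha]; exact hM0.ne') hka fun l' hl' => ?_
    by_contra hne
    have h1 : φa + l' • s₁ ∈ L := (memL _).2 ⟨hne, la + l', by rw [hla, add_smul, add_assoc]⟩
    have h2 := hamin _ h1
    simp only [dot_add_smul] at h2
    nlinarith
  have hpb : kap D φb < 0 := by
    refine kap_last hP hT₁ (by rw [hhb]; exact hM0.ne') hkb fun l' hl' => ?_
    by_contra hne
    have h1 : φb + l' • s₁ ∈ L := (memL _).2 ⟨hne, lb + l', by rw [hlb, add_smul, add_assoc]⟩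
    have h2 := hbmax _ h1
    simp only [dot_add_smul] at h2
    nlinarith
  have hab : φb = φa + (lb - la) • s₁ := by
    rw [hlb, hla, sub_smul]
    abel
  have hγ : 0 < lb - la := by
    have h1 := hamin _ hφb
    rw [hab, dot_add_smul] at h1
    have h2 : 0 ≤ (lb - la) * dot s₁ s₁ := by linarith
    have h3 : 0 ≤ lb - la := by
      by_contra h4
      have h5 : (lb - la) * dot s₁ s₁ < 0 := mul_neg_of_neg_of_pos (not_le.1 h4) hdot
      linarith
    rcases h3.lt_or_eq with h4 | h4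
    · exact h4
    · exfalso
      rw [← h4, zero_smul, add_zero] at hab
      rw [hab] at hpb
      linarith
  refine ⟨φa, det s₁ φ₀, lb - la, hM0, hγ, hha, hpa, ?_, fun ψ hψ => hmax ψ ((memW ψ).2 hψ)⟩
  rw [← hab]
  exact hpb

/-- (2.7) Two bad classes: there is a third one and no other, and the differentials have a
positive relation.

Proof.  Write `h φ = det s₁ φ`.  `two_special` (for `T₁`, with a matching from `PSys.ex`) and
`kap_spec` give `φ` with `kap φ ≠ 0`, `h φ ≠ 0`; let `M > 0` be the maximum of `h` on the support of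
`kap` (it is symmetric, `kap_neg`), attained at `φ₀`.  On the line `φ₀ + λ s₁` (`h = M`) let `φa` be
the first and `φb` the last point of the support: `kap φa > 0`, `kap φb < 0` (`kap_first`,
`kap_last` for `T₁`), so `φb = φa + γ s₁`, `γ > 0`.  By `kap_nonbad` there are matched `Ta, sa` with
`det sa φa = 0` and `Tb, sb` with `det sb φb = 0`; `det s₁ sa ≠ 0`, `det s₁ sb ≠ 0`, `det sa sb ≠ 0`
(otherwise `s₁` is parallel to `φa`).  SIGN RULE: `T, s` matched, `det s₁ s ≠ 0`: if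
`det s φa ≠ 0` then `h s < 0` (otherwise `h (φa + λ s) > M` for `λ > 0`, so `kap_last` gives
`kap φa < 0`); if `det s φb ≠ 0` then `h s > 0` (`kap_first`).  So every matched `s` is parallel to
`s₁`, `sa` or `sb`; `h sa > 0`, `h sb < 0`; `φa.2 = a • sa.2` and `φb.2 = - b • sb.2` with `a, b > 0`
(`h = M > 0`); so `γ s₁ + a sa + b sb` has zero differential.  `s₂` is parallel to `sa` or `sb`, by
the sign rule for `s₂` it is a positive multiple (of differentials); the third one is the other of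
`sa`, `sb`. -/
theorem third_class (hP : PSys c N C D T₀) (hT₁ : Mt c N C D T₀ T₁ s₁) (hT₂ : Mt c N C D T₀ T₂ s₂)
    (hd : det s₁ s₂ ≠ 0) :
    ∃ T₃ s₃, Mt c N C D T₀ T₃ s₃ ∧ (∃ a b : ℚ, 0 < a ∧ 0 < b ∧ s₃.2 = -(a • s₁.2 + b • s₂.2)) ∧
      ∀ T s, Mt c N C D T₀ T s → det s₁ s = 0 ∨ det s₂ s = 0 ∨ det s₃ s = 0 := by
  obtain ⟨φa, M, γ, hM, hγ, hha, hka, hkb, hmax⟩ := extremal hP hT₁ hT₂ hd
  set φb := φa + γ • s₁ with hφb
  have hhb : det s₁ φb = M := by
    rw [hφb, det_add_right, det_smul_right, det_self, mul_zero, add_zero, hha]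
  have ha0 : det s₁ φa ≠ 0 := by rw [hha]; exact hM.ne'
  have hb0 : det s₁ φb ≠ 0 := by rw [hhb]; exact hM.ne'
  have exA : ∃ Ta sa, Mt c N C D T₀ Ta sa ∧ det sa φa = 0 := by
    by_contra h
    push Not at h
    exact hka.ne' (kap_nonbad hP hT₁ (det_ne_zero_right ha0) h)
  have exB : ∃ Tb sb, Mt c N C D T₀ Tb sb ∧ det sb φb = 0 := by
    by_contra h
    push Not at h
    exact hkb.ne (kap_nonbad hP hT₁ (det_ne_zero_right hb0) h)
  obtain ⟨Ta, sa, hTa, hsa⟩ := exA
  obtain ⟨Tb, sb, hTb, hsb⟩ := exB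
  have signA : ∀ T s, Mt c N C D T₀ T s → det s₁ s ≠ 0 → det s φa ≠ 0 → det s₁ s < 0 := by
    intro T s hT h1 h2
    by_contra h3
    have h4 : 0 < det s₁ s := lt_of_le_of_ne (not_lt.1 h3) (Ne.symm h1)
    have h5 := kap_last hP hT h2 hka.ne' fun l hl => by
      by_contra h6
      have h7 := hmax _ h6
      rw [det_add_right, det_smul_right, hha] at h7
      have h8 : 0 < l * det s₁ s := mul_pos hl h4
      linarith
    linarith
  have signB : ∀ T s, Mt c N C D T₀ T s → det s₁ s ≠ 0 → det s φb ≠ 0 → 0 < det s₁ s := by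
    intro T s hT h1 h2
    by_contra h3
    have h4 : det s₁ s < 0 := lt_of_le_of_ne (not_lt.1 h3) h1
    have h5 := kap_first hP hT h2 hkb.ne fun l hl => by
      by_contra h6
      have h7 := hmax _ h6
      rw [det_add_right, det_smul_right, hhb] at h7
      have h8 : 0 < l * det s₁ s := mul_pos_of_neg_of_neg hl h4
      linarith
    linarith
  obtain ⟨a, ha⟩ := exists_smul_of_det hTa.s2 hsa
  obtain ⟨b, hb⟩ := exists_smul_of_det hTb.s2 hsb
  have e1 : a * det s₁ sa = M := by rw [← det_eq_of_smul ha s₁, hha]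
  have e2 : b * det s₁ sb = M := by rw [← det_eq_of_smul hb s₁, hhb]
  have ha' : a ≠ 0 := by rintro rfl; rw [zero_mul] at e1; exact hM.ne e1
  have hb' : b ≠ 0 := by rintro rfl; rw [zero_mul] at e2; exact hM.ne e2
  have hsa1 : det s₁ sa ≠ 0 := by intro h; rw [h, mul_zero] at e1; exact hM.ne e1
  have hsb1 : det s₁ sb ≠ 0 := by intro h; rw [h, mul_zero] at e2; exact hM.ne e2
  have hab : det φa φb ≠ 0 := by
    rw [hφb, det_add_right, det_smul_right, det_self, zero_add, det_swap, hha]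
    exact mul_ne_zero hγ.ne' (neg_ne_zero.2 hM.ne')
  have hsab : det sa sb ≠ 0 := by
    intro h
    apply hab
    rw [det_eq_of_smul' ha, det_eq_of_smul hb, h]
    ring
  have hsab' : det sb sa ≠ 0 := by
    rw [det_swap]; exact neg_ne_zero.2 hsab
  have psa : 0 < det s₁ sa := signB Ta sa hTa hsa1 (by
    rw [det_eq_of_smul hb]; exact mul_ne_zero hb' hsab)
  have psb : det s₁ sb < 0 := signA Tb sb hTb hsb1 (by
    rw [det_eq_of_smul ha]; exact mul_ne_zero ha' hsab')
  have pa : 0 < a := by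
    by_contra h
    have h1 : a * det s₁ sa ≤ 0 := mul_nonpos_of_nonpos_of_nonneg (not_lt.1 h) psa.le
    linarith
  have pb : b < 0 := by
    by_contra h
    have h1 : b * det s₁ sb ≤ 0 := mul_nonpos_of_nonneg_of_nonpos (not_lt.1 h) psb.le
    linarith
  have rel : b • sb.2 = a • sa.2 + γ • s₁.2 := by
    rw [← ha, ← hb, hφb]
    rfl
  have par : ∀ T s, Mt c N C D T₀ T s → det s₁ s = 0 ∨ det sa s = 0 ∨ det sb s = 0 := by
    intro T s hT
    by_cases h1 : det s₁ s = 0
    · exact Or.inl h1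
    right
    by_cases h2 : det s φa = 0
    · left
      rw [det_eq_of_smul ha, mul_eq_zero] at h2
      rw [det_swap, h2.resolve_left ha', neg_zero]
    by_cases h3 : det s φb = 0
    · right
      rw [det_eq_of_smul hb, mul_eq_zero] at h3
      rw [det_swap, h3.resolve_left hb', neg_zero]
    have h4 := signA T s hT h1 h2
    have h5 := signB T s hT h1 h3
    linarith
  rcases par T₂ s₂ hT₂ with h1 | h1 | h1
  · exact absurd h1 hd
  · -- `s₂` parallel to `sa`
    obtain ⟨t, ht⟩ := exists_smul_of_det hTa.s2 h1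
    have e3 : det s₁ s₂ = t * det s₁ sa := det_eq_of_smul ht s₁
    have ht0 : t ≠ 0 := by rintro rfl; rw [zero_mul] at e3; exact hd e3
    have h2 : 0 < det s₁ s₂ := signB T₂ s₂ hT₂ hd (by
      rw [det_eq_of_smul hb, det_eq_of_smul' ht]
      exact mul_ne_zero hb' (mul_ne_zero ht0 hsab))
    have pt : 0 < t := by
      by_contra h
      have h3 : t * det s₁ sa ≤ 0 := mul_nonpos_of_nonpos_of_nonneg (not_lt.1 h) psa.le
      linarith
    refine ⟨Tb, sb, hTb, ⟨γ / (-b), a / ((-b) * t), div_pos hγ (neg_pos.2 pb),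
      div_pos pa (mul_pos (neg_pos.2 pb) pt), ?_⟩, fun T s hT => ?_⟩
    · have r1 : b * sb.2.1 = a * sa.2.1 + γ * s₁.2.1 := congrArg Prod.fst rel
      have r2 : b * sb.2.2 = a * sa.2.2 + γ * s₁.2.2 := congrArg Prod.snd rel
      have t1 : s₂.2.1 = t * sa.2.1 := congrArg Prod.fst ht
      have t2 : s₂.2.2 = t * sa.2.2 := congrArg Prod.snd ht
      refine Prod.ext ?_ ?_
      · show sb.2.1 = -(γ / (-b) * s₁.2.1 + a / ((-b) * t) * s₂.2.1)
        rw [t1]
        field_simp
        linarith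
      · show sb.2.2 = -(γ / (-b) * s₁.2.2 + a / ((-b) * t) * s₂.2.2)
        rw [t2]
        field_simp
        linarith
    · rcases par T s hT with h3 | h3 | h3
      · exact Or.inl h3
      · right; left
        rw [det_eq_of_smul' ht, h3, mul_zero]
      · exact Or.inr (Or.inr h3)
  · -- `s₂` parallel to `sb`
    obtain ⟨t, ht⟩ := exists_smul_of_det hTb.s2 h1
    have e3 : det s₁ s₂ = t * det s₁ sb := det_eq_of_smul ht s₁
    have ht0 : t ≠ 0 := by rintro rfl; rw [zero_mul] at e3; exact hd e3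
    have h2 : det s₁ s₂ < 0 := signA T₂ s₂ hT₂ hd (by
      rw [det_eq_of_smul ha, det_eq_of_smul' ht]
      exact mul_ne_zero ha' (mul_ne_zero ht0 hsab'))
    have pt : 0 < t := by
      by_contra h
      have h3 : 0 ≤ t * det s₁ sb := mul_nonneg_of_nonpos_of_nonpos (not_lt.1 h) psb.le
      linarith
    refine ⟨Ta, sa, hTa, ⟨γ / a, (-b) / (a * t), div_pos hγ pa,
      div_pos (neg_pos.2 pb) (mul_pos pa pt), ?_⟩, fun T s hT => ?_⟩
    · have r1 : b * sb.2.1 = a * sa.2.1 + γ * s₁.2.1 := congrArg Prod.fst rel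
      have r2 : b * sb.2.2 = a * sa.2.2 + γ * s₁.2.2 := congrArg Prod.snd rel
      have t1 : s₂.2.1 = t * sb.2.1 := congrArg Prod.fst ht
      have t2 : s₂.2.2 = t * sb.2.2 := congrArg Prod.snd ht
      refine Prod.ext ?_ ?_
      · show sa.2.1 = -(γ / a * s₁.2.1 + (-b) / (a * t) * s₂.2.1)
        rw [t1]
        field_simp
        linarith
      · show sa.2.2 = -(γ / a * s₁.2.2 + (-b) / (a * t) * s₂.2.2)
        rw [t2]
        field_simp
        linarith
    · rcases par T s hT with h3 | h3 | h3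
      · exact Or.inl h3
      · exact Or.inr (Or.inr h3)
      · right; left
        rw [det_eq_of_smul' ht, h3, mul_zero]

end MPb07157.EX
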