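import Pool.Agent.Lib.MP_b07157_ag.EX.PD1

/-!
# Normalized triples: shift
-/

namespace MPb07157.EX


open Finset

variable {ι κ : Type} [Fintype ι] [DecidableEq ι] [DecidableEq κ]
variable {c : κ → ι → ℕ} {N C : Finset κ} {D : ι → F} {T₀ T T₁ T₂ : Finset ι} {s s₁ s₂ : F}
  {m : ι → ι} {j : ι → κ}

/-- Three bad classes with normalized differentials. -/
structure Tri0 (c : κ → ι → ℕ) (N C : Finset κ) (D : ι → F) (T₀ : Finset ι) (s : Fin 3 → F) :
    Prop where
  mt : ∀ i, ∃ T, Mt c N C D T₀ T (s i)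
  dt : ∀ i i', i ≠ i' → det (s i) (s i') ≠ 0
  sum : (s 0).2 + (s 1).2 + (s 2).2 = 0
  all : ∀ T s', Mt c N C D T₀ T s' → ∃ i, det (s i) s' = 0

/-- From `third_class`, scaling `s₁` by `a` and `s₂` by `b` (`Mt.smul`). -/
theorem exists_tri0 (hP : PSys c N C D T₀) (hT₁ : Mt c N C D T₀ T₁ s₁)
    (hT₂ : Mt c N C D T₀ T₂ s₂) (hd : det s₁ s₂ ≠ 0) :
    ∃ s : Fin 3 → F, Tri0 c N C D T₀ s ∧ (∃ a : ℚ, 0 < a ∧ s 0 = a • s₁) ∧
      ∃ b : ℚ, 0 < b ∧ s 1 = b • s₂ := by
  obtain ⟨T₃, s₃, hT₃, ⟨a, b, ha, hb, hrel⟩, hall⟩ := third_class hP hT₁ hT₂ hd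
  have r1 : s₃.2.1 = -(a * s₁.2.1 + b * s₂.2.1) := congrArg Prod.fst hrel
  have r2 : s₃.2.2 = -(a * s₁.2.2 + b * s₂.2.2) := congrArg Prod.snd hrel
  have d13 : det s₁ s₃ = -b * det s₁ s₂ := by
    simp only [det, r1, r2]; ring
  have d23 : det s₂ s₃ = a * det s₁ s₂ := by
    simp only [det, r1, r2]; ring
  have n12 : det (a • s₁) (b • s₂) ≠ 0 := by
    rw [det_smul_left, det_smul_right]
    exact mul_ne_zero ha.ne' (mul_ne_zero hb.ne' hd)
  have n13 : det (a • s₁) s₃ ≠ 0 := by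
    rw [det_smul_left, d13]
    exact mul_ne_zero ha.ne' (mul_ne_zero (neg_ne_zero.2 hb.ne') hd)
  have n23 : det (b • s₂) s₃ ≠ 0 := by
    rw [det_smul_left, d23]
    exact mul_ne_zero hb.ne' (mul_ne_zero ha.ne' hd)
  refine ⟨![a • s₁, b • s₂, s₃], ⟨?_, ?_, ?_, ?_⟩, ⟨a, ha, rfl⟩, ⟨b, hb, rfl⟩⟩
  · intro i
    fin_cases i
    · exact ⟨T₁, hT₁.smul ha⟩
    · exact ⟨T₂, hT₂.smul hb⟩
    · exact ⟨T₃, hT₃⟩
  · intro i i' hii
    fin_cases i <;> fin_cases i'
    · exact absurd rfl hii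
    · exact n12
    · exact n13
    · show det (b • s₂) (a • s₁) ≠ 0
      rw [det_swap]; exact neg_ne_zero.2 n12
    · exact absurd rfl hii
    · exact n23
    · show det s₃ (a • s₁) ≠ 0
      rw [det_swap]; exact neg_ne_zero.2 n13
    · show det s₃ (b • s₂) ≠ 0
      rw [det_swap]; exact neg_ne_zero.2 n23
    · exact absurd rfl hii
  · show a • s₁.2 + b • s₂.2 + s₃.2 = 0
    rw [hrel]
    abel
  · intro T s' hT
    rcases hall T s' hT with h | h | h
    · refine ⟨0, ?_⟩
      show det (a • s₁) s' = 0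
      rw [det_smul_left, h, mul_zero]
    · refine ⟨1, ?_⟩
      show det (b • s₂) s' = 0
      rw [det_smul_left, h, mul_zero]
    · exact ⟨2, h⟩

/-- (2.8) Proof: for `l ≠ 0, a` the function `φ + l • s i'` is not parallel to any `s i''`, so
`kap = 0` (`kap_nonbad`, `Tri0.all`); then `kap_two`; and `kap_first` / `kap_last` for the sign. -/
theorem Tri0.shift {s : Fin 3 → F} (h : Tri0 c N C D T₀ s) (hP : PSys c N C D T₀) {i i' : Fin 3}
    (hi : i ≠ i') {φ : F} {a : ℚ} (ha : a ≠ 0) (hφ : φ.2 = a • (s i).2) :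
    kap D (φ + a • s i') = -kap D φ ∧ 0 ≤ a * kap D φ := by
  obtain ⟨T', hT'⟩ := h.mt i'
  have f1 : φ.2.1 = a * (s i).2.1 := congrArg Prod.fst hφ
  have f2 : φ.2.2 = a * (s i).2.2 := congrArg Prod.snd hφ
  have hd := h.dt i i' hi
  have hd' := h.dt i' i hi.symm
  have e1 : det (s i') φ = a * det (s i') (s i) := by
    simp only [det, f1, f2]; ring
  have hφ' : det (s i') φ ≠ 0 := by rw [e1]; exact mul_ne_zero ha hd'
  have hsum : ∀ i i' k : Fin 3, i ≠ i' → i ≠ k → i' ≠ k →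
      (s k).2 = -((s i).2 + (s i').2) := by
    have h0 := h.sum
    intro i i' k
    fin_cases i <;> fin_cases i' <;> fin_cases k <;> intro h1 h2 h3 <;>
      first
      | exact absurd rfl h1
      | exact absurd rfl h2
      | exact absurd rfl h3
      | (rw [eq_neg_iff_add_eq_zero, ← h0]
         simp only [Fin.zero_eta, Fin.mk_one, Fin.reduceFinMk]
         abel)
  have hz : ∀ l : ℚ, l ≠ 0 → l ≠ a → kap D (φ + l • s i') = 0 := by
    intro l hl hla
    refine kap_nonbad hP hT' ?_ ?_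
    · refine det_ne_zero_right (φ := s i') ?_
      rw [det_add_right, det_smul_right, det_self, mul_zero, add_zero]
      exact hφ'
    · intro T s' hs'
      obtain ⟨k, hk⟩ := h.all T s' hs'
      obtain ⟨t, ht⟩ := exists_smul_of_det (φ := s k) (h.mt k).choose_spec.s2 hk
      have g1 : s'.2.1 = t * (s k).2.1 := congrArg Prod.fst ht
      have g2 : s'.2.2 = t * (s k).2.2 := congrArg Prod.snd ht
      have ht0 : t ≠ 0 := by
        rintro rfl
        exact hs'.s2 (by rw [ht, zero_smul])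
      have e2 : det s' (φ + l • s i') = t * (a * det (s k) (s i) + l * det (s k) (s i')) := by
        rw [det_add_right, det_smul_right]
        simp only [det, f1, f2, g1, g2]; ring
      rw [e2]
      refine mul_ne_zero ht0 ?_
      by_cases hki : k = i
      · subst hki
        rw [det_self, mul_zero, zero_add]
        exact mul_ne_zero hl hd
      by_cases hki' : k = i'
      · subst hki'
        rw [det_self, mul_zero, add_zero]
        exact mul_ne_zero ha hd'
      · have h3 := hsum i i' k hi (Ne.symm hki) (Ne.symm hki')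
        have q1 : (s k).2.1 = -((s i).2.1 + (s i').2.1) := congrArg Prod.fst h3
        have q2 : (s k).2.2 = -((s i).2.2 + (s i').2.2) := congrArg Prod.snd h3
        have e3 : a * det (s k) (s i) + l * det (s k) (s i') = (a - l) * det (s i) (s i') := by
          simp only [det, q1, q2]; ring
        rw [e3]
        exact mul_ne_zero (sub_ne_zero.2 (Ne.symm hla)) hd
  refine ⟨kap_two hP hT' hφ' ha hz, ?_⟩
  by_cases hk : kap D φ = 0
  · rw [hk, mul_zero]
  rcases lt_or_gt_of_ne ha with h1 | h1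
  · have h2 := kap_last hP hT' hφ' hk fun l hl => hz l hl.ne' (h1.trans hl).ne'
    exact (mul_pos_of_neg_of_neg h1 h2).le
  · have h2 := kap_first hP hT' hφ' hk fun l hl => hz l hl.ne (hl.trans h1).ne
    exact (mul_pos h1 h2).le

end MPb07157.EX
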