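import Pool.Agent.Lib.MP_b07157_ag.EX.PD2

/-!
# Existence of points of the support
-/

namespace MPb07157.EX


open Finset

variable {ι κ : Type} [Fintype ι] [DecidableEq ι] [DecidableEq κ]
variable {c : κ → ι → ℕ} {N C : Finset κ} {D : ι → F} {T₀ T T₁ T₂ : Finset ι} {s s₁ s₂ : F}
  {m : ι → ι} {j : ι → κ}

/-- One class with a point of the support over a positive multiple. -/
theorem Tri0.exists_kap_one {s : Fin 3 → F} (h : Tri0 c N C D T₀ s) (hP : PSys c N C D T₀) :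
    ∃ i, ∃ φ, ∃ a : ℚ, 0 < a ∧ φ.2 = a • (s i).2 ∧ kap D φ ≠ 0 := by
  obtain ⟨T, hT⟩ := h.mt 0
  obtain ⟨T', hT'⟩ := h.mt 1
  have hd : det (s 0) (s 1) ≠ 0 := h.dt 0 1 (by decide)
  obtain ⟨m, j, hM, -⟩ := hP.ex T (s 0) hT
  obtain ⟨v, hv, -, hsp⟩ := two_special hP hT hT' hd hM
  obtain ⟨α, hα, hDv⟩ := hT'.mul v hv
  have hdv : det (s 0) (D v) ≠ 0 := by
    rw [hDv, det_smul_right]
    exact mul_ne_zero hα.ne' hd
  obtain ⟨l, hl⟩ := kap_spec hP hT hM hdv hsp
  have hφ2 : (D v + l • s 0).2 ≠ 0 := by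
    apply det_ne_zero_right (φ := s 0)
    rw [det_add_right, det_smul_right, det_self, mul_zero, add_zero]
    exact hdv
  have hex : ∃ T'' s'', Mt c N C D T₀ T'' s'' ∧ det s'' (D v + l • s 0) = 0 := by
    by_contra hcon
    apply hl
    refine kap_nonbad hP hT hφ2 fun T'' s'' hs'' h0 => hcon ⟨T'', s'', hs'', h0⟩
  obtain ⟨T'', s'', hs'', h0⟩ := hex
  obtain ⟨i, hi⟩ := h.all T'' s'' hs''
  obtain ⟨x, hx⟩ := exists_smul_of_det hs''.s2 h0
  obtain ⟨Ti, hTi⟩ := h.mt i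
  obtain ⟨y, hy⟩ := exists_smul_of_det hTi.s2 hi
  have hxy : (D v + l • s 0).2 = (x * y) • (s i).2 := by rw [hx, hy, smul_smul]
  have hne : x * y ≠ 0 := by
    intro h1
    apply hφ2
    rw [hxy, h1, zero_smul]
  rcases lt_or_gt_of_ne hne with hlt | hgt
  · refine ⟨i, o - (D v + l • s 0), -(x * y), by linarith, ?_, ?_⟩
    · rw [Prod.snd_sub, hxy, neg_smul]
      simp [o]
    · rw [kap_neg]
      exact neg_ne_zero.2 hl
  · exact ⟨i, _, x * y, hgt, hxy, hl⟩

/-- There is a point of the support over a nonzero multiple of `(s i).2`, for every `i`.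
(`two_special`, `kap_spec`, `kap_nonbad`, then `Tri0.shift` to move to the other classes.) -/
theorem Tri0.exists_kap {s : Fin 3 → F} (h : Tri0 c N C D T₀ s) (hP : PSys c N C D T₀)
    (i : Fin 3) : ∃ φ, ∃ a : ℚ, 0 < a ∧ φ.2 = a • (s i).2 ∧ kap D φ ≠ 0 := by
  obtain ⟨i₀, φ, a, ha, hφ, hk⟩ := h.exists_kap_one hP
  by_cases hi : i = i₀
  · subst hi
    exact ⟨φ, a, ha, hφ, hk⟩
  · have key : ∃ i' : Fin 3, i₀ ≠ i' ∧ (s i₀).2 + (s i').2 = -(s i).2 := by
      have hs := h.sum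
      have e1 : (s 0).2 + (s 1).2 = -(s 2).2 := eq_neg_of_add_eq_zero_left hs
      have e2 : (s 0).2 + (s 2).2 = -(s 1).2 := by
        apply eq_neg_of_add_eq_zero_left
        rw [← hs]; abel
      have e3 : (s 1).2 + (s 2).2 = -(s 0).2 := by
        apply eq_neg_of_add_eq_zero_left
        rw [← hs]; abel
      have e1' : (s 1).2 + (s 0).2 = -(s 2).2 := by rw [add_comm]; exact e1
      have e2' : (s 2).2 + (s 0).2 = -(s 1).2 := by rw [add_comm]; exact e2
      have e3' : (s 2).2 + (s 1).2 = -(s 0).2 := by rw [add_comm]; exact e3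
      have hi0 : i₀ = 0 ∨ i₀ = 1 ∨ i₀ = 2 := by fin_cases i₀ <;> simp
      have hi1 : i = 0 ∨ i = 1 ∨ i = 2 := by fin_cases i <;> simp
      rcases hi0 with rfl | rfl | rfl <;> rcases hi1 with rfl | rfl | rfl
      · exact absurd rfl hi
      · exact ⟨2, by decide, e2⟩
      · exact ⟨1, by decide, e1⟩
      · exact ⟨2, by decide, e3⟩
      · exact absurd rfl hi
      · exact ⟨0, by decide, e1'⟩
      · exact ⟨1, by decide, e3'⟩
      · exact ⟨0, by decide, e2'⟩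
      · exact absurd rfl hi
    obtain ⟨i', hi', he⟩ := key
    obtain ⟨h1, -⟩ := h.shift hP hi' ha.ne' hφ
    refine ⟨o - (φ + a • s i'), a, ha, ?_, ?_⟩
    · rw [Prod.snd_sub, Prod.snd_add, Prod.smul_snd, hφ, ← smul_add, he, smul_neg, sub_neg_eq_add]
      simp [o]
    · rw [kap_neg, h1, neg_neg]
      exact hk

end MPb07157.EX
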