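import Pool.Agent.Lib.MP_b07157_ag.EX.PD3

/-!
# Uniqueness of the matched line
-/

namespace MPb07157.EX


open Finset

variable {ι κ : Type} [Fintype ι] [DecidableEq ι] [DecidableEq κ]
variable {c : κ → ι → ℕ} {N C : Finset κ} {D : ι → F} {T₀ T T₁ T₂ : Finset ι} {s s₁ s₂ : F}
  {m : ι → ι} {j : ι → κ}

omit [Fintype ι] [DecidableEq ι] [DecidableEq κ] in
private theorem det_congr' {φ φ' ψ ψ' : F} (h : φ.2 = φ'.2) (h' : ψ.2 = ψ'.2) :
    det φ ψ = det φ' ψ' := by
  unfold det
  rw [h, h']

private theorem line_idx (s : Fin 3 → F) (hs : (s 0).2 + (s 1).2 + (s 2).2 = 0) (i : Fin 3) :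
    ∃ i' k : Fin 3, i' ≠ i ∧ k ≠ i ∧ k ≠ i' ∧ (∀ l, l = i ∨ l = i' ∨ l = k) ∧
      (s k).2 = -((s i).2 + (s i').2) := by
  have e0 : (s 0).2 = -((s 1).2 + (s 2).2) := by
    apply eq_neg_of_add_eq_zero_left
    rw [← hs]; abel
  have e1 : (s 1).2 = -((s 0).2 + (s 2).2) := by
    apply eq_neg_of_add_eq_zero_left
    rw [← hs]; abel
  have e2 : (s 2).2 = -((s 0).2 + (s 1).2) := by
    apply eq_neg_of_add_eq_zero_left
    rw [← hs]; abel
  have hi1 : i = 0 ∨ i = 1 ∨ i = 2 := by fin_cases i <;> simp
  rcases hi1 with rfl | rfl | rfl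
  · exact ⟨1, 2, by decide, by decide, by decide, by decide, e2⟩
  · exact ⟨0, 2, by decide, by decide, by decide, by decide, by rw [e2, add_comm]⟩
  · exact ⟨0, 1, by decide, by decide, by decide, by decide, by rw [e1, add_comm]⟩

/-- (2.9) Matched sets in the class `i` are on the line `s i = 0` with the same orientation.

Proof.  `s'.2 = β • (s i).2`, `β ≠ 0`.  `third_class` for `T', s'` and `s i'` (`i' ≠ i`) gives a third
class with a positive relation; it must be the class of `s i''` (the remaining index), and comparing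
with `sum = 0` we get `β > 0`.  Replace `s'` by `β⁻¹ • s'` (`Mt.smul`): `s' = s i + t • o`.  The triple
with `s i` replaced by `s'` is again `Tri0`; by `Tri0.shift` for both, if `φ.2 = a • (s i').2`, `a ≠ 0`,
`kap (φ + (a * t) • o) = - kap (φ + (a * t) • o + a • s i) = - kap (φ + a • s') = kap φ`.  Iterating
from a `φ` with `kap φ ≠ 0` (`Tri0.exists_kap`): infinitely many points of `Phi D` unless
`t = 0`. -/
theorem Tri0.line {s : Fin 3 → F} (h : Tri0 c N C D T₀ s) (hP : PSys c N C D T₀) {i : Fin 3}
    {T' : Finset ι} {s' : F} (hT' : Mt c N C D T₀ T' s') (hi : det (s i) s' = 0) :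
    ∃ β : ℚ, 0 < β ∧ s' = β • s i := by
  classical
  obtain ⟨Ti, hTi⟩ := h.mt i
  obtain ⟨β, hβ⟩ := exists_smul_of_det hTi.s2 hi
  have hβ0 : β ≠ 0 := by
    intro h0
    apply hT'.s2
    rw [hβ, h0, zero_smul]
  obtain ⟨i', k, hi', hk, hki', hall, hsk⟩ := line_idx s h.sum i
  have hD : det (s i) (s i') ≠ 0 := h.dt i i' hi'.symm
  obtain ⟨Ti', hTi'⟩ := h.mt i'
  -- the sign of `β`
  have hs'i' : det s' (s i') = β * det (s i) (s i') := by
    rw [← det_smul_left]
    exact det_congr' (by rw [hβ]; rfl) rfl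
  have hpos : 0 < β := by
    obtain ⟨T₃, s₃, hT₃, ⟨a, b, ha, hb, hs₃⟩, -⟩ := third_class hP hT' hTi'
      (by rw [hs'i']; exact mul_ne_zero hβ0 hD)
    obtain ⟨l, hl⟩ := h.all T₃ s₃ hT₃
    have h3 : s₃.2 = (-(a * β) • s i + -b • s i').2 := by
      rw [hs₃, hβ, Prod.snd_add, Prod.smul_snd, Prod.smul_snd, smul_smul, neg_smul, neg_smul,
        neg_add]
    have hdl : ∀ l, det (s l) s₃ = -(a * β) * det (s l) (s i) + -b * det (s l) (s i') := by
      intro l
      rw [det_congr' (rfl : (s l).2 = (s l).2) h3, det_add_right, det_smul_right, det_smul_right]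
    rw [hdl] at hl
    rcases hall l with rfl | rfl | rfl
    · rw [det_self, mul_zero, zero_add] at hl
      rcases mul_eq_zero.1 hl with h4 | h4
      · linarith
      · exact absurd h4 hD
    · rw [det_self, mul_zero, add_zero] at hl
      rcases mul_eq_zero.1 hl with h4 | h4
      · have : a * β = 0 := by linarith
        rcases mul_eq_zero.1 this with h5 | h5
        · linarith
        · exact absurd h5 hβ0
      · exact absurd h4 (h.dt l i hi')
    · have h5 : ∀ ψ, det (s l) ψ = -det (s i) ψ - det (s i') ψ := by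
        intro ψ
        have : det (s l) ψ = det ((-1 : ℚ) • (s i + s i')) ψ :=
          det_congr' (by rw [hsk, Prod.smul_snd, Prod.snd_add, neg_smul, one_smul]) rfl
        rw [this, det_smul_left, det_add_left]
        ring
      rw [h5, h5, det_self, det_self, det_swap (s i') (s i)] at hl
      have h6 : (b - a * β) * det (s i) (s i') = 0 := by linarith
      rcases mul_eq_zero.1 h6 with h7 | h7
      · have h8 : 0 < a * β := by linarith
        exact (mul_pos_iff_of_pos_left ha).1 h8
      · exact absurd h7 hD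
  refine ⟨β, hpos, ?_⟩
  -- normalize
  have hT'' := hT'.smul (inv_pos.2 hpos)
  set s'' : F := β⁻¹ • s' with hs''
  have hs''2 : s''.2 = (s i).2 := by
    rw [hs'', Prod.smul_snd, hβ, smul_smul, inv_mul_cancel₀ hβ0, one_smul]
  set t : ℚ := s''.1 - (s i).1 with ht
  have hst : s'' = s i + t • o := by
    refine Prod.ext ?_ ?_
    · have h1 : (t • o : F).1 = t := by
        change t * (1 : ℚ) = t
        rw [mul_one]
      rw [Prod.fst_add, h1]
      linarith [ht]
    · rw [hs''2, Prod.snd_add, Prod.smul_snd]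
      simp [o]
  have hup : ∀ l, (Function.update s i s'' l).2 = (s l).2 := by
    intro l
    by_cases hl : l = i
    · subst hl
      rw [Function.update_self, hs''2]
    · rw [Function.update_of_ne hl]
  have h' : Tri0 c N C D T₀ (Function.update s i s'') := by
    refine ⟨fun l => ?_, fun l l' hll => ?_, ?_, fun T₁ s₁ h₁ => ?_⟩
    · by_cases hl : l = i
      · subst hl
        rw [Function.update_self]
        exact ⟨T', hT''⟩
      · rw [Function.update_of_ne hl]
        exact h.mt l
    · rw [det_congr' (hup l) (hup l')]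
      exact h.dt l l' hll
    · rw [hup, hup, hup]
      exact h.sum
    · obtain ⟨l, hl⟩ := h.all T₁ s₁ h₁
      exact ⟨l, by rw [det_congr' (hup l) rfl]; exact hl⟩
  have hstep : ∀ (φ : F) (a : ℚ), a ≠ 0 → φ.2 = a • (s i').2 →
      kap D (φ + (a * t) • o) = kap D φ := by
    intro φ a ha hφ
    have h1 := (h'.shift hP hi' ha (φ := φ) (by rw [Function.update_of_ne hi']; exact hφ)).1
    rw [Function.update_self] at h1
    have h2 := (h.shift hP hi' ha (φ := φ + (a * t) • o)
      (by rw [Prod.snd_add, Prod.smul_snd, hφ]; simp [o])).1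
    have h3 : φ + (a * t) • o + a • s i = φ + a • s'' := by
      rw [hst, smul_add, smul_smul]
      abel
    rw [h3, h1] at h2
    linarith
  obtain ⟨φ₀, a, ha, hφ₀, hk₀⟩ := h.exists_kap hP i'
  have hit : ∀ n : ℕ, kap D (φ₀ + ((n : ℚ) * (a * t)) • o) ≠ 0 := by
    intro n
    induction n with
    | zero => simpa using hk₀
    | succ n ih =>
      have h1 := hstep (φ₀ + ((n : ℚ) * (a * t)) • o) a ha.ne'
        (by rw [Prod.snd_add, Prod.smul_snd, hφ₀]; simp [o])
      have h2 : φ₀ + ((n : ℚ) * (a * t)) • o + (a * t) • o =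
          φ₀ + (((n + 1 : ℕ) : ℚ) * (a * t)) • o := by
        rw [add_assoc, ← add_smul]
        congr 2
        push_cast
        ring
      rw [h2] at h1
      rw [h1]
      exact ih
  have ht0 : t = 0 := by
    by_contra htne
    have hinj : Function.Injective fun n : ℕ => φ₀ + ((n : ℚ) * (a * t)) • o := by
      intro n n' hnn
      have h1 : ((n : ℚ) * (a * t)) • o = ((n' : ℚ) * (a * t)) • o := add_left_cancel hnn
      have h2 := congrArg Prod.fst h1
      rw [Prod.smul_fst, Prod.smul_fst] at h2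
      simp only [o, smul_eq_mul, mul_one] at h2
      have h3 := mul_right_cancel₀ (mul_ne_zero ha.ne' htne) h2
      exact_mod_cast h3
    exact Set.infinite_of_injective_forall_mem hinj (s := (Phi D : Set F))
      (fun n => mem_Phi (hit n)) (Finset.finite_toSet _)
  rw [ht0, zero_smul, add_zero] at hst
  rw [← hst, hs'', smul_smul, mul_inv_cancel₀ hβ0, one_smul]

end MPb07157.EX
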