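import Pool.Agent.Lib.MP_b07157_ag.EX.PElim

/-!
# Planes in coordinates: definitions

`F` = affine functions `φ = (const, x-coefficient, y-coefficient)` on the plane `ℚ²`, `o` = the
constant function one, `D e` = the coordinate function of the element `e`.
-/

namespace MPb07157.EX

open Finset

/-- Affine functions on the plane. -/
abbrev F : Type := ℚ × ℚ × ℚ

/-- The constant function one. -/
def o : F := (1, 0, 0)

/-- The determinant of the differentials. -/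
def det (φ ψ : F) : ℚ := φ.2.1 * ψ.2.2 - φ.2.2 * ψ.2.1

/-- The value at a point. -/
def ev (φ : F) (z : ℚ × ℚ) : ℚ := φ.1 + φ.2.1 * z.1 + φ.2.2 * z.2

theorem det_add_right (φ ψ χ : F) : det φ (ψ + χ) = det φ ψ + det φ χ := by
  simp only [det, Prod.snd_add, Prod.fst_add]; ring

theorem det_add_left (φ ψ χ : F) : det (φ + ψ) χ = det φ χ + det ψ χ := by
  simp only [det, Prod.snd_add, Prod.fst_add]; ring

theorem det_sub_right (φ ψ χ : F) : det φ (ψ - χ) = det φ ψ - det φ χ := by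
  simp only [det, Prod.snd_sub, Prod.fst_sub]; ring

theorem det_sub_left (φ ψ χ : F) : det (φ - ψ) χ = det φ χ - det ψ χ := by
  simp only [det, Prod.snd_sub, Prod.fst_sub]; ring

theorem det_smul_right (a : ℚ) (φ ψ : F) : det φ (a • ψ) = a * det φ ψ := by
  simp only [det, Prod.smul_snd, Prod.smul_fst, smul_eq_mul]; ring

theorem det_smul_left (a : ℚ) (φ ψ : F) : det (a • φ) ψ = a * det φ ψ := by
  simp only [det, Prod.smul_snd, Prod.smul_fst, smul_eq_mul]; ring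

theorem det_self (φ : F) : det φ φ = 0 := by
  simp only [det]; ring

theorem det_swap (φ ψ : F) : det φ ψ = -det ψ φ := by
  simp only [det]; ring

theorem det_o_right (φ : F) : det φ o = 0 := by
  simp [det, o]

theorem det_o_left (φ : F) : det o φ = 0 := by
  simp [det, o]

theorem ev_add (φ ψ : F) (z : ℚ × ℚ) : ev (φ + ψ) z = ev φ z + ev ψ z := by
  simp only [ev, Prod.snd_add, Prod.fst_add]; ring

theorem ev_sub (φ ψ : F) (z : ℚ × ℚ) : ev (φ - ψ) z = ev φ z - ev ψ z := by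
  simp only [ev, Prod.snd_sub, Prod.fst_sub]; ring

theorem ev_smul (a : ℚ) (φ : F) (z : ℚ × ℚ) : ev (a • φ) z = a * ev φ z := by
  simp only [ev, Prod.smul_snd, Prod.smul_fst, smul_eq_mul]; ring

theorem ev_o (z : ℚ × ℚ) : ev o z = 1 := by
  simp [ev, o]

theorem det_ne_zero_left {φ ψ : F} (h : det φ ψ ≠ 0) : φ.2 ≠ 0 := by
  intro h0
  apply h
  simp [det, h0]

theorem det_ne_zero_right {φ ψ : F} (h : det φ ψ ≠ 0) : ψ.2 ≠ 0 := by
  intro h0
  apply h
  simp [det, h0]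

/-- Two lines that are not parallel meet. -/
theorem exists_ev_zero {φ ψ : F} (h : det φ ψ ≠ 0) : ∃ z, ev φ z = 0 ∧ ev ψ z = 0 := by
  refine ⟨((φ.2.2 * ψ.1 - φ.1 * ψ.2.2) / det φ ψ, (φ.1 * ψ.2.1 - φ.2.1 * ψ.1) / det φ ψ), ?_, ?_⟩
  · simp only [ev]
    field_simp
    simp only [det]
    ring
  · simp only [ev]
    field_simp
    simp only [det]
    ring

/-- Parallel differentials are proportional. -/
theorem exists_smul_of_det {φ ψ : F} (hφ : φ.2 ≠ 0) (h : det φ ψ = 0) :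
    ∃ a : ℚ, ψ.2 = a • φ.2 := by
  have h0 : φ.2.1 * ψ.2.2 = φ.2.2 * ψ.2.1 := by
    have := h
    simp only [det] at this
    linarith
  by_cases h1 : φ.2.1 = 0
  · have h2 : φ.2.2 ≠ 0 := fun h2 => hφ (Prod.ext h1 h2)
    refine ⟨ψ.2.2 / φ.2.2, Prod.ext ?_ ?_⟩
    · rw [h1, zero_mul, zero_eq_mul] at h0
      rcases h0 with h0 | h0
      · exact absurd h0 h2
      · simp [h0, h1]
    · simp only [Prod.smul_snd, smul_eq_mul]
      field_simp
  · refine ⟨ψ.2.1 / φ.2.1, Prod.ext ?_ ?_⟩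
    · simp only [Prod.smul_fst, smul_eq_mul]
      field_simp
    · simp only [Prod.smul_snd, smul_eq_mul]
      field_simp
      linarith

variable {ι κ : Type} [Fintype ι] [DecidableEq ι] [DecidableEq κ]

/-- `T` is a matched set on the line `s = 0` (`s` positive multiples). -/
structure Mt (c : κ → ι → ℕ) (N C : Finset κ) (D : ι → F) (T₀ T : Finset ι) (s : F) : Prop where
  ne : T.Nonempty
  s2 : s.2 ≠ 0
  mul : ∀ f ∈ T, ∃ α : ℚ, 0 < α ∧ D f = α • s
  q : ∀ w (β : ℚ), D w = o + β • s → ∀ k, ¬ Own c N C (T₀ ∪ T) w k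

/-- Perfect matching of the elements that are not constant on the line `s = 0`. -/
structure PMD (c : κ → ι → ℕ) (N : Finset κ) (D : ι → F) (T₀ T : Finset ι) (s : F)
    (m : ι → ι) (j : ι → κ) : Prop where
  nc : ∀ v, det s (D v) ≠ 0 → det s (D (m v)) ≠ 0
  inv : ∀ v, det s (D v) ≠ 0 → m (m v) = v
  ne : ∀ v, det s (D v) ≠ 0 → m v ≠ v
  jm : ∀ v, det s (D v) ≠ 0 → j (m v) = j v
  mem : ∀ v, det s (D v) ≠ 0 → j v ∈ N
  val : ∀ v, det s (D v) ≠ 0 → c (j v) v = 1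
  supp : ∀ v, det s (D v) ≠ 0 → ∀ e, c (j v) e ≠ 0 → e ∈ T₀ ∪ T ∨ e = v ∨ e = m v

/-- The column `k` meets `T`. -/
def Spec (c : κ → ι → ℕ) (T : Finset ι) (k : κ) : Prop := ∃ f ∈ T, c k f ≠ 0

/-- Plane systems: the line theorem holds for all matched sets. -/
structure PSys (c : κ → ι → ℕ) (N C : Finset κ) (D : ι → F) (T₀ : Finset ι) : Prop where
  sub : C ⊆ N
  zero : ∀ f ∈ T₀, D f = 0
  col : ∀ k ∈ N, ∑ e, (c k e : ℚ) • D e = o
  ex : ∀ T s, Mt c N C D T₀ T s → ∃ m j, PMD c N D T₀ T s m j ∧ ∀ v, det s (D v) ≠ 0 → j v ∈ C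
  un : ∀ T s, Mt c N C D T₀ T s → ∀ m j m' j', PMD c N D T₀ T s m j → PMD c N D T₀ T s m' j' →
    ∀ v, det s (D v) ≠ 0 → m v = m' v ∧ j v = j' v
  reach : ∀ T s, Mt c N C D T₀ T s → ∀ m j, PMD c N D T₀ T s m j → ∀ (z : ℚ × ℚ) (σ : ℚ),
    ev s z = 0 → ∀ S' : Finset ι, S'.Nonempty → (∀ e ∈ S', ev (D e) z = 0 ∧ 0 < σ * det s (D e)) →
    ∃ v ∈ S', Own c N C (T₀ ∪ T ∪ S') (m v) (j v)
  iso : ∀ T s, Mt c N C D T₀ T s → ∀ m j, PMD c N D T₀ T s m j → ∀ (z : ℚ × ℚ) (σ : ℚ),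
    ev s z = 0 → ∀ V' O' : Finset ι, (∀ e ∈ V', ev (D e) z = 0 ∧ 0 < σ * det s (D e)) →
    (∀ S' ⊆ V', S'.Nonempty → ∀ w k, Own c N C (T₀ ∪ T ∪ S') w k → w ∈ O') →
    O'.card ≤ V'.card → ∀ v ∈ V', ∃ S' ⊆ V', v ∈ S' ∧
      ∀ w k, Own c N C (T₀ ∪ T ∪ S') w k → k = j v

/-- `kap φ = #{D e = φ} - #{D e = 1 - φ}`. -/
def kap (D : ι → F) (φ : F) : ℚ :=
  ((univ.filter fun e => D e = φ).card : ℚ) - ((univ.filter fun e => D e = o - φ).card : ℚ)

/-- All functions that occur. -/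
def Phi (D : ι → F) : Finset F := univ.image D ∪ univ.image fun e => o - D e

end MPb07157.EX
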