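import Pool.Agent.Lib.MP_b07157_ag.EX.PDefs

/-!
# Owners in cones
-/

namespace MPb07157.EX


open Finset

variable {ι κ : Type} [Fintype ι] [DecidableEq ι] [DecidableEq κ]
variable {c : κ → ι → ℕ} {N C : Finset κ} {D : ι → F} {T₀ T : Finset ι} {s : Fin 3 → F} {K : ℚ}
  {s₁ s₂ : F} {m : ι → ι} {j : ι → κ}

/-- Owners of sets in the cone of `s₁`, `s₂`.  Proof: `o - D w = ∑_{e ∈ S} c k e • D e` (the elements
of `T₀` have `D e = 0`); coordinates with respect to `s₁`, `s₂` are unique (`det s₁ s₂ ≠ 0`), the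
coefficients `a`, `b` are sums of nonnegative terms. -/
theorem cone_own (hP : PSys c N C D T₀) (hd : det s₁ s₂ ≠ 0) {S : Finset ι}
    (hS : ∀ e ∈ S, ∃ α β : ℚ, 0 ≤ α ∧ 0 ≤ β ∧ D e = α • s₁ + β • s₂) {w : ι} {k : κ}
    (hw : w ∉ T₀ ∪ S) (hk : k ∈ U c N (T₀ ∪ S) w) :
    ∃ a b : ℚ, 0 ≤ a ∧ 0 ≤ b ∧ o - D w = a • s₁ + b • s₂ ∧
      (a = 0 → ∀ e ∈ S, ∀ α β : ℚ, 0 < α → D e = α • s₁ + β • s₂ → c k e = 0) ∧
      (b = 0 → ∀ e ∈ S, ∀ α β : ℚ, 0 < β → D e = α • s₁ + β • s₂ → c k e = 0) := by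
  choose! α β hα hβ hD using hS
  have hk' := mem_U.1 hk
  have hwS : w ∉ S := fun h1 => hw (Finset.mem_union_right T₀ h1)
  have huniq : ∀ a b a' b' : ℚ, a • s₁ + b • s₂ = a' • s₁ + b' • s₂ → a = a' ∧ b = b' := by
    intro a b a' b' h
    have h1 := congrArg (fun φ => det φ s₂) h
    have h2 := congrArg (fun φ => det s₁ φ) h
    simp only [det_add_left, det_smul_left, det_self, mul_zero, add_zero, det_add_right,
      det_smul_right, zero_add] at h1 h2
    exact ⟨mul_right_cancel₀ hd h1, mul_right_cancel₀ hd h2⟩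
  have hcol := hP.col k hk'.1
  have h2 : ∑ e ∈ insert w S, (c k e : ℚ) • D e = ∑ e, (c k e : ℚ) • D e := by
    refine Finset.sum_subset (Finset.subset_univ _) fun e _ he => ?_
    by_cases h3 : c k e = 0
    · rw [h3]; simp
    · rcases hk'.2.2 e h3 with h4 | h4
      · rcases Finset.mem_union.1 h4 with h5 | h5
        · rw [hP.zero e h5, smul_zero]
        · exact absurd (Finset.mem_insert_of_mem h5) he
      · exact absurd (h4 ▸ Finset.mem_insert_self w S) he
  refine ⟨∑ e ∈ S, (c k e : ℚ) * α e, ∑ e ∈ S, (c k e : ℚ) * β e,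
    Finset.sum_nonneg fun e he => mul_nonneg (Nat.cast_nonneg _) (hα e he),
    Finset.sum_nonneg fun e he => mul_nonneg (Nat.cast_nonneg _) (hβ e he), ?_, ?_, ?_⟩
  · rw [← hcol, ← h2, Finset.sum_insert hwS, hk'.2.1, Nat.cast_one, one_smul, add_sub_cancel_left,
      Finset.sum_smul, Finset.sum_smul, ← Finset.sum_add_distrib]
    refine Finset.sum_congr rfl fun e he => ?_
    rw [mul_smul, mul_smul, ← smul_add, ← hD e he]
  · intro h0 e he a b ha hab
    rw [Finset.sum_eq_zero_iff_of_nonneg (fun e he =>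
      mul_nonneg (Nat.cast_nonneg _) (hα e he))] at h0
    have h3 := (huniq _ _ _ _ ((hD e he).symm.trans hab)).1
    rcases mul_eq_zero.1 (h0 e he) with h4 | h4
    · exact_mod_cast h4
    · exact absurd (h3.symm.trans h4) ha.ne'
  · intro h0 e he a b hb hab
    rw [Finset.sum_eq_zero_iff_of_nonneg (fun e he =>
      mul_nonneg (Nat.cast_nonneg _) (hβ e he))] at h0
    have h3 := (huniq _ _ _ _ ((hD e he).symm.trans hab)).2
    rcases mul_eq_zero.1 (h0 e he) with h4 | h4
    · exact_mod_cast h4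
    · exact absurd (h3.symm.trans h4) hb.ne'

/-- The functions `s i`, `s k` and `o` are independent: comparison of coefficients.
(`det` with `s k` and `s i`, then `ev` or the constant term.) -/
theorem coeff_eq (hd : det s₁ s₂ ≠ 0) {a b c' a' b' c'' : ℚ}
    (h : a • s₁ + b • s₂ + c' • o = a' • s₁ + b' • s₂ + c'' • o) : a = a' ∧ b = b' ∧ c' = c'' := by
  have h1 := congrArg (fun φ => det φ s₂) h
  have h2 := congrArg (fun φ => det s₁ φ) h
  simp only [det_add_left, det_smul_left, det_self, mul_zero, add_zero, det_add_right,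
    det_smul_right, zero_add, det_o_left, det_o_right] at h1 h2
  have h3 := mul_right_cancel₀ hd h1
  have h4 := mul_right_cancel₀ hd h2
  subst h3 h4
  refine ⟨rfl, rfl, ?_⟩
  have h5 := congrArg Prod.fst (add_left_cancel h)
  simpa [o] using h5

end MPb07157.EX
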