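import Pool.Agent.Lib.MP_b07157_ag.EX.PE1
import Pool.Agent.Lib.MP_b07157_ag.EX.PE2

/-!
# Types of special columns
-/

namespace MPb07157.EX


open Finset

variable {ι κ : Type} [Fintype ι] [DecidableEq ι] [DecidableEq κ]
variable {c : κ → ι → ℕ} {N C : Finset κ} {D : ι → F} {T₀ T : Finset ι} {s : Fin 3 → F} {K : ℚ}
  {s₁ s₂ : F} {m : ι → ι} {j : ι → κ}

private lemma pe_third (s : Fin 3 → F) (hs : s 0 + s 1 + s 2 = o) {i k : Fin 3} (hik : i ≠ k) :
    ∃ l : Fin 3, s l = o - s i - s k ∧ ∀ i' : Fin 3, i' = i ∨ i' = k ∨ i' = l := by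
  have key : ∀ i k : Fin 3, i ≠ k → ∃ l : Fin 3, (i ≠ l ∧ k ≠ l) ∧
      ∀ i' : Fin 3, i' = i ∨ i' = k ∨ i' = l := by decide
  obtain ⟨l, ⟨hl1, hl2⟩, hl⟩ := key i k hik
  refine ⟨l, ?_, hl⟩
  have huniv : (Finset.univ : Finset (Fin 3)) = {i, k, l} := by
    ext i'
    simp only [Finset.mem_univ, Finset.mem_insert, Finset.mem_singleton, true_iff]
    exact hl i'
  have hsum : ∑ i', s i' = s i + (s k + s l) := by
    rw [huniv, Finset.sum_insert (by simp [hik, hl1]), Finset.sum_insert (by simp [hl2]),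
      Finset.sum_singleton]
  rw [Fin.sum_univ_three, hs] at hsum
  rw [hsum]
  abel

/-- A special column that starts on the ray of `s k` starts at `s k`.  Proof: `kap_spec` gives `l`
with `kap (β • s k + l • s i) ≠ 0`; by `Tri.sp` it is one of `s 0, s 1, s 2, o - s 0, ...`; with
`s l' = o - s i - s k` and `coeff_eq` only `β = 1` is possible. -/
theorem Tri.spec_type (h : Tri c N C D T₀ s K) (hP : PSys c N C D T₀) {i k : Fin 3} (hik : i ≠ k)
    (hT : Mt c N C D T₀ T (s i)) (hM : PMD c N D T₀ T (s i) m j) {v : ι} {β : ℚ} (hβ : 0 < β)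
    (hv : D v = β • s k) (hs : Spec c T (j v)) : β = 1 := by
  have hd : det (s i) (s k) ≠ 0 := h.dt i k hik
  have hd' : det (s k) (s i) ≠ 0 := h.dt k i hik.symm
  have hdv : det (s i) (D v) ≠ 0 := by
    rw [hv, det_smul_right]
    exact mul_ne_zero hβ.ne' hd
  obtain ⟨l, hl⟩ := kap_spec hP hT hM hdv hs
  have hdφ : det (s i) (D v + l • s i) ≠ 0 := by
    rw [det_add_right, det_smul_right, det_self, mul_zero, add_zero]
    exact hdv
  obtain ⟨i', hi'⟩ := h.sp _ hl (det_ne_zero_right hdφ)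
  obtain ⟨l', hl', hall⟩ := pe_third s h.sum hik
  rw [hv] at hi'
  have cmp : ∀ {a b c' : ℚ}, β • s k + l • s i = a • s k + b • s i + c' • o → β = a ∧ c' = 0 := by
    intro a b c' e
    have e2 : β • s k + l • s i + (0 : ℚ) • o = a • s k + b • s i + c' • o := by
      rw [zero_smul, add_zero]
      exact e
    obtain ⟨h1, -, h3⟩ := coeff_eq hd' e2
    exact ⟨h1, h3.symm⟩
  rcases hall i' with rfl | rfl | rfl
  · rcases hi' with e | e
    · have h1 := (cmp (a := 0) (b := 1) (c' := 0) (by rw [e]; module)).1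
      exact absurd h1 hβ.ne'
    · have h1 := (cmp (a := 0) (b := -1) (c' := 1) (by rw [e]; module)).2
      exact absurd h1 one_ne_zero
  · rcases hi' with e | e
    · exact (cmp (a := 1) (b := 0) (c' := 0) (by rw [e]; module)).1
    · have h1 := (cmp (a := -1) (b := 0) (c' := 1) (by rw [e]; module)).2
      exact absurd h1 one_ne_zero
  · rcases hi' with e | e
    · rw [hl'] at e
      have h1 := (cmp (a := -1) (b := -1) (c' := 1) (by rw [e]; module)).2
      exact absurd h1 one_ne_zero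
    · rw [hl'] at e
      exact (cmp (a := 1) (b := 1) (c' := 0) (by rw [e]; module)).1

end MPb07157.EX
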