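import Pool.Agent.Lib.MP_b07157_ag.EX.PD

/-!
# Counting
-/

namespace MPb07157.EX


open Finset

variable {ι κ : Type} [Fintype ι] [DecidableEq ι] [DecidableEq κ]
variable {c : κ → ι → ℕ} {N C : Finset κ} {D : ι → F} {T₀ T : Finset ι} {s : Fin 3 → F} {K : ℚ}
  {s₁ s₂ : F} {m : ι → ι} {j : ι → κ}

private theorem Tri.s2_pe1 (h : Tri c N C D T₀ s K) (i : Fin 3) : (s i).2 ≠ 0 := by
  obtain ⟨T, hT⟩ := h.mt i
  exact hT.s2

private theorem Tri.ne1_pe1 (h : Tri c N C D T₀ s K) {i i' : Fin 3} (hne : i ≠ i') : s i ≠ s i' := by
  intro h1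
  apply h.dt i i' hne
  rw [h1]
  exact det_self _

private theorem Tri.ne2_pe1 (h : Tri c N C D T₀ s K) (i i' : Fin 3) : s i ≠ o - s i' := by
  intro h1
  by_cases hne : i = i'
  · subst hne
    apply h.s2_pe1 i
    have h2 : (s i).2 = (o - s i).2 := congrArg Prod.snd h1
    rw [Prod.snd_sub] at h2
    have h3 : (o : F).2 = 0 := rfl
    rw [h3, zero_sub] at h2
    have h4 : (s i).2.1 = -(s i).2.1 := congrArg Prod.fst h2
    have h5 : (s i).2.2 = -(s i).2.2 := congrArg Prod.snd h2
    refine Prod.ext ?_ ?_
    · change (s i).2.1 = 0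
      linarith
    · change (s i).2.2 = 0
      linarith
  · apply h.dt i i' hne
    rw [h1, det_sub_left, det_o_left, det_self, sub_zero]

open Classical in
/-- Counting.  `kap_sum` with `G` = indicator of `P`; the support of `kap` outside the constants is
`{s i, o - s i}` (six different functions) with values `K, -K` (`kap_neg`). -/
theorem Tri.count (h : Tri c N C D T₀ s K) (P : F → Prop) (hP0 : ∀ φ, P φ → φ.2 ≠ 0) :
    ((univ.filter fun e => P (D e)).card : ℚ) - ((univ.filter fun e => P (o - D e)).card : ℚ) =
      K * ∑ i, ((if P (s i) then (1 : ℚ) else 0) - if P (o - s i) then 1 else 0) := by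
  have hL : ((univ.filter fun e => P (D e)).card : ℚ) -
      ((univ.filter fun e => P (o - D e)).card : ℚ) =
      ∑ e, ((if P (D e) then (1 : ℚ) else 0) - if P (o - D e) then 1 else 0) := by
    rw [Finset.sum_sub_distrib, Finset.card_filter, Finset.card_filter]
    push_cast
    rfl
  rw [hL, ← kap_sum D fun φ => if P φ then (1 : ℚ) else 0]
  have hkn : ∀ i, kap D (o - s i) = -K := fun i => by rw [kap_neg, h.kp i]
  have hK : K ≠ 0 := h.pos.ne'
  have key : ∀ φ, kap D φ * (if P φ then (1 : ℚ) else 0) =
      ∑ i, ((if φ = s i then K * (if P (s i) then (1 : ℚ) else 0) else 0) -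
        (if φ = o - s i then K * (if P (o - s i) then (1 : ℚ) else 0) else 0)) := by
    intro φ
    by_cases hk : kap D φ = 0
    · rw [hk, zero_mul]
      symm
      apply Finset.sum_eq_zero
      intro i _
      rw [if_neg, if_neg, sub_zero]
      · intro h1
        rw [h1, hkn i] at hk
        exact hK (neg_eq_zero.1 hk)
      · intro h1
        rw [h1, h.kp i] at hk
        exact hK hk
    · by_cases hPφ : P φ
      · obtain ⟨i, hi | hi⟩ := h.sp φ hk (hP0 φ hPφ)
        · subst hi
          rw [Finset.sum_eq_single i]
          · rw [if_pos rfl, if_neg (h.ne2_pe1 i i), sub_zero, h.kp i]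
          · intro i' _ hne
            rw [if_neg (h.ne1_pe1 (Ne.symm hne)), if_neg (h.ne2_pe1 i i'), sub_zero]
          · intro h1
            exact absurd (Finset.mem_univ i) h1
        · subst hi
          rw [Finset.sum_eq_single i]
          · have h0 : ¬ (o - s i = s i) := fun h1 => h.ne2_pe1 i i h1.symm
            rw [if_neg h0, if_pos rfl, hkn i]
            ring
          · intro i' _ hne
            have h0 : ¬ (o - s i = s i') := fun h1 => h.ne2_pe1 i' i h1.symm
            have h2 : ¬ (o - s i = o - s i') := fun h1 =>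
              h.ne1_pe1 (Ne.symm hne) (sub_right_injective h1)
            rw [if_neg h0, if_neg h2, sub_zero]
          · intro h1
            exact absurd (Finset.mem_univ i) h1
      · rw [if_neg hPφ, mul_zero]
        symm
        apply Finset.sum_eq_zero
        intro i _
        have e1 : (if φ = s i then K * (if P (s i) then (1 : ℚ) else 0) else 0) = 0 := by
          split_ifs with h1 h2
          · rw [← h1] at h2
            exact absurd h2 hPφ
          · rw [mul_zero]
          · rfl
        have e2 : (if φ = o - s i then K * (if P (o - s i) then (1 : ℚ) else 0) else 0) = 0 := by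
          split_ifs with h1 h2
          · rw [← h1] at h2
            exact absurd h2 hPφ
          · rw [mul_zero]
          · rfl
        rw [e1, e2, sub_zero]
  rw [Finset.sum_congr rfl fun φ _ => key φ, Finset.sum_comm, Finset.mul_sum]
  apply Finset.sum_congr rfl
  intro i _
  have m1 : s i ∈ Phi D := mem_Phi (by rw [h.kp i]; exact hK)
  have m2 : o - s i ∈ Phi D := mem_Phi (by rw [hkn i]; exact neg_ne_zero.2 hK)
  rw [Finset.sum_sub_distrib, Finset.sum_ite_eq', Finset.sum_ite_eq', if_pos m1, if_pos m2,
    mul_sub]

end MPb07157.EX
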