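import Pool.Agent.Lib.MP_b07157_ag.EX.Geo0

/-!
# Elimination
-/

namespace MPb07157.EX

open Finset

variable {ι κ : Type} [Fintype ι] [DecidableEq ι] [DecidableEq κ]
variable {c : κ → ι → ℕ} {N C : Finset κ}

/-- The elements of `O` that are alive for `S`. -/
def Alive (c : κ → ι → ℕ) (N : Finset κ) (O S : Finset ι) : Finset ι :=
  O.filter fun w => (U c N S w).Nonempty

omit [DecidableEq κ] in
theorem mem_Alive {O S : Finset ι} {w : ι} :
    w ∈ Alive c N O S ↔ w ∈ O ∧ (U c N S w).Nonempty := by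
  unfold Alive
  rw [Finset.mem_filter]

/-- One step of the elimination: an owner dies. -/
theorem alive_step {B O S : Finset ι} {w : ι} {k : κ} (hw : w ∈ O) (h : Own c N C (B ∪ S) w k)
    {e : ι} (heS : e ∈ S) (heB : e ∉ B) (hk : c k e ≠ 0) :
    (Alive c N O (B ∪ S.erase e)).card + 1 ≤ (Alive c N O (B ∪ S)).card := by
  have h1 : (B ∪ S).erase e = B ∪ S.erase e := by
    rw [Finset.erase_union_distrib, Finset.erase_eq_of_notMem heB]
  have h2 := h.erase (Finset.mem_union_right B heS) hk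
  rw [h1] at h2
  have h3 : Alive c N O (B ∪ S.erase e) ⊂ Alive c N O (B ∪ S) := by
    rw [Finset.ssubset_iff_of_subset]
    · refine ⟨w, mem_Alive.2 ⟨hw, ⟨k, h.mem⟩⟩, fun h4 => ?_⟩
      rw [mem_Alive, h2] at h4
      exact Finset.not_nonempty_empty h4.2
    · intro w' hw'
      rw [mem_Alive] at hw' ⊢
      exact ⟨hw'.1, hw'.2.mono (U_mono (Finset.union_subset_union_right
        (Finset.erase_subset e S)) w')⟩
  exact Finset.card_lt_card h3

/-- ELIMINATION: as long as the property `Fin` fails, an owner in `O` dies when an element outside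
`K` is removed. -/
theorem elim {B O Z K : Finset ι} (hK : K ⊆ Z) (Fin : Finset ι → Prop)
    (h : ∀ S, K ⊆ S → S ⊆ Z → ¬ Fin S → ∃ w ∈ O, ∃ k, Own c N C (B ∪ S) w k ∧
      ∃ e ∈ S, e ∉ K ∧ e ∉ B ∧ c k e ≠ 0) :
    ∃ S, K ⊆ S ∧ S ⊆ Z ∧ Fin S ∧
      (Alive c N O (B ∪ S)).card + Z.card ≤ (Alive c N O (B ∪ Z)).card + S.card := by
  suffices H : ∀ n : ℕ, ∀ S, K ⊆ S → S ⊆ Z → S.card = n →
      (Alive c N O (B ∪ S)).card + Z.card ≤ (Alive c N O (B ∪ Z)).card + S.card →
      ∃ S', K ⊆ S' ∧ S' ⊆ Z ∧ Fin S' ∧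
        (Alive c N O (B ∪ S')).card + Z.card ≤ (Alive c N O (B ∪ Z)).card + S'.card from
    H _ Z hK subset_rfl rfl le_rfl
  intro n
  induction n with
  | zero =>
    intro S h1 h2 h3 h4
    refine ⟨S, h1, h2, ?_, h4⟩
    by_contra hF
    obtain ⟨w, _, k, _, e, he, _⟩ := h S h1 h2 hF
    rw [Finset.card_eq_zero] at h3
    rw [h3] at he
    exact Finset.notMem_empty e he
  | succ n ih =>
    intro S h1 h2 h3 h4
    by_cases hF : Fin S
    · exact ⟨S, h1, h2, hF, h4⟩
    · obtain ⟨w, hw, k, hk, e, he, heK, heB, hke⟩ := h S h1 h2 hF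
      have h5 := alive_step hw hk he heB hke
      have h6 : (S.erase e).card = n := by rw [Finset.card_erase_of_mem he, h3]; rfl
      refine ih (S.erase e) (fun x hx => Finset.mem_erase.2 ⟨fun hxe => heK (hxe ▸ hx), h1 hx⟩)
        ((Finset.erase_subset e S).trans h2) h6 ?_
      omega

/-- ELIMINATION down to the empty set. -/
theorem elim_empty {B O Z : Finset ι} (h : ∀ S, S ⊆ Z → S.Nonempty → ∃ w ∈ O, ∃ k,
    Own c N C (B ∪ S) w k ∧ ∃ e ∈ S, e ∉ B ∧ c k e ≠ 0) :
    Z.card ≤ (Alive c N O (B ∪ Z)).card := by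
  obtain ⟨S, h1, h2, h3, h4⟩ := elim (c := c) (N := N) (C := C) (B := B) (O := O) (Z := Z)
    (K := ∅) (Finset.empty_subset Z) (fun S => S = ∅) (fun S _ h2 h3 => by
      obtain ⟨w, hw, k, hk, e, he, heB, hke⟩ := h S h2 (Finset.nonempty_iff_ne_empty.2 h3)
      exact ⟨w, hw, k, hk, e, he, Finset.notMem_empty e, heB, hke⟩)
  subst h3
  rw [Finset.card_empty] at h4
  omega

omit [DecidableEq κ] in
theorem Alive_le {O S : Finset ι} : (Alive c N O S).card ≤ O.card := by
  unfold Alive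
  exact Finset.card_filter_le _ _

end MPb07157.EX
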