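import Pool.Agent.Lib.MP_b07157_ag.EX.PG3

/-!
# The number of special columns
-/

namespace MPb07157.EX


open Finset

variable {ι κ : Type} [Fintype ι] [DecidableEq ι] [DecidableEq κ]
variable {c : κ → ι → ℕ} {N C : Finset κ} {D : ι → F} {T₀ T T' T'' : Finset ι} {s : Fin 3 → F}
  {K : ℚ} {m : ι → ι} {j : ι → κ}

/-- A set on the line `s₁ = 0` that is not matched has a constant owner on the other side. -/
private lemma pg_own (hP : PSys c N C D T₀) {s₁ : F} (hs₁ : s₁.2 ≠ 0)
    (hT' : Mt c N C D T₀ T' s₁) {S : Finset ι} (hne : S.Nonempty)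
    (hS : ∀ e ∈ S, ∃ β : ℚ, 0 < β ∧ D e = β • s₁) (hF : ¬ Mt c N C D T₀ S s₁) :
    ∃ w k, (∃ β : ℚ, 0 < β ∧ o - D w = β • s₁) ∧ Own c N C (T₀ ∪ S) w k ∧
      ∃ e ∈ S, e ∉ T₀ ∧ c k e ≠ 0 := by
  have h1 : ¬ ∀ w (β : ℚ), D w = o + β • s₁ → ∀ k, ¬ Own c N C (T₀ ∪ S) w k := fun h =>
    hF ⟨hne, hs₁, hS, h⟩
  push Not at h1
  obtain ⟨w, β, hw, k, hk⟩ := h1
  obtain ⟨e, he, he0, hke⟩ := no_trivial hP hT' hk
  refine ⟨w, k, ?_, hk, e, he, he0, hke⟩
  choose! b hb0 hb using hS
  have hkU := mem_U.1 hk.mem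
  have hcol := hP.col k hkU.1
  have hwn : w ∉ T₀ ∪ S := hk.1
  rw [← Finset.add_sum_erase _ _ (Finset.mem_univ w), hkU.2.1, Nat.cast_one, one_smul] at hcol
  have h2 : ∑ x ∈ univ.erase w, (c k x : ℚ) • D x = ∑ x ∈ S, (c k x : ℚ) • D x := by
    symm
    apply Finset.sum_subset
    · intro x hx
      rw [Finset.mem_erase]
      refine ⟨?_, Finset.mem_univ x⟩
      rintro rfl
      exact hwn (Finset.mem_union_right _ hx)
    · intro x hx hxS
      by_cases h3 : c k x = 0
      · rw [h3, Nat.cast_zero, zero_smul]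
      · rcases hkU.2.2 x h3 with h4 | h4
        · rw [Finset.mem_union] at h4
          rcases h4 with h4 | h4
          · rw [hP.zero x h4, smul_zero]
          · exact absurd h4 hxS
        · exact absurd h4 (Finset.mem_erase.1 hx).1
  have h3 : ∑ x ∈ S, (c k x : ℚ) • D x = (∑ x ∈ S, (c k x : ℚ) * b x) • s₁ := by
    rw [Finset.sum_smul]
    refine Finset.sum_congr rfl fun x hx => ?_
    rw [hb x hx, mul_smul, ← hb x hx, hb x hx]
  refine ⟨∑ x ∈ S, (c k x : ℚ) * b x, ?_, ?_⟩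
  · apply Finset.sum_pos'
    · intro x hx
      exact mul_nonneg (Nat.cast_nonneg _) (hb0 x hx).le
    · refine ⟨e, he, mul_pos ?_ (hb0 e he)⟩
      exact_mod_cast Nat.pos_of_ne_zero hke
  · rw [← h3, ← h2, ← hcol, add_sub_cancel_left]

/-- (2.13) `K = 1`.  Proof: `T` matched in the class `0` with matching `(m, j)`; `two_special` with a
matched set of the class `1` and `Tri.spec_type` give `v`, `D v = s 1`, special.  `Tri.three`: `T'`,
`v ∈ T'`, matched on `s 1 = 0`, matching `(m', j')`, `j' g = j v`, `det (s 1) (D g) ≠ 0`.  Let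
`Z = {e | D e = β • s 1, β > 0}`, `O = {w | D w = o - β • s 1, β > 0}`, `|Z| - |O| = K`
(`Tri.count`).  `elim` with `B = T₀`, `K := T'`, `Fin S := Mt S (s 1)` (a set `S`, `T' ⊆ S ⊆ Z`, that
is not matched has a constant owner `w ∈ O` (`no_trivial`, the column relation) whose single is not
contained in `T₀ ∪ T' ∪ {w}`, otherwise `Own (T₀ ∪ T') w` by `Own.mono`) gives a matched
`T⁺ ⊇ T'` with `|Alive O (T₀ ∪ T⁺)| + K ≤ |T⁺|`.  No nonempty `S ⊆ T⁺ \ {v}` is matched: by
`nested` the column of `g` would be `j v`, which contains `v ∉ S`.  So `elim_empty` for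
`Z = T⁺ \ {v}` and `O := Alive O (T₀ ∪ T⁺)` gives `|T⁺| - 1 ≤ |Alive O (T₀ ∪ T⁺)|`; hence `K ≤ 1`;
`K = kap (s 0) > 0` is an integer. -/
theorem Tri.K_eq (h : Tri c N C D T₀ s K) (hP : PSys c N C D T₀) : K = 1 := by
  classical
  obtain ⟨T, hT⟩ := h.mt 0
  obtain ⟨m, j, hM, -⟩ := hP.ex _ _ hT
  obtain ⟨T₁, hT₁⟩ := h.mt 1
  have h01 : (0 : Fin 3) ≠ 1 := by decide
  have hd : det (s 0) (s 1) ≠ 0 := h.dt 0 1 h01
  obtain ⟨v, hvT₁, -, hspec⟩ := two_special hP hT hT₁ hd hM
  obtain ⟨α, hα0, hα⟩ := hT₁.mul v hvT₁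
  have hα1 : α = 1 := h.spec_type hP h01 hT hM hα0 hα hspec
  have hv : D v = s 1 := by rw [hα, hα1, one_smul]
  have hdv : det (s 0) (D v) ≠ 0 := by rw [hv]; exact hd
  obtain ⟨g, hgT, hDg, -, -, -, T', hvT', hT', m', j', hM', hjg, hmg⟩ :=
    h.three hP h01 (l := 2) (by decide) (by decide) hT hM hv hspec
  have hdg : det (s 1) (D g) ≠ 0 := by
    rw [hDg]
    exact h.dt 1 0 h01.symm
  have hs1 : (s 1).2 ≠ 0 := det_ne_zero_right hd
  obtain ⟨P, hPdef⟩ : ∃ P : F → Prop, P = fun φ => ∃ β : ℚ, 0 < β ∧ φ = β • s 1 := ⟨_, rfl⟩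
  obtain ⟨Z, hZ⟩ : ∃ Z : Finset ι, ∀ e, e ∈ Z ↔ P (D e) :=
    ⟨univ.filter fun e => P (D e), fun e => by simp⟩
  obtain ⟨O, hO⟩ : ∃ O : Finset ι, ∀ e, e ∈ O ↔ P (o - D e) :=
    ⟨univ.filter fun e => P (o - D e), fun e => by simp⟩
  -- the count
  have hcount : (Z.card : ℚ) - (O.card : ℚ) = K := by
    have hZ' : Z = univ.filter fun e => P (D e) := by ext e; simp [hZ]
    have hO' : O = univ.filter fun e => P (o - D e) := by ext e; simp [hO]
    have h1 := h.count P (by
      intro φ hφ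
      rw [hPdef] at hφ
      obtain ⟨β, hβ, rfl⟩ := hφ
      intro h2
      exact hs1 ((smul_eq_zero.mp (by simpa using h2 : β • (s 1).2 = 0)).resolve_left hβ.ne'))
    have p1 : P (s 1) := by rw [hPdef]; exact ⟨1, one_pos, (one_smul _ _).symm⟩
    have p0 : ¬ P (s 0) := by
      rw [hPdef]
      rintro ⟨β, hβ, e⟩
      apply hd
      rw [e, det_smul_left, det_self, mul_zero]
    have p2 : ¬ P (s 2) := by
      rw [hPdef]
      rintro ⟨β, hβ, e⟩
      apply h.dt 2 1 (by decide)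
      rw [e, det_smul_left, det_self, mul_zero]
    have q1 : ∀ i, ¬ P (o - s i) := by
      intro i
      rw [hPdef]
      rintro ⟨β, hβ, e⟩
      by_cases hi : i = 1
      · subst hi
        have e2 : (1 + β) • s 1 = o := by
          have : s 1 + β • s 1 = o := by rw [← e]; abel
          rw [add_smul, one_smul, this]
        have h3 : (1 + β) • (s 1).2 = 0 := by
          have h4 : ((1 + β) • s 1).2 = o.2 := congrArg Prod.snd e2
          exact h4
        exact hs1 ((smul_eq_zero.mp h3).resolve_left (by positivity))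
      · apply h.dt i 1 hi
        have h3 : det (o - s i) (s 1) = 0 := by rw [e, det_smul_left, det_self, mul_zero]
        rw [det_sub_left, det_o_left, zero_sub, neg_eq_zero] at h3
        exact h3
    rw [Fin.sum_univ_three, if_neg p0, if_pos p1, if_neg p2, if_neg (q1 0), if_neg (q1 1),
      if_neg (q1 2)] at h1
    rw [hZ', hO']
    linarith
  have hT'Z : T' ⊆ Z := by
    intro e he
    rw [hZ, hPdef]
    exact hT'.mul e he
  have hZmul : ∀ S : Finset ι, S ⊆ Z → ∀ e ∈ S, ∃ β : ℚ, 0 < β ∧ D e = β • s 1 := by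
    intro S hS e he
    have h1 := (hZ e).1 (hS he)
    rw [hPdef] at h1
    exact h1
  obtain ⟨Tp, hTT, hTZ, hTm, hcard⟩ := elim (c := c) (N := N) (C := C) (B := T₀) (O := O)
    (Z := Z) (K := T') hT'Z (fun S => Mt c N C D T₀ S (s 1)) (by
      intro S h1 h2 h3
      obtain ⟨w, k, hw, hk, -⟩ := pg_own hP hs1 hT' (hT'.ne.mono h1) (hZmul S h2) h3
      refine ⟨w, ?_, k, hk, ?_⟩
      · rw [hO, hPdef]
        exact hw
      · by_contra h4
        push Not at h4
        obtain ⟨β, hβ, hβw⟩ := hw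
        have h5 := hk.mono (Finset.union_subset_union_right h1) (by
          intro e he
          rcases (mem_U.1 hk.mem).2.2 e he with h6 | h6
          · rw [Finset.mem_union] at h6
            rcases h6 with h6 | h6
            · exact Or.inl (Finset.mem_union_left _ h6)
            · by_cases h7 : e ∈ T'
              · exact Or.inl (Finset.mem_union_right _ h7)
              · by_cases h8 : e ∈ T₀
                · exact Or.inl (Finset.mem_union_left _ h8)
                · exact absurd (h4 e h6 h7 h8) he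
          · exact Or.inr h6)
        refine hT'.q w (-β) ?_ k h5
        rw [neg_smul, ← hβw]
        abel)
  obtain ⟨mp, jp, hMp, -⟩ := hP.ex _ _ hTm
  have hvT₀ : v ∉ T₀ := by
    intro h1
    apply hdv
    rw [hP.zero v h1]
    simp [det]
  have hfin : (Tp.erase v).card ≤ (Alive c N (Alive c N O (T₀ ∪ Tp)) (T₀ ∪ Tp.erase v)).card := by
    apply elim_empty (c := c) (N := N) (C := C)
    intro S hS hSne
    have hSTp : S ⊆ Tp := hS.trans (Finset.erase_subset v Tp)
    have hnm : ¬ Mt c N C D T₀ S (s 1) := by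
      intro hSm
      obtain ⟨mq, jq, hMq, -⟩ := hP.ex _ _ hSm
      obtain ⟨e1, e2⟩ := nested hP hTm hSTp hMp hMq g hdg
      obtain ⟨e3, e4⟩ := nested hP hTm hTT hMp hM' g hdg
      have e5 : jq g = j v := by rw [← e2, e4, hjg]
      have e6 : mq g = m v := by rw [← e1, e3, hmg]
      have h1 := hMq.supp g hdg v (by
        rw [e5, hM.val v hdv]
        exact one_ne_zero)
      rcases h1 with h1 | h1 | h1
      · rw [Finset.mem_union] at h1
        rcases h1 with h1 | h1
        · exact hvT₀ h1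
        · exact Finset.notMem_erase v Tp (hS h1)
      · rw [h1, hDg, det_self] at hdv
        exact hdv rfl
      · rw [e6] at h1
        exact hM.ne v hdv h1.symm
    obtain ⟨w, k, hw, hk, e, he, he0, hke⟩ := pg_own hP hs1 hT' hSne
      (hZmul S (hSTp.trans hTZ)) hnm
    refine ⟨w, ?_, k, hk, e, he, he0, hke⟩
    rw [mem_Alive]
    refine ⟨?_, ?_⟩
    · rw [hO, hPdef]
      exact hw
    · exact ⟨k, U_mono (Finset.union_subset_union_right hSTp) w hk.mem⟩
  have hA1 := Alive_le (c := c) (N := N) (O := Alive c N O (T₀ ∪ Tp)) (S := T₀ ∪ Tp.erase v)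
  have hA2 := Alive_le (c := c) (N := N) (O := O) (S := T₀ ∪ Z)
  rw [Finset.card_erase_of_mem (hTT hvT')] at hfin
  have hTp : 0 < Tp.card := Finset.card_pos.mpr ⟨v, hTT hvT'⟩
  have hle : Z.card ≤ O.card + 1 := by omega
  have hKle : K ≤ 1 := by
    rw [← hcount]
    have : (Z.card : ℚ) ≤ O.card + 1 := by exact_mod_cast hle
    linarith
  have hK1 : 1 ≤ K := by
    have h1 := h.pos
    rw [← hcount] at h1 ⊢
    have h2 : (O.card : ℚ) < Z.card := by linarith
    have h3 : O.card < Z.card := by exact_mod_cast h2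
    have h4 : (O.card : ℚ) + 1 ≤ Z.card := by exact_mod_cast h3
    linarith
  exact le_antisymm hKle hK1

end MPb07157.EX
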