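import Pool.Agent.Lib.MP_b07157_ag.EX.PE

/-!
# Isolation of a special column
-/

namespace MPb07157.EX


open Finset

variable {ι κ : Type} [Fintype ι] [DecidableEq ι] [DecidableEq κ]
variable {c : κ → ι → ℕ} {N C : Finset κ} {D : ι → F} {T₀ T T' T'' : Finset ι} {s : Fin 3 → F}
  {K : ℚ} {m : ι → ι} {j : ι → κ}

private theorem pg1_third {s : Fin 3 → F} (hs : s 0 + s 1 + s 2 = o) {i k : Fin 3} (hik : i ≠ k)
    (l : Fin 3) (hli : l ≠ i) (hlk : l ≠ k) : s i + s k + s l = o := by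
  rw [← hs]
  have h1 : ∀ i k l : Fin 3, i ≠ k → l ≠ i → l ≠ k →
      (i = 0 ∧ k = 1 ∧ l = 2) ∨ (i = 0 ∧ k = 2 ∧ l = 1) ∨ (i = 1 ∧ k = 0 ∧ l = 2) ∨
      (i = 1 ∧ k = 2 ∧ l = 0) ∨ (i = 2 ∧ k = 0 ∧ l = 1) ∨ (i = 2 ∧ k = 1 ∧ l = 0) := by decide
  rcases h1 i k l hik hli hlk with ⟨rfl, rfl, rfl⟩ | ⟨rfl, rfl, rfl⟩ | ⟨rfl, rfl, rfl⟩ |
    ⟨rfl, rfl, rfl⟩ | ⟨rfl, rfl, rfl⟩ | ⟨rfl, rfl, rfl⟩ <;> abel

private theorem pg1_sum {i k : Fin 3} (hik : i ≠ k) :
    ∑ l : Fin 3, ((if l = k then (1 : ℚ) else 0) - if l ≠ i ∧ l ≠ k then 1 else 0) = 0 := by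
  rw [Fin.sum_univ_three]
  have h1 : ∀ i k : Fin 3, i ≠ k →
      (i = 0 ∧ k = 1) ∨ (i = 0 ∧ k = 2) ∨ (i = 1 ∧ k = 0) ∨
      (i = 1 ∧ k = 2) ∨ (i = 2 ∧ k = 0) ∨ (i = 2 ∧ k = 1) := by decide
  rcases h1 i k hik with ⟨rfl, rfl⟩ | ⟨rfl, rfl⟩ | ⟨rfl, rfl⟩ |
    ⟨rfl, rfl⟩ | ⟨rfl, rfl⟩ | ⟨rfl, rfl⟩ <;> simp

/-- A subset of a matched set on the same line that is matched has the same matching.  Proof: the
matching of `T'` is a matching for `T` (its columns are supported on `T₀ ∪ T' ∪ {v, m v}`). -/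
theorem nested (hP : PSys c N C D T₀) {s₁ : F} (hT : Mt c N C D T₀ T s₁) (h : T' ⊆ T)
    {m' : ι → ι} {j' : ι → κ} (hM : PMD c N D T₀ T s₁ m j) (hM' : PMD c N D T₀ T' s₁ m' j') :
    ∀ v, det s₁ (D v) ≠ 0 → m v = m' v ∧ j v = j' v := by
  intro v hv
  refine hP.un T s₁ hT m j m' j' hM ⟨hM'.nc, hM'.inv, hM'.ne, hM'.jm, hM'.mem, hM'.val, ?_⟩ v hv
  intro v hv e he
  rcases hM'.supp v hv e he with h1 | h1
  · exact Or.inl (Finset.union_subset_union_right h h1)
  · exact Or.inr h1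

/-- (2.12), first part.  Proof: let `z` be the common zero of `s i`, `s k`; `V'` = the elements with
`D e = α • s i + β • s k`, `α ≥ 0`, `β > 0`, `O'` = the elements with `o - D w` of this form;
`|O'| = |V'|` by `Tri.count` (only `s k` and `o - s l = s i + s k` are of this form).  All owners of
`T₀ ∪ T ∪ S'`, `∅ ≠ S' ⊆ V'`, are in `O'` (`cone_own`; `b = 0` would give an owner of `T₀ ∪ T`,
`Own.mono`, contradiction to `Mt.q`).  `PSys.iso` (`σ = det (s i) (s k)`, `v ∈ V'`) gives `S'`. -/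
theorem Tri.isolate (h : Tri c N C D T₀ s K) (hP : PSys c N C D T₀) {i k : Fin 3} (hik : i ≠ k)
    (hT : Mt c N C D T₀ T (s i)) (hM : PMD c N D T₀ T (s i) m j) {v : ι} (hv : D v = s k) :
    ∃ S' : Finset ι, v ∈ S' ∧ (∀ e ∈ S', ∃ α β : ℚ, 0 ≤ α ∧ 0 < β ∧ D e = α • s i + β • s k) ∧
      ∀ w k', Own c N C (T₀ ∪ T ∪ S') w k' → k' = j v := by
  classical
  obtain ⟨z, hz1, hz2⟩ := exists_ev_zero (h.dt i k hik)
  have hσ : det (s i) (s k) ≠ 0 := h.dt i k hik
  let P : F → Prop := fun φ => ∃ α β : ℚ, 0 ≤ α ∧ 0 < β ∧ φ = α • s i + β • s k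
  have hdet : ∀ α β : ℚ, det (s i) (α • s i + β • s k) = β * det (s i) (s k) := by
    intro α β
    rw [det_add_right, det_smul_right, det_smul_right, det_self, mul_zero, zero_add]
  have hP0 : ∀ φ, P φ → φ.2 ≠ 0 := by
    rintro φ ⟨α, β, -, hβ, rfl⟩
    refine det_ne_zero_right (φ := s i) ?_
    rw [hdet]
    exact mul_ne_zero hβ.ne' hσ
  have hthird := pg1_third h.sum hik
  have hP1 : ∀ l, P (s l) ↔ l = k := by
    intro l
    constructor
    · rintro ⟨α, β, -, hβ, he⟩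
      by_contra hlk
      by_cases hli : l = i
      · subst hli
        have h1 : (1 : ℚ) • s l + (0 : ℚ) • s k + (0 : ℚ) • o = α • s l + β • s k + (0 : ℚ) • o := by
          rw [← he]; simp
        exact hβ.ne (coeff_eq hσ h1).2.1
      · have h1 : (-1 : ℚ) • s i + (-1 : ℚ) • s k + (1 : ℚ) • o =
            α • s i + β • s k + (0 : ℚ) • o := by
          rw [← he, ← hthird l hli hlk]; module
        exact one_ne_zero (coeff_eq hσ h1).2.2
    · rintro rfl
      exact ⟨0, 1, le_rfl, one_pos, by simp⟩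
  have hP2 : ∀ l, P (o - s l) ↔ l ≠ i ∧ l ≠ k := by
    intro l
    constructor
    · rintro ⟨α, β, -, hβ, he⟩
      constructor
      · rintro rfl
        have h1 : (-1 : ℚ) • s l + (0 : ℚ) • s k + (1 : ℚ) • o =
            α • s l + β • s k + (0 : ℚ) • o := by
          rw [← he]; module
        exact one_ne_zero (coeff_eq hσ h1).2.2
      · rintro rfl
        have h1 : (0 : ℚ) • s i + (-1 : ℚ) • s l + (1 : ℚ) • o =
            α • s i + β • s l + (0 : ℚ) • o := by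
          rw [← he]; module
        exact one_ne_zero (coeff_eq hσ h1).2.2
    · rintro ⟨hli, hlk⟩
      refine ⟨1, 1, zero_le_one, one_pos, ?_⟩
      rw [← hthird l hli hlk]; module
  let V' : Finset ι := univ.filter fun e => P (D e)
  let O' : Finset ι := univ.filter fun e => P (o - D e)
  have hV' : ∀ e, e ∈ V' ↔ P (D e) := fun e => by simp [V']
  have hO' : ∀ e, e ∈ O' ↔ P (o - D e) := fun e => by simp [O']
  have hcard : O'.card = V'.card := by
    have h1 := h.count P hP0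
    have h2 : ∑ l, ((if P (s l) then (1 : ℚ) else 0) - if P (o - s l) then 1 else 0) = 0 := by
      simp only [hP1, hP2]
      exact pg1_sum hik
    rw [h2, mul_zero, sub_eq_zero] at h1
    exact_mod_cast h1.symm
  have hVd : ∀ e ∈ V', ev (D e) z = 0 ∧ 0 < det (s i) (s k) * det (s i) (D e) := by
    intro e he
    obtain ⟨α, β, -, hβ, hDe⟩ := (hV' e).1 he
    rw [hDe, hdet, ev_add, ev_smul, ev_smul, hz1, hz2]
    refine ⟨by ring, ?_⟩
    have h1 : 0 < det (s i) (s k) * det (s i) (s k) := mul_self_pos.2 hσ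
    nlinarith
  have hown : ∀ S' ⊆ V', S'.Nonempty → ∀ w k', Own c N C (T₀ ∪ T ∪ S') w k' → w ∈ O' := by
    intro S' hS' _ w k' hw
    have hw2 := hw
    obtain ⟨hw0, -, -⟩ := hw2
    have hkU := hw.mem
    rw [Finset.union_assoc] at hw0 hkU
    obtain ⟨a, b, ha, hb, hab, -, hb0⟩ := cone_own hP hσ (S := T ∪ S') (by
      intro e he
      rw [Finset.mem_union] at he
      rcases he with he | he
      · obtain ⟨α, hα, hDe⟩ := hT.mul e he
        exact ⟨α, 0, hα.le, le_rfl, by rw [hDe, zero_smul, add_zero]⟩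
      · obtain ⟨α, β, hα, hβ, hDe⟩ := (hV' e).1 (hS' he)
        exact ⟨α, β, hα, hβ.le, hDe⟩) hw0 hkU
    rcases hb.lt_or_eq with hb1 | hb1
    · exact (hO' w).2 ⟨a, b, ha, hb1, hab⟩
    · exfalso
      have hc0 : ∀ e ∈ S', c k' e = 0 := by
        intro e he
        obtain ⟨α, β, hα, hβ, hDe⟩ := (hV' e).1 (hS' he)
        exact hb0 hb1.symm e (Finset.mem_union_right T he) α β hβ hDe
      have h1 : Own c N C (T₀ ∪ T) w k' := by
        refine hw.mono Finset.subset_union_left fun e he => ?_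
        obtain ⟨-, -, h2⟩ := mem_U.1 hw.mem
        rcases h2 e he with h3 | h3
        · rw [Finset.mem_union] at h3
          rcases h3 with h3 | h3
          · exact Or.inl h3
          · exact absurd (hc0 e h3) he
        · exact Or.inr h3
      refine hT.q w (-a) ?_ k' h1
      rw [← hb1, zero_smul, add_zero] at hab
      rw [neg_smul, ← hab]
      abel
  have hvV : v ∈ V' := (hV' v).2 ⟨0, 1, le_rfl, one_pos, by rw [hv]; simp⟩
  obtain ⟨S', hS', hvS, hS2⟩ := hP.iso T (s i) hT m j hM z (det (s i) (s k)) hz1 V' O' hVd hown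
    hcard.le v hvV
  exact ⟨S', hvS, fun e he => (hV' e).1 (hS' he), hS2⟩

end MPb07157.EX
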