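import Pool.Agent.Lib.MP_b07157_ag.EX.PG1

/-!
# The isolated set is matched
-/

namespace MPb07157.EX


open Finset

variable {ι κ : Type} [Fintype ι] [DecidableEq ι] [DecidableEq κ]
variable {c : κ → ι → ℕ} {N C : Finset κ} {D : ι → F} {T₀ T T' T'' : Finset ι} {s : Fin 3 → F}
  {K : ℚ} {m : ι → ι} {j : ι → κ}

/-- (2.12), second part: the elements of `S'` on the ray of `s k` are a matched set.  Proof:
otherwise there are `w`, `D w = o + β • s k`, and `k'` with `Own (T₀ ∪ T') w k'`,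
`T' = {e ∈ S' | α = 0}`; by `cone_own` (`a = 0`) `U (T₀ ∪ T ∪ S') w = U (T₀ ∪ T') w`, so
`Own (T₀ ∪ T ∪ S') w k'` and `k' = j v`; but `j v` meets `T` and `k'` does not (`T` is disjoint from
`T₀`, `T'` and `w ∉ T`). -/
theorem Tri.isolate_mt (h : Tri c N C D T₀ s K) (hP : PSys c N C D T₀) {i k : Fin 3} (hik : i ≠ k)
    (hT : Mt c N C D T₀ T (s i)) {v : ι} (hv : D v = s k)
    (hs : Spec c T (j v)) {S' T' : Finset ι} (hvS : v ∈ S')
    (hS' : ∀ e ∈ S', ∃ α β : ℚ, 0 ≤ α ∧ 0 < β ∧ D e = α • s i + β • s k)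
    (hiso : ∀ w k', Own c N C (T₀ ∪ T ∪ S') w k' → k' = j v)
    (hT' : ∀ e, e ∈ T' ↔ e ∈ S' ∧ ∃ β : ℚ, 0 < β ∧ D e = β • s k) :
    Mt c N C D T₀ T' (s k) := by
  have hd : det (s i) (s k) ≠ 0 := h.dt i k hik
  have hvT' : v ∈ T' := (hT' v).2 ⟨hvS, 1, one_pos, by rw [one_smul, hv]⟩
  -- elements with `D w = o + β • s k` are not in `T`, not in `S'`
  have hcone : ∀ w (β : ℚ), D w = o + β • s k → ∀ a b : ℚ, D w ≠ a • s i + b • s k := by
    intro w β hw a b hab
    have h1 : (0 : ℚ) • s i + β • s k + (1 : ℚ) • o = a • s i + b • s k + (0 : ℚ) • o := by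
      rw [zero_smul, zero_smul, one_smul, zero_add, add_zero, ← hab, hw, add_comm]
    exact absurd (coeff_eq hd h1).2.2 (by norm_num)
  have hTD : ∀ f ∈ T, ∃ α : ℚ, 0 < α ∧ D f = α • s i + (0 : ℚ) • s k := by
    intro f hf
    obtain ⟨α, h1, h2⟩ := hT.mul f hf
    exact ⟨α, h1, by rw [zero_smul, add_zero, h2]⟩
  refine ⟨⟨v, hvT'⟩, det_ne_zero_right hd, fun f hf => ((hT' f).1 hf).2, ?_⟩
  intro w β hw k' hown
  have hk' := hown.mem
  rw [mem_U] at hk'
  have hT'S' : T' ⊆ S' := fun e he => ((hT' e).1 he).1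
  have hwT : w ∉ T := by
    intro hwT
    obtain ⟨α, _, h1⟩ := hTD w hwT
    exact hcone w β hw _ _ h1
  have hwS' : w ∉ S' := by
    intro hwS'
    obtain ⟨α, β', _, _, h1⟩ := hS' w hwS'
    exact hcone w β hw _ _ h1
  have hwT₀ : w ∉ T₀ := fun hw0 => hown.1 (Finset.mem_union_left _ hw0)
  have hwall : w ∉ T₀ ∪ (T ∪ S') := by
    simp only [Finset.mem_union, not_or]
    exact ⟨hwT₀, hwT, hwS'⟩
  have hSall : ∀ e ∈ T ∪ S', ∃ α β : ℚ, 0 ≤ α ∧ 0 ≤ β ∧ D e = α • s i + β • s k := by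
    intro e he
    rcases Finset.mem_union.1 he with he | he
    · obtain ⟨α, h1, h2⟩ := hTD e he
      exact ⟨α, 0, h1.le, le_rfl, h2⟩
    · obtain ⟨α, β', h1, h2, h3⟩ := hS' e he
      exact ⟨α, β', h1, h2.le, h3⟩
  have hU : U c N (T₀ ∪ T ∪ S') w = {k'} := by
    rw [Finset.union_assoc]
    refine Finset.Subset.antisymm ?_ ?_
    · intro k'' hk''
      obtain ⟨a, b, _, _, hab, ha, _⟩ := cone_own hP hd hSall hwall hk''
      have ha0 : a = 0 := by
        have h1 : a • s i + b • s k + (0 : ℚ) • o = (0 : ℚ) • s i + (-β) • s k + (0 : ℚ) • o := by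
          rw [zero_smul, zero_smul, add_zero, add_zero, zero_add, ← hab, hw, neg_smul]
          abel
        exact (coeff_eq hd h1).1
      have ha' := ha ha0
      rw [← hown.2.1, mem_U]
      rw [mem_U] at hk''
      refine ⟨hk''.1, hk''.2.1, fun e he => ?_⟩
      rcases hk''.2.2 e he with h1 | h1
      · left
        rcases Finset.mem_union.1 h1 with h2 | h2
        · exact Finset.mem_union_left _ h2
        · rcases Finset.mem_union.1 h2 with h3 | h3
          · obtain ⟨α, h4, h5⟩ := hTD e h3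
            exact absurd (ha' e h2 α 0 h4 h5) he
          · obtain ⟨α, β', h4, h5, h6⟩ := hS' e h3
            rcases h4.lt_or_eq with h7 | h7
            · exact absurd (ha' e h2 α β' h7 h6) he
            · refine Finset.mem_union_right _ ((hT' e).2 ⟨h3, β', h5, ?_⟩)
              rw [h6, ← h7, zero_smul, zero_add]
      · exact Or.inr h1
    · rw [Finset.singleton_subset_iff]
      refine U_mono ?_ w hown.mem
      exact Finset.union_subset_union_right (hT'S'.trans Finset.subset_union_right)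
  have hk'j : k' = j v := hiso w k' ⟨by rwa [Finset.union_assoc], hU, hown.2.2⟩
  obtain ⟨f, hfT, hf⟩ := hs
  rw [← hk'j] at hf
  obtain ⟨α, h1, h2⟩ := hTD f hfT
  rcases hk'.2.2 f hf with h3 | h3
  · rcases Finset.mem_union.1 h3 with h4 | h4
    · have h5 : α • s i + (0 : ℚ) • s k + (0 : ℚ) • o =
          (0 : ℚ) • s i + (0 : ℚ) • s k + (0 : ℚ) • o := by
        rw [← h2, hP.zero f h4]
        simp
      exact h1.ne' (coeff_eq hd h5).1
    · obtain ⟨_, β', h6, h7⟩ := (hT' f).1 h4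
      have h5 : α • s i + (0 : ℚ) • s k + (0 : ℚ) • o =
          (0 : ℚ) • s i + β' • s k + (0 : ℚ) • o := by
        rw [← h2, h7]
        simp
      exact h1.ne' (coeff_eq hd h5).1
  · exact hwT (h3 ▸ hfT)

end MPb07157.EX
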