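import Pool.Agent.Lib.MP_b07157_ag.EX.PG2

/-!
# Special columns are true triples
-/

namespace MPb07157.EX


open Finset

variable {ι κ : Type} [Fintype ι] [DecidableEq ι] [DecidableEq κ]
variable {c : κ → ι → ℕ} {N C : Finset κ} {D : ι → F} {T₀ T T' T'' : Finset ι} {s : Fin 3 → F}
  {K : ℚ} {m : ι → ι} {j : ι → κ}

/-- (2.12) Special columns are true triples.  Proof: `S'` from `Tri.isolate`, `T'` as in
`Tri.isolate_mt`, `(m', j')` its matching (`PSys.ex`); `PSys.reach` for `T'` and
`S'' = T ∪ (S' \ T')` (`σ = det (s k) (s i)`) gives `g ∈ S''` with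
`Own (T₀ ∪ T ∪ S') (m' g) (j' g)`, so `j' g = j v`.  The support of `j v` is contained in
`T₀ ∪ T ∪ {v, m v}` and in `T₀ ∪ T' ∪ {g, m' g}`; the elements of `T ∪ S'` vanish at the common zero
`z`, `D (m v)` and `D (m' g)` are one at `z`; as `j v` meets `T`, `g ∈ T` and `g` is the only element of
`T` in it; `m' g = m v`.  `g` is special for `T'` (`v ∈ T'`), so `D g = s i` by `Tri.spec_type`
for `T'`; `D (m v) = o - D g - D v = s l`. -/
theorem Tri.three (h : Tri c N C D T₀ s K) (hP : PSys c N C D T₀) {i k l : Fin 3} (hik : i ≠ k)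
    (hil : i ≠ l) (hkl : k ≠ l) (hT : Mt c N C D T₀ T (s i)) (hM : PMD c N D T₀ T (s i) m j)
    {v : ι} (hv : D v = s k) (hs : Spec c T (j v)) :
    ∃ g ∈ T, D g = s i ∧ D (m v) = s l ∧ c (j v) g = 1 ∧
      (∀ e, c (j v) e ≠ 0 → e ∈ T₀ ∨ e = g ∨ e = v ∨ e = m v) ∧
      ∃ T', v ∈ T' ∧ Mt c N C D T₀ T' (s k) ∧ ∃ m' j', PMD c N D T₀ T' (s k) m' j' ∧
        j' g = j v ∧ m' g = m v := by
  classical
  have hd : det (s i) (s k) ≠ 0 := h.dt i k hik
  have hd' : det (s k) (s i) ≠ 0 := h.dt k i hik.symm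
  have hsum : s i + s k + s l = o := by
    have huniv : (Finset.univ : Finset (Fin 3)) = {i, k, l} := by
      have key : ∀ i k l : Fin 3, i ≠ k → i ≠ l → k ≠ l → (Finset.univ : Finset (Fin 3)) =
          {i, k, l} := by decide
      exact key i k l hik hil hkl
    have h1 : ∑ i', s i' = s i + (s k + s l) := by
      rw [huniv, Finset.sum_insert (by simp [hik, hil]), Finset.sum_insert (by simp [hkl]),
        Finset.sum_singleton]
    rw [Fin.sum_univ_three, h.sum] at h1
    rw [h1, add_assoc]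
  have hdv : det (s i) (D v) ≠ 0 := by rw [hv]; exact hd
  obtain ⟨S', hvS, hS', hiso⟩ := h.isolate hP hik hT hM hv
  obtain ⟨T', hT'mem⟩ : ∃ T' : Finset ι, ∀ e, e ∈ T' ↔ e ∈ S' ∧ ∃ β : ℚ, 0 < β ∧ D e = β • s k :=
    ⟨S'.filter fun e => ∃ β : ℚ, 0 < β ∧ D e = β • s k, fun e => Finset.mem_filter⟩
  have hT' := h.isolate_mt hP hik hT hv hs hvS hS' hiso hT'mem
  have hvT' : v ∈ T' := (hT'mem v).2 ⟨hvS, 1, one_pos, by rw [hv, one_smul]⟩
  obtain ⟨m', j', hM', -⟩ := hP.ex _ _ hT'
  obtain ⟨z, hz1, hz2⟩ := exists_ev_zero hd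
  -- values at `z`
  have ezero : ev (0 : F) z = 0 := by simp [ev]
  have evT0 : ∀ e ∈ T₀, ev (D e) z = 0 := fun e he => by rw [hP.zero e he, ezero]
  have evT : ∀ e ∈ T, ev (D e) z = 0 := by
    intro e he
    obtain ⟨α, -, hα⟩ := hT.mul e he
    rw [hα, ev_smul, hz1, mul_zero]
  have evS : ∀ e ∈ S', ev (D e) z = 0 := by
    intro e he
    obtain ⟨α, β, -, -, hα⟩ := hS' e he
    rw [hα, ev_add, ev_smul, ev_smul, hz1, hz2, mul_zero, mul_zero, add_zero]
  have hT'S : T' ⊆ S' := fun e he => ((hT'mem e).1 he).1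
  obtain ⟨g, hg, hown⟩ := hP.reach T' (s k) hT' m' j' hM' z (det (s k) (s i)) hz2
    (T ∪ (S' \ T')) (hT.ne.mono Finset.subset_union_left) (by
      intro e he
      rw [Finset.mem_union, Finset.mem_sdiff] at he
      have hd2 : 0 < det (s k) (s i) * det (s k) (s i) := mul_self_pos.mpr hd'
      rcases he with he | ⟨he, he'⟩
      · refine ⟨evT e he, ?_⟩
        obtain ⟨α, hα0, hα⟩ := hT.mul e he
        rw [hα, det_smul_right]
        nlinarith [mul_pos hα0 hd2]
      · refine ⟨evS e he, ?_⟩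
        obtain ⟨α, β, hα0, hβ0, hα⟩ := hS' e he
        have hα1 : 0 < α := by
          rcases hα0.lt_or_eq with h1 | h1
          · exact h1
          · exfalso
            apply he'
            rw [hT'mem]
            refine ⟨he, β, hβ0, ?_⟩
            rw [hα, ← h1, zero_smul, zero_add]
        rw [hα, det_add_right, det_smul_right, det_smul_right, det_self, mul_zero, add_zero]
        nlinarith [mul_pos hα1 hd2])
  have hset : T₀ ∪ T' ∪ (T ∪ (S' \ T')) = T₀ ∪ T ∪ S' := by
    ext e
    simp only [Finset.mem_union, Finset.mem_sdiff]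
    constructor
    · rintro ((h1 | h1) | (h1 | h1))
      · exact Or.inl (Or.inl h1)
      · exact Or.inr (hT'S h1)
      · exact Or.inl (Or.inr h1)
      · exact Or.inr h1.1
    · rintro ((h1 | h1) | h1)
      · exact Or.inl (Or.inl h1)
      · exact Or.inr (Or.inl h1)
      · by_cases h2 : e ∈ T'
        · exact Or.inl (Or.inr h2)
        · exact Or.inr (Or.inr ⟨h1, h2⟩)
  rw [hset] at hown
  have hjg : j' g = j v := hiso _ _ hown
  have evg : ev (D g) z = 0 := by
    rw [Finset.mem_union, Finset.mem_sdiff] at hg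
    exact hg.elim (evT g) fun h1 => evS g h1.1
  have hdg : det (s k) (D g) ≠ 0 := by
    rw [Finset.mem_union, Finset.mem_sdiff] at hg
    rcases hg with he | ⟨he, he'⟩
    · obtain ⟨α, hα0, hα⟩ := hT.mul g he
      rw [hα, det_smul_right]
      exact mul_ne_zero hα0.ne' hd'
    · obtain ⟨α, β, hα0, hβ0, hα⟩ := hS' g he
      have hα1 : α ≠ 0 := by
        intro h1
        apply he'
        rw [hT'mem]
        refine ⟨he, β, hβ0, ?_⟩
        rw [hα, h1, zero_smul, zero_add]
      rw [hα, det_add_right, det_smul_right, det_smul_right, det_self, mul_zero, add_zero]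
      exact mul_ne_zero hα1 hd'
  -- the column relation at `z`
  have evcol : ∀ k' ∈ N, ∑ e, (c k' e : ℚ) * ev (D e) z = 1 := by
    intro k' hk'
    have h1 := congrArg (fun φ : F => ev φ z) (hP.col k' hk')
    simp only [ev_o] at h1
    rw [← h1]
    have h2 : ∀ (S : Finset ι), ev (∑ e ∈ S, (c k' e : ℚ) • D e) z =
        ∑ e ∈ S, (c k' e : ℚ) * ev (D e) z := by
      intro S
      induction S using Finset.induction_on with
      | empty => simp [ezero]
      | insert a S ha ih => rw [Finset.sum_insert ha, Finset.sum_insert ha, ev_add, ih, ev_smul]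
    exact (h2 _).symm
  have hjvN : j v ∈ N := hM.mem v hdv
  have hmv1 : c (j v) (m v) = 1 := by
    have h1 := hM.val (m v) (hM.nc v hdv)
    rwa [hM.jm v hdv] at h1
  have hmg1 : c (j v) (m' g) = 1 := by
    have h1 := hM'.val (m' g) (hM'.nc g hdg)
    rwa [hM'.jm g hdg, hjg] at h1
  have hg1 : c (j v) g = 1 := by
    have h1 := hM'.val g hdg
    rwa [hjg] at h1
  have hv1 : c (j v) v = 1 := hM.val v hdv
  have hsupp1 : ∀ e, c (j v) e ≠ 0 → e ∈ T₀ ∪ T ∨ e = v ∨ e = m v := hM.supp v hdv
  have hsupp2 : ∀ e, c (j v) e ≠ 0 → e ∈ T₀ ∪ T' ∨ e = g ∨ e = m' g := by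
    have h1 := hM'.supp g hdg
    rwa [hjg] at h1
  have evv : ev (D v) z = 0 := by rw [hv, hz2]
  have evmv : ev (D (m v)) z = 1 := by
    have h1 := evcol _ hjvN
    rw [Finset.sum_eq_single (m v)] at h1
    · rwa [hmv1, Nat.cast_one, one_mul] at h1
    · intro e _ hne
      by_cases h2 : c (j v) e = 0
      · rw [h2, Nat.cast_zero, zero_mul]
      · rcases hsupp1 e h2 with h3 | h3 | h3
        · rw [Finset.mem_union] at h3
          rw [h3.elim (evT0 e) (evT e), mul_zero]
        · rw [h3, evv, mul_zero]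
        · exact absurd h3 hne
    · intro h2
      exact absurd (Finset.mem_univ _) h2
  have evmg : ev (D (m' g)) z = 1 := by
    have h1 := evcol _ hjvN
    rw [Finset.sum_eq_single (m' g)] at h1
    · rwa [hmg1, Nat.cast_one, one_mul] at h1
    · intro e _ hne
      by_cases h2 : c (j v) e = 0
      · rw [h2, Nat.cast_zero, zero_mul]
      · rcases hsupp2 e h2 with h3 | h3 | h3
        · rw [Finset.mem_union] at h3
          rw [h3.elim (evT0 e) fun h4 => evS e (hT'S h4), mul_zero]
        · rw [h3, evg, mul_zero]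
        · exact absurd h3 hne
    · intro h2
      exact absurd (Finset.mem_univ _) h2
  -- the elements of `T` in the column
  have hTg : ∀ f ∈ T, c (j v) f ≠ 0 → f = g := by
    intro f hf hcf
    obtain ⟨α, hα0, hα⟩ := hT.mul f hf
    rcases hsupp2 f hcf with h3 | h3 | h3
    · rw [Finset.mem_union] at h3
      rcases h3 with h3 | h3
      · exfalso
        have h4 := hP.zero f h3
        rw [h4] at hα
        have h5 : det (α • s i) (s k) = 0 := by rw [← hα]; simp [det]
        rw [det_smul_left] at h5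
        exact (mul_ne_zero hα0.ne' hd) h5
      · exfalso
        obtain ⟨-, β, hβ0, hβ⟩ := (hT'mem f).1 h3
        have h5 : det (s i) (D f) = 0 := by rw [hα, det_smul_right, det_self, mul_zero]
        rw [hβ, det_smul_right] at h5
        exact (mul_ne_zero hβ0.ne' hd) h5
    · exact h3
    · exfalso
      have h4 := evT f hf
      rw [h3, evmg] at h4
      exact one_ne_zero h4
  obtain ⟨f, hfT, hcf⟩ := hs
  have hgT : g ∈ T := by
    rw [← hTg f hfT hcf]
    exact hfT
  have hmm : m' g = m v := by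
    rcases hsupp2 (m v) (by rw [hmv1]; exact one_ne_zero) with h3 | h3 | h3
    · exfalso
      rw [Finset.mem_union] at h3
      have h4 : ev (D (m v)) z = 0 := h3.elim (evT0 _) fun h4 => evS _ (hT'S h4)
      rw [evmv] at h4
      exact one_ne_zero h4
    · exfalso
      rw [← h3, evmv] at evg
      exact one_ne_zero evg
    · exact h3.symm
  have hDg : D g = s i := by
    obtain ⟨α, hα0, hα⟩ := hT.mul g hgT
    have h1 : α = 1 := h.spec_type hP hik.symm hT' hM' hα0 hα
      ⟨v, hvT', by rw [hjg, hv1]; exact one_ne_zero⟩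
    rw [hα, h1, one_smul]
  have hsupp3 : ∀ e, c (j v) e ≠ 0 → e ∈ T₀ ∨ e = g ∨ e = v ∨ e = m v := by
    intro e he
    rcases hsupp1 e he with h3 | h3 | h3
    · rw [Finset.mem_union] at h3
      rcases h3 with h3 | h3
      · exact Or.inl h3
      · exact Or.inr (Or.inl (hTg e h3 he))
    · exact Or.inr (Or.inr (Or.inl h3))
    · exact Or.inr (Or.inr (Or.inr h3))
  have hgv : g ≠ v := by
    intro h1
    rw [← h1, hDg, det_self] at hdv
    exact hdv rfl
  have hgmv : g ≠ m v := by
    intro h1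
    rw [h1, evmv] at evg
    exact one_ne_zero evg
  have hvmv : v ≠ m v := (hM.ne v hdv).symm
  refine ⟨g, hgT, hDg, ?_, hg1, hsupp3, T', hvT', hT', m', j', hM', hjg, hmm⟩
  have h1 := hP.col _ hjvN
  rw [← Finset.sum_subset (Finset.subset_univ {g, v, m v})] at h1
  · rw [Finset.sum_insert (by simp [hgv, hgmv]), Finset.sum_insert (by simp [hvmv]),
      Finset.sum_singleton, hg1, hv1, hmv1, Nat.cast_one, one_smul, one_smul, one_smul, hDg, hv,
      ← hsum] at h1
    have h2 : s i + (s k + D (m v)) = s i + (s k + s l) := by rw [h1]; abel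
    exact add_left_cancel (add_left_cancel h2)
  · intro e _ he
    simp only [Finset.mem_insert, Finset.mem_singleton, not_or] at he
    by_cases h2 : c (j v) e = 0
    · rw [h2, Nat.cast_zero, zero_smul]
    · rcases hsupp3 e h2 with h3 | h3 | h3 | h3
      · rw [hP.zero e h3, smul_zero]
      · exact absurd h3 he.1
      · exact absurd h3 he.2.1
      · exact absurd h3 he.2.2

end MPb07157.EX
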