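import Pool.Agent.Lib.MP_b07157_ag.EX.PH1

/-!
# Comparison of matchings
-/

namespace MPb07157.EX


open Finset

variable {ι κ : Type} [Fintype ι] [DecidableEq ι] [DecidableEq κ]
variable {c : κ → ι → ℕ} {N C : Finset κ} {D : ι → F} {T₀ T T' T'' : Finset ι} {s : Fin 3 → F}
  {K : ℚ} {m m' : ι → ι} {j j' : ι → κ} {x x' : κ} {g g' : Fin 3 → ι}

omit [DecidableEq κ] in
private theorem ph3_pair (hP : PSys c N C D T₀) {i : Fin 3} (hx : X0 c D T₀ s x g)
    (hM : PMD c N D T₀ T (s i) m j) (hh : Has c D s i T j x g) {v : ι}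
    (hv : det (s i) (D v) ≠ 0) (hxv : c x v = 0) :
    (∀ e, c (j v) e ≠ 0 → e ∈ T₀ ∨ e = v ∨ e = m v) ∧ D v + D (m v) = o ∧ c x (m v) = 0 := by
  have hjx : j v ≠ x := by
    intro h
    have h1 := hM.val v hv
    rw [h, hxv] at h1
    exact zero_ne_one h1
  have hns : ¬ Spec c T (j v) := fun h => hjx (hh.sp v hv h)
  have h1 : ∀ e, c (j v) e ≠ 0 → e ∈ T₀ ∨ e = v ∨ e = m v := by
    intro e he
    rcases hM.supp v hv e he with h | h
    · rw [Finset.mem_union] at h
      rcases h with h | h
      · exact Or.inl h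
      · exact absurd ⟨e, h, he⟩ hns
    · exact Or.inr h
  refine ⟨h1, ?_, ?_⟩
  · have h2 := hP.col (j v) (hM.mem v hv)
    rw [Fintype.sum_eq_add v (m v) (hM.ne v hv).symm] at h2
    · have h3 := hM.val (m v) (hM.nc v hv)
      rw [hM.jm v hv] at h3
      rw [hM.val v hv, h3, Nat.cast_one, one_smul, one_smul] at h2
      exact h2
    · intro f hf
      by_cases h0 : c (j v) f = 0
      · rw [h0, Nat.cast_zero, zero_smul]
      · rcases h1 f h0 with h | h | h
        · rw [hP.zero f h, smul_zero]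
        · exact absurd h hf.1
        · exact absurd h hf.2
  · by_contra h2
    have hd := hM.nc v hv
    rcases hx.supp (m v) h2 with h3 | ⟨k, h3⟩
    · rw [hP.zero _ h3] at hd
      exact hd (by simp [det])
    · have hki : k ≠ i := by
        rintro rfl
        rw [h3, hx.ty, det_self] at hd
        exact hd rfl
      have h4 := hh.jg k hki
      rw [← h3, hM.jm v hv] at h4
      exact hjx h4

/-- The elements `g` are determined by `x` (their types are different, not zero). -/
theorem Tri.g_eq (h : Tri c N C D T₀ s K) (hP : PSys c N C D T₀) (hx : X0 c D T₀ s x g)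
    (hx' : X0 c D T₀ s x g') : g = g' := by
  have hne : ∀ i : Fin 3, s i ≠ 0 := by
    intro i h0
    obtain ⟨k, hk⟩ : ∃ k : Fin 3, i ≠ k := by
      clear h0
      revert i
      decide
    apply h.dt i k hk
    rw [h0]
    simp [det]
  funext i
  have h1 : c x (g i) ≠ 0 := by rw [hx.val]; exact one_ne_zero
  rcases hx'.supp (g i) h1 with h2 | ⟨k, h2⟩
  · exfalso
    apply hne i
    rw [← hx.ty i]
    exact hP.zero _ h2
  · by_cases hik : i = k
    · rw [h2, hik]
    · exfalso
      apply h.dt i k hik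
      rw [← hx.ty i, ← hx'.ty k, h2, det_self]

/-- (2.15) The matchings of two matched sets agree on the common classes.  Proof: if `c x e ≠ 0`
then `e = g k` for some `k ≠ i, i'` and both columns are `x`.  Otherwise let `Γ` be the set of the
elements `v` with `det (D e) (D v) = 0`, `(D v).2 ≠ 0`, `c x v = 0`; for `v ∈ Γ` the columns `j v` and
`j' v` are not special (they are not `x`), so they are pairs `{v, m v}`, `D v + D (m v) = o`, and `m`,
`m'` map `Γ` to itself.  Replace `(m, j)` by `(m', j')` on `Γ`: a perfect matching for `T`; `PSys.un`. -/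
theorem Tri.pair_eq (h : Tri c N C D T₀ s K) (hP : PSys c N C D T₀) {i i' : Fin 3}
    (hx : X0 c D T₀ s x g)
    (hT : Mt c N C D T₀ T (s i)) (hM : PMD c N D T₀ T (s i) m j) (hh : Has c D s i T j x g)
    (hT' : Mt c N C D T₀ T' (s i')) (hM' : PMD c N D T₀ T' (s i') m' j')
    (hh' : Has c D s i' T' j' x g) {e : ι} (he : det (s i) (D e) ≠ 0)
    (he' : det (s i') (D e) ≠ 0) : j e = j' e ∧ (c x e = 0 → m e = m' e) := by
  classical
  by_cases hxe : c x e = 0
  swap
  · have h1 : ∃ k, e = g k := by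
      rcases hx.supp e hxe with h1 | h1
      · exfalso
        apply he
        rw [hP.zero e h1]
        simp [det]
      · exact h1
    obtain ⟨k, rfl⟩ := h1
    have hki : k ≠ i := by
      rintro rfl
      rw [hx.ty, det_self] at he
      exact he rfl
    have hki' : k ≠ i' := by
      rintro rfl
      rw [hx.ty, det_self] at he'
      exact he' rfl
    exact ⟨by rw [hh.jg k hki, hh'.jg k hki'], fun h0 => absurd h0 hxe⟩
  let Γ : ι → Prop := fun v => det (D e) (D v) = 0 ∧ (D v).2 ≠ 0 ∧ c x v = 0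
  have hpar : ∀ (s₁ : F) (v : ι), det s₁ (D e) ≠ 0 → Γ v → det s₁ (D v) ≠ 0 := by
    intro s₁ v h1 hv
    obtain ⟨a, ha⟩ := exists_smul_of_det (det_ne_zero_right h1) hv.1
    have ha0 : a ≠ 0 := by
      rintro rfl
      rw [zero_smul] at ha
      exact hv.2.1 ha
    have h2 : det s₁ (D v) = a * det s₁ (D e) := by
      simp only [det, ha, Prod.smul_snd, Prod.smul_fst, smul_eq_mul]
      ring
    rw [h2]
    exact mul_ne_zero ha0 h1
  have hstep : ∀ (v w : ι), Γ v → D v + D w = o → c x w = 0 → Γ w := by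
    intro v w hv hvw hw
    have h1 : D w = o - D v := by rw [← hvw]; abel
    refine ⟨?_, ?_, hw⟩
    · rw [h1, det_sub_right, det_o_right, hv.1, sub_zero]
    · rw [h1]
      intro h2
      apply hv.2.1
      have h3 : (o - D v).2 = -(D v).2 := by
        rw [Prod.snd_sub]
        simp [o]
      rw [h3] at h2
      exact neg_eq_zero.1 h2
  have hA : ∀ v, Γ v → (∀ f, c (j v) f ≠ 0 → f ∈ T₀ ∨ f = v ∨ f = m v) ∧ Γ (m v) := by
    intro v hv
    obtain ⟨h1, h2, h3⟩ := ph3_pair hP hx hM hh (hpar _ v he hv) hv.2.2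
    exact ⟨h1, hstep v (m v) hv h2 h3⟩
  have hB : ∀ v, Γ v → (∀ f, c (j' v) f ≠ 0 → f ∈ T₀ ∨ f = v ∨ f = m' v) ∧ Γ (m' v) := by
    intro v hv
    obtain ⟨h1, h2, h3⟩ := ph3_pair hP hx hM' hh' (hpar _ v he' hv) hv.2.2
    exact ⟨h1, hstep v (m' v) hv h2 h3⟩
  have hAn : ∀ v, det (s i) (D v) ≠ 0 → ¬ Γ v → ¬ Γ (m v) := by
    intro v hv hnv hmv
    apply hnv
    have := (hA _ hmv).2
    rwa [hM.inv v hv] at this
  have hpm : PMD c N D T₀ T (s i) (fun v => if Γ v then m' v else m v)
      (fun v => if Γ v then j' v else j v) := by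
    refine ⟨?_, ?_, ?_, ?_, ?_, ?_, ?_⟩
    · intro v hv
      by_cases hΓ : Γ v
      · simp only [if_pos hΓ]
        exact hpar _ _ he (hB v hΓ).2
      · simp only [if_neg hΓ]
        exact hM.nc v hv
    · intro v hv
      by_cases hΓ : Γ v
      · simp only [if_pos hΓ, if_pos (hB v hΓ).2]
        exact hM'.inv v (hpar _ v he' hΓ)
      · simp only [if_neg hΓ, if_neg (hAn v hv hΓ)]
        exact hM.inv v hv
    · intro v hv
      by_cases hΓ : Γ v
      · simp only [if_pos hΓ]
        exact hM'.ne v (hpar _ v he' hΓ)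
      · simp only [if_neg hΓ]
        exact hM.ne v hv
    · intro v hv
      by_cases hΓ : Γ v
      · simp only [if_pos hΓ, if_pos (hB v hΓ).2]
        exact hM'.jm v (hpar _ v he' hΓ)
      · simp only [if_neg hΓ, if_neg (hAn v hv hΓ)]
        exact hM.jm v hv
    · intro v hv
      by_cases hΓ : Γ v
      · simp only [if_pos hΓ]
        exact hM'.mem v (hpar _ v he' hΓ)
      · simp only [if_neg hΓ]
        exact hM.mem v hv
    · intro v hv
      by_cases hΓ : Γ v
      · simp only [if_pos hΓ]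
        exact hM'.val v (hpar _ v he' hΓ)
      · simp only [if_neg hΓ]
        exact hM.val v hv
    · intro v hv f hf
      by_cases hΓ : Γ v
      · simp only [if_pos hΓ] at hf ⊢
        rcases (hB v hΓ).1 f hf with h1 | h1
        · exact Or.inl (Finset.mem_union_left T h1)
        · exact Or.inr h1
      · simp only [if_neg hΓ] at hf ⊢
        exact hM.supp v hv f hf
  have hΓe : Γ e := ⟨det_self _, det_ne_zero_right he, hxe⟩
  obtain ⟨h1, h2⟩ := hP.un T (s i) hT m j _ _ hM hpm e he
  simp only [if_pos hΓe] at h1 h2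
  exact ⟨h2, fun _ => h1⟩

end MPb07157.EX
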