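import Pool.Agent.Lib.MP_b07157_ag.EX.PH2
import Pool.Agent.Lib.MP_b07157_ag.EX.PH3

/-!
# One triple for all matched sets
-/

namespace MPb07157.EX


open Finset

variable {ι κ : Type} [Fintype ι] [DecidableEq ι] [DecidableEq κ]
variable {c : κ → ι → ℕ} {N C : Finset κ} {D : ι → F} {T₀ T T' T'' : Finset ι} {s : Fin 3 → F}
  {K : ℚ} {m m' : ι → ι} {j j' : ι → κ} {x x' : κ} {g g' : Fin 3 → ι}

/-- One triple for all matched sets. -/
theorem Tri.exists_x (h : Tri c N C D T₀ s K) (hP : PSys c N C D T₀) :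
    ∃ x g, X0 c D T₀ s x g ∧ ∀ i T m j, Mt c N C D T₀ T (s i) → PMD c N D T₀ T (s i) m j →
      Has c D s i T j x g := by
  have key : ∀ (i : Fin 3) (T : Finset ι) (m : ι → ι) (j : ι → κ), Mt c N C D T₀ T (s i) →
      PMD c N D T₀ T (s i) m j → ∃ x g, X0 c D T₀ s x g ∧ Has c D s i T j x g :=
    fun i T m j hT hM => h.has hP hT hM
  obtain ⟨T0, hT0⟩ := h.mt 0
  obtain ⟨m0, j0, hM0, -⟩ := hP.ex _ _ hT0
  obtain ⟨x, g, hx, hh⟩ := key 0 T0 m0 j0 hT0 hM0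
  obtain ⟨T1, hT1⟩ := h.mt 1
  obtain ⟨m1, j1, hM1, -⟩ := hP.ex _ _ hT1
  obtain ⟨x1, g1, hx1, hh1⟩ := key 1 T1 m1 j1 hT1 hM1
  have e1 : x = x1 := h.same hP (by decide) hT0 hM0 hT1 hM1 hx hh hx1 hh1
  subst e1
  refine ⟨x, g, hx, fun i T m j hT hM => ?_⟩
  obtain ⟨x2, g2, hx2, hh2⟩ := key i T m j hT hM
  have e2 : x2 = x := by
    by_cases hi : i = 0
    · subst hi
      exact h.same hP (by decide) hT hM hT1 hM1 hx2 hh2 hx1 hh1
    · exact h.same hP hi hT hM hT0 hM0 hx2 hh2 hx hh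
  subst e2
  have e3 := h.g_eq hP hx2 hx
  subst e3
  exact hh2

end MPb07157.EX
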