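import Pool.Agent.Lib.MP_b07157_ag.EX.PG

/-!
# The special column of a matched set
-/

namespace MPb07157.EX


open Finset

variable {ι κ : Type} [Fintype ι] [DecidableEq ι] [DecidableEq κ]
variable {c : κ → ι → ℕ} {N C : Finset κ} {D : ι → F} {T₀ T T' T'' : Finset ι} {s : Fin 3 → F}
  {K : ℚ} {m m' : ι → ι} {j j' : ι → κ} {x x' : κ} {g g' : Fin 3 → ι}

/-- `x` is a true triple with the elements `g 0, g 1, g 2` of types `s 0, s 1, s 2`. -/
structure X0 (c : κ → ι → ℕ) (D : ι → F) (T₀ : Finset ι) (s : Fin 3 → F) (x : κ)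
    (g : Fin 3 → ι) : Prop where
  ty : ∀ i, D (g i) = s i
  val : ∀ i, c x (g i) = 1
  supp : ∀ e, c x e ≠ 0 → e ∈ T₀ ∨ ∃ i, e = g i

/-- `x` is the only special column of the matched set `T` in the class `i`. -/
structure Has (c : κ → ι → ℕ) (D : ι → F) (s : Fin 3 → F) (i : Fin 3) (T : Finset ι)
    (j : ι → κ) (x : κ) (g : Fin 3 → ι) : Prop where
  gT : g i ∈ T
  jg : ∀ k, k ≠ i → j (g k) = x
  sp : ∀ v, det (s i) (D v) ≠ 0 → Spec c T (j v) → j v = x

private theorem smul_inj_F {x : F} (hx : x.2 ≠ 0) {a b : ℚ} (h : a • x = b • x) : a = b := by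
  by_contra hab
  apply hx
  have h1 : (a - b) • x = 0 := by rw [sub_smul, h, sub_self]
  have h2 := (smul_eq_zero.1 h1).resolve_left (sub_ne_zero.2 hab)
  rw [h2]
  rfl

/-- The special elements on the line of `s k`. -/
private theorem Tri.has_core (h : Tri c N C D T₀ s K) (hP : PSys c N C D T₀) {i k l : Fin 3}
    (hik : i ≠ k) (hsum : s i + s k + s l = o) (hall : ∀ n, n = i ∨ n = k ∨ n = l)
    (hT : Mt c N C D T₀ T (s i)) (hM : PMD c N D T₀ T (s i) m j) {v₀ : ι} (hv₀ : D v₀ = s k)
    (hmv₀ : D (m v₀) = s l) {u : ι} {lam : ℚ} (hu : D u = s k + lam • s i)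
    (hs : Spec c T (j u)) : u = v₀ := by
  classical
  have hd : det (s i) (s k) ≠ 0 := h.dt i k hik
  have hdl : det (s i) (s l) = -det (s i) (s k) := by
    have h1 : det (s i) (s i + s k + s l) = 0 := by rw [hsum, det_o_right]
    rw [det_add_right, det_add_right, det_self] at h1
    linarith
  have hsi : (s i).2 ≠ 0 := det_ne_zero_left hd
  have hdline : ∀ x : ℚ, det (s i) (s k + x • s i) = det (s i) (s k) := by
    intro x
    rw [det_add_right, det_smul_right, det_self, mul_zero, add_zero]
  have hb : o - s l = s k + (1 : ℚ) • s i := by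
    rw [one_smul, ← hsum]; abel
  obtain ⟨α, hα⟩ := exists_al hP hT hM
  have hdu : det (s i) (D u) ≠ 0 := by rw [hu, hdline]; exact hd
  have hdv : det (s i) (D v₀) ≠ 0 := by rw [hv₀]; exact hd
  by_contra hne
  set G : F → ℚ := fun φ => if ∃ x : ℚ, x ≤ lam ∧ φ = s k + x • s i then 1 else 0 with hG
  have hG01 : ∀ φ, G φ = 0 ∨ G φ = 1 := by
    intro φ
    simp only [hG]
    split_ifs
    · exact Or.inr rfl
    · exact Or.inl rfl
  have hGd : ∀ φ, det (s i) φ = 0 → G φ = 0 := by
    intro φ hφ
    simp only [hG]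
    rw [if_neg]
    rintro ⟨x, _, hx⟩
    rw [hx, hdline] at hφ
    exact hd hφ
  have hflow := flow hM (fun v hv => (hα v hv).2.1) G hGd
  -- the left hand side
  have hK := h.K_eq hP
  have hab : s k ≠ o - s l := by
    rw [hb]
    intro h1
    have h2 : (1 : ℚ) • s i = 0 := by
      have := h1.symm
      rwa [add_eq_left] at this
    rw [one_smul] at h2
    exact hsi (by rw [h2]; rfl)
  have hL : ∑ φ ∈ Phi D, kap D φ * G φ = G (s k) - G (o - s l) := by
    have h1 : ∑ φ ∈ Phi D ∪ {s k, o - s l}, kap D φ * G φ = ∑ φ ∈ Phi D, kap D φ * G φ := by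
      symm
      refine Finset.sum_subset Finset.subset_union_left fun φ _ hφ => ?_
      have : kap D φ = 0 := by
        by_contra h2
        exact hφ (mem_Phi h2)
      rw [this, zero_mul]
    have h2 : ∑ φ ∈ Phi D ∪ {s k, o - s l}, kap D φ * G φ =
        ∑ φ ∈ ({s k, o - s l} : Finset F), kap D φ * G φ := by
      symm
      refine Finset.sum_subset Finset.subset_union_right fun φ _ hφ => ?_
      by_contra h3
      have h4 : kap D φ ≠ 0 := left_ne_zero_of_mul h3
      have h5 : G φ ≠ 0 := right_ne_zero_of_mul h3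
      have h6 : ∃ x : ℚ, x ≤ lam ∧ φ = s k + x • s i := by
        by_contra h7
        exact h5 (by simp only [hG]; rw [if_neg h7])
      obtain ⟨x, _, hx⟩ := h6
      have h7 : det (s i) φ = det (s i) (s k) := by rw [hx, hdline]
      have h8 : φ.2 ≠ 0 := det_ne_zero_right (by rw [h7]; exact hd : det (s i) φ ≠ 0)
      apply hφ
      rw [Finset.mem_insert, Finset.mem_singleton]
      obtain ⟨n, hn⟩ := h.sp φ h4 h8
      rcases hall n with rfl | rfl | rfl
      · exfalso
        rcases hn with hn | hn
        · rw [hn, det_self] at h7; exact hd h7.symm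
        · rw [hn, det_sub_right, det_o_right, det_self, sub_zero] at h7; exact hd h7.symm
      · rcases hn with hn | hn
        · exact Or.inl hn
        · exfalso
          rw [hn, det_sub_right, det_o_right] at h7
          exact hd (by linarith)
      · rcases hn with hn | hn
        · exfalso
          rw [hn, hdl] at h7
          exact hd (by linarith)
        · exact Or.inr hn
    rw [← h1, h2, Finset.sum_pair hab, kap_neg, h.kp, h.kp, hK]
    ring
  -- the terms on the right hand side
  have hterm : ∀ v ∈ univ.filter (fun v => det (s i) (D v) ≠ 0),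
      0 ≤ G (D v) - G (D v + α v • s i) := by
    intro v hv
    rw [Finset.mem_filter] at hv
    rcases hG01 (D v + α v • s i) with h1 | h1
    · rw [h1, sub_zero]
      rcases hG01 (D v) with h2 | h2 <;> rw [h2]
      exact zero_le_one
    · have h2 : ∃ x : ℚ, x ≤ lam ∧ D v + α v • s i = s k + x • s i := by
        by_contra h3
        simp only [hG] at h1
        rw [if_neg h3] at h1
        exact zero_ne_one h1
      obtain ⟨x, hx, hx2⟩ := h2
      have h3 : G (D v) = 1 := by
        simp only [hG]
        rw [if_pos]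
        refine ⟨x - α v, by linarith [(hα v hv.2).1], ?_⟩
        rw [sub_smul, ← add_sub_assoc, ← hx2, add_sub_cancel_right]
      rw [h1, h3, sub_self]
  have htu : G (D u) - G (D u + α u • s i) = 1 := by
    have h1 : G (D u) = 1 := by
      simp only [hG]
      rw [if_pos ⟨lam, le_rfl, hu⟩]
    have h2 : G (D u + α u • s i) = 0 := by
      simp only [hG]
      rw [if_neg]
      rintro ⟨x, hx, hx2⟩
      have h3 : (lam + α u) • s i = x • s i := by
        rw [hu, add_assoc, ← add_smul] at hx2
        exact add_left_cancel hx2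
      have h4 := smul_inj_F hsi h3
      have h5 := (hα u hdu).2.2.2.2 hs
      linarith
    rw [h1, h2, sub_zero]
  have hge1 : 1 ≤ G (s k) - G (o - s l) := by
    rw [← hL, hflow, ← htu]
    exact Finset.single_le_sum (f := fun v => G (D v) - G (D v + α v • s i)) hterm
      (Finset.mem_filter.2 ⟨Finset.mem_univ _, hdu⟩)
  have htv : G (D v₀) - G (D v₀ + α v₀ • s i) = G (s k) - G (o - s l) := by
    have h1 := (hα v₀ hdv).2.1
    have h2 : D v₀ + α v₀ • s i = o - s l := by
      rw [← h1, hmv₀]; abel
    rw [h2, hv₀]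
  have hpair : (G (D u) - G (D u + α u • s i)) + (G (D v₀) - G (D v₀ + α v₀ • s i)) ≤
      ∑ v ∈ univ.filter fun v => det (s i) (D v) ≠ 0, (G (D v) - G (D v + α v • s i)) := by
    have h1 : ({u, v₀} : Finset ι) ⊆ univ.filter fun v => det (s i) (D v) ≠ 0 := by
      intro v hv
      rw [Finset.mem_insert, Finset.mem_singleton] at hv
      rw [Finset.mem_filter]
      refine ⟨Finset.mem_univ _, ?_⟩
      rcases hv with rfl | rfl
      · exact hdu
      · exact hdv
    have h2 := Finset.sum_le_sum_of_subset_of_nonneg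
      (f := fun v => G (D v) - G (D v + α v • s i)) h1 (fun v hv _ => hterm v hv)
    rw [Finset.sum_pair hne] at h2
    exact h2
  rw [htu, htv, ← hflow, hL] at hpair
  linarith

/-- Every matched set has exactly one special column and it is a true triple.  Proof: let `k ≠ i`,
`l` the third index.  `two_special` with a matched set of the class `k` and `Tri.spec_type` give `v`
with `D v = s k`, special; `Tri.three` gives the triple `{g, v, m v}`.  Let `v'` be special; by
`kap_spec` and `Tri.sp` `D v'` is on the line `s k + λ s i` or on `s l + λ s i`, in the second case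
`D (m v') = o - D v' - α s i` is on the first; so let `D v' = s k + λ s i`.  `flow` with `G` = indicator
of `{s k + λ' s i : λ' ≤ λ}`: the left side is `0` for `λ < 0` or `λ ≥ 1` and `K = 1` for
`0 ≤ λ < 1` (`Tri.K_eq`); on the right side all terms are nonnegative, the term of `v'` is `1`, the term
of `v` is `1` if `0 ≤ λ < 1` (`D v = s k`, `D v + α s i = o - D (m v) = s k + s i`).  So `v' = v`. -/
theorem Tri.has (h : Tri c N C D T₀ s K) (hP : PSys c N C D T₀) {i : Fin 3}
    (hT : Mt c N C D T₀ T (s i)) (hM : PMD c N D T₀ T (s i) m j) :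
    ∃ x g, X0 c D T₀ s x g ∧ Has c D s i T j x g := by
  classical
  have hall : ∀ i n : Fin 3, n = i ∨ n = i + 1 ∨ n = i + 2 := by decide
  have hsum : s i + s (i + 1) + s (i + 2) = o := by
    rw [← h.sum]
    fin_cases i
    · rfl
    · change s 1 + s 2 + s 0 = _
      abel
    · change s 2 + s 0 + s 1 = _
      abel
  have hik : i ≠ i + 1 := (by decide : ∀ i : Fin 3, i ≠ i + 1) i
  have hil : i ≠ i + 2 := (by decide : ∀ i : Fin 3, i ≠ i + 2) i
  have hkl : i + 1 ≠ i + 2 := (by decide : ∀ i : Fin 3, i + 1 ≠ i + 2) i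
  have hall' := hall i
  generalize i + 1 = k at *
  generalize i + 2 = l at *
  obtain ⟨Tk, hTk⟩ := h.mt k
  obtain ⟨v₀, hv₀T, _, hsv₀⟩ := two_special hP hT hTk (h.dt i k hik) hM
  obtain ⟨β, hβ, hDv⟩ := hTk.mul v₀ hv₀T
  have hβ1 := h.spec_type hP hik hT hM hβ hDv hsv₀
  have hv₀ : D v₀ = s k := by rw [hDv, hβ1, one_smul]
  obtain ⟨g, hgT, hDg, hDm, hcg, hsupp, _⟩ := h.three hP hik hil hkl hT hM hv₀ hsv₀
  have hdv : det (s i) (D v₀) ≠ 0 := by rw [hv₀]; exact h.dt i k hik
  have hdm : det (s i) (D (m v₀)) ≠ 0 := hM.nc v₀ hdv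
  refine ⟨j v₀, fun n => if n = i then g else if n = k then v₀ else m v₀, ?_, ?_⟩
  · refine ⟨?_, ?_, ?_⟩
    · intro n
      rcases hall' n with rfl | rfl | rfl
      · simp only [if_true]; exact hDg
      · simp only [if_neg hik.symm, if_true]; exact hv₀
      · simp only [if_neg hil.symm, if_neg hkl.symm]; exact hDm
    · intro n
      rcases hall' n with rfl | rfl | rfl
      · simp only [if_true]; exact hcg
      · simp only [if_neg hik.symm, if_true]; exact hM.val v₀ hdv
      · simp only [if_neg hil.symm, if_neg hkl.symm]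
        rw [← hM.jm v₀ hdv]
        exact hM.val (m v₀) hdm
    · intro e he
      rcases hsupp e he with h1 | h1 | h1 | h1
      · exact Or.inl h1
      · exact Or.inr ⟨i, by simp only [if_true]; exact h1⟩
      · exact Or.inr ⟨k, by simp only [if_neg hik.symm, if_true]; exact h1⟩
      · exact Or.inr ⟨l, by simp only [if_neg hil.symm, if_neg hkl.symm]; exact h1⟩
  · refine ⟨?_, ?_, ?_⟩
    · simp only [if_true]; exact hgT
    · intro n hn
      rcases hall' n with rfl | rfl | rfl
      · exact absurd rfl hn
      · simp only [if_neg hik.symm, if_true]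
      · simp only [if_neg hil.symm, if_neg hkl.symm]
        exact hM.jm v₀ hdv
    · intro v hv hs
      obtain ⟨l₀, hl₀⟩ := kap_spec hP hT hM hv hs
      obtain ⟨α, hα⟩ := exists_al hP hT hM
      have hdline : det (s i) (D v + l₀ • s i) = det (s i) (D v) := by
        rw [det_add_right, det_smul_right, det_self, mul_zero, add_zero]
      have h2 : (D v + l₀ • s i).2 ≠ 0 :=
        det_ne_zero_right (by rw [hdline]; exact hv : det (s i) (D v + l₀ • s i) ≠ 0)
      obtain ⟨n, hn⟩ := h.sp _ hl₀ h2
      have hDmv : D (m v) = o - D v - α v • s i := by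
        rw [← (hα v hv).2.1]; abel
      have hfin : (∃ x : ℚ, D v = s k + x • s i) ∨ ∃ x : ℚ, D (m v) = s k + x • s i := by
        have hDv' : D v = (D v + l₀ • s i) - l₀ • s i := by rw [add_sub_cancel_right]
        rcases hall' n with rfl | rfl | rfl
        · exfalso
          rcases hn with hn | hn
          · rw [hn, det_self] at hdline; exact hv hdline.symm
          · rw [hn, det_sub_right, det_o_right, det_self, sub_zero] at hdline
            exact hv hdline.symm
        · rcases hn with hn | hn
          · left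
            refine ⟨-l₀, ?_⟩
            rw [hDv', hn, neg_smul, sub_eq_add_neg]
          · right
            refine ⟨l₀ - α v, ?_⟩
            rw [hDmv, hDv', hn, sub_smul]
            abel
        · rcases hn with hn | hn
          · right
            refine ⟨1 + l₀ - α v, ?_⟩
            rw [hDmv, hDv', hn, sub_smul, add_smul, one_smul, ← hsum]
            abel
          · left
            refine ⟨1 - l₀, ?_⟩
            rw [hDv', hn, sub_smul, one_smul, ← hsum]
            abel
      rcases hfin with ⟨x, hx⟩ | ⟨x, hx⟩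
      · rw [h.has_core hP hik hsum hall' hT hM hv₀ hDm hx hs]
      · have hs' : Spec c T (j (m v)) := by rw [hM.jm v hv]; exact hs
        rw [← hM.jm v hv, h.has_core hP hik hsum hall' hT hM hv₀ hDm hx hs']

end MPb07157.EX
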