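import Pool.Agent.Lib.MP_b07157_ag.EX.PH1

/-!
# The triple is the same
-/

namespace MPb07157.EX


open Finset

variable {ι κ : Type} [Fintype ι] [DecidableEq ι] [DecidableEq κ]
variable {c : κ → ι → ℕ} {N C : Finset κ} {D : ι → F} {T₀ T T' T'' : Finset ι} {s : Fin 3 → F}
  {K : ℚ} {m m' : ι → ι} {j j' : ι → κ} {x x' : κ} {g g' : Fin 3 → ι}

/-- the cone of `s₁`, `s₂` without the origin -/
private def Cn2 (s₁ s₂ φ : F) : Prop :=
  ∃ α β : ℚ, 0 ≤ α ∧ 0 ≤ β ∧ (0 < α ∨ 0 < β) ∧ φ = α • s₁ + β • s₂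

private theorem Cn2.swap {s₁ s₂ φ : F} (h : Cn2 s₁ s₂ φ) : Cn2 s₂ s₁ φ := by
  obtain ⟨α, β, h1, h2, h3, h4⟩ := h
  exact ⟨β, α, h2, h1, h3.symm, by rw [h4, add_comm]⟩

private theorem Cn2.ne {s₁ s₂ φ : F} (hd : det s₁ s₂ ≠ 0) (h : Cn2 s₁ s₂ φ) : φ.2 ≠ 0 := by
  obtain ⟨α, β, h1, h2, h3, h4⟩ := h
  intro h0
  have e1 : det s₁ φ = 0 := by simp [det, h0]
  have e2 : det φ s₂ = 0 := by simp [det, h0]
  rw [h4, det_add_right, det_smul_right, det_smul_right, det_self, mul_zero, zero_add] at e1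
  rw [h4, det_add_left, det_smul_left, det_smul_left, det_self, mul_zero, add_zero] at e2
  have e3 : β = 0 := (mul_eq_zero.1 e1).resolve_right hd
  have e4 : α = 0 := (mul_eq_zero.1 e2).resolve_right hd
  rcases h3 with h | h <;> linarith

private theorem ph2_cf1 {s₁ s₂ : F} (hd : det s₁ s₂ ≠ 0) {a b a' b' : ℚ}
    (h : a • s₁ + b • s₂ = a' • s₁ + b' • s₂) : a = a' ∧ b = b' := by
  have h1 := coeff_eq hd (a := a) (b := b) (c' := 0) (a' := a') (b' := b') (c'' := 0)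
    (by rw [zero_smul, add_zero, add_zero]; exact h)
  exact ⟨h1.1, h1.2.1⟩

private theorem ph2_cf0 {s₁ s₂ : F} (hd : det s₁ s₂ ≠ 0) {a b a' b' : ℚ}
    (h : o + a • s₁ + b • s₂ = a' • s₁ + b' • s₂) : False := by
  have h1 := coeff_eq hd (a := a) (b := b) (c' := 1) (a' := a') (b' := b') (c'' := 0)
    (by rw [one_smul, zero_smul, add_zero, ← h]; abel)
  exact one_ne_zero h1.2.2

private theorem ph2_third (s : Fin 3 → F) (i k : Fin 3) (hik : i ≠ k) :
    ∃ l : Fin 3, s i + s k + s l = s 0 + s 1 + s 2 ∧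
      (∀ f : Fin 3 → ℚ, ∑ a, f a = f i + f k + f l) ∧ ∀ a, a = i ∨ a = k ∨ a = l := by
  fin_cases i <;> fin_cases k
  · exact absurd rfl hik
  · exact ⟨2, rfl, fun f => Fin.sum_univ_three f, by decide⟩
  · refine ⟨1, ?_, fun f => ?_, by decide⟩
    · show s 0 + s 2 + s 1 = s 0 + s 1 + s 2
      abel
    · rw [Fin.sum_univ_three]
      show f 0 + f 1 + f 2 = f 0 + f 2 + f 1
      ring
  · refine ⟨2, ?_, fun f => ?_, by decide⟩
    · show s 1 + s 0 + s 2 = s 0 + s 1 + s 2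
      abel
    · rw [Fin.sum_univ_three]
      show f 0 + f 1 + f 2 = f 1 + f 0 + f 2
      ring
  · exact absurd rfl hik
  · refine ⟨0, ?_, fun f => ?_, by decide⟩
    · show s 1 + s 2 + s 0 = s 0 + s 1 + s 2
      abel
    · rw [Fin.sum_univ_three]
      show f 0 + f 1 + f 2 = f 1 + f 2 + f 0
      ring
  · refine ⟨1, ?_, fun f => ?_, by decide⟩
    · show s 2 + s 0 + s 1 = s 0 + s 1 + s 2
      abel
    · rw [Fin.sum_univ_three]
      show f 0 + f 1 + f 2 = f 2 + f 0 + f 1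
      ring
  · refine ⟨0, ?_, fun f => ?_, by decide⟩
    · show s 2 + s 1 + s 0 = s 0 + s 1 + s 2
      abel
    · rw [Fin.sum_univ_three]
      show f 0 + f 1 + f 2 = f 2 + f 1 + f 0
      ring
  · exact absurd rfl hik

private theorem ph2_side (hP : PSys c N C D T₀) {s₁ s₂ : F} (hd : det s₁ s₂ ≠ 0) {S : Finset ι}
    (hT : Mt c N C D T₀ T s₁) (hM : PMD c N D T₀ T s₁ m j) (hT' : Mt c N C D T₀ T' s₂)
    (hTS : T ⊆ S) (hTS' : T' ⊆ S) (hS : ∀ e ∈ S, Cn2 s₁ s₂ (D e))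
    (hF : ∀ w k', Own c N C (T₀ ∪ S) w k' → ∀ e ∈ S, c k' e ≠ 0 → e ∈ T ∨ e ∈ T') :
    ∃ v ∈ T', Own c N C (T₀ ∪ S) (m v) (j v) ∧ Spec c T (j v) := by
  classical
  obtain ⟨S₁, hS₁⟩ : ∃ S₁ : Finset ι, ∀ e, e ∈ S₁ ↔ e ∈ S ∧ ∃ α : ℚ, 0 < α ∧ D e = α • s₁ :=
    ⟨S.filter fun e => ∃ α : ℚ, 0 < α ∧ D e = α • s₁, fun e => Finset.mem_filter⟩
  have hS₁S : S₁ ⊆ S := fun e he => ((hS₁ e).1 he).1
  have hTS₁ : T ⊆ S₁ := fun e he => (hS₁ e).2 ⟨hTS he, hT.mul e he⟩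
  have hT'S₁ : ∀ e ∈ T', e ∉ S₁ := by
    intro e he he1
    obtain ⟨β, hβ, h1⟩ := hT'.mul e he
    obtain ⟨α, hα, h2⟩ := ((hS₁ e).1 he1).2
    have h3 := ph2_cf1 hd (a := 0) (b := β) (a' := α) (b' := 0)
      (by rw [zero_smul, zero_add, zero_smul, add_zero, ← h1, ← h2])
    linarith [h3.1]
  have hS2 : ∀ e ∈ S, e ∉ S₁ → ∃ α β : ℚ, 0 ≤ α ∧ 0 < β ∧ D e = α • s₁ + β • s₂ := by
    intro e he he1
    obtain ⟨α, β, h1, h2, h3, h4⟩ := hS e he
    rcases h2.eq_or_lt with h5 | h5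
    · exfalso
      apply he1
      refine (hS₁ e).2 ⟨he, α, ?_, ?_⟩
      · rcases h3 with h | h
        · exact h
        · linarith
      · rw [h4, ← h5, zero_smul, add_zero]
    · exact ⟨α, β, h1, h5, h4⟩
  have hScone : ∀ e ∈ S, ∃ α β : ℚ, 0 ≤ α ∧ 0 ≤ β ∧ D e = α • s₁ + β • s₂ := by
    intro e he
    obtain ⟨α, β, h1, h2, h3, h4⟩ := hS e he
    exact ⟨α, β, h1, h2, h4⟩
  -- `S₁` is matched
  have hMt : Mt c N C D T₀ S₁ s₁ := by
    refine ⟨hT.ne.mono hTS₁, hT.s2, fun f hf => ((hS₁ f).1 hf).2, ?_⟩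
    intro w β hw k' hk'
    have hwS : w ∉ S := by
      intro hwS
      obtain ⟨α', β', -, -, h4⟩ := hScone w hwS
      rw [hw] at h4
      exact ph2_cf0 hd (a := β) (b := 0) (a' := α') (b' := β')
        (by rw [zero_smul, add_zero]; exact h4)
    have hw0 : w ∉ T₀ := fun h0 => hk'.1 (Finset.mem_union_left _ h0)
    have hwTS : w ∉ T₀ ∪ S := by
      rw [Finset.mem_union]
      rintro (h1 | h1)
      · exact hw0 h1
      · exact hwS h1
    have hU : U c N (T₀ ∪ S) w = U c N (T₀ ∪ S₁) w := by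
      refine Finset.Subset.antisymm ?_ (U_mono (Finset.union_subset_union_right hS₁S) w)
      intro k'' hk''
      obtain ⟨a, b, ha, hb, hab, -, h2⟩ := cone_own hP hd hScone hwTS hk''
      have h3 : b = 0 := by
        have h4 := ph2_cf1 hd (a := -β) (b := 0) (a' := a) (b' := b) (by
          rw [← hab, hw, zero_smul, add_zero, neg_smul]
          abel)
        exact h4.2.symm
      rw [mem_U] at hk'' ⊢
      refine ⟨hk''.1, hk''.2.1, fun e he => ?_⟩
      rcases hk''.2.2 e he with h5 | h5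
      · rcases Finset.mem_union.1 h5 with h6 | h6
        · exact Or.inl (Finset.mem_union_left _ h6)
        · left
          refine Finset.mem_union_right _ ?_
          by_contra h7
          obtain ⟨α', β', -, h8, h9⟩ := hS2 e h6 h7
          exact he (h2 h3 e h6 α' β' h8 h9)
      · exact Or.inr h5
    have hown : Own c N C (T₀ ∪ S) w k' := ⟨hwTS, by rw [hU]; exact hk'.2.1, hk'.2.2⟩
    have hown2 : Own c N C (T₀ ∪ T) w k' := by
      refine hown.mono (Finset.union_subset_union_right hTS) fun e he => ?_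
      rcases (mem_U.1 hk'.mem).2.2 e he with h5 | h5
      · rcases Finset.mem_union.1 h5 with h6 | h6
        · exact Or.inl (Finset.mem_union_left _ h6)
        · rcases hF w k' hown e (hS₁S h6) he with h7 | h7
          · exact Or.inl (Finset.mem_union_right _ h7)
          · exact absurd h6 (hT'S₁ e h7)
      · exact Or.inr h5
    exact hT.q w β hw k' hown2
  have hM₁ : PMD c N D T₀ S₁ s₁ m j :=
    ⟨hM.nc, hM.inv, hM.ne, hM.jm, hM.mem, hM.val, fun v hv e he =>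
      (hM.supp v hv e he).imp_left fun h1 => Finset.union_subset_union_right hTS₁ h1⟩
  obtain ⟨z, hz1, hz2⟩ := exists_ev_zero hd
  have hne : (S \ S₁).Nonempty := by
    obtain ⟨f, hf⟩ := hT'.ne
    exact ⟨f, Finset.mem_sdiff.2 ⟨hTS' hf, hT'S₁ f hf⟩⟩
  obtain ⟨v, hv, hown⟩ := hP.reach S₁ s₁ hMt m j hM₁ z (det s₁ s₂) hz1 (S \ S₁) hne
    (fun e he => by
      obtain ⟨h1, h2⟩ := Finset.mem_sdiff.1 he
      obtain ⟨α, β, h3, h4, h5⟩ := hS2 e h1 h2
      constructor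
      · rw [h5, ev_add, ev_smul, ev_smul, hz1, hz2, mul_zero, mul_zero, add_zero]
      · rw [h5, det_add_right, det_smul_right, det_smul_right, det_self, mul_zero, zero_add]
        have h6 : 0 < det s₁ s₂ * det s₁ s₂ := mul_self_pos.2 hd
        nlinarith)
  obtain ⟨hvS, hvS₁⟩ := Finset.mem_sdiff.1 hv
  have hun : T₀ ∪ S₁ ∪ (S \ S₁) = T₀ ∪ S := by
    rw [Finset.union_assoc, Finset.union_sdiff_of_subset hS₁S]
  rw [hun] at hown
  obtain ⟨α₀, β₀, -, hβ₀, hDv⟩ := hS2 v hvS hvS₁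
  have hdv : det s₁ (D v) ≠ 0 := by
    rw [hDv, det_add_right, det_smul_right, det_smul_right, det_self, mul_zero, zero_add]
    exact mul_ne_zero hβ₀.ne' hd
  have hvT' : v ∈ T' := by
    have h1 : c (j v) v ≠ 0 := by rw [hM.val v hdv]; exact one_ne_zero
    rcases hF (m v) (j v) hown v hvS h1 with h2 | h2
    · exact absurd (hTS₁ h2) hvS₁
    · exact h2
  refine ⟨v, hvT', hown, ?_⟩
  by_contra hsp
  obtain ⟨al, hal⟩ := exists_al hP hT hM
  obtain ⟨h1, h2, -, h4⟩ := hal v hdv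
  have h5 : al v = 0 := by
    rcases h1.eq_or_lt with h | h
    · exact h.symm
    · exact absurd (h4.1 h) hsp
  obtain ⟨β, hβ, h6⟩ := hT'.mul v hvT'
  have h7 : D (m v) = o + (-β) • s₂ := by
    rw [← h2, h5, h6, zero_smul, neg_smul]
    abel
  refine hT'.q (m v) (-β) h7 (j v) ?_
  refine hown.mono (Finset.union_subset_union_right hTS') fun e he => ?_
  rcases hM.supp v hdv e he with h8 | h8 | h8
  · rcases Finset.mem_union.1 h8 with h9 | h9
    · exact Or.inl (Finset.mem_union_left _ h9)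
    · exact absurd ⟨e, h9, he⟩ hsp
  · rw [h8]
    exact Or.inl (Finset.mem_union_right _ hvT')
  · exact Or.inr h8

/-- (2.14) The triple is the same.  Proof: `S₀` = the elements with `D e = α • s i + β • s k`,
`α, β ≥ 0`, not both zero, `O` = the elements with `o - D w` of this form, `|S₀| - |O| = K = 1`
(`Tri.count`, `Tri.K_eq`).  `elim` with `B = T₀`, `K := T ∪ T'`, `Fin S` := every owner's single of
`T₀ ∪ S` meets `S` only in `T ∪ T'` (owners are in `O` by `cone_own`): `S* ⊇ T ∪ T'` with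
`|Alive O (T₀ ∪ S*)| + 1 ≤ |S*|`.  Let `S₁ = {e ∈ S* | β = 0} ⊇ T`.  `Mt S₁ (s i)`: otherwise a
constant owner `w` of `T₀ ∪ S₁` with single `k'`; by `cone_own` (`b = 0`) `U (T₀ ∪ S*) w = U (T₀ ∪ S₁) w`,
by `Fin` `k'` meets `S₁` only in `T` (`T'` is disjoint from `S₁`), so `Own (T₀ ∪ T) w k'`: contradiction to
`Mt.q`.  `(m, j)` is the matching of `S₁` (`nested` direction: supports are in `T₀ ∪ T ∪ ..`).
`PSys.reach` for `S₁`, `S'' = S* \ S₁`: `v₁ ∈ S''` with `Own (T₀ ∪ S*) (m v₁) (j v₁)`; by `Fin`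
`v₁ ∈ T'`; `j v₁` is special for `T` (otherwise `D (m v₁) = o - D v₁` and `Own (T₀ ∪ T') ..`), so
`j v₁ = x`.  In the same way `u₁ ∈ T` with `Own (T₀ ∪ S*) (m' u₁) (j' u₁)`, `j' u₁ = x'`.  The sets
`m (S* \ S₁)` and `m' (S₁ \ {u₁})` are disjoint (`o - D w` has `β > 0` resp. `β = 0`: the elements of
`S₁ \ {u₁}` are not special for `T'`), alive, in `O`, of total size `|S*| - 1`: they are all alive
elements.  `m' u₁` is alive and not in the second set, so `m' u₁ = m v₂`, `v₂ ∈ S* \ S₁`,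
`j v₂ ∈ U (T₀ ∪ S*) (m' u₁) = {x'}`; `x'` meets `T` in `u₁`, so `j v₂ = x' ` is special for `T`:
`x' = x`. -/
theorem Tri.same (h : Tri c N C D T₀ s K) (hP : PSys c N C D T₀) {i k : Fin 3} (hik : i ≠ k)
    (hT : Mt c N C D T₀ T (s i)) (hM : PMD c N D T₀ T (s i) m j)
    (hT' : Mt c N C D T₀ T' (s k)) (hM' : PMD c N D T₀ T' (s k) m' j')
    (hx : X0 c D T₀ s x g) (hh : Has c D s i T j x g)
    (hx' : X0 c D T₀ s x' g') (hh' : Has c D s k T' j' x' g') : x = x' := by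
  classical
  have hd : det (s i) (s k) ≠ 0 := h.dt i k hik
  have hd' : det (s k) (s i) ≠ 0 := h.dt k i hik.symm
  have hK := h.K_eq hP
  obtain ⟨l, hsum, hfs, hall⟩ := ph2_third s i k hik
  rw [h.sum] at hsum
  -- the cone
  have c1 : Cn2 (s i) (s k) (s i) :=
    ⟨1, 0, zero_le_one, le_rfl, Or.inl one_pos, by rw [one_smul, zero_smul, add_zero]⟩
  have c2 : Cn2 (s i) (s k) (s k) :=
    ⟨0, 1, le_rfl, zero_le_one, Or.inr one_pos, by rw [one_smul, zero_smul, zero_add]⟩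
  have c3 : ¬ Cn2 (s i) (s k) (s l) := by
    rintro ⟨α, β, -, -, -, h1⟩
    refine ph2_cf0 hd (a := 0) (b := 0) (a' := α + 1) (b' := β + 1) ?_
    rw [← hsum, h1, zero_smul, zero_smul, add_smul, add_smul, one_smul, one_smul]
    abel
  have c4 : ¬ Cn2 (s i) (s k) (o - s i) := by
    rintro ⟨α, β, -, -, -, h1⟩
    refine ph2_cf0 hd (a := 0) (b := 0) (a' := α + 1) (b' := β) ?_
    rw [zero_smul, zero_smul, add_smul, one_smul, add_zero, add_zero,
      add_right_comm, ← h1, sub_add_cancel]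
  have c5 : ¬ Cn2 (s i) (s k) (o - s k) := by
    rintro ⟨α, β, -, -, -, h1⟩
    refine ph2_cf0 hd (a := 0) (b := 0) (a' := α) (b' := β + 1) ?_
    rw [zero_smul, zero_smul, add_smul, one_smul, add_zero, add_zero,
      ← add_assoc, ← h1, sub_add_cancel]
  have c6 : Cn2 (s i) (s k) (o - s l) :=
    ⟨1, 1, zero_le_one, zero_le_one, Or.inl one_pos, by
      rw [← hsum, one_smul, one_smul, add_sub_cancel_right]⟩
  have hc := h.count (Cn2 (s i) (s k)) (fun φ hφ => hφ.ne hd)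
  rw [hK, hfs, if_pos c1, if_pos c2, if_neg c3, if_neg c4, if_neg c5, if_pos c6] at hc
  obtain ⟨S₀, hS₀⟩ : ∃ S₀ : Finset ι, S₀ = univ.filter fun e => Cn2 (s i) (s k) (D e) := ⟨_, rfl⟩
  obtain ⟨O, hO⟩ : ∃ O : Finset ι, O = univ.filter fun e => Cn2 (s i) (s k) (o - D e) := ⟨_, rfl⟩
  rw [← hS₀, ← hO] at hc
  have mS₀ : ∀ e, e ∈ S₀ ↔ Cn2 (s i) (s k) (D e) := by
    intro e
    rw [hS₀, Finset.mem_filter]
    exact ⟨fun h1 => h1.2, fun h1 => ⟨Finset.mem_univ _, h1⟩⟩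
  have mO : ∀ e, e ∈ O ↔ Cn2 (s i) (s k) (o - D e) := by
    intro e
    rw [hO, Finset.mem_filter]
    exact ⟨fun h1 => h1.2, fun h1 => ⟨Finset.mem_univ _, h1⟩⟩
  have hSO : S₀.card = O.card + 1 := by
    have h1 : (S₀.card : ℚ) = ((O.card + 1 : ℕ) : ℚ) := by
      push_cast
      linarith
    exact_mod_cast h1
  have hne0 : ∀ e, Cn2 (s i) (s k) (D e) → e ∉ T₀ := by
    intro e he h0
    apply he.ne hd
    rw [hP.zero e h0]
    rfl
  have mT : ∀ f ∈ T, Cn2 (s i) (s k) (D f) := by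
    intro f hf
    obtain ⟨α, hα, h1⟩ := hT.mul f hf
    exact ⟨α, 0, hα.le, le_rfl, Or.inl hα, by rw [h1, zero_smul, add_zero]⟩
  have mT' : ∀ f ∈ T', Cn2 (s i) (s k) (D f) := by
    intro f hf
    obtain ⟨α, hα, h1⟩ := hT'.mul f hf
    exact ⟨0, α, le_rfl, hα.le, Or.inr hα, by rw [h1, zero_smul, zero_add]⟩
  -- elimination
  obtain ⟨S, hTS, hSS₀, hF, hcard⟩ := elim (c := c) (N := N) (C := C) (B := T₀) (O := O) (Z := S₀)
    (K := T ∪ T') (Finset.union_subset (fun f hf => (mS₀ f).2 (mT f hf))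
      fun f hf => (mS₀ f).2 (mT' f hf))
    (fun S => ∀ w k', Own c N C (T₀ ∪ S) w k' → ∀ e ∈ S, c k' e ≠ 0 → e ∈ T ∨ e ∈ T')
    (fun S h1 h2 h3 => by
      push Not at h3
      obtain ⟨w, k', hown, e, he, hce, heT, heT'⟩ := h3
      have hScone : ∀ e ∈ S, ∃ α β : ℚ, 0 ≤ α ∧ 0 ≤ β ∧ D e = α • s i + β • s k := by
        intro e he
        obtain ⟨α, β, h1, h2, h3, h4⟩ := (mS₀ e).1 (h2 he)
        exact ⟨α, β, h1, h2, h4⟩
      obtain ⟨a, b, ha, hb, hab, g1, g2⟩ := cone_own hP hd hScone hown.1 hown.mem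
      refine ⟨w, (mO w).2 ⟨a, b, ha, hb, ?_, hab⟩, k', hown, e, he, ?_, hne0 e ((mS₀ e).1 (h2 he)),
        hce⟩
      · by_contra h4
        push Not at h4
        have ha0 : a = 0 := le_antisymm h4.1 ha
        have hb0 : b = 0 := le_antisymm h4.2 hb
        obtain ⟨α, β, -, -, h5, h6⟩ := (mS₀ e).1 (h2 he)
        rcases h5 with h5 | h5
        · exact hce (g1 ha0 e he α β h5 h6)
        · exact hce (g2 hb0 e he α β h5 h6)
      · rw [Finset.mem_union]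
        rintro (h4 | h4)
        · exact heT h4
        · exact heT' h4)
  have hTS1 : T ⊆ S := Finset.subset_union_left.trans hTS
  have hTS2 : T' ⊆ S := Finset.subset_union_right.trans hTS
  have hSc : ∀ e ∈ S, Cn2 (s i) (s k) (D e) := fun e he => (mS₀ e).1 (hSS₀ he)
  have hcard2 : (Alive c N O (T₀ ∪ S)).card + 1 ≤ S.card := by
    have h1 : (Alive c N O (T₀ ∪ S₀)).card ≤ O.card := Alive_le
    omega
  -- the element `u₁`
  obtain ⟨u₁, hu₁, hown, hsp⟩ := ph2_side hP hd' hT' hM' hT hTS2 hTS1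
    (fun e he => (hSc e he).swap) (fun w k' h1 e he h2 => (hF w k' h1 e he h2).symm)
  have hdi : ∀ u, (∃ α : ℚ, 0 < α ∧ D u = α • s i) → det (s k) (D u) ≠ 0 := by
    rintro u ⟨α, hα, h1⟩
    rw [h1, det_smul_right]
    exact mul_ne_zero hα.ne' hd'
  have hj'u₁ : j' u₁ = x' := hh'.sp u₁ (hdi u₁ (hT.mul u₁ hu₁)) hsp
  -- uniqueness of the element of type `i` in `x'`
  have hgi : ∀ u, (∃ α : ℚ, 0 < α ∧ D u = α • s i) → j' u = x' → u = g' i := by
    rintro u ⟨α, hα, h1⟩ h2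
    have h3 : c x' u ≠ 0 := by
      rw [← h2, hM'.val u (hdi u ⟨α, hα, h1⟩)]
      exact one_ne_zero
    rcases hx'.supp u h3 with h4 | ⟨a, h4⟩
    · exfalso
      exact hne0 u ⟨α, 0, hα.le, le_rfl, Or.inl hα, by rw [h1, zero_smul, add_zero]⟩ h4
    · rcases hall a with h5 | h5 | h5
      · rw [h4, h5]
      · exfalso
        have h6 := hx'.ty a
        rw [← h4, h5, h1] at h6
        have h7 := ph2_cf1 hd (a := α) (b := 0) (a' := 0) (b' := 1)
          (by rw [zero_smul, add_zero, zero_smul, zero_add, one_smul, h6])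
        linarith [h7.1]
      · exfalso
        have h6 := hx'.ty a
        rw [← h4, h5, h1] at h6
        refine ph2_cf0 hd (a := 0) (b := 0) (a' := 1 + α) (b' := 1) ?_
        rw [← hsum, ← h6, zero_smul, zero_smul, add_smul, one_smul, one_smul]
        abel
  obtain ⟨S₁, hS₁⟩ : ∃ S₁ : Finset ι, ∀ e, e ∈ S₁ ↔ e ∈ S ∧ ∃ α : ℚ, 0 < α ∧ D e = α • s i :=
    ⟨S.filter fun e => ∃ α : ℚ, 0 < α ∧ D e = α • s i, fun e => Finset.mem_filter⟩
  have hS₁S : S₁ ⊆ S := fun e he => ((hS₁ e).1 he).1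
  have hu₁S₁ : u₁ ∈ S₁ := (hS₁ u₁).2 ⟨hTS1 hu₁, hT.mul u₁ hu₁⟩
  have hS2 : ∀ e ∈ S \ S₁, ∃ α β : ℚ, 0 ≤ α ∧ 0 < β ∧ D e = α • s i + β • s k := by
    intro e he
    obtain ⟨he, he1⟩ := Finset.mem_sdiff.1 he
    obtain ⟨α, β, h1, h2, h3, h4⟩ := hSc e he
    rcases h2.eq_or_lt with h5 | h5
    · exfalso
      apply he1
      refine (hS₁ e).2 ⟨he, α, ?_, ?_⟩
      · rcases h3 with h | h
        · exact h
        · linarith
      · rw [h4, ← h5, zero_smul, add_zero]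
    · exact ⟨α, β, h1, h5, h4⟩
  have hdv : ∀ v ∈ S \ S₁, det (s i) (D v) ≠ 0 := by
    intro v hv
    obtain ⟨α, β, -, h2, h3⟩ := hS2 v hv
    rw [h3, det_add_right, det_smul_right, det_smul_right, det_self, mul_zero, zero_add]
    exact mul_ne_zero h2.ne' hd
  obtain ⟨al, hal⟩ := exists_al hP hT hM
  obtain ⟨al', hal'⟩ := exists_al hP hT' hM'
  -- the columns of the matchings are alive
  have hUm : ∀ v ∈ S \ S₁, j v ∈ U c N (T₀ ∪ S) (m v) := by
    intro v hv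
    have h1 := hdv v hv
    rw [mem_U]
    refine ⟨hM.mem v h1, ?_, fun e he => ?_⟩
    · rw [← hM.jm v h1]
      exact hM.val (m v) (hM.nc v h1)
    · rcases hM.supp v h1 e he with h2 | h2 | h2
      · exact Or.inl (Finset.union_subset_union_right hTS1 h2)
      · rw [h2]
        exact Or.inl (Finset.mem_union_right _ (Finset.mem_sdiff.1 hv).1)
      · exact Or.inr h2
  have hUm' : ∀ u ∈ S₁, j' u ∈ U c N (T₀ ∪ S) (m' u) := by
    intro u hu
    have h1 := hdi u ((hS₁ u).1 hu).2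
    rw [mem_U]
    refine ⟨hM'.mem u h1, ?_, fun e he => ?_⟩
    · rw [← hM'.jm u h1]
      exact hM'.val (m' u) (hM'.nc u h1)
    · rcases hM'.supp u h1 e he with h2 | h2 | h2
      · exact Or.inl (Finset.union_subset_union_right hTS2 h2)
      · rw [h2]
        exact Or.inl (Finset.mem_union_right _ (hS₁S hu))
      · exact Or.inr h2
  have hA₁ : ∀ v ∈ S \ S₁, ∃ α β : ℚ, 0 ≤ α ∧ 0 < β ∧ o - D (m v) = α • s i + β • s k := by
    intro v hv
    obtain ⟨α, β, h1, h2, h3⟩ := hS2 v hv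
    obtain ⟨h4, h5, -, -⟩ := hal v (hdv v hv)
    refine ⟨α + al v, β, by linarith, h2, ?_⟩
    rw [← h5, h3, add_smul]
    abel
  have hA₂ : ∀ u ∈ S₁.erase u₁, ∃ α : ℚ, 0 < α ∧ o - D (m' u) = α • s i := by
    intro u hu
    obtain ⟨hne, hu⟩ := Finset.mem_erase.1 hu
    obtain ⟨α, hα, h1⟩ := ((hS₁ u).1 hu).2
    have h2 := hdi u ((hS₁ u).1 hu).2
    obtain ⟨h4, h5, -, h6⟩ := hal' u h2
    have h7 : al' u = 0 := by
      rcases h4.eq_or_lt with h8 | h8
      · exact h8.symm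
      · exfalso
        apply hne
        rw [hgi u ((hS₁ u).1 hu).2 (hh'.sp u h2 (h6.1 h8)),
          hgi u₁ (hT.mul u₁ hu₁) hj'u₁]
    refine ⟨α, hα, ?_⟩
    rw [← h5, h7, h1, zero_smul]
    abel
  have hinj1 : Set.InjOn m (S \ S₁ : Finset ι) := by
    intro v hv v' hv' hvv
    rw [← hM.inv v (hdv v hv), ← hM.inv v' (hdv v' hv'), hvv]
  have hinj2 : ∀ u ∈ S₁, ∀ u' ∈ S₁, m' u = m' u' → u = u' := by
    intro u hu u' hu' huu
    rw [← hM'.inv u (hdi u ((hS₁ u).1 hu).2), ← hM'.inv u' (hdi u' ((hS₁ u').1 hu').2), huu]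
  by_cases hmem : m' u₁ ∈ (S \ S₁).image m
  · obtain ⟨v₂, hv₂, h1⟩ := Finset.mem_image.1 hmem
    have h2 := hUm v₂ hv₂
    rw [h1, hown.2.1, Finset.mem_singleton] at h2
    have h3 : Spec c T (j v₂) := by
      refine ⟨u₁, hu₁, ?_⟩
      rw [h2, hM'.val u₁ (hdi u₁ (hT.mul u₁ hu₁))]
      exact one_ne_zero
    rw [← hh.sp v₂ (hdv v₂ hv₂) h3, h2, hj'u₁]
  · exfalso
    have hsub : insert (m' u₁) ((S \ S₁).image m ∪ (S₁.erase u₁).image m') ⊆
        Alive c N O (T₀ ∪ S) := by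
      intro w hw
      rw [Finset.mem_insert, Finset.mem_union, Finset.mem_image, Finset.mem_image] at hw
      rw [mem_Alive, mO]
      rcases hw with rfl | ⟨v, hv, rfl⟩ | ⟨u, hu, rfl⟩
      · refine ⟨?_, ⟨_, hown.mem⟩⟩
        obtain ⟨α, hα, h1⟩ := hT.mul u₁ hu₁
        obtain ⟨h4, h5, -, -⟩ := hal' u₁ (hdi u₁ (hT.mul u₁ hu₁))
        refine ⟨α, al' u₁, hα.le, h4, Or.inl hα, ?_⟩
        rw [← h5, h1]
        abel
      · refine ⟨?_, ⟨_, hUm v hv⟩⟩
        obtain ⟨α, β, h1, h2, h3⟩ := hA₁ v hv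
        exact ⟨α, β, h1, h2.le, Or.inr h2, h3⟩
      · refine ⟨?_, ⟨_, hUm' u (Finset.mem_of_mem_erase hu)⟩⟩
        obtain ⟨α, h1, h2⟩ := hA₂ u hu
        exact ⟨α, 0, h1.le, le_rfl, Or.inl h1, by rw [h2, zero_smul, add_zero]⟩
    have hdisj : Disjoint ((S \ S₁).image m) ((S₁.erase u₁).image m') := by
      rw [Finset.disjoint_left]
      intro w hw hw'
      obtain ⟨v, hv, rfl⟩ := Finset.mem_image.1 hw
      obtain ⟨u, hu, h1⟩ := Finset.mem_image.1 hw'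
      obtain ⟨α, β, -, h3, h4⟩ := hA₁ v hv
      obtain ⟨α', h5, h6⟩ := hA₂ u hu
      rw [h1] at h6
      have h7 := ph2_cf1 hd (a := α) (b := β) (a' := α') (b' := 0)
        (by rw [zero_smul, add_zero, ← h4, ← h6])
      linarith [h7.2]
    have hnot : m' u₁ ∉ (S \ S₁).image m ∪ (S₁.erase u₁).image m' := by
      rw [Finset.mem_union]
      rintro (h1 | h1)
      · exact hmem h1
      · obtain ⟨u, hu, h2⟩ := Finset.mem_image.1 h1
        obtain ⟨h3, h4⟩ := Finset.mem_erase.1 hu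
        exact h3 (hinj2 u h4 u₁ hu₁S₁ h2)
    have h1 := Finset.card_le_card hsub
    rw [Finset.card_insert_of_notMem hnot, Finset.card_union_of_disjoint hdisj,
      Finset.card_image_of_injOn hinj1,
      Finset.card_image_of_injOn (fun u hu u' hu' huu => hinj2 u (Finset.mem_of_mem_erase hu) u'
        (Finset.mem_of_mem_erase hu') huu), Finset.card_erase_of_mem hu₁S₁,
      Finset.card_sdiff_of_subset hS₁S] at h1
    have h2 : 0 < S₁.card := Finset.card_pos.2 ⟨u₁, hu₁S₁⟩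
    have h3 := Finset.card_le_card hS₁S
    omega

end MPb07157.EX
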