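import Pool.Agent.Lib.MP_b07157_ag.EX.PCoord
import Pool.Agent.Lib.MP_b07157_ag.EX.Line

/-!
# The plane system of a system of dimension two
-/

namespace MPb07157.EX

open Finset Module

variable {ι κ : Type} [Fintype ι] [DecidableEq ι] [DecidableEq κ]
variable {c : κ → ι → ℕ} {N C : Finset κ} {A : Set (ι → ℚ)} {V : Submodule ℚ (ι → ℚ)}
  {T R : Finset ι} {p η₁ η₂ : ι → ℚ} {s : F} {m : ι → ι} {j : ι → κ}

/-- Translation of the definitions (`Coord.cut_one`). -/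
theorem mt_iff (h : Coord A V p η₁ η₂) (hne : R.Nonempty) (hs : s.2 ≠ 0)
    (hR : ∀ f ∈ R, ∃ α : ℚ, 0 < α ∧ Dp p η₁ η₂ f = α • s) :
    Mt c N C (Dp p η₁ η₂) T R s ↔ Q0 c N C (cutA A R) (T ∪ R) := by
  constructor
  · intro hM w hw k
    obtain ⟨β, hβ⟩ := (h.cut_one hne hs hR w).1 hw
    exact hM.q w β hβ k
  · intro hQ
    exact ⟨hne, hs, hR, fun w β hβ k => hQ w ((h.cut_one hne hs hR w).2 ⟨β, hβ⟩) k⟩

/-- Translation of the definitions (`Coord.cut_nc`). -/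
theorem pmd_iff (h : Coord A V p η₁ η₂) (hne : R.Nonempty) (hs : s.2 ≠ 0)
    (hR : ∀ f ∈ R, ∃ α : ℚ, 0 < α ∧ Dp p η₁ η₂ f = α • s) :
    PMD c N (Dp p η₁ η₂) T R s m j ↔ PM c N (cutV V R) (T ∪ R) m j := by
  have e : ∀ v, NC (cutV V R) v ↔ det s (Dp p η₁ η₂ v) ≠ 0 := h.cut_nc hne hs hR
  constructor
  · intro H
    exact ⟨fun v hv => (e _).2 (H.nc v ((e v).1 hv)), fun v hv => H.inv v ((e v).1 hv),
      fun v hv => H.ne v ((e v).1 hv), fun v hv => H.jm v ((e v).1 hv),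
      fun v hv => H.mem v ((e v).1 hv), fun v hv => H.val v ((e v).1 hv),
      fun v hv => H.supp v ((e v).1 hv)⟩
  · intro H
    exact ⟨fun v hv => (e _).1 (H.nc v ((e v).2 hv)), fun v hv => H.inv v ((e v).2 hv),
      fun v hv => H.ne v ((e v).2 hv), fun v hv => H.jm v ((e v).2 hv),
      fun v hv => H.mem v ((e v).2 hv), fun v hv => H.val v ((e v).2 hv),
      fun v hv => H.supp v ((e v).2 hv)⟩

/-- From the line theorem (`line_exists`, `line_unique`, `line_reach`, `line_isolate`) for the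
system `hS.cut (h.r1 ..).acy` of dimension one, with `ξ = σ • det s (D e)` as direction. -/
theorem psys_of (hS : Sys c N C A V T) (h2 : finrank ℚ V = 2) (h : Coord A V p η₁ η₂) :
    PSys c N C (Dp p η₁ η₂) T := by
  have rk : ∀ {R : Finset ι} {s : F}, Mt c N C (Dp p η₁ η₂) T R s →
      finrank ℚ (cutV V R) = 1 := by
    intro R s hM
    have := (h.r1 hM.ne hM.s2 hM.mul).rk
    omega
  have sy : ∀ {R : Finset ι} {s : F}, Mt c N C (Dp p η₁ η₂) T R s →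
      Sys c N C (cutA A R) (cutV V R) (T ∪ R) := fun hM =>
    hS.cut (h.r1 hM.ne hM.s2 hM.mul).acy
  have hq : ∀ {R : Finset ι} {s : F}, Mt c N C (Dp p η₁ η₂) T R s →
      Q0 c N C (cutA A R) (T ∪ R) := fun hM => (mt_iff h hM.ne hM.s2 hM.mul).1 hM
  have hξ : ∀ {R : Finset ι} {s : F}, Mt c N C (Dp p η₁ η₂) T R s → ∀ σ : ℚ,
      (fun e => σ * det s (Dp p η₁ η₂ e)) ∈ cutV V R := fun hM σ =>
    (h.mem_cut hM.ne hM.s2 hM.mul _).2 ⟨σ, fun _ => rfl⟩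
  refine ⟨hS.sub, ?_, ?_, ?_, ?_, ?_, ?_⟩
  · intro f hf
    exact Prod.ext (hS.zero p h.pA f hf)
      (Prod.ext (hS.zeroV h.h1 f hf) (hS.zeroV h.h2 f hf))
  · intro k hk
    refine Prod.ext ?_ (Prod.ext ?_ ?_)
    · rw [Prod.fst_sum]
      exact hS.col k hk p h.pA
    · rw [Prod.snd_sum, Prod.fst_sum]
      exact hS.colV hk h.h1
    · rw [Prod.snd_sum, Prod.snd_sum]
      exact hS.colV hk h.h2
  · intro R s hM
    obtain ⟨m, j, h1, h3⟩ := line_exists (sy hM) (rk hM) (hq hM)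
    exact ⟨m, j, (pmd_iff h hM.ne hM.s2 hM.mul).2 h1,
      fun v hv => h3 v ((h.cut_nc hM.ne hM.s2 hM.mul v).2 hv)⟩
  · intro R s hM m j m' j' h1 h3 v hv
    exact line_unique (sy hM) (rk hM) (hq hM) ((pmd_iff h hM.ne hM.s2 hM.mul).1 h1)
      ((pmd_iff h hM.ne hM.s2 hM.mul).1 h3) v ((h.cut_nc hM.ne hM.s2 hM.mul v).2 hv)
  · intro R s hM m j h1 z σ hz S' hne hS'
    obtain ⟨x, hx, hxe⟩ := h.cut_pt hM.mul hz
    exact line_reach (sy hM) (rk hM) (hq hM) ((pmd_iff h hM.ne hM.s2 hM.mul).1 h1) hx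
      (hξ hM σ) hne fun e he => ⟨(hxe e).trans (hS' e he).1, (hS' e he).2⟩
  · intro R s hM m j h1 z σ hz V' O' hV' hO' hcard v hv
    obtain ⟨x, hx, hxe⟩ := h.cut_pt hM.mul hz
    exact line_isolate (sy hM) (rk hM) (hq hM) ((pmd_iff h hM.ne hM.s2 hM.mul).1 h1) hx
      (hξ hM σ) (fun e he => ⟨(hxe e).trans (hV' e he).1, (hV' e he).2⟩) hO' hcard hv

end MPb07157.EX
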