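import Pool.Agent.Lib.MP_b07157_ag.EX.PSysOf
import Pool.Agent.Lib.MP_b07157_ag.EX.PH
import Pool.Agent.Lib.MP_b07157_ag.EX.BaseExt

/-!
# The plane theorem (memo section 2)
-/

namespace MPb07157.EX

open Finset Module

variable {ι κ : Type} [Fintype ι] [DecidableEq ι] [DecidableEq κ]
variable {c : κ → ι → ℕ} {N C : Finset κ} {A : Set (ι → ℚ)} {V : Submodule ℚ (ι → ℚ)}
  {T R : Finset ι} {J : Finset κ}

/-- PLANE THEOREM, case (b). -/
theorem plane (hS : Sys c N C A V T) (h2 : finrank ℚ V = 2) (hR : R1 A V R)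
    (hJ : Full c N C 0 (cutA A R) (cutV V R) (T ∪ R) J) {k : κ} (hk : k ∈ J) {b : ι} (hb : b ∈ R)
    (hkb : c k b ≠ 0) :
    (c k b = 1 ∧ (∀ f ∈ R, c k f ≠ 0 → f = b) ∧ ∀ y ∈ J, y ≠ k → ∀ f ∈ R, c y f = 0) ∧
      ∃ M : Finset κ, (∀ k ∈ M, k ∈ C ∧ PairIn c T (Gam V R) k) ∧ Full c N C 1 A V T (J ∪ M) := by
  classical
  obtain ⟨p, η₁, η₂, hc⟩ := exists_coord hS h2
  have hP := psys_of hS h2 hc
  set D := Dp p η₁ η₂ with hD
  obtain ⟨s₀, hs₀, hRs⟩ := hc.exists_s hR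
  have hne := hR.nonempty
  have hT : Mt c N C D T R s₀ := (mt_iff hc hne hs₀ hRs).2 hJ.2
  have hS' := hS.cut hR.acy
  obtain ⟨m, j, hM0, hjJ, hJj⟩ := pm_of_fam hS' hJ.1.dim (J := J)
    ⟨hJ.1.sub.trans hS.sub, hJ.1.zo, hJ.1.nc, hJ.1.cov, hJ.1.dj⟩ (by
      have := hJ.1.num
      omega)
  have hM : PMD c N D T R s₀ m j := (pmd_iff hc hne hs₀ hRs).2 hM0
  have hnc : ∀ e, NC (cutV V R) e ↔ det s₀ (D e) ≠ 0 := hc.cut_nc hne hs₀ hRs
  have hnV : ∀ e, NC V e ↔ (D e).2 ≠ 0 := hc.nc_iff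
  have hbT : ∀ f ∈ R, f ∉ T := fun f hf hfT => Finset.disjoint_left.1 (hR.disj hS) hf hfT
  obtain ⟨v₀, hv₀, hjv₀⟩ := hJj k hk
  have hdv₀ : det s₀ (D v₀) ≠ 0 := (hnc v₀).1 hv₀
  have hsp₀ : Spec c R (j v₀) := ⟨b, hb, by rw [hjv₀]; exact hkb⟩
  -- a second class
  obtain ⟨T₂, s₂, hT₂, hd₂⟩ : ∃ T₂ s₂, Mt c N C D T T₂ s₂ ∧ det s₀ s₂ ≠ 0 := by
    by_contra hcon
    push Not at hcon
    obtain ⟨l, hl⟩ := kap_spec hP hT hM hdv₀ hsp₀
    apply hl
    have hφ : det s₀ (D v₀ + l • s₀) ≠ 0 := by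
      rw [det_add_right, det_smul_right, det_self, mul_zero, add_zero]
      exact hdv₀
    refine kap_nonbad hP hT (det_ne_zero_right hφ) fun T' s' hT' => ?_
    obtain ⟨a, ha⟩ := exists_smul_of_det hs₀ (hcon T' s' hT')
    have ha0 : a ≠ 0 := by
      rintro rfl
      rw [zero_smul] at ha
      exact hT'.s2 ha
    have h1 : det s' (D v₀ + l • s₀) = a * det s₀ (D v₀ + l • s₀) := by
      unfold det
      rw [ha]
      simp only [Prod.smul_fst, Prod.smul_snd, smul_eq_mul]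
      ring
    rw [h1]
    exact mul_ne_zero ha0 hφ
  obtain ⟨s1, hs1, ⟨a, ha, hsa⟩, -⟩ := exists_tri0 hP hT hT₂ hd₂
  obtain ⟨a', ha', K, htri⟩ := exists_tri hs1 hP
  set s : Fin 3 → F := fun i => a' • s1 i with hs
  have hs00 : s 0 = (a' * a) • s₀ := by rw [hs]; simp only [hsa, smul_smul]
  have haa : 0 < a' * a := mul_pos ha' ha
  have hTs : Mt c N C D T R (s 0) := by rw [hs00]; exact hT.smul haa
  have hMs : PMD c N D T R (s 0) m j := by rw [hs00]; exact hM.smul haa.ne'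
  have hdet0 : ∀ e, det (s 0) (D e) ≠ 0 ↔ det s₀ (D e) ≠ 0 := fun e => by
    rw [hs00, det_smul_left]
    exact ⟨fun h1 h2 => h1 (by rw [h2, mul_zero]), fun h1 => mul_ne_zero haa.ne' h1⟩
  obtain ⟨x, g, hx, hhas⟩ := htri.exists_x hP
  have hhR := hhas 0 R m j hTs hMs
  have hkx : k = x := by rw [← hjv₀]; exact hhR.sp v₀ ((hdet0 v₀).2 hdv₀) hsp₀
  subst hkx
  -- elements of the triple
  have hgi : ∀ e, c k e ≠ 0 → e ∉ T → det (s 0) (D e) = 0 → e = g 0 := by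
    intro e he heT hed
    rcases hx.supp e he with h1 | ⟨i, h1⟩
    · exact absurd h1 heT
    · by_cases hi : i = 0
      · rw [h1, hi]
      · exfalso
        apply htri.dt 0 i (Ne.symm hi)
        rw [← hx.ty i, ← h1]
        exact hed
  have hR0 : ∀ f ∈ R, det (s 0) (D f) = 0 := by
    intro f hf
    obtain ⟨α, -, hα⟩ := hTs.mul f hf
    rw [hα, det_smul_right, det_self, mul_zero]
  have hbg : b = g 0 := hgi b hkb (hbT b hb) (hR0 b hb)
  have hkb1 : c k b = 1 := by rw [hbg]; exact hx.val 0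
  have hA2 : ∀ f ∈ R, c k f ≠ 0 → f = b := fun f hf hkf => by
    rw [hbg]; exact hgi f hkf (hbT f hf) (hR0 f hf)
  have hA3 : ∀ y ∈ J, y ≠ k → ∀ f ∈ R, c y f = 0 := by
    intro y hy hyk f hf
    by_contra hcon
    obtain ⟨v, hv, hjv⟩ := hJj y hy
    apply hyk
    rw [← hjv]
    exact hhR.sp v ((hdet0 v).2 ((hnc v).1 hv)) ⟨f, hf, by rw [hjv]; exact hcon⟩
  refine ⟨⟨hkb1, hA2, hA3⟩, ?_⟩
  -- the pairs in the class of `R`
  obtain ⟨T1, hT1⟩ := htri.mt 1
  obtain ⟨m1, j1, hM1, hC1⟩ := hP.ex _ _ hT1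
  have hh1 := hhas 1 T1 m1 j1 hT1 hM1
  obtain ⟨α1, hα1⟩ := exists_al hP hT1 hM1
  have hpar : ∀ e, (D e).2 ≠ 0 → det (s 0) (D e) = 0 → ∀ i, i ≠ 0 → det (s i) (D e) ≠ 0 := by
    intro e he h0 i hi
    obtain ⟨r, hr⟩ := exists_smul_of_det hTs.s2 h0
    have hr0 : r ≠ 0 := by
      rintro rfl
      rw [zero_smul] at hr
      exact he hr
    have h1 : det (s i) (D e) = r * det (s i) (s 0) := by
      unfold det
      rw [hr]
      simp only [Prod.smul_fst, Prod.smul_snd, smul_eq_mul]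
      ring
    rw [h1]
    exact mul_ne_zero hr0 (htri.dt i 0 hi)
  have hpair : ∀ e, (D e).2 ≠ 0 → det (s 0) (D e) = 0 → e ≠ b →
      (∀ e', c (j1 e) e' ≠ 0 → e' ∈ T ∨ e' = e ∨ e' = m1 e) ∧ D (m1 e) = o - D e ∧ m1 e ≠ b := by
    intro e he h0 heb
    have h1 := hpar e he h0 1 (by decide)
    have heT : e ∉ T := fun heT => he (by rw [hP.zero e heT]; rfl)
    have h2 : j1 e ≠ k := by
      intro h2
      apply heb
      rw [hbg]
      refine hgi e ?_ heT h0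
      rw [← h2, hM1.val e h1]
      exact one_ne_zero
    have h3 : ¬ Spec c T1 (j1 e) := fun h3 => h2 (hh1.sp e h1 h3)
    obtain ⟨hα0, hα2, -, hα3⟩ := hα1 e h1
    have h4 : α1 e = 0 := le_antisymm (not_lt.1 fun h4 => h3 (hα3.1 h4)) hα0
    rw [h4, zero_smul, add_zero] at hα2
    refine ⟨fun e' he' => ?_, (eq_sub_of_add_eq' hα2), fun h5 => ?_⟩
    · rcases hM1.supp e h1 e' he' with h5 | h5
      · rcases Finset.mem_union.1 h5 with h6 | h6
        · exact Or.inl h6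
        · exact absurd ⟨e', h6, he'⟩ h3
      · exact Or.inr h5
    · apply h2
      rw [← hM1.jm e h1, h5, hbg]
      exact hh1.jg 0 (by decide)
  set M : Finset κ := ((NCs V).filter fun e => det (s 0) (D e) = 0 ∧ e ≠ b).image j1 with hMdef
  have hmemM : ∀ y, y ∈ M ↔ ∃ e, ((D e).2 ≠ 0 ∧ det (s 0) (D e) = 0 ∧ e ≠ b) ∧ j1 e = y := by
    intro y
    rw [hMdef, Finset.mem_image]
    refine exists_congr fun e => and_congr ?_ Iff.rfl
    rw [Finset.mem_filter]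
    unfold NCs
    rw [Finset.mem_filter, hnV e]
    simp only [Finset.mem_univ, true_and]
  have hGam : ∀ e, (D e).2 ≠ 0 → det (s 0) (D e) = 0 → Gam V R e := fun e he h0 =>
    ⟨(hnV e).2 he, fun h => (hdet0 e).2 ((hnc e).1 h) h0⟩
  have hGam' : ∀ e, Gam V R e → (D e).2 ≠ 0 ∧ det (s 0) (D e) = 0 := fun e he =>
    ⟨(hnV e).1 he.1, by
      by_contra h0
      exact he.2 ((hnc e).2 ((hdet0 e).1 h0))⟩
  have hMC : ∀ y ∈ M, y ∈ C ∧ PairIn c T (Gam V R) y := by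
    intro y hy
    obtain ⟨e, ⟨he, h0, heb⟩, rfl⟩ := (hmemM y).1 hy
    have h1 := hpar e he h0 1 (by decide)
    obtain ⟨h2, h3, h4⟩ := hpair e he h0 heb
    have h5 : (D (m1 e)).2 ≠ 0 := by
      rw [h3]
      intro h5
      apply he
      have : (o - D e).2 = -(D e).2 := by simp [o]
      rw [this, neg_eq_zero] at h5
      exact h5
    have h6 : det (s 0) (D (m1 e)) = 0 := by
      rw [h3, det_sub_right, det_o_right, h0, sub_zero]
    refine ⟨hC1 e h1, e, m1 e, (hM1.ne e h1).symm, hGam e he h0, hGam _ h5 h6, hM1.val e h1, ?_, h2⟩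
    have := hM1.val (m1 e) (hM1.nc e h1)
    rwa [hM1.jm e h1] at this
  have hBase : Base c C 2 V T (J ∪ M) := by
    refine base_ext hS hR hJ.1 hk hb hkb1 hA2 hA3 hMC ?_ ?_ ?_
    · intro y hy
      obtain ⟨e, ⟨he, h0, heb⟩, rfl⟩ := (hmemM y).1 hy
      obtain ⟨h2, h3, h4⟩ := hpair e he h0 heb
      by_contra hcon
      rcases h2 b hcon with h5 | h5 | h5
      · exact hbT b hb h5
      · exact heb h5.symm
      · exact h4 h5.symm
    · intro y hy y' hy' e'' he''T hy1 hy2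
      obtain ⟨e, ⟨he, h0, heb⟩, rfl⟩ := (hmemM y).1 hy
      obtain ⟨e', ⟨he', h0', heb'⟩, rfl⟩ := (hmemM y').1 hy'
      obtain ⟨h2, -, -⟩ := hpair e he h0 heb
      obtain ⟨h2', -, -⟩ := hpair e' he' h0' heb'
      have h1 := hpar e he h0 1 (by decide)
      have h1' := hpar e' he' h0' 1 (by decide)
      have e1 : j1 e = j1 e'' := by
        rcases h2 e'' hy1 with h5 | h5 | h5
        · exact absurd h5 he''T
        · rw [h5]
        · rw [h5, hM1.jm e h1]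
      have e2 : j1 e' = j1 e'' := by
        rcases h2' e'' hy2 with h5 | h5 | h5
        · exact absurd h5 he''T
        · rw [h5]
        · rw [h5, hM1.jm e' h1']
      rw [e1, e2]
    · intro e he heb
      obtain ⟨h1, h2⟩ := hGam' e he
      refine ⟨j1 e, (hmemM _).2 ⟨e, ⟨h1, h2, heb⟩, rfl⟩, ?_⟩
      rw [hM1.val e (hpar e h1 h2 1 (by decide))]
      exact one_ne_zero
  refine ⟨M, hMC, hBase, ?_⟩
  -- the matched sets of the three classes
  have hex : ∀ i : Fin 3, ∃ Ti mi ji, Mt c N C D T Ti (s i) ∧ PMD c N D T Ti (s i) mi ji ∧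
      ∀ v, det (s i) (D v) ≠ 0 → ji v ∈ C := by
    intro i
    obtain ⟨Ti, hTi⟩ := htri.mt i
    obtain ⟨mi, ji, h1, h2⟩ := hP.ex _ _ hTi
    exact ⟨Ti, mi, ji, hTi, h1, h2⟩
  choose Ti mi ji hTi hMi hCi using hex
  set Ji : Fin 3 → Finset κ := fun i => (NCs (cutV V (Ti i))).image (ji i) with hJi
  have hnci : ∀ i e, NC (cutV V (Ti i)) e ↔ det (s i) (D e) ≠ 0 := fun i e =>
    hc.cut_nc (hTi i).ne (hTi i).s2 (hTi i).mul e
  have hR1i : ∀ i, R1 A V (Ti i) := fun i => hc.r1 (hTi i).ne (hTi i).s2 (hTi i).mul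
  have hmemJi : ∀ i y, y ∈ Ji i ↔ ∃ e, det (s i) (D e) ≠ 0 ∧ ji i e = y := by
    intro i y
    rw [hJi, Finset.mem_image]
    refine exists_congr fun e => and_congr ?_ Iff.rfl
    unfold NCs
    rw [Finset.mem_filter, hnci i e]
    simp only [Finset.mem_univ, true_and]
  have hFull : ∀ i, Full c N C 0 (cutA A (Ti i)) (cutV V (Ti i)) (T ∪ Ti i) (Ji i) := by
    intro i
    refine ⟨base_of_pm (hS.cut (hR1i i).acy) ?_ ((pmd_iff hc (hTi i).ne (hTi i).s2
      (hTi i).mul).1 (hMi i)) fun v hv => hCi i v ((hnci i v).1 hv), (mt_iff hc (hTi i).ne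
      (hTi i).s2 (hTi i).mul).1 (hTi i)⟩
    have := (hR1i i).rk
    omega
  have heqR : ∀ i e, det (s i) (D e) ≠ 0 → det (s 0) (D e) ≠ 0 → ji i e = j e := fun i e h1 h2 =>
    (htri.pair_eq hP hx (hTi i) (hMi i) (hhas i _ _ _ (hTi i) (hMi i)) hTs hMs hhR h1 h2).1
  have heq1 : ∀ i e, det (s i) (D e) ≠ 0 → det (s 1) (D e) ≠ 0 → ji i e = j1 e := fun i e h1 h2 =>
    (htri.pair_eq hP hx (hTi i) (hMi i) (hhas i _ _ _ (hTi i) (hMi i)) hT1 hM1 hh1 h1 h2).1
  have hsubJi : ∀ i, Ji i ⊆ J ∪ M := by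
    intro i y hy
    obtain ⟨e, he, rfl⟩ := (hmemJi i y).1 hy
    rw [Finset.mem_union]
    by_cases h0 : det (s 0) (D e) = 0
    · by_cases heb : e = b
      · left
        have hi0 : i ≠ 0 := by
          rintro rfl
          exact he h0
        rw [heb, hbg, (hhas i _ _ _ (hTi i) (hMi i)).jg 0 (Ne.symm hi0)]
        exact hk
      · right
        have h2 := det_ne_zero_right he
        rw [heq1 i e he (hpar e h2 h0 1 (by decide))]
        exact (hmemM _).2 ⟨e, ⟨h2, h0, heb⟩, rfl⟩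
    · left
      rw [heqR i e he h0]
      exact hjJ e ((hnc e).2 ((hdet0 e).1 h0))
  have hbad : ∀ y ∈ J ∪ M, ∃ i₁ : Fin 3, ∀ i, i ≠ i₁ → y ∈ Ji i := by
    intro y hy
    rcases Finset.mem_union.1 hy with hy | hy
    · obtain ⟨e, he, rfl⟩ := hJj y hy
      have he0 : det (s 0) (D e) ≠ 0 := (hdet0 e).2 ((hnc e).1 he)
      by_cases h1 : ∃ i₁, det (s i₁) (D e) = 0
      · obtain ⟨i₁, hi₁⟩ := h1
        refine ⟨i₁, fun i hi => (hmemJi i _).2 ⟨e, ?_, ?_⟩⟩
        · intro h2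
          have h3 := exists_smul_of_det (hTi i₁).s2 hi₁
          obtain ⟨r, hr⟩ := h3
          have hr0 : r ≠ 0 := by
            rintro rfl
            rw [zero_smul] at hr
            exact det_ne_zero_right he0 hr
          apply htri.dt i i₁ hi
          have h4 : det (s i) (D e) = r * det (s i) (s i₁) := by
            unfold det
            rw [hr]
            simp only [Prod.smul_fst, Prod.smul_snd, smul_eq_mul]
            ring
          rw [h4] at h2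
          exact (mul_eq_zero.1 h2).resolve_left hr0
        · refine heqR i e ?_ he0
          intro h2
          obtain ⟨r, hr⟩ := exists_smul_of_det (hTi i₁).s2 hi₁
          have hr0 : r ≠ 0 := by
            rintro rfl
            rw [zero_smul] at hr
            exact det_ne_zero_right he0 hr
          apply htri.dt i i₁ hi
          have h4 : det (s i) (D e) = r * det (s i) (s i₁) := by
            unfold det
            rw [hr]
            simp only [Prod.smul_fst, Prod.smul_snd, smul_eq_mul]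
            ring
          rw [h4] at h2
          exact (mul_eq_zero.1 h2).resolve_left hr0
      · push Not at h1
        exact ⟨0, fun i _ => (hmemJi i _).2 ⟨e, h1 i, heqR i e (h1 i) he0⟩⟩
    · obtain ⟨e, ⟨h2, h0, heb⟩, rfl⟩ := (hmemM y).1 hy
      refine ⟨0, fun i hi => (hmemJi i _).2 ⟨e, hpar e h2 h0 i hi, heq1 i e (hpar e h2 h0 i hi)
        (hpar e h2 h0 1 (by decide))⟩⟩
  intro x₁ hx₁ y₁ hy₁
  obtain ⟨i₁, hi₁⟩ := hbad x₁ hx₁
  obtain ⟨i₂, hi₂⟩ := hbad y₁ hy₁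
  have hfin : ∀ a b : Fin 3, ∃ i, i ≠ a ∧ i ≠ b := by decide
  obtain ⟨i, h1, h2⟩ := hfin i₁ i₂
  exact ⟨Ti i, Ji i, hR1i i, hsubJi i, hi₁ i h1, hi₂ i h2, hFull i⟩

end MPb07157.EX
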